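import Pool.Agent.Lib.MP_634427_lc.Data

/-! # Polynomial time: more functions on lists, trees and numbers -/

namespace Pool.Agent.Lib.MP_be4430_lc

open MP_634427_lc

variable {α β γ : Type} [Enc α] [Enc β] [Enc γ]

theorem pt_mem [DecidableEq α] (hα : Function.Injective (enc : α → BT)) {a : γ → α}
    {l : γ → List α} (ha : PT a) (hl : PT l) : PT fun c => decide (a c ∈ l c) := by
  have h := PT.any (p := fun c b => decide (a c = b)) hl
    (PT.eqDec hα (ha.comp PT.fst) PT.snd)
  refine h.of_eq fun c => ?_
  rw [Bool.eq_iff_iff]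
  simp

theorem pt_idxOf [DecidableEq α] (hα : Function.Injective (enc : α → BT)) {a : γ → α}
    {l : γ → List α} (ha : PT a) (hl : PT l) : PT fun c => (l c).idxOf (a c) := by
  have h := PT.foldr_add (f := fun c b (r : ℕ) => bif decide (b = a c) then 0 else r + 1) hl
    (PT.const (0 : ℕ))
    (PT.cond (PT.eqDec hα (PT.fst' PT.snd) (ha.comp PT.fst)) (PT.const (0 : ℕ))
      (PT.succ (PT.snd' PT.snd))) ⟨0, fun c b r _ => by
        by_cases hb : b = a c <;> simp [hb]⟩
  refine h.of_eq fun c => ?_
  induction l c with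
  | nil => rfl
  | cons b t ih =>
    rw [List.foldr_cons, ih, List.idxOf_cons]
    by_cases hb : b = a c
    · simp [hb]
    · have hb' : (b == a c) = false := by simpa using hb
      simp [hb, hb']

end Pool.Agent.Lib.MP_be4430_lc
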