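import Pool.Agent.Lib.MP_634427_lc.Data
import Pool.Agent.Lib.MP_be4430_lc.P2y_Mem

/-! # Polynomial time: more functions on lists, trees and numbers -/

namespace Pool.Agent.Lib.MP_be4430_lc

open MP_634427_lc

variable {α β γ : Type} [Enc α] [Enc β] [Enc γ]

theorem pt_dedup [DecidableEq α] (hα : Function.Injective (enc : α → BT)) {l : γ → List α}
    (hl : PT l) : PT fun c => (l c).dedup := by
  have h := PT.foldr_add (f := fun (_ : γ) (a : α) (r : List α) =>
      bif decide (a ∈ r) then r else a :: r) hl (PT.const [])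
    (PT.cond (pt_mem hα (PT.fst' PT.snd) (PT.snd' PT.snd)) (PT.snd' PT.snd)
      (PT.cons (PT.fst' PT.snd) (PT.snd' PT.snd))) (by
      obtain ⟨k, hk⟩ := hl.size_le
      obtain ⟨k', hk'⟩ := PB.add (F := fun n => (n + 2) ^ k) ⟨k, fun n => le_rfl⟩ (PB.const 1)
      refine ⟨k', fun c a r ha => ?_⟩
      have h1 := sz_mem_le ha
      have h2 := hk c
      have h3 := hk' (sz c)
      beta_reduce at h3
      by_cases hb : a ∈ r
      · simp only [hb, decide_true, cond_true]; omega
      · simp only [hb, decide_false, cond_false, sz_cons]; omega)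
  refine h.of_eq fun c => ?_
  induction l c with
  | nil => rfl
  | cons a t ih =>
    rw [List.foldr_cons, ih]
    by_cases ha : a ∈ t
    · rw [List.dedup_cons_of_mem ha]
      have : a ∈ t.dedup := List.mem_dedup.2 ha
      simp [this]
    · rw [List.dedup_cons_of_notMem ha]
      have : a ∉ t.dedup := fun h => ha (List.mem_dedup.1 h)
      simp [this]

theorem pt_range' {s n : γ → ℕ} (hs : PT s) (hn : PT n) :
    PT fun c => List.range' (s c) (n c) := by
  have h := PT.map (f := fun c i => s c + i) (PT.range hn) (PT.add (hs.comp PT.fst) PT.snd)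
  refine h.of_eq fun c => ?_
  rw [List.range'_eq_map_range]

end Pool.Agent.Lib.MP_be4430_lc
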