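import Pool.Agent.Lib.MP_be4430_lc.P2x_Basic
import Pool.Agent.Lib.MP_be4430_lc.P2y_Mem
import Pool.Agent.Lib.MP_be4430_lc.P2z_Dedup

/-! # Polynomial time: more functions on lists, trees and numbers -/
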