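import Pool.Agent.Lib.MP_634427_lc.Data

/-! # Polynomial time: recursion on trees -/

namespace Pool.Agent.Lib.MP_be4430_lc

open MP_634427_lc

/-- recursion on trees -/
def trec {σ : Type} (s : σ) (f : BT → BT → σ → σ → σ) : BT → σ
  | .nil => s
  | .node a b => f a b (trec s f a) (trec s f b)

variable {γ σ : Type} [Enc γ] [Enc σ]

/-- Recursion on trees with polynomially bounded values is in polynomial time.  (Use
`PolyTime.recur` with the step function followed by `clamp` to the size
`(x.size + y.size + 2) ^ k`, as in `recurOn` of `MP_634427_lc.Poly`.) -/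
theorem pt_treeRec {s : γ → σ} {f : γ → BT → BT → σ → σ → σ} {t : γ → BT} (hs : PT s)
    (hf : PT fun p : γ × BT × BT × σ × σ => f p.1 p.2.1 p.2.2.1 p.2.2.2.1 p.2.2.2.2) (ht : PT t)
    (hb : ∃ k, ∀ c T, sz (trec (s c) (f c) T) ≤ (sz c + T.size + 2) ^ k) :
    PT fun c => trec (s c) (f c) (t c) := by
  obtain ⟨S, hS, h1⟩ := hs
  obtain ⟨F, hF, h2⟩ := hf
  obtain ⟨L, hL, h3⟩ := ht
  obtain ⟨k, hk⟩ := hb
  obtain ⟨c0, hc0⟩ := hS.size_le
  let G : BT → BT := fun t => F (BT.node t.left (BT.node t.right.left.left
    (BT.node t.right.left.right (BT.node t.right.right.left t.right.right.right))))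
  have hG : PolyTime G := .comp hF (.node .left (.node (.comp .left (.comp .left .right))
    (.node (.comp .right (.comp .left .right)) (.node (.comp .left (.comp .right .right))
      (.comp .right (.comp .right .right))))))
  let H : BT → BT := fun t => clamp (un (((BT.node t.left t.right.left).size + 2) ^ k)) (G t)
  have hH : PolyTime H := pt_clamp (pt_powU (.node .left (.comp .left .right)) k) hG
  have hbd : ∀ x y, (BT.recur S H x y).size ≤ (x.size + y.size + 2) ^ (c0 + 2 * k) := by
    intro x y
    cases y with
    | nil =>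
      refine (hc0 x).trans ?_
      exact (Nat.pow_le_pow_left (by omega) c0).trans (Nat.pow_le_pow_right (by omega) (by omega))
    | node a b =>
      show (clamp _ _).size ≤ _
      refine (size_clamp_le _ _).trans ?_
      simp only [size_un, BT.left_node, BT.right_node, BT.size_node]
      have h4 : x.size + (a.size + b.size + 1) + 1 + 2 ≤
          (x.size + (a.size + b.size + 1) + 2) ^ 2 := by nlinarith
      calc (x.size + (a.size + b.size + 1) + 1 + 2) ^ k
          ≤ ((x.size + (a.size + b.size + 1) + 2) ^ 2) ^ k := Nat.pow_le_pow_left h4 k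
        _ = (x.size + (a.size + b.size + 1) + 2) ^ (2 * k) := by rw [← pow_mul]
        _ ≤ (x.size + (a.size + b.size + 1) + 2) ^ (c0 + 2 * k) :=
            Nat.pow_le_pow_right (by omega) (by omega)
  have key : ∀ c T, BT.recur S H (enc c) T = enc (trec (s c) (f c) T) := by
    intro c T
    induction T with
    | nil => exact h1 c
    | node a b iha ihb =>
      show clamp (un (((BT.node (enc c) (BT.node a b)).size + 2) ^ k))
        (F (BT.node (enc c) (BT.node a (BT.node b (BT.node (BT.recur S H (enc c) a)
          (BT.recur S H (enc c) b)))))) = _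
      rw [iha, ihb]
      have h5 : F (BT.node (enc c) (BT.node a (BT.node b (BT.node
          (enc (trec (s c) (f c) a)) (enc (trec (s c) (f c) b)))))) =
          enc (trec (s c) (f c) (BT.node a b)) :=
        h2 (c, a, b, trec (s c) (f c) a, trec (s c) (f c) b)
      rw [h5]
      unfold clamp
      refine if_pos ?_
      rw [size_un]
      refine (hk c (BT.node a b)).trans (Nat.pow_le_pow_left ?_ k)
      simp only [BT.size_node, sz]
      omega
  refine ⟨_, .comp (PolyTime.recur _ hS hH hbd) (.node .id hL), fun c => ?_⟩
  show BT.recur S H (enc c) (L (enc c)) = _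
  rw [h3]
  exact key c (t c)

end Pool.Agent.Lib.MP_be4430_lc
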