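import Pool.Agent.Lib.MP_be4430_lc.Memb
import Pool.Agent.Lib.MP_be4430_lc.P2_Lists

/-! # Parsing instances -/

namespace Pool.Agent.Lib.MP_be4430_lc

open MP_634427_lc

variable {γ : Type} [Enc γ]

/-- the list of the left subtrees along the right spine -/
def toL : BT → List BT
  | .nil => []
  | .node a b => a :: toL b

theorem enc_toL (T : BT) : enc (toL T) = T := by
  induction T with
  | nil => rfl
  | node a b _ ih =>
    show BT.node a (enc (toL b)) = _
    rw [ih]

private theorem toL_enc {α : Type} [Enc α] (l : List α) : toL (enc l) = l.map enc := by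
  induction l with
  | nil => rfl
  | cons a l ih =>
    rw [enc_cons, List.map_cons, ← ih]
    rfl

theorem pt_toL {t : γ → BT} (ht : PT t) : PT fun c => toL (t c) := by
  obtain ⟨F, hF, h⟩ := ht
  refine ⟨F, hF, fun c => ?_⟩
  rw [h, enc_toL]
  rfl

/-- read an instance from a tree -/
def parseG (T : BT) : (ℕ × List (ℕ × ℕ)) × Word :=
  ((spine T.left.left, (toL T.left.right).map fun u => (spine u.left, spine u.right)),
    (toL T.right).map fun u => decide (u ≠ .nil))

theorem parseG_enc (p : (ℕ × List (ℕ × ℕ)) × Word) : parseG (enc p) = p := by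
  obtain ⟨⟨n, E⟩, w⟩ := p
  have h1 : spine (enc n) = n := spine_un n
  have h2 : (toL (enc E)).map (fun u => (spine u.left, spine u.right)) = E := by
    rw [toL_enc, List.map_map]
    refine (List.map_congr_left (g := id) fun e _ => ?_).trans (List.map_id _)
    obtain ⟨a, b⟩ := e
    show (spine (enc a), spine (enc b)) = (a, b)
    rw [enc_nat, enc_nat, spine_un, spine_un]
  have h3 : (toL (enc w)).map (fun u => decide (u ≠ .nil)) = w := by
    rw [toL_enc, List.map_map]
    refine (List.map_congr_left (g := id) fun e _ => ?_).trans (List.map_id _)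
    cases e <;> simp
  show ((spine (enc n), (toL (enc E)).map fun u => (spine u.left, spine u.right)),
    (toL (enc w)).map fun u => decide (u ≠ .nil)) = ((n, E), w)
  rw [h1, h2, h3]

theorem pt_parseG {t : γ → BT} (ht : PT t) : PT fun c => parseG (t c) := by
  have h1 : PT fun c => spine (t c).left.left := pt_spine (pt_left (pt_left ht))
  have h2 : PT fun c => (toL (t c).left.right).map fun u => (spine u.left, spine u.right) :=
    PT.map (f := fun _ u => (spine u.left, spine u.right)) (pt_toL (pt_right (pt_left ht)))
      (PT.pair (pt_spine (pt_left PT.snd)) (pt_spine (pt_right PT.snd)))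
  have h3 : PT fun c => (toL (t c).right).map fun u => decide (u ≠ .nil) :=
    PT.map (f := fun _ u => decide (u ≠ .nil)) (pt_toL (pt_right ht))
      ((PT.not (pt_eqBT PT.snd (PT.const BT.nil))).of_eq fun c => by simp)
  exact PT.pair (PT.pair h1 h2) h3

/-- is this a digraph? -/
def isDig (n : ℕ) (E : List (ℕ × ℕ)) : Bool :=
  decide (E.dedup = E) && E.all fun e => decide (e.1 < n) && decide (e.2 < n) && !decide (e.1 = e.2)

theorem isDig_iff (n : ℕ) (E : List (ℕ × ℕ)) : isDig n E = true ↔ IsDigraph n E := by
  unfold isDig IsDigraph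
  rw [Bool.and_eq_true, decide_eq_true_iff, List.dedup_eq_self, List.all_eq_true]
  refine and_congr_right fun _ => forall_congr' fun e => forall_congr' fun _ => ?_
  simp [and_assoc]

theorem pt_isDig {n : γ → ℕ} {E : γ → List (ℕ × ℕ)} (hn : PT n) (hE : PT E) :
    PT fun c => isDig (n c) (E c) := by
  have hinj : Function.Injective (enc : ℕ × ℕ → BT) :=
    enc_pair_injective enc_nat_injective enc_nat_injective
  unfold isDig
  refine PT.and (PT.eqDec (enc_list_injective hinj) (pt_dedup hinj hE) hE) ?_
  refine PT.all (p := fun c e => decide (e.1 < n c) && decide (e.2 < n c) && !decide (e.1 = e.2))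
    hE ?_
  exact PT.and (PT.and (PT.lt (PT.fst' PT.snd) (hn.comp PT.fst))
    (PT.lt (PT.snd' PT.snd) (hn.comp PT.fst))) (PT.not (PT.eqNat (PT.fst' PT.snd) (PT.snd' PT.snd)))

/-- the value of a binary number, cut off at `L`, is computable in polynomial time -/
theorem pt_minBval {w : γ → Word} {L : γ → ℕ} (hw : PT w) (hL : PT L) :
    PT fun c => min (bval (w c)) (L c) := by
  have h := PT.foldr_bdd (s := fun _ => (0 : ℕ))
    (f := fun c (b : Bool) (r : ℕ) => min ((if b then 1 else 0) + 2 * r) (L c)) hw
    (PT.const 0) (PT.min (PT.add (PT.ite ((PT.fst' PT.snd).of_eq fun p => by simp)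
      (PT.const 1) (PT.const 0)) (PT.mul (PT.const 2) (PT.snd' PT.snd))) (hL.comp PT.fst)) (by
      obtain ⟨k, hk⟩ := hL.size_le
      refine ⟨k, fun c a r _ => ?_⟩
      have := hk c
      rw [sz_nat] at this ⊢
      exact (min_le_right _ _).trans this)
  refine h.of_eq fun c => ?_
  induction w c with
  | nil => simp [bval]
  | cons b l ih =>
    rw [List.foldr_cons, ih]
    simp only [bval]
    rcases le_total (bval l) (L c) with h | h
    · rw [min_eq_left h]
    · rw [min_eq_right h, min_eq_right (by omega), min_eq_right (by omega)]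

end Pool.Agent.Lib.MP_be4430_lc
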