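import Pool.Agent.Lib.MP_be4430_lc.Basic

/-! # Counting slopes -/

namespace Pool.Agent.Lib.MP_be4430_lc

open MP_634427_lc

/-- The line with the direction `(t, 1)`. -/
private noncomputable def A1_F (t : ℝ) : Submodule ℝ (ℝ × ℝ) := Submodule.span ℝ {((t, 1) : ℝ × ℝ)}

private theorem A1_F_inj : Function.Injective A1_F := by
  intro s t h
  unfold A1_F at h
  have h1 : ((s, 1) : ℝ × ℝ) ∈ Submodule.span ℝ {((t, 1) : ℝ × ℝ)} := by
    rw [← h]
    exact Submodule.mem_span_singleton_self _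
  rw [Submodule.mem_span_singleton] at h1
  obtain ⟨c, hc⟩ := h1
  have h2 := congrArg Prod.fst hc
  have h3 := congrArg Prod.snd hc
  simp only [Prod.smul_mk, smul_eq_mul, mul_one] at h2 h3
  rw [← h2, h3, one_mul]

private theorem A1_dir (pos : ℕ → ℤ × ℤ) (e : ℕ × ℕ) (he : (pos e.1).2 < (pos e.2).2) :
    dir pos e = A1_F (sl (fun v => toR (pos v)) e.1 e.2) := by
  unfold dir A1_F sl toR
  simp only
  have hd : (0 : ℝ) < ((pos e.2).2 : ℝ) - ((pos e.1).2 : ℝ) := by
    have : ((pos e.1).2 : ℝ) < ((pos e.2).2 : ℝ) := by exact_mod_cast he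
    linarith
  have hu : IsUnit (((pos e.2).2 : ℝ) - ((pos e.1).2 : ℝ)) := isUnit_iff_ne_zero.2 hd.ne'
  rw [← Submodule.span_singleton_smul_eq hu
    (((((pos e.2).1 : ℝ) - ((pos e.1).1 : ℝ)) / (((pos e.2).2 : ℝ) - ((pos e.1).2 : ℝ)), 1) : ℝ × ℝ)]
  congr 2
  rw [Prod.smul_mk, smul_eq_mul, smul_eq_mul, mul_one, mul_div_cancel₀ _ hd.ne']
  rfl

/-- two upward edges have the same direction iff they have the same `dx/dy` -/
theorem dir_eq_iff (pos : ℕ → ℤ × ℤ) (e f : ℕ × ℕ) (he : (pos e.1).2 < (pos e.2).2)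
    (hf : (pos f.1).2 < (pos f.2).2) :
    dir pos e = dir pos f ↔ sl (fun v => toR (pos v)) e.1 e.2 = sl (fun v => toR (pos v)) f.1 f.2 := by
  rw [A1_dir pos e he, A1_dir pos f hf]
  exact A1_F_inj.eq_iff

/-- the number of directions is at most `k` iff all `dx/dy` lie in a set of at most `k` reals -/
theorem ncard_slopes_le_iff (E : List (ℕ × ℕ)) (pos : ℕ → ℤ × ℤ)
    (hup : ∀ e ∈ E, (pos e.1).2 < (pos e.2).2) (k : ℕ) :
    (slopes E pos).ncard ≤ k ↔
      ∃ S : Finset ℝ, S.card ≤ k ∧ ∀ e ∈ E, sl (fun v => toR (pos v)) e.1 e.2 ∈ S := by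
  classical
  have h1 : slopes E pos =
      A1_F '' (((E.map fun e => sl (fun v => toR (pos v)) e.1 e.2).toFinset : Finset ℝ) : Set ℝ) := by
    ext d
    unfold slopes
    rw [Set.mem_ofPred_eq, Set.mem_image]
    constructor
    · rintro ⟨e, he, rfl⟩
      refine ⟨sl (fun v => toR (pos v)) e.1 e.2, ?_, (A1_dir pos e (hup e he)).symm⟩
      rw [Finset.mem_coe, List.mem_toFinset, List.mem_map]
      exact ⟨e, he, rfl⟩
    · rintro ⟨x, hx, rfl⟩
      rw [Finset.mem_coe, List.mem_toFinset, List.mem_map] at hx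
      obtain ⟨e, he, rfl⟩ := hx
      exact ⟨e, he, (A1_dir pos e (hup e he)).symm⟩
  rw [h1, Set.ncard_image_of_injective _ A1_F_inj, Set.ncard_coe_finset]
  constructor
  · intro h
    refine ⟨_, h, fun e he => ?_⟩
    rw [List.mem_toFinset, List.mem_map]
    exact ⟨e, he, rfl⟩
  · rintro ⟨S, hS, hE⟩
    refine (Finset.card_le_card ?_).trans hS
    intro x hx
    rw [List.mem_toFinset, List.mem_map] at hx
    obtain ⟨e, he, rfl⟩ := hx
    exact hE e he

end Pool.Agent.Lib.MP_be4430_lc
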