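import Pool.Agent.Lib.MP_be4430_lc.A1_SlopeCount

/-! # The problem in terms of `GridDraw` -/

namespace Pool.Agent.Lib.MP_be4430_lc

open MP_634427_lc

private theorem A2_toR_inj {p q : ℤ × ℤ} (h : toR p = toR q) : p = q := by
  unfold toR at h
  rw [Prod.mk.injEq] at h
  exact Prod.ext (by exact_mod_cast h.1) (by exact_mod_cast h.2)

theorem isDrawing_iff (n : ℕ) (E : List (ℕ × ℕ)) (pos : ℕ → ℤ × ℤ) :
    IsDrawing n E pos ↔ DrawOn (List.range n) E (fun v => toR (pos v)) := by
  constructor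
  · intro h
    refine ⟨?_, ?_, ?_, ?_⟩
    · intro u hu v hv huv
      rw [List.mem_range] at hu hv
      exact h.inj u hu v hv (A2_toR_inj huv)
    · intro w hw e he h1 h2
      rw [List.mem_range] at hw
      exact h.clear w hw e he h1 h2
    · intro e he f hf hef z hz1 hz2
      exact h.planar e he f hf hef z ⟨hz1, hz2⟩
    · intro e he
      have := h.upward e he
      show ((pos e.1).2 : ℝ) < ((pos e.2).2 : ℝ)
      exact_mod_cast this
  · intro h
    refine ⟨?_, ?_, ?_, ?_⟩
    · intro i hi j hj hij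
      refine h.inj i (List.mem_range.2 hi) j (List.mem_range.2 hj) ?_
      show toR (pos i) = toR (pos j)
      rw [hij]
    · intro i hi e he h1 h2
      exact h.clear i (List.mem_range.2 hi) e he h1 h2
    · rintro e he f hf hef z ⟨hz1, hz2⟩
      exact h.planar e he f hf hef z hz1 hz2
    · intro e he
      have h1 : ((pos e.1).2 : ℝ) < ((pos e.2).2 : ℝ) := h.up e he
      exact_mod_cast h1

theorem gridDraw_iff (n : ℕ) (E : List (ℕ × ℕ)) (k : ℕ) :
    (∃ pos : ℕ → ℤ × ℤ, IsDrawing n E pos ∧ (slopes E pos).ncard ≤ k) ↔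
      GridDraw (List.range n) E k := by
  constructor
  · rintro ⟨pos, h1, h2⟩
    exact ⟨pos, (isDrawing_iff n E pos).1 h1, (ncard_slopes_le_iff E pos h1.upward k).1 h2⟩
  · rintro ⟨pos, h1, h2⟩
    have h3 := (isDrawing_iff n E pos).2 h1
    exact ⟨pos, h3, (ncard_slopes_le_iff E pos h3.upward k).2 h2⟩

end Pool.Agent.Lib.MP_be4430_lc
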