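import Pool.Agent.Lib.MP_be4430_lc.Basic

/-! # From rational to integer coordinates -/

namespace Pool.Agent.Lib.MP_be4430_lc

open MP_634427_lc

private theorem scale_seg {N : ℝ} (hN : N ≠ 0) (a b z : ℝ × ℝ) :
    z ∈ segment ℝ (N • a) (N • b) ↔ N⁻¹ • z ∈ segment ℝ a b := by
  constructor
  · rintro ⟨s, t, hs, ht, hst, rfl⟩
    refine ⟨s, t, hs, ht, hst, ?_⟩
    rw [smul_comm s N a, smul_comm t N b, ← smul_add, inv_smul_smul₀ hN]
  · rintro ⟨s, t, hs, ht, hst, h⟩
    refine ⟨s, t, hs, ht, hst, ?_⟩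
    rw [smul_comm s N a, smul_comm t N b, ← smul_add, h, smul_inv_smul₀ hN]

private theorem scale_den {V : Type} (vs : List V) (pos : V → ℚ × ℚ) :
    ∃ N : ℕ, 0 < N ∧ ∀ v ∈ vs, (pos v).1.den ∣ N ∧ (pos v).2.den ∣ N := by
  refine ⟨(vs.map fun v => (pos v).1.den * (pos v).2.den).prod, ?_, ?_⟩
  · apply List.prod_pos
    intro a ha
    rw [List.mem_map] at ha
    obtain ⟨v, -, rfl⟩ := ha
    exact Nat.mul_pos (pos v).1.den_pos (pos v).2.den_pos
  · intro v hv
    have h : (pos v).1.den * (pos v).2.den ∣ (vs.map fun v => (pos v).1.den * (pos v).2.den).prod :=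
      List.dvd_prod (List.mem_map_of_mem hv)
    exact ⟨(Dvd.intro _ rfl).trans h, (Dvd.intro_left _ rfl).trans h⟩

private theorem scale_num {q : ℚ} {N : ℕ} (h : q.den ∣ N) :
    ((((N : ℚ) * q).num : ℤ) : ℝ) = (N : ℝ) * (q : ℝ) := by
  obtain ⟨m, rfl⟩ := h
  have h1 : (((q.den * m : ℕ) : ℚ) * q) = ((m * q.num : ℤ) : ℚ) := by
    have h2 : (q.den : ℚ) * q = q.num := by
      rw [mul_comm]
      exact Rat.mul_den_eq_num q
    push_cast
    rw [← h2]
    ring
  have h3 : (((q.den * m : ℕ) : ℝ) * (q : ℝ)) = ((m * q.num : ℤ) : ℝ) := by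
    have h4 : (((((q.den * m : ℕ) : ℚ) * q : ℚ)) : ℝ) = ((((m * q.num : ℤ) : ℚ)) : ℝ) := by rw [h1]
    push_cast at h4 ⊢
    exact h4
  rw [h3, h1, Rat.num_intCast]

/-- Multiply all coordinates by a common denominator of the coordinates of the vertices in `vs`
(vertices outside `vs` may go anywhere). -/
theorem gridDraw_of_ratDraw {V : Type} {vs : List V} {es : List (V × V)} {k : ℕ}
    (hvs : ∀ e ∈ es, e.1 ∈ vs ∧ e.2 ∈ vs) (h : RatDraw vs es k) : GridDraw vs es k := by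
  obtain ⟨pos, hd, S, hS, hsl⟩ := h
  obtain ⟨N, hN, hdiv⟩ := scale_den vs pos
  have hN0 : (0 : ℝ) < (N : ℝ) := by exact_mod_cast hN
  have hN1 : (N : ℝ) ≠ 0 := hN0.ne'
  set p : V → ℤ × ℤ := fun v => (((N : ℚ) * (pos v).1).num, ((N : ℚ) * (pos v).2).num) with hp
  have key : ∀ v ∈ vs, toR (p v) = (N : ℝ) • qR (pos v) := by
    intro v hv
    have h1 := hdiv v hv
    rw [hp]
    unfold toR qR
    simp only [Prod.smul_mk, smul_eq_mul]
    rw [scale_num h1.1, scale_num h1.2]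
  refine ⟨p, ⟨?_, ?_, ?_, ?_⟩, S, hS, ?_⟩
  · intro u hu v hv huv
    rw [key u hu, key v hv] at huv
    exact hd.inj u hu v hv (smul_right_injective (ℝ × ℝ) hN1 huv)
  · intro w hw e he h1 h2 h3
    rw [key w hw, key e.1 (hvs e he).1, key e.2 (hvs e he).2, scale_seg hN1,
      inv_smul_smul₀ hN1] at h3
    exact hd.clear w hw e he h1 h2 h3
  · intro e he f hf hef z hz hz'
    simp only at hz hz'
    rw [key e.1 (hvs e he).1, key e.2 (hvs e he).2, scale_seg hN1] at hz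
    rw [key f.1 (hvs f hf).1, key f.2 (hvs f hf).2, scale_seg hN1] at hz'
    obtain ⟨w, hw1, hw2, hw⟩ := hd.planar e he f hf hef _ hz hz'
    have hwv : w ∈ vs := by
      rcases hw1 with rfl | rfl
      · exact (hvs e he).1
      · exact (hvs e he).2
    refine ⟨w, hw1, hw2, ?_⟩
    simp only at hw ⊢
    rw [key w hwv, ← hw, smul_inv_smul₀ hN1]
  · intro e he
    rw [key e.1 (hvs e he).1, key e.2 (hvs e he).2, Prod.smul_snd, Prod.smul_snd, smul_eq_mul,
      smul_eq_mul]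
    exact mul_lt_mul_of_pos_left (hd.up e he) hN0
  · intro e he
    have h1 := hsl e he
    have h2 : sl (fun v => toR (p v)) e.1 e.2 = sl (fun v => qR (pos v)) e.1 e.2 := by
      unfold sl
      simp only
      rw [key e.1 (hvs e he).1, key e.2 (hvs e he).2]
      simp only [Prod.smul_snd, Prod.smul_fst, smul_eq_mul]
      rw [← mul_sub, ← mul_sub, mul_div_mul_left _ _ hN1]
    rw [h2]
    exact h1

theorem gridDraw_iff_ratDraw {V : Type} {vs : List V} {es : List (V × V)} {k : ℕ}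
    (hvs : ∀ e ∈ es, e.1 ∈ vs ∧ e.2 ∈ vs) : GridDraw vs es k ↔ RatDraw vs es k := by
  constructor
  · rintro ⟨p, hd, S, hS, hsl⟩
    have h1 : (fun v => qR (((p v).1 : ℚ), ((p v).2 : ℚ))) = fun v => toR (p v) := by
      funext v
      simp [qR, toR]
    refine ⟨fun v => (((p v).1 : ℚ), ((p v).2 : ℚ)), ?_, S, hS, ?_⟩
    · rw [h1]
      exact hd
    · rw [h1]
      exact hsl
  · exact gridDraw_of_ratDraw hvs

end Pool.Agent.Lib.MP_be4430_lc
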