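import Pool.Agent.Lib.MP_be4430_lc.Basic

/-! # Renumbering the vertices -/

namespace Pool.Agent.Lib.MP_be4430_lc

open MP_634427_lc

private lemma idx_inj {V : Type} [DecidableEq V] (vs : List V) {u v : V} (hu : u ∈ vs)
    (h : vs.dedup.idxOf u = vs.dedup.idxOf v) : u = v :=
  (List.idxOf_inj (List.mem_dedup.mpr hu)).mp h

private lemma mem_num {V : Type} [DecidableEq V] (vs : List V) (es : List (V × V))
    (e' : ℕ × ℕ) : e' ∈ (num vs es).2 ↔
      ∃ e ∈ es, (vs.dedup.idxOf e.1, vs.dedup.idxOf e.2) = e' := by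
  simp only [num, List.mem_map, List.mem_dedup]

theorem isDigraph_num {V : Type} [DecidableEq V] (vs : List V) (es : List (V × V))
    (hvs : ∀ e ∈ es, e.1 ∈ vs ∧ e.2 ∈ vs ∧ e.1 ≠ e.2) :
    IsDigraph (num vs es).1 (num vs es).2 := by
  constructor
  · refine List.Nodup.map_on ?_ (List.nodup_dedup es)
    intro e he f hf h
    have he' := hvs e (List.mem_dedup.mp he)
    have h1 := (Prod.mk.injEq _ _ _ _ ▸ h : _ ∧ _)
    exact Prod.ext (idx_inj vs he'.1 h1.1) (idx_inj vs he'.2.1 h1.2)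
  · intro e' he'
    obtain ⟨e, he, rfl⟩ := (mem_num vs es e').mp he'
    obtain ⟨h1, h2, h3⟩ := hvs e he
    refine ⟨List.idxOf_lt_length_iff.mpr (List.mem_dedup.mpr h1),
      List.idxOf_lt_length_iff.mpr (List.mem_dedup.mpr h2), fun h => h3 (idx_inj vs h1 h)⟩

private lemma drawOn_map {V W : Type} (f : V → W) (vs : List V) (es : List (V × V))
    (hinj : ∀ u ∈ vs, ∀ v ∈ vs, f u = f v → u = v) (hes : ∀ e ∈ es, e.1 ∈ vs ∧ e.2 ∈ vs)
    (vs' : List W) (hvs' : ∀ w, w ∈ vs' ↔ ∃ v ∈ vs, f v = w) (es' : List (W × W))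
    (hes' : ∀ e', e' ∈ es' ↔ ∃ e ∈ es, (f e.1, f e.2) = e') (pos' : W → ℝ × ℝ)
    (pos : V → ℝ × ℝ) (hpos : ∀ v ∈ vs, pos v = pos' (f v)) :
    DrawOn vs' es' pos' ↔ DrawOn vs es pos := by
  constructor
  · intro h
    refine ⟨?_, ?_, ?_, ?_⟩
    · intro u hu v hv huv
      rw [hpos u hu, hpos v hv] at huv
      exact hinj u hu v hv (h.inj _ ((hvs' _).mpr ⟨u, hu, rfl⟩) _ ((hvs' _).mpr ⟨v, hv, rfl⟩) huv)
    · intro w hw e he h1 h2
      obtain ⟨e1, e2⟩ := hes e he
      rw [hpos w hw, hpos _ e1, hpos _ e2]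
      exact h.clear _ ((hvs' _).mpr ⟨w, hw, rfl⟩) _ ((hes' _).mpr ⟨e, he, rfl⟩)
        (fun h' => h1 (hinj _ hw _ e1 h')) (fun h' => h2 (hinj _ hw _ e2 h'))
    · intro e he g hg hne z hz hz'
      obtain ⟨e1, e2⟩ := hes e he
      obtain ⟨g1, g2⟩ := hes g hg
      rw [hpos _ e1, hpos _ e2] at hz
      rw [hpos _ g1, hpos _ g2] at hz'
      have hne' : (f e.1, f e.2) ≠ (f g.1, f g.2) := by
        intro h'
        rw [Prod.mk.injEq] at h'
        exact hne (Prod.ext (hinj _ e1 _ g1 h'.1) (hinj _ e2 _ g2 h'.2))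
      obtain ⟨w, hw1, hw2, hw3⟩ := h.planar _ ((hes' _).mpr ⟨e, he, rfl⟩) _
        ((hes' _).mpr ⟨g, hg, rfl⟩) hne' z hz hz'
      rcases hw1 with hw1 | hw1
      · refine ⟨e.1, Or.inl rfl, ?_, ?_⟩
        · rcases hw2 with hw2 | hw2
          · exact Or.inl (hinj _ e1 _ g1 (hw1.symm.trans hw2))
          · exact Or.inr (hinj _ e1 _ g2 (hw1.symm.trans hw2))
        · rw [hw3, hw1, hpos _ e1]
      · refine ⟨e.2, Or.inr rfl, ?_, ?_⟩
        · rcases hw2 with hw2 | hw2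
          · exact Or.inl (hinj _ e2 _ g1 (hw1.symm.trans hw2))
          · exact Or.inr (hinj _ e2 _ g2 (hw1.symm.trans hw2))
        · rw [hw3, hw1, hpos _ e2]
    · intro e he
      obtain ⟨e1, e2⟩ := hes e he
      rw [hpos _ e1, hpos _ e2]
      exact h.up _ ((hes' _).mpr ⟨e, he, rfl⟩)
  · intro h
    refine ⟨?_, ?_, ?_, ?_⟩
    · intro u' hu' v' hv' huv
      obtain ⟨u, hu, rfl⟩ := (hvs' _).mp hu'
      obtain ⟨v, hv, rfl⟩ := (hvs' _).mp hv'
      rw [← hpos u hu, ← hpos v hv] at huv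
      rw [h.inj u hu v hv huv]
    · intro w' hw' e' he' h1 h2
      obtain ⟨w, hw, rfl⟩ := (hvs' _).mp hw'
      obtain ⟨e, he, rfl⟩ := (hes' _).mp he'
      obtain ⟨e1, e2⟩ := hes e he
      simp only at h1 h2 ⊢
      rw [← hpos w hw, ← hpos _ e1, ← hpos _ e2]
      exact h.clear w hw e he (fun h' => h1 (by rw [h'])) (fun h' => h2 (by rw [h']))
    · intro e' he' g' hg' hne z hz hz'
      obtain ⟨e, he, rfl⟩ := (hes' _).mp he'
      obtain ⟨g, hg, rfl⟩ := (hes' _).mp hg'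
      obtain ⟨e1, e2⟩ := hes e he
      obtain ⟨g1, g2⟩ := hes g hg
      simp only at hz hz' ⊢
      rw [← hpos _ e1, ← hpos _ e2] at hz
      rw [← hpos _ g1, ← hpos _ g2] at hz'
      have hne' : e ≠ g := fun h' => hne (by rw [h'])
      obtain ⟨w, hw1, hw2, hw3⟩ := h.planar e he g hg hne' z hz hz'
      have hwv : w ∈ vs := by
        rcases hw1 with hw1 | hw1
        · rw [hw1]; exact e1
        · rw [hw1]; exact e2
      refine ⟨f w, ?_, ?_, ?_⟩
      · rcases hw1 with hw1 | hw1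
        · exact Or.inl (by rw [hw1])
        · exact Or.inr (by rw [hw1])
      · rcases hw2 with hw2 | hw2
        · exact Or.inl (by rw [hw2])
        · exact Or.inr (by rw [hw2])
      · rw [hw3, hpos _ hwv]
    · intro e' he'
      obtain ⟨e, he, rfl⟩ := (hes' _).mp he'
      obtain ⟨e1, e2⟩ := hes e he
      simp only
      rw [← hpos _ e1, ← hpos _ e2]
      exact h.up e he

theorem gridDraw_num {V : Type} [DecidableEq V] (vs : List V) (es : List (V × V)) (k : ℕ)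
    (hvs : ∀ e ∈ es, e.1 ∈ vs ∧ e.2 ∈ vs ∧ e.1 ≠ e.2) :
    GridDraw (List.range (num vs es).1) (num vs es).2 k ↔ GridDraw vs es k := by
  have hn : (num vs es).1 = vs.dedup.length := rfl
  have hinj : ∀ u ∈ vs, ∀ v ∈ vs, vs.dedup.idxOf u = vs.dedup.idxOf v → u = v :=
    fun u hu v _ h => idx_inj vs hu h
  have hes : ∀ e ∈ es, e.1 ∈ vs ∧ e.2 ∈ vs := fun e he => ⟨(hvs e he).1, (hvs e he).2.1⟩
  have hvs' : ∀ w, w ∈ List.range (num vs es).1 ↔ ∃ v ∈ vs, vs.dedup.idxOf v = w := by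
    intro w
    rw [List.mem_range, hn]
    constructor
    · intro hw
      exact ⟨vs.dedup[w], List.mem_dedup.mp (List.getElem_mem hw),
        (List.nodup_dedup vs).idxOf_getElem w hw⟩
    · rintro ⟨v, hv, rfl⟩
      exact List.idxOf_lt_length_iff.mpr (List.mem_dedup.mpr hv)
  constructor
  · rintro ⟨pos', hd, S, hS, hsl⟩
    refine ⟨fun v => pos' (vs.dedup.idxOf v), ?_, S, hS, ?_⟩
    · exact (drawOn_map (fun v => vs.dedup.idxOf v) vs es hinj hes _ hvs' _ (mem_num vs es)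
        (fun i => toR (pos' i)) _ (fun v _ => rfl)).mp hd
    · intro e he
      exact hsl _ ((mem_num vs es _).mpr ⟨e, he, rfl⟩)
  · rintro ⟨pos, hd, S, hS, hsl⟩
    have hpos : ∀ v ∈ vs, pos v = (fun i => if h : i < vs.dedup.length then pos vs.dedup[i]
        else (0, 0)) (vs.dedup.idxOf v) := by
      intro v hv
      have h1 : vs.dedup.idxOf v < vs.dedup.length :=
        List.idxOf_lt_length_iff.mpr (List.mem_dedup.mpr hv)
      simp only [dif_pos h1, List.getElem_idxOf]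
    refine ⟨fun i => if h : i < vs.dedup.length then pos vs.dedup[i] else (0, 0), ?_, S, hS, ?_⟩
    · refine (drawOn_map (fun v => vs.dedup.idxOf v) vs es hinj hes _ hvs' _ (mem_num vs es)
        _ (fun v => toR (pos v)) (fun v hv => ?_)).mpr hd
      exact congrArg toR (hpos v hv)
    · intro e' he'
      obtain ⟨e, he, rfl⟩ := (mem_num vs es _).mp he'
      obtain ⟨e1, e2⟩ := hes e he
      have h := hsl e he
      have q1 := hpos _ e1
      have q2 := hpos _ e2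
      unfold sl at h ⊢
      simp only at q1 q2 h ⊢
      rw [← q1, ← q2]
      exact h

end Pool.Agent.Lib.MP_be4430_lc
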