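import Pool.Agent.Lib.MP_be4430_lc.Basic

/-! # No vertex on an edge: follows from planarity -/

namespace Pool.Agent.Lib.MP_be4430_lc

open MP_634427_lc

/-- If every vertex is an endpoint of an edge, planarity implies that no vertex lies on an edge of
which it is not an endpoint. -/
theorem drawOn_of_planar {V : Type} {vs : List V} {es : List (V × V)} {pos : V → ℝ × ℝ}
    (hend : ∀ w ∈ vs, ∃ e ∈ es, w = e.1 ∨ w = e.2)
    (inj : ∀ u ∈ vs, ∀ v ∈ vs, pos u = pos v → u = v)
    (planar : ∀ e ∈ es, ∀ f ∈ es, e ≠ f → MeetOK pos e.1 e.2 f.1 f.2)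
    (up : ∀ e ∈ es, (pos e.1).2 < (pos e.2).2) : DrawOn vs es pos := by
  refine ⟨inj, ?_, planar, up⟩
  intro w hw e he h1 h2 hseg
  obtain ⟨f, hf, hwf⟩ := hend w hw
  have hef : e ≠ f := by
    rintro rfl
    rcases hwf with h | h
    · exact h1 h
    · exact h2 h
  have hz : pos w ∈ segment ℝ (pos f.1) (pos f.2) := by
    rcases hwf with h | h
    · rw [h]
      exact left_mem_segment ℝ _ _
    · rw [h]
      exact right_mem_segment ℝ _ _
  obtain ⟨w', ha, hb, hc⟩ := planar e he f hf hef (pos w) hseg hz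
  have hup := up f hf
  have hww : w = w' := by
    rcases hwf with h | h <;> rcases hb with h' | h'
    · rw [h, h']
    · rw [h, h'] at hc
      rw [hc] at hup
      exact absurd hup (lt_irrefl _)
    · rw [h, h'] at hc
      rw [hc] at hup
      exact absurd hup (lt_irrefl _)
    · rw [h, h']
  rcases ha with h | h
  · exact h1 (hww.trans h)
  · exact h2 (hww.trans h)

/-- Planarity is preserved by an injective linear map. -/
theorem meetOK_linear {V : Type} (pos : V → ℝ × ℝ) (f : (ℝ × ℝ) →ₗ[ℝ] (ℝ × ℝ))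
    (hf : Function.Injective f) (u v u' v' : V) (h : MeetOK pos u v u' v') :
    MeetOK (fun w => f (pos w)) u v u' v' := by
  intro z h1 h2
  have himg : ∀ a b : ℝ × ℝ, f '' segment ℝ a b = segment ℝ (f a) (f b) := fun a b =>
    image_segment ℝ f.toAffineMap a b
  simp only at h1 h2
  rw [← himg] at h1 h2
  obtain ⟨p, hp, rfl⟩ := h1
  obtain ⟨p', hp', hpp⟩ := h2
  rw [hf hpp] at hp'
  obtain ⟨w, hw1, hw2, hw3⟩ := h p hp hp'
  exact ⟨w, hw1, hw2, by rw [hw3]⟩

end Pool.Agent.Lib.MP_be4430_lc
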