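import Pool.Agent.Lib.MP_be4430_lc.Graph

/-! # Membership in the lists of vertices and edges -/

namespace Pool.Agent.Lib.MP_be4430_lc

open MP_634427_lc

private theorem B1_cells (m g : ℕ) (C : Rct) : C ∈ cellsOf m g ↔
    (∃ n, (1 ≤ n ∧ n < m) ∧ (C = .FL g n ∨ C = .FR g n)) ∨ C = .CO g 0 ∨ C = .CO g 1 ∨ C = .LK g := by
  unfold cellsOf
  simp only [List.mem_append, List.mem_flatMap, List.mem_range'_1, List.mem_cons, List.not_mem_nil,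
    or_false]
  constructor
  · rintro (⟨n, ⟨h1, h2⟩, h⟩ | h)
    · exact Or.inl ⟨n, ⟨h1, by omega⟩, h⟩
    · exact Or.inr h
  · rintro (⟨n, ⟨h1, h2⟩, h⟩ | h)
    · exact Or.inl ⟨n, ⟨h1, by omega⟩, h⟩
    · exact Or.inr h

theorem mem_cellsOf (m N : ℕ) (C : Rct) :
    (∃ g, (1 ≤ g ∧ g ≤ N) ∧ C ∈ cellsOf m g) ↔ Cok m N C := by
  constructor
  · rintro ⟨g, hg, h⟩
    rw [B1_cells] at h
    rcases h with ⟨n, hn, rfl | rfl⟩ | rfl | rfl | rfl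
    · exact ⟨trivial, hg, hn⟩
    · exact ⟨trivial, hg, hn⟩
    · exact ⟨trivial, hg, by omega⟩
    · exact ⟨trivial, hg, by omega⟩
    · exact ⟨trivial, hg⟩
  · rintro ⟨h1, h2⟩
    cases C with
    | FO g => exact h1.elim
    | FL g n => exact ⟨g, h2.1, (B1_cells m g _).2 (Or.inl ⟨n, h2.2, Or.inl rfl⟩)⟩
    | CO g i =>
      obtain ⟨hg, hi⟩ := h2
      refine ⟨g, hg, (B1_cells m g _).2 (Or.inr ?_)⟩
      have : i = 0 ∨ i = 1 := by omega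
      rcases this with rfl | rfl
      · exact Or.inl rfl
      · exact Or.inr (Or.inl rfl)
    | FR g n => exact ⟨g, h2.1, (B1_cells m g _).2 (Or.inl ⟨n, h2.2, Or.inr rfl⟩)⟩
    | FG g => exact h1.elim
    | AX g => exact h1.elim
    | LK g => exact ⟨g, h2, (B1_cells m g _).2 (Or.inr (Or.inr (Or.inr rfl)))⟩

private theorem B1_r1 {m n : ℕ} : n ∈ List.range' 1 m ↔ 1 ≤ n ∧ n ≤ m := by
  rw [List.mem_range'_1]
  omega

private theorem B1_r2 {m n : ℕ} : (1 ≤ n ∧ n ≤ m - 1) ↔ (1 ≤ n ∧ n < m) := by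
  omega

private theorem B1_r3 {m n : ℕ} : n ∈ List.range' 2 (m - 1) ↔ 2 ≤ n ∧ n ≤ m := by
  rw [List.mem_range'_1]
  omega

private theorem B1_gverts (m g : ℕ) (v : Vtx) : v ∈ gverts m g ↔
    (v = .O g ∨ v = .G g ∨ v = .a g ∨ v = .b (g - 1)) ∨
    (∃ n, (1 ≤ n ∧ n ≤ m) ∧ (v = .c g n ∨ v = .d g n ∨ v = .s g n ∨ v = .r g n)) ∨
    (∃ C, C ∈ cellsOf m g ∧ ∃ j, (2 ≤ j ∧ j ≤ m) ∧ (v = .nn C j ∨ v = .ww C j)) := by
  unfold gverts
  simp only [List.mem_append, List.mem_flatMap, B1_r1, B1_r3, List.mem_cons,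
    List.not_mem_nil, or_false, or_assoc]

theorem mem_verts (m : ℕ) (ts : List Trp) (v : Vtx) :
    v ∈ verts m ts ↔ Vok m ts.length v := by
  have h0 : v ∈ verts m ts ↔ (v = .G 0 ∨ v = .O (ts.length + 1)) ∨
      (∃ n, (1 ≤ n ∧ n ≤ m) ∧ Vtx.r 0 n = v) ∨
      (∃ g, (1 ≤ g ∧ g ≤ ts.length) ∧ v ∈ gverts m g) := by
    unfold verts
    simp only [List.mem_append, List.mem_flatMap, List.mem_map, B1_r1, List.mem_cons,
      List.not_mem_nil, or_false, or_assoc]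
  rw [h0]
  constructor
  · rintro ((rfl | rfl) | ⟨n, hn, rfl⟩ | ⟨g, hg, h⟩)
    · exact Nat.zero_le _
    · exact ⟨by omega, le_rfl⟩
    · exact ⟨Nat.zero_le _, hn⟩
    · rw [B1_gverts] at h
      rcases h with (rfl | rfl | rfl | rfl) | ⟨n, hn, rfl | rfl | rfl | rfl⟩ | ⟨C, hC, j, hj, rfl | rfl⟩
      · exact ⟨hg.1, by omega⟩
      · exact hg.2
      · exact hg
      · show g - 1 < ts.length
        omega
      · exact ⟨hg, hn⟩
      · exact ⟨hg, hn⟩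
      · exact ⟨hg, hn⟩
      · exact ⟨hg.2, hn⟩
      · exact ⟨(mem_cellsOf m ts.length C).1 ⟨g, hg, hC⟩, hj⟩
      · exact ⟨(mem_cellsOf m ts.length C).1 ⟨g, hg, hC⟩, hj⟩
  · intro h
    cases v with
    | O g =>
      obtain ⟨h1, h2⟩ := h
      by_cases hg : g = ts.length + 1
      · exact Or.inl (Or.inr (by rw [hg]))
      · exact Or.inr (Or.inr ⟨g, ⟨h1, by omega⟩, (B1_gverts m g _).2 (Or.inl (Or.inl rfl))⟩)
    | G g =>
      have h' : g ≤ ts.length := h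
      by_cases hg : g = 0
      · exact Or.inl (Or.inl (by rw [hg]))
      · exact Or.inr (Or.inr ⟨g, ⟨by omega, h'⟩, (B1_gverts m g _).2 (Or.inl (Or.inr (Or.inl rfl)))⟩)
    | a g =>
      exact Or.inr (Or.inr ⟨g, h, (B1_gverts m g _).2 (Or.inl (Or.inr (Or.inr (Or.inl rfl))))⟩)
    | b g =>
      have h' : g < ts.length := h
      exact Or.inr (Or.inr ⟨g + 1, ⟨by omega, by omega⟩,
        (B1_gverts m (g + 1) _).2 (Or.inl (Or.inr (Or.inr (Or.inr (by rw [Nat.add_sub_cancel])))))⟩)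
    | c g n =>
      exact Or.inr (Or.inr ⟨g, h.1, (B1_gverts m g _).2 (Or.inr (Or.inl ⟨n, h.2, Or.inl rfl⟩))⟩)
    | d g n =>
      exact Or.inr (Or.inr ⟨g, h.1, (B1_gverts m g _).2 (Or.inr (Or.inl ⟨n, h.2, Or.inr (Or.inl rfl)⟩))⟩)
    | s g n =>
      exact Or.inr (Or.inr ⟨g, h.1,
        (B1_gverts m g _).2 (Or.inr (Or.inl ⟨n, h.2, Or.inr (Or.inr (Or.inl rfl))⟩))⟩)
    | r g n =>
      obtain ⟨h1, h2⟩ := h
      by_cases hg : g = 0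
      · exact Or.inr (Or.inl ⟨n, h2, by rw [hg]⟩)
      · exact Or.inr (Or.inr ⟨g, ⟨by omega, h1⟩,
          (B1_gverts m g _).2 (Or.inr (Or.inl ⟨n, h2, Or.inr (Or.inr (Or.inr rfl))⟩))⟩)
    | nn C j =>
      obtain ⟨h1, h2⟩ := h
      obtain ⟨g, hg, hC⟩ := (mem_cellsOf m ts.length C).2 h1
      exact Or.inr (Or.inr ⟨g, hg, (B1_gverts m g _).2 (Or.inr (Or.inr ⟨C, hC, j, h2, Or.inl rfl⟩))⟩)
    | ww C j =>
      obtain ⟨h1, h2⟩ := h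
      obtain ⟨g, hg, hC⟩ := (mem_cellsOf m ts.length C).2 h1
      exact Or.inr (Or.inr ⟨g, hg, (B1_gverts m g _).2 (Or.inr (Or.inr ⟨C, hC, j, h2, Or.inr rfl⟩))⟩)

private theorem B1_gedges (m : ℕ) (ts : List Trp) (g : ℕ) (e : Vtx × Vtx) : e ∈ gedges m ts g ↔
    (∃ n, (1 ≤ n ∧ n ≤ m) ∧ (e = (.O g, .c g n) ∨ e = (.c g n, .d g n) ∨ e = (.s g n, .r g n) ∨
      e = (.r g n, .G g))) ∨
    (∃ n, (1 ≤ n ∧ n < m) ∧ (e = (.c g n, .c g (n + 1)) ∨ e = (.d g n, .d g (n + 1)) ∨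
      e = (.s g (n + 1), .s g n) ∨ e = (.r g (n + 1), .r g n))) ∨
    (e = (.d g (pp ts g 0), .s g (qq ts g 0)) ∨ e = (.d g (pp ts g 1), .s g (qq ts g 1)) ∨
      e = (.d g (pp ts g 2), .s g (qq ts g 2)) ∨ e = (.s g 1, .a g) ∨ e = (.a g, .O (g + 1)) ∨
      e = (.r g 1, .O (g + 1)) ∨ e = (.G (g - 1), .b (g - 1)) ∨ e = (.b (g - 1), .d g 1)) ∨
    (∃ C, C ∈ cellsOf m g ∧ ∃ j, (2 ≤ j ∧ j ≤ m) ∧
      (e = (cv ts C, .nn C j) ∨ e = (.nn C j, .ww C j) ∨ e = (.ww C j, ct ts C))) := by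
  unfold gedges
  simp only [List.mem_append, List.mem_flatMap, B1_r1, B1_r2, B1_r3, List.mem_cons,
    List.not_mem_nil, or_false, or_assoc]

theorem mem_edges (m : ℕ) (ts : List Trp) (u v : Vtx) :
    (u, v) ∈ edges m ts ↔ Edge m ts u v := by
  have h0 : ∀ e : Vtx × Vtx, e ∈ edges m ts ↔ (∃ n, (1 ≤ n ∧ n ≤ m) ∧ (Vtx.r 0 n, Vtx.G 0) = e) ∨
      (∃ n, (1 ≤ n ∧ n < m) ∧ (Vtx.r 0 (n + 1), Vtx.r 0 n) = e) ∨ e = (Vtx.r 0 1, Vtx.O 1) ∨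
      (∃ g, (1 ≤ g ∧ g ≤ ts.length) ∧ e ∈ gedges m ts g) := by
    intro e
    unfold edges
    simp only [List.mem_append, List.mem_flatMap, List.mem_map, B1_r1, B1_r2, List.mem_cons,
      List.not_mem_nil, or_false, or_assoc]
  rw [h0]
  constructor
  · rintro (⟨n, hn, h⟩ | ⟨n, hn, h⟩ | h | ⟨g, hg, h⟩)
    · obtain ⟨rfl, rfl⟩ := Prod.mk.inj h
      exact Edge.rG 0 n (Nat.zero_le _) hn.1 hn.2
    · obtain ⟨rfl, rfl⟩ := Prod.mk.inj h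
      exact Edge.rr 0 n (Nat.zero_le _) hn.1 hn.2
    · obtain ⟨rfl, rfl⟩ := Prod.mk.inj h
      exact Edge.rO 0 (Nat.zero_le _)
    · rw [B1_gedges] at h
      rcases h with ⟨n, hn, h | h | h | h⟩ | ⟨n, hn, h | h | h | h⟩ |
        (h | h | h | h | h | h | h | h) | ⟨C, hC, j, hj, h | h | h⟩ <;>
        obtain ⟨rfl, rfl⟩ := Prod.mk.inj h
      · exact Edge.Oc g n hg.1 hg.2 hn.1 hn.2
      · exact Edge.cd g n hg.1 hg.2 hn.1 hn.2
      · exact Edge.sr g n hg.1 hg.2 hn.1 hn.2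
      · exact Edge.rG g n hg.2 hn.1 hn.2
      · exact Edge.cc g n hg.1 hg.2 hn.1 hn.2
      · exact Edge.dd g n hg.1 hg.2 hn.1 hn.2
      · exact Edge.ss g n hg.1 hg.2 hn.1 hn.2
      · exact Edge.rr g n hg.2 hn.1 hn.2
      · exact Edge.ds g 0 hg.1 hg.2 (by omega)
      · exact Edge.ds g 1 hg.1 hg.2 (by omega)
      · exact Edge.ds g 2 hg.1 hg.2 (by omega)
      · exact Edge.sa g hg.1 hg.2
      · exact Edge.aO g hg.1 hg.2
      · exact Edge.rO g hg.2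
      · exact Edge.Gb (g - 1) (by omega)
      · have h1 := Edge.bd (m := m) (ts := ts) (g - 1) (by omega)
        rw [Nat.sub_add_cancel hg.1] at h1
        exact h1
      · exact Edge.vn C j ((mem_cellsOf m ts.length C).1 ⟨g, hg, hC⟩) hj.1 hj.2
      · exact Edge.nw C j ((mem_cellsOf m ts.length C).1 ⟨g, hg, hC⟩) hj.1 hj.2
      · exact Edge.wt C j ((mem_cellsOf m ts.length C).1 ⟨g, hg, hC⟩) hj.1 hj.2
  · intro h
    have key : ∀ g, 1 ≤ g → g ≤ ts.length → (u, v) ∈ gedges m ts g →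
        (∃ n, (1 ≤ n ∧ n ≤ m) ∧ (Vtx.r 0 n, Vtx.G 0) = (u, v)) ∨
        (∃ n, (1 ≤ n ∧ n < m) ∧ (Vtx.r 0 (n + 1), Vtx.r 0 n) = (u, v)) ∨ (u, v) = (Vtx.r 0 1, Vtx.O 1) ∨
        (∃ g, (1 ≤ g ∧ g ≤ ts.length) ∧ (u, v) ∈ gedges m ts g) :=
      fun g h1 h2 h3 => Or.inr (Or.inr (Or.inr ⟨g, ⟨h1, h2⟩, h3⟩))
    cases h with
    | Oc g n h1 h2 h3 h4 =>
      exact key g h1 h2 ((B1_gedges m ts g _).2 (Or.inl ⟨n, ⟨h3, h4⟩, Or.inl rfl⟩))
    | cc g n h1 h2 h3 h4 =>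
      exact key g h1 h2 ((B1_gedges m ts g _).2 (Or.inr (Or.inl ⟨n, ⟨h3, h4⟩, Or.inl rfl⟩)))
    | cd g n h1 h2 h3 h4 =>
      exact key g h1 h2 ((B1_gedges m ts g _).2 (Or.inl ⟨n, ⟨h3, h4⟩, Or.inr (Or.inl rfl)⟩))
    | dd g n h1 h2 h3 h4 =>
      exact key g h1 h2 ((B1_gedges m ts g _).2 (Or.inr (Or.inl ⟨n, ⟨h3, h4⟩, Or.inr (Or.inl rfl)⟩)))
    | ds g i h1 h2 h3 =>
      refine key g h1 h2 ((B1_gedges m ts g _).2 (Or.inr (Or.inr (Or.inl ?_))))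
      have : i = 0 ∨ i = 1 ∨ i = 2 := by omega
      rcases this with rfl | rfl | rfl
      · exact Or.inl rfl
      · exact Or.inr (Or.inl rfl)
      · exact Or.inr (Or.inr (Or.inl rfl))
    | ss g n h1 h2 h3 h4 =>
      exact key g h1 h2 ((B1_gedges m ts g _).2
        (Or.inr (Or.inl ⟨n, ⟨h3, h4⟩, Or.inr (Or.inr (Or.inl rfl))⟩)))
    | sr g n h1 h2 h3 h4 =>
      exact key g h1 h2 ((B1_gedges m ts g _).2 (Or.inl ⟨n, ⟨h3, h4⟩, Or.inr (Or.inr (Or.inl rfl))⟩))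
    | rr g n h2 h3 h4 =>
      by_cases hg : g = 0
      · subst hg
        exact Or.inr (Or.inl ⟨n, ⟨h3, h4⟩, rfl⟩)
      · exact key g (by omega) h2 ((B1_gedges m ts g _).2
          (Or.inr (Or.inl ⟨n, ⟨h3, h4⟩, Or.inr (Or.inr (Or.inr rfl))⟩)))
    | rG g n h2 h3 h4 =>
      by_cases hg : g = 0
      · subst hg
        exact Or.inl ⟨n, ⟨h3, h4⟩, rfl⟩
      · exact key g (by omega) h2 ((B1_gedges m ts g _).2
          (Or.inl ⟨n, ⟨h3, h4⟩, Or.inr (Or.inr (Or.inr rfl))⟩))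
    | sa g h1 h2 =>
      exact key g h1 h2 ((B1_gedges m ts g _).2
        (Or.inr (Or.inr (Or.inl (Or.inr (Or.inr (Or.inr (Or.inl rfl))))))))
    | aO g h1 h2 =>
      exact key g h1 h2 ((B1_gedges m ts g _).2
        (Or.inr (Or.inr (Or.inl (Or.inr (Or.inr (Or.inr (Or.inr (Or.inl rfl)))))))))
    | rO g h2 =>
      by_cases hg : g = 0
      · subst hg
        exact Or.inr (Or.inr (Or.inl rfl))
      · exact key g (by omega) h2 ((B1_gedges m ts g _).2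
          (Or.inr (Or.inr (Or.inl (Or.inr (Or.inr (Or.inr (Or.inr (Or.inr (Or.inl rfl))))))))))
    | Gb g h2 =>
      exact key (g + 1) (by omega) (by omega) ((B1_gedges m ts (g + 1) _).2
        (Or.inr (Or.inr (Or.inl (Or.inr (Or.inr (Or.inr (Or.inr (Or.inr (Or.inr (Or.inl
          (by rw [Nat.add_sub_cancel]))))))))))))
    | bd g h2 =>
      exact key (g + 1) (by omega) (by omega) ((B1_gedges m ts (g + 1) _).2
        (Or.inr (Or.inr (Or.inl (Or.inr (Or.inr (Or.inr (Or.inr (Or.inr (Or.inr (Or.inr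
          (by rw [Nat.add_sub_cancel]))))))))))))
    | vn C j h1 h2 h3 =>
      obtain ⟨g, hg, hC⟩ := (mem_cellsOf m ts.length C).2 h1
      exact key g hg.1 hg.2 ((B1_gedges m ts g _).2
        (Or.inr (Or.inr (Or.inr ⟨C, hC, j, ⟨h2, h3⟩, Or.inl rfl⟩))))
    | nw C j h1 h2 h3 =>
      obtain ⟨g, hg, hC⟩ := (mem_cellsOf m ts.length C).2 h1
      exact key g hg.1 hg.2 ((B1_gedges m ts g _).2
        (Or.inr (Or.inr (Or.inr ⟨C, hC, j, ⟨h2, h3⟩, Or.inr (Or.inl rfl)⟩))))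
    | wt C j h1 h2 h3 =>
      obtain ⟨g, hg, hC⟩ := (mem_cellsOf m ts.length C).2 h1
      exact key g hg.1 hg.2 ((B1_gedges m ts g _).2
        (Or.inr (Or.inr (Or.inr ⟨C, hC, j, ⟨h2, h3⟩, Or.inr (Or.inr rfl)⟩))))

end Pool.Agent.Lib.MP_be4430_lc
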