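import Pool.Agent.Lib.MP_be4430_lc.Graph

/-! # Endpoints of the edges -/

namespace Pool.Agent.Lib.MP_be4430_lc

open MP_634427_lc

/-- the indices of the constraints are ordered -/
theorem pp_qq_order {m : ℕ} {ts : List Trp} (h : TValid m ts) {g : ℕ} (h1 : 1 ≤ g)
    (h2 : g ≤ ts.length) :
    1 ≤ pp ts g 0 ∧ pp ts g 0 < pp ts g 1 ∧ pp ts g 1 < pp ts g 2 ∧ pp ts g 2 ≤ m ∧
      1 ≤ qq ts g 2 ∧ qq ts g 2 < qq ts g 1 ∧ qq ts g 1 < qq ts g 0 ∧ qq ts g 0 ≤ m := by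
  have hlt : g - 1 < ts.length := by omega
  have hg : ts.getD (g - 1) ((1, 2, 3), (3, 2, 1)) = ts[g - 1] := List.getD_eq_getElem _ _ hlt
  have hok := h.ok _ (List.getElem_mem hlt)
  simp only [pp, qq, tri, hg]
  exact hok

theorem three_le {m : ℕ} {ts : List Trp} (h : TValid m ts) : 3 ≤ m := by
  obtain ⟨t, ht⟩ := List.exists_mem_of_ne_nil ts h.ne
  obtain ⟨h1, h2, h3, h4, _⟩ := h.ok t ht
  omega

theorem one_le_length {m : ℕ} {ts : List Trp} (h : TValid m ts) : 1 ≤ ts.length := by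
  exact List.length_pos_iff.2 h.ne

theorem cv_ok {m : ℕ} {ts : List Trp} (h : TValid m ts) {C : Rct} (hC : Cok m ts.length C) :
    Vok m ts.length (cv ts C) := by
  have h3 := three_le h
  obtain ⟨hc, hr⟩ := hC
  cases C with
  | FO g => exact absurd hc (by simp [IsCell])
  | FG g => exact absurd hc (by simp [IsCell])
  | AX g => exact absurd hc (by simp [IsCell])
  | FL g n =>
    obtain ⟨⟨a1, a2⟩, a3, a4⟩ := hr
    exact ⟨⟨a1, a2⟩, a3, a4.le⟩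
  | FR g n =>
    obtain ⟨⟨a1, a2⟩, a3, a4⟩ := hr
    refine ⟨⟨a1, a2⟩, ?_, ?_⟩ <;> omega
  | CO g i =>
    obtain ⟨⟨a1, a2⟩, a3⟩ := hr
    have ho := pp_qq_order h a1 a2
    refine ⟨⟨a1, a2⟩, ?_⟩
    interval_cases i <;> constructor <;> omega
  | LK g =>
    obtain ⟨a1, a2⟩ := hr
    refine ⟨?_, ?_, ?_⟩ <;> omega

theorem ct_ok {m : ℕ} {ts : List Trp} (h : TValid m ts) {C : Rct} (hC : Cok m ts.length C) :
    Vok m ts.length (ct ts C) := by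
  have h3 := three_le h
  obtain ⟨hc, hr⟩ := hC
  cases C with
  | FO g => exact absurd hc (by simp [IsCell])
  | FG g => exact absurd hc (by simp [IsCell])
  | AX g => exact absurd hc (by simp [IsCell])
  | FL g n =>
    obtain ⟨⟨a1, a2⟩, a3, a4⟩ := hr
    refine ⟨⟨a1, a2⟩, ?_, ?_⟩ <;> omega
  | FR g n =>
    obtain ⟨⟨a1, a2⟩, a3, a4⟩ := hr
    exact ⟨a2, a3, a4.le⟩
  | CO g i =>
    obtain ⟨⟨a1, a2⟩, a3⟩ := hr
    have ho := pp_qq_order h a1 a2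
    refine ⟨⟨a1, a2⟩, ?_⟩
    interval_cases i <;> constructor <;> simp only [zero_add, Nat.reduceAdd] <;> omega
  | LK g =>
    obtain ⟨a1, a2⟩ := hr
    refine ⟨⟨a1, a2⟩, ?_, ?_⟩ <;> omega

/-- the corners of a cell are not inner vertices -/
theorem cv_ne {ts : List Trp} {C D : Rct} {j : ℕ} : cv ts C ≠ .nn D j ∧ cv ts C ≠ .ww D j := by
  cases C <;> simp [cv]

theorem ct_ne {ts : List Trp} {C D : Rct} {j : ℕ} : ct ts C ≠ .nn D j ∧ ct ts C ≠ .ww D j := by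
  cases C <;> simp [ct]

theorem edge_ends {m : ℕ} {ts : List Trp} (h : TValid m ts) {u v : Vtx} (e : Edge m ts u v) :
    Vok m ts.length u ∧ Vok m ts.length v ∧ u ≠ v := by
  have h3 := three_le h
  have h1 := one_le_length h
  cases e with
  | Oc g n a1 a2 a3 a4 =>
    exact ⟨⟨a1, by omega⟩, ⟨⟨a1, a2⟩, a3, a4⟩, by simp⟩
  | cc g n a1 a2 a3 a4 =>
    exact ⟨⟨⟨a1, a2⟩, a3, by omega⟩, ⟨⟨a1, a2⟩, by omega, by omega⟩, by simp⟩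
  | cd g n a1 a2 a3 a4 =>
    exact ⟨⟨⟨a1, a2⟩, a3, a4⟩, ⟨⟨a1, a2⟩, a3, a4⟩, by simp⟩
  | dd g n a1 a2 a3 a4 =>
    exact ⟨⟨⟨a1, a2⟩, a3, by omega⟩, ⟨⟨a1, a2⟩, by omega, by omega⟩, by simp⟩
  | ds g i a1 a2 a3 =>
    have ho := pp_qq_order h a1 a2
    refine ⟨⟨⟨a1, a2⟩, ?_⟩, ⟨⟨a1, a2⟩, ?_⟩, by simp⟩ <;> interval_cases i <;> constructor <;> omega
  | ss g n a1 a2 a3 a4 =>
    exact ⟨⟨⟨a1, a2⟩, by omega, by omega⟩, ⟨⟨a1, a2⟩, a3, by omega⟩, by simp⟩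
  | sr g n a1 a2 a3 a4 =>
    exact ⟨⟨⟨a1, a2⟩, a3, a4⟩, ⟨a2, a3, a4⟩, by simp⟩
  | rr g n a2 a3 a4 =>
    exact ⟨⟨a2, by omega, by omega⟩, ⟨a2, a3, by omega⟩, by simp⟩
  | rG g n a2 a3 a4 =>
    exact ⟨⟨a2, a3, a4⟩, a2, by simp⟩
  | sa g a1 a2 =>
    exact ⟨⟨⟨a1, a2⟩, le_rfl, by omega⟩, ⟨a1, a2⟩, by simp⟩
  | aO g a1 a2 =>
    exact ⟨⟨a1, a2⟩, ⟨by omega, by omega⟩, by simp⟩
  | rO g a2 =>
    exact ⟨⟨a2, le_rfl, by omega⟩, ⟨by omega, by omega⟩, by simp⟩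
  | Gb g a2 =>
    exact ⟨a2.le, a2, by simp⟩
  | bd g a2 =>
    exact ⟨a2, ⟨⟨by omega, a2⟩, le_rfl, by omega⟩, by simp⟩
  | vn C j hC a1 a2 =>
    exact ⟨cv_ok h hC, ⟨hC, a1, a2⟩, cv_ne.1⟩
  | nw C j hC a1 a2 =>
    exact ⟨⟨hC, a1, a2⟩, ⟨hC, a1, a2⟩, by simp⟩
  | wt C j hC a1 a2 =>
    exact ⟨⟨hC, a1, a2⟩, ct_ok h hC, ct_ne.2.symm⟩

/-- every vertex is an endpoint of an edge -/
theorem exists_edge {m : ℕ} {ts : List Trp} (h : TValid m ts) {w : Vtx}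
    (hw : Vok m ts.length w) : ∃ u v, Edge m ts u v ∧ (w = u ∨ w = v) := by
  have h3 := three_le h
  have h1 := one_le_length h
  cases w with
  | O g =>
    obtain ⟨a1, a2⟩ := hw
    rcases Nat.lt_or_ge ts.length g with hg | hg
    · have hgl : g = ts.length + 1 := by omega
      subst hgl
      exact ⟨_, _, Edge.rO ts.length le_rfl, Or.inr rfl⟩
    · exact ⟨_, _, Edge.Oc g 1 a1 hg le_rfl (by omega), Or.inl rfl⟩
  | G g => exact ⟨_, _, Edge.rG g 1 hw le_rfl (by omega), Or.inr rfl⟩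
  | a g => exact ⟨_, _, Edge.sa g hw.1 hw.2, Or.inr rfl⟩
  | b g => exact ⟨_, _, Edge.Gb g hw, Or.inr rfl⟩
  | c g n => exact ⟨_, _, Edge.Oc g n hw.1.1 hw.1.2 hw.2.1 hw.2.2, Or.inr rfl⟩
  | d g n => exact ⟨_, _, Edge.cd g n hw.1.1 hw.1.2 hw.2.1 hw.2.2, Or.inr rfl⟩
  | s g n => exact ⟨_, _, Edge.sr g n hw.1.1 hw.1.2 hw.2.1 hw.2.2, Or.inl rfl⟩
  | r g n => exact ⟨_, _, Edge.rG g n hw.1 hw.2.1 hw.2.2, Or.inl rfl⟩
  | nn C j => exact ⟨_, _, Edge.vn C j hw.1 hw.2.1 hw.2.2, Or.inr rfl⟩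
  | ww C j => exact ⟨_, _, Edge.nw C j hw.1 hw.2.1 hw.2.2, Or.inr rfl⟩

end Pool.Agent.Lib.MP_be4430_lc
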