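import Pool.Agent.Lib.MP_be4430_lc.Defs

/-!
# Drawings over an arbitrary vertex type
-/

namespace Pool.Agent.Lib.MP_be4430_lc

open MP_634427_lc

/-- Two segments given by pairs of vertices meet only at (the point of) a common endpoint. -/
def MeetOK {V : Type} (pos : V → ℝ × ℝ) (u v u' v' : V) : Prop :=
  ∀ z, z ∈ segment ℝ (pos u) (pos v) → z ∈ segment ℝ (pos u') (pos v') →
    ∃ w, (w = u ∨ w = v) ∧ (w = u' ∨ w = v') ∧ z = pos w

/-- An upward planar drawing of the graph with vertices `vs` and edges `es` in the real plane. -/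
structure DrawOn {V : Type} (vs : List V) (es : List (V × V)) (pos : V → ℝ × ℝ) : Prop where
  inj : ∀ u ∈ vs, ∀ v ∈ vs, pos u = pos v → u = v
  clear : ∀ w ∈ vs, ∀ e ∈ es, w ≠ e.1 → w ≠ e.2 → pos w ∉ segment ℝ (pos e.1) (pos e.2)
  planar : ∀ e ∈ es, ∀ f ∈ es, e ≠ f → MeetOK pos e.1 e.2 f.1 f.2
  up : ∀ e ∈ es, (pos e.1).2 < (pos e.2).2

/-- The (inverse) slope `dx/dy` of the segment from `u` to `v`. -/
noncomputable def sl {V : Type} (pos : V → ℝ × ℝ) (u v : V) : ℝ :=
  ((pos v).1 - (pos u).1) / ((pos v).2 - (pos u).2)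

/-- A rational point as a point of the real plane. -/
def qR (p : ℚ × ℚ) : ℝ × ℝ := ((p.1 : ℝ), (p.2 : ℝ))

/-- There is an upward planar drawing on the integer grid with at most `k` slopes. -/
def GridDraw {V : Type} (vs : List V) (es : List (V × V)) (k : ℕ) : Prop :=
  ∃ pos : V → ℤ × ℤ, DrawOn vs es (fun v => toR (pos v)) ∧
    ∃ S : Finset ℝ, S.card ≤ k ∧ ∀ e ∈ es, sl (fun v => toR (pos v)) e.1 e.2 ∈ S

/-- There is an upward planar drawing with rational coordinates with at most `k` slopes. -/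
def RatDraw {V : Type} (vs : List V) (es : List (V × V)) (k : ℕ) : Prop :=
  ∃ pos : V → ℚ × ℚ, DrawOn vs es (fun v => qR (pos v)) ∧
    ∃ S : Finset ℝ, S.card ≤ k ∧ ∀ e ∈ es, sl (fun v => qR (pos v)) e.1 e.2 ∈ S

/-- Vertices renumbered: the graph with vertices `0, …, n-1` isomorphic to `(vs, es)`. -/
def num {V : Type} [DecidableEq V] (vs : List V) (es : List (V × V)) : ℕ × List (ℕ × ℕ) :=
  (vs.dedup.length, es.dedup.map fun e => (vs.dedup.idxOf e.1, vs.dedup.idxOf e.2))

/-- The edges of an upward planar drawing; only edges matter. -/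
structure PUp {V : Type} (A : V → V → Prop) (pos : V → ℝ × ℝ) : Prop where
  up : ∀ u v, A u v → (pos u).2 < (pos v).2
  planar : ∀ u v u' v', A u v → A u' v' → (u, v) ≠ (u', v') → MeetOK pos u v u' v'

end Pool.Agent.Lib.MP_be4430_lc
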