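import Pool.Agent.Lib.MP_be4430_lc.Chains

/-! # A polygonal line with increasing `y` is the graph of a continuous function of `y` -/

namespace Pool.Agent.Lib.MP_be4430_lc

variable {V : Type}

private theorem c1_head_mem (pos : V → ℝ × ℝ) (v : V) (l : List V) : pos v ∈ trace pos (v :: l) := by
  cases l with
  | nil => exact rfl
  | cons w l => exact Or.inl (left_mem_segment ℝ _ _)

/-- (induction on `l`: glue a linear function and the function for the rest with `Continuous.if_le`) -/
theorem exists_fun (pos : V → ℝ × ℝ) (u : V) (l : List V)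
    (h : List.IsChain (fun a b => (pos a).2 < (pos b).2) (u :: l)) :
    ∃ f : ℝ → ℝ, Continuous f ∧
      (∀ z ∈ trace pos (u :: l), z.1 = f z.2 ∧ (pos u).2 ≤ z.2) ∧
      ∀ y, (pos u).2 ≤ y → y ≤ (pos ((u :: l).getLastD u)).2 → (f y, y) ∈ trace pos (u :: l) := by
  induction l generalizing u with
  | nil =>
    refine ⟨fun _ => (pos u).1, continuous_const, ?_, ?_⟩
    · intro z hz
      have : z = pos u := hz
      rw [this]
      exact ⟨rfl, le_refl _⟩
    · intro y h1 h2
      have h3 : y ≤ (pos u).2 := h2
      have h4 : y = (pos u).2 := le_antisymm h3 h1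
      rw [h4]
      exact rfl
  | cons v l ih =>
    rw [List.isChain_cons_cons] at h
    obtain ⟨huv, hch⟩ := h
    obtain ⟨g, gc, g1, g2⟩ := ih v hch
    have hd : 0 < (pos v).2 - (pos u).2 := sub_pos.2 huv
    set lin : ℝ → ℝ := fun y => (pos u).1 +
      (y - (pos u).2) * (((pos v).1 - (pos u).1) / ((pos v).2 - (pos u).2)) with hlin
    have hlinc : Continuous lin := by
      rw [hlin]
      fun_prop
    have hgv : g (pos v).2 = (pos v).1 := (g1 (pos v) (c1_head_mem pos v l)).1.symm
    have hlv : lin (pos v).2 = (pos v).1 := by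
      rw [hlin]
      simp only
      rw [mul_div_cancel₀ _ hd.ne']
      ring
    refine ⟨fun y => if y ≤ (pos v).2 then lin y else g y, ?_, ?_, ?_⟩
    · refine Continuous.if_le hlinc gc continuous_id continuous_const ?_
      intro y hy
      have : y = (pos v).2 := hy
      rw [this, hlv, hgv]
    · intro z hz
      rcases hz with hz | hz
      · rw [segment_eq_image] at hz
        obtain ⟨t, ⟨ht0, ht1⟩, rfl⟩ := hz
        have e1 : ((1 - t) • pos u + t • pos v).1 = (1 - t) * (pos u).1 + t * (pos v).1 := rfl
        have e2 : ((1 - t) • pos u + t • pos v).2 = (1 - t) * (pos u).2 + t * (pos v).2 := rfl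
        simp only [e1, e2]
        have h3 : (1 - t) * (pos u).2 + t * (pos v).2 ≤ (pos v).2 := by nlinarith
        have h4 : (pos u).2 ≤ (1 - t) * (pos u).2 + t * (pos v).2 := by nlinarith
        refine ⟨?_, h4⟩
        rw [if_pos h3, hlin]
        simp only
        have h5 : (1 - t) * (pos u).2 + t * (pos v).2 - (pos u).2 = t * ((pos v).2 - (pos u).2) := by
          ring
        rw [h5, mul_assoc, mul_div_cancel₀ _ hd.ne']
        ring
      · obtain ⟨h3, h4⟩ := g1 z hz
        refine ⟨?_, huv.le.trans h4⟩
        show z.1 = if z.2 ≤ (pos v).2 then lin z.2 else g z.2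
        split_ifs with h5
        · have h6 : z.2 = (pos v).2 := le_antisymm h5 h4
          rw [h3, h6, hlv, hgv]
        · exact h3
    · intro y h1 h2
      by_cases h3 : y ≤ (pos v).2
      · refine Or.inl ?_
        rw [segment_eq_image]
        refine ⟨(y - (pos u).2) / ((pos v).2 - (pos u).2), ⟨div_nonneg (sub_nonneg.2 h1) hd.le,
          (div_le_one hd).2 (by linarith)⟩, ?_⟩
        show _ = ((if y ≤ (pos v).2 then lin y else g y), y)
        rw [if_pos h3]
        refine Prod.ext ?_ ?_
        · show (1 - (y - (pos u).2) / ((pos v).2 - (pos u).2)) * (pos u).1 +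
            (y - (pos u).2) / ((pos v).2 - (pos u).2) * (pos v).1 = lin y
          rw [hlin]
          simp only
          ring
        · show (1 - (y - (pos u).2) / ((pos v).2 - (pos u).2)) * (pos u).2 +
            (y - (pos u).2) / ((pos v).2 - (pos u).2) * (pos v).2 = y
          have h5 : (y - (pos u).2) / ((pos v).2 - (pos u).2) * ((pos v).2 - (pos u).2) =
              y - (pos u).2 := div_mul_cancel₀ _ hd.ne'
          linarith
      · refine Or.inr ?_
        show ((if y ≤ (pos v).2 then lin y else g y), y) ∈ _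
        rw [if_neg h3]
        refine g2 y (not_le.1 h3).le ?_
        have h6 : (u :: v :: l).getLastD u = (v :: l).getLastD v := by
          rw [List.getLastD_cons, List.getLastD_cons, List.getLastD_cons]
        rwa [h6] at h2

theorem fam_funs {A : V → V → Prop} {pos : V → ℝ × ℝ} (hP : PUp A pos) {k : ℕ} {v t : V}
    {C : ℕ → List V} (hF : Fam A k v t C) : ∃ f : ℕ → ℝ → ℝ, Funs pos k v t C f := by
  classical
  have key : ∀ j, ∃ f : ℝ → ℝ, j < k → Continuous f ∧
      (∀ z ∈ trace pos (v :: (C j ++ [t])), z.1 = f z.2) ∧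
      ∀ y, (pos v).2 ≤ y → y ≤ (pos t).2 → (f y, y) ∈ trace pos (v :: (C j ++ [t])) := by
    intro j
    by_cases hj : j < k
    · have hc : List.IsChain (fun a b => (pos a).2 < (pos b).2) (v :: (C j ++ [t])) :=
        (hF.path j hj).imp fun a b hab => hP.up a b hab
      obtain ⟨f, f1, f2, f3⟩ := exists_fun pos v (C j ++ [t]) hc
      refine ⟨f, fun _ => ⟨f1, fun z hz => (f2 z hz).1, fun y h1 h2 => f3 y h1 ?_⟩⟩
      have : (v :: (C j ++ [t])).getLastD v = t := by
        rw [List.getLastD_cons]
        exact List.getLastD_concat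
      rw [this]
      exact h2
    · exact ⟨fun _ => 0, fun h => absurd h hj⟩
  choose f hf using key
  exact ⟨f, ⟨fun j hj => (hf j hj).1, fun j hj => (hf j hj).2.1, fun j hj => (hf j hj).2.2⟩⟩

end Pool.Agent.Lib.MP_be4430_lc
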