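import Pool.Agent.Lib.MP_be4430_lc.Chains

/-! # Points of a polygonal line -/

namespace Pool.Agent.Lib.MP_be4430_lc

variable {V : Type}

/-- no edge of a chain of a family joins `v` directly to `t` -/
theorem fam_not_direct {A : V → V → Prop} {k : ℕ} {v t : V} {C : ℕ → List V}
    (hF : Fam A k v t C) (hvt : v ≠ t) {j : ℕ} (hj : j < k) {l₁ l₂ : List V} :
    v :: (C j ++ [t]) ≠ l₁ ++ v :: t :: l₂ := by
  intro h
  rcases l₁ with _ | ⟨a, l₁⟩
  · rw [List.nil_append] at h
    have h1 : C j ++ [t] = t :: l₂ := (List.cons.inj h).2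
    have hne := hF.ne j hj
    have hnt := hF.nt j hj
    rcases hC : C j with _ | ⟨c, l⟩
    · exact hne hC
    · rw [hC, List.cons_append] at h1
      have h2 : c = t := (List.cons.inj h1).1
      apply hnt
      rw [hC, h2]
      exact List.mem_cons_self
  · rw [List.cons_append] at h
    have h1 : C j ++ [t] = l₁ ++ v :: t :: l₂ := (List.cons.inj h).2
    have h2 : v ∈ C j ++ [t] := by
      rw [h1]
      simp
    rw [List.mem_append, List.mem_singleton] at h2
    exact h2.elim (hF.nv j hj) hvt

/-- the vertices of a chain strictly inside have `y` strictly between that of `v` and `t` -/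
theorem fam_y {A : V → V → Prop} {pos : V → ℝ × ℝ} (hP : PUp A pos) {k : ℕ} {v t : V}
    {C : ℕ → List V} (hF : Fam A k v t C) {j : ℕ} (hj : j < k) {u : V} (hu : u ∈ C j) :
    (pos v).2 < (pos u).2 ∧ (pos u).2 < (pos t).2 := by
  have h1 : List.IsChain (fun a b => (pos a).2 < (pos b).2) (v :: (C j ++ [t])) :=
    (hF.path j hj).imp fun a b => hP.up a b
  have h2 : List.Pairwise (fun a b => (pos a).2 < (pos b).2) (v :: (C j ++ [t])) := by
    have : IsTrans V (fun a b => (pos a).2 < (pos b).2) := ⟨fun _ _ _ h h' => lt_trans h h'⟩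
    exact h1.pairwise
  rw [List.pairwise_cons, List.pairwise_append] at h2
  exact ⟨h2.1 u (List.mem_append_left _ hu), h2.2.2.2 u hu t (List.mem_singleton_self t)⟩

end Pool.Agent.Lib.MP_be4430_lc
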