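import Pool.Agent.Lib.MP_be4430_lc.C2x_Trace
import Pool.Agent.Lib.MP_be4430_lc.C2y_Fam

/-! # Points of a polygonal line -/
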