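import Pool.Agent.Lib.MP_be4430_lc.Chains

/-! # Points of a polygonal line -/

namespace Pool.Agent.Lib.MP_be4430_lc

variable {V : Type}

/-- a point of the polygonal line through at least two vertices lies on a segment between two
consecutive vertices; these are joined by `A` and belong to the list -/
theorem mem_trace_iff {A : V → V → Prop} {pos : V → ℝ × ℝ} (u w : V) (l : List V)
    (h : List.IsChain A (u :: w :: l)) (z : ℝ × ℝ) (hz : z ∈ trace pos (u :: w :: l)) :
    ∃ p q, A p q ∧ p ∈ u :: w :: l ∧ q ∈ u :: w :: l ∧ z ∈ segment ℝ (pos p) (pos q) ∧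
      ∃ l₁ l₂, u :: w :: l = l₁ ++ p :: q :: l₂ := by
  induction l generalizing u w with
  | nil =>
    have hA : A u w := by simpa using h
    refine ⟨u, w, hA, by simp, by simp, ?_, [], [], by simp⟩
    simp only [trace, Set.mem_union, Set.mem_singleton_iff] at hz
    rcases hz with hz | hz
    · exact hz
    · rw [hz]; exact right_mem_segment ℝ _ _
  | cons x l ih =>
    rw [List.isChain_cons_cons] at h
    obtain ⟨hA, h'⟩ := h
    have hz' : z ∈ segment ℝ (pos u) (pos w) ∪ trace pos (w :: x :: l) := hz
    rcases hz' with hz' | hz'
    · exact ⟨u, w, hA, by simp, by simp, hz', [], x :: l, by simp⟩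
    · obtain ⟨p, q, hpq, hp, hq, hs, l₁, l₂, hl⟩ := ih w x h' hz'
      refine ⟨p, q, hpq, List.mem_cons_of_mem _ hp, List.mem_cons_of_mem _ hq, hs, u :: l₁, l₂, ?_⟩
      rw [List.cons_append, ← hl]

theorem mem_trace_of_mem {pos : V → ℝ × ℝ} {l : List V} {w : V} (hw : w ∈ l) :
    pos w ∈ trace pos l := by
  induction l with
  | nil => simp at hw
  | cons u l ih =>
    cases l with
    | nil =>
      have : w = u := by simpa using hw
      subst this
      exact Set.mem_singleton _
    | cons v l =>
      rw [List.mem_cons] at hw
      rcases hw with hw | hw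
      · subst hw
        exact Or.inl (left_mem_segment ℝ _ _)
      · exact Or.inr (ih hw)

/-- the first segment belongs to the polygonal line -/
theorem segment_subset_trace_head {pos : V → ℝ × ℝ} (u w : V) (l : List V) :
    segment ℝ (pos u) (pos w) ⊆ trace pos (u :: w :: l) := by
  intro z hz
  exact Or.inl hz

/-- the last segment belongs to the polygonal line -/
theorem segment_subset_trace_last {pos : V → ℝ × ℝ} (l : List V) (u w : V) :
    segment ℝ (pos u) (pos w) ⊆ trace pos (l ++ [u, w]) := by
  induction l with
  | nil => exact segment_subset_trace_head u w []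
  | cons x l ih =>
    cases l with
    | nil => exact fun z hz => Or.inr (ih hz)
    | cons y l => exact fun z hz => Or.inr (ih hz)

end Pool.Agent.Lib.MP_be4430_lc
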