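import Pool.Agent.Lib.MP_be4430_lc.C2_Trace

/-! # Different chains are disjoint except at `v` and `t` -/

namespace Pool.Agent.Lib.MP_be4430_lc

variable {V : Type}

/-- `mem_trace_iff` for a chain of a family -/
private theorem C3_edge {A : V → V → Prop} {pos : V → ℝ × ℝ} {k : ℕ} {v t : V}
    {C : ℕ → List V} (hF : Fam A k v t C) {i : ℕ} (hi : i < k) {z : ℝ × ℝ}
    (h1 : z ∈ trace pos (v :: (C i ++ [t]))) :
    ∃ p q, A p q ∧ p ∈ v :: (C i ++ [t]) ∧ q ∈ v :: (C i ++ [t]) ∧
      z ∈ segment ℝ (pos p) (pos q) ∧ ∃ l₁ l₂, v :: (C i ++ [t]) = l₁ ++ p :: q :: l₂ := by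
  have hp := hF.path i hi
  rcases hC : C i with _ | ⟨w, l⟩
  · exact absurd hC (hF.ne i hi)
  · rw [hC] at h1 hp
    exact mem_trace_iff v w (l ++ [t]) hp z h1

/-- a vertex on two different chains is `v` or `t` -/
private theorem C3_common {A : V → V → Prop} {k : ℕ} {v t : V}
    {C : ℕ → List V} (hF : Fam A k v t C) {i j : ℕ} (hi : i < k) (hj : j < k) (hij : i ≠ j)
    {w : V} (h1 : w ∈ v :: (C i ++ [t])) (h2 : w ∈ v :: (C j ++ [t])) : w = v ∨ w = t := by
  rcases List.mem_cons.1 h1 with h | h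
  · exact Or.inl h
  rcases List.mem_append.1 h with h | h
  · rcases List.mem_cons.1 h2 with h' | h'
    · exact Or.inl h'
    rcases List.mem_append.1 h' with h' | h'
    · exact absurd h' (hF.disj i j hi hj hij w h)
    · exact Or.inr (List.mem_singleton.1 h')
  · exact Or.inr (List.mem_singleton.1 h)

/-- `v` is below `t` -/
private theorem C3_lt {A : V → V → Prop} {pos : V → ℝ × ℝ} (hP : PUp A pos) {k : ℕ} {v t : V}
    {C : ℕ → List V} (hF : Fam A k v t C) {i : ℕ} (hi : i < k) : (pos v).2 < (pos t).2 := by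
  rcases hC : C i with _ | ⟨w, l⟩
  · exact absurd hC (hF.ne i hi)
  · have hw : w ∈ C i := by rw [hC]; exact List.mem_cons_self
    have h := fam_y hP hF hi hw
    exact h.1.trans h.2

/-- If `z` is on two different chains, then `z` is the point of `v` or of `t`.  (By
`mem_trace_iff` it is on an edge of each; if these edges are different, planarity gives a common
endpoint, which can only be `v` or `t`; if they are equal, both endpoints are in both chains, so the
edge is `v → t`, excluded by `fam_not_direct`.) -/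
theorem trace_inter {A : V → V → Prop} {pos : V → ℝ × ℝ} (hP : PUp A pos) {k : ℕ} {v t : V}
    {C : ℕ → List V} (hF : Fam A k v t C) {i j : ℕ} (hi : i < k) (hj : j < k) (hij : i ≠ j)
    {z : ℝ × ℝ} (h1 : z ∈ trace pos (v :: (C i ++ [t]))) (h2 : z ∈ trace pos (v :: (C j ++ [t]))) :
    z = pos v ∨ z = pos t := by
  obtain ⟨p, q, hA, hp, hq, hz, l₁, l₂, hl⟩ := C3_edge hF hi h1
  obtain ⟨p', q', hA', hp', hq', hz', -⟩ := C3_edge hF hj h2
  by_cases he : (p, q) = (p', q')
  · exfalso
    obtain ⟨rfl, rfl⟩ := Prod.mk.inj he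
    have hvt := C3_lt hP hF hi
    have hpq := hP.up p q hA
    have hne : v ≠ t := by
      rintro rfl
      exact lt_irrefl _ hvt
    rcases C3_common hF hi hj hij hp hp' with rfl | rfl
    · rcases C3_common hF hi hj hij hq hq' with rfl | rfl
      · exact lt_irrefl _ hpq
      · exact fam_not_direct hF hne hi hl
    · rcases C3_common hF hi hj hij hq hq' with rfl | rfl
      · exact lt_asymm hpq hvt
      · exact lt_irrefl _ hpq
  · obtain ⟨w, hw1, hw2, hw3⟩ := hP.planar p q p' q' hA hA' he z hz hz'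
    have h3 : w ∈ v :: (C i ++ [t]) := by
      rcases hw1 with rfl | rfl
      · exact hp
      · exact hq
    have h4 : w ∈ v :: (C j ++ [t]) := by
      rcases hw2 with rfl | rfl
      · exact hp'
      · exact hq'
    rcases C3_common hF hi hj hij h3 h4 with rfl | rfl
    · exact Or.inl hw3
    · exact Or.inr hw3

/-- An edge whose endpoints are not on the chain `i` (nor `v`, `t`) does not meet the chain. -/
theorem edge_avoids {A : V → V → Prop} {pos : V → ℝ × ℝ} (hP : PUp A pos) {k : ℕ} {v t : V}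
    {C : ℕ → List V} (hF : Fam A k v t C) {i : ℕ} (hi : i < k) {p q : V} (hpq : A p q ∨ A q p)
    (hp : p ≠ v ∧ p ≠ t ∧ p ∉ C i) (hq : q ≠ v ∧ q ≠ t ∧ q ∉ C i)
    {z : ℝ × ℝ} (h1 : z ∈ trace pos (v :: (C i ++ [t]))) : z ∉ segment ℝ (pos p) (pos q) := by
  intro h2
  obtain ⟨a, b, hA, ha, hb, hz, -⟩ := C3_edge hF hi h1
  have hp' : p ∉ v :: (C i ++ [t]) := by
    intro h
    rcases List.mem_cons.1 h with h | h
    · exact hp.1 h
    rcases List.mem_append.1 h with h | h
    · exact hp.2.2 h
    · exact hp.2.1 (List.mem_singleton.1 h)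
  have hq' : q ∉ v :: (C i ++ [t]) := by
    intro h
    rcases List.mem_cons.1 h with h | h
    · exact hq.1 h
    rcases List.mem_append.1 h with h | h
    · exact hq.2.2 h
    · exact hq.2.1 (List.mem_singleton.1 h)
  rcases hpq with hpq | hpq
  · have hne : (p, q) ≠ (a, b) := by
      intro he
      exact hp' ((Prod.mk.inj he).1 ▸ ha)
    obtain ⟨w, hw1, hw2, -⟩ := hP.planar p q a b hpq hA hne z h2 hz
    have h4 : w ∈ v :: (C i ++ [t]) := by
      rcases hw2 with rfl | rfl
      · exact ha
      · exact hb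
    rcases hw1 with rfl | rfl
    · exact hp' h4
    · exact hq' h4
  · have hne : (q, p) ≠ (a, b) := by
      intro he
      exact hq' ((Prod.mk.inj he).1 ▸ ha)
    rw [segment_symm] at h2
    obtain ⟨w, hw1, hw2, -⟩ := hP.planar q p a b hpq hA hne z h2 hz
    have h4 : w ∈ v :: (C i ++ [t]) := by
      rcases hw2 with rfl | rfl
      · exact ha
      · exact hb
    rcases hw1 with rfl | rfl
    · exact hq' h4
    · exact hp' h4

end Pool.Agent.Lib.MP_be4430_lc
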