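import Pool.Agent.Lib.MP_be4430_lc.C3_Disjoint

/-! # The chains are linearly ordered from left to right -/

namespace Pool.Agent.Lib.MP_be4430_lc

variable {V : Type}

private theorem C4y_seg {pos : V → ℝ × ℝ} {u w : V} {y : ℝ} (h0 : (pos u).2 < (pos w).2)
    (h1 : (pos u).2 ≤ y) (h2 : y ≤ (pos w).2) :
    ((pos u).1 + sl pos u w * (y - (pos u).2), y) ∈ segment ℝ (pos u) (pos w) := by
  have hd : 0 < (pos w).2 - (pos u).2 := by linarith
  have he : ((y - (pos u).2) / ((pos w).2 - (pos u).2)) * ((pos w).2 - (pos u).2) =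
      y - (pos u).2 := div_mul_cancel₀ _ hd.ne'
  obtain ⟨θ, hθ⟩ : ∃ θ, θ = (y - (pos u).2) / ((pos w).2 - (pos u).2) := ⟨_, rfl⟩
  rw [← hθ] at he
  have hθ0 : 0 ≤ θ := by rw [hθ]; exact div_nonneg (by linarith) hd.le
  have hθ1 : θ ≤ 1 := by rw [hθ, div_le_one hd]; linarith
  refine ⟨1 - θ, θ, by linarith, hθ0, by ring, ?_⟩
  apply Prod.ext
  · show (1 - θ) * (pos u).1 + θ * (pos w).1 = (pos u).1 + sl pos u w * (y - (pos u).2)
    have h3 : sl pos u w * (y - (pos u).2) = θ * ((pos w).1 - (pos u).1) := by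
      unfold sl
      rw [hθ]
      ring
    rw [h3]
    ring
  · show (1 - θ) * (pos u).2 + θ * (pos w).2 = y
    linarith

/-- the function of a chain near `v` -/
private theorem C4y_head {A : V → V → Prop} {pos : V → ℝ × ℝ} (hP : PUp A pos) {k : ℕ} {v t : V}
    {C : ℕ → List V} (hF : Fam A k v t C) {f : ℕ → ℝ → ℝ} (hf : Funs pos k v t C f) {i : ℕ}
    (hi : i < k) :
    ∃ b, (pos v).2 < b ∧ b < (pos t).2 ∧ ∀ y, (pos v).2 ≤ y → y ≤ b →
      f i y = (pos v).1 + sl pos v ((C i).headD t) * (y - (pos v).2) := by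
  obtain ⟨w, l, hw⟩ := List.exists_cons_of_ne_nil (hF.ne i hi)
  have hy := fam_y hP hF hi (u := w) (by rw [hw]; exact List.mem_cons_self ..)
  refine ⟨(pos w).2, hy.1, hy.2, fun y h1 h2 => ?_⟩
  have h3 := C4y_seg hy.1 h1 h2
  have h4 := segment_subset_trace_head v w (l ++ [t]) h3
  have h5 := hf.on i hi (z := ((pos v).1 + sl pos v w * (y - (pos v).2), y)) (by
    rw [hw]
    exact h4)
  rw [hw]
  exact h5.symm

/-- the function of a chain near `t` -/
private theorem C4y_last {A : V → V → Prop} {pos : V → ℝ × ℝ} (hP : PUp A pos) {k : ℕ} {v t : V}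
    {C : ℕ → List V} (hF : Fam A k v t C) {f : ℕ → ℝ → ℝ} (hf : Funs pos k v t C f) {i : ℕ}
    (hi : i < k) :
    ∃ b, (pos v).2 < b ∧ b < (pos t).2 ∧ ∀ y, b ≤ y → y ≤ (pos t).2 →
      f i y = (pos t).1 - sl pos ((C i).getLastD v) t * ((pos t).2 - y) := by
  obtain ⟨l, w, hw⟩ := (C i).eq_nil_or_concat.resolve_left (hF.ne i hi)
  have hy := fam_y hP hF hi (u := w) (by rw [hw]; simp)
  refine ⟨(pos w).2, hy.1, hy.2, fun y h1 h2 => ?_⟩
  have h3 := C4y_seg hy.2 h1 h2
  have h4 := segment_subset_trace_last (v :: l) w t h3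
  have h5 := hf.on i hi (z := ((pos w).1 + sl pos w t * (y - (pos w).2), y)) (by
    rw [hw]
    have : v :: (l.concat w ++ [t]) = v :: l ++ [w, t] := by simp
    rw [this]
    exact h4)
  have h6 : (C i).getLastD v = w := by
    rw [hw]
    simp
  rw [h6, ← h5]
  show (pos w).1 + sl pos w t * (y - (pos w).2) = _
  have h7 : sl pos w t * ((pos t).2 - (pos w).2) = (pos t).1 - (pos w).1 := by
    unfold sl
    exact div_mul_cancel₀ _ (by linarith [hy.2])
  linarith

/-- left of = smaller slope at `v` -/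
theorem LtF.first {A : V → V → Prop} {pos : V → ℝ × ℝ} (hP : PUp A pos) {k : ℕ} {v t : V}
    {C : ℕ → List V} (hF : Fam A k v t C) {f : ℕ → ℝ → ℝ} (hf : Funs pos k v t C f) {i j : ℕ}
    (hi : i < k) (hj : j < k) (h : LtF pos v t f i j) :
    sl pos v ((C i).headD t) < sl pos v ((C j).headD t) := by
  obtain ⟨b1, p1, q1, r1⟩ := C4y_head hP hF hf hi
  obtain ⟨b2, p2, q2, r2⟩ := C4y_head hP hF hf hj
  have h1 : (pos v).2 < min b1 b2 := lt_min p1 p2
  have h2 := h (min b1 b2) h1 ((min_le_left _ _).trans_lt q1)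
  rw [r1 _ h1.le (min_le_left _ _), r2 _ h1.le (min_le_right _ _)] at h2
  have h3 : 0 < min b1 b2 - (pos v).2 := by linarith
  by_contra hcon
  have h4 := mul_le_mul_of_nonneg_right (not_lt.1 hcon) h3.le
  linarith

/-- left of = larger slope at `t` -/
theorem LtF.last {A : V → V → Prop} {pos : V → ℝ × ℝ} (hP : PUp A pos) {k : ℕ} {v t : V}
    {C : ℕ → List V} (hF : Fam A k v t C) {f : ℕ → ℝ → ℝ} (hf : Funs pos k v t C f) {i j : ℕ}
    (hi : i < k) (hj : j < k) (h : LtF pos v t f i j) :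
    sl pos ((C j).getLastD v) t < sl pos ((C i).getLastD v) t := by
  obtain ⟨b1, p1, q1, r1⟩ := C4y_last hP hF hf hi
  obtain ⟨b2, p2, q2, r2⟩ := C4y_last hP hF hf hj
  have h1 : max b1 b2 < (pos t).2 := max_lt q1 q2
  have h2 := h (max b1 b2) (p1.trans_le (le_max_left _ _)) h1
  rw [r1 _ (le_max_left _ _) h1.le, r2 _ (le_max_right _ _) h1.le] at h2
  have h3 : 0 < (pos t).2 - max b1 b2 := by linarith
  by_contra hcon
  have h4 := mul_le_mul_of_nonneg_right (not_lt.1 hcon) h3.le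
  linarith

end Pool.Agent.Lib.MP_be4430_lc
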