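import Pool.Agent.Lib.MP_be4430_lc.C4x_Order
import Pool.Agent.Lib.MP_be4430_lc.C4y_Slopes

/-! # The chains are linearly ordered from left to right -/
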