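import Pool.Agent.Lib.MP_be4430_lc.C3_Disjoint

/-! # The chains are linearly ordered from left to right -/

namespace Pool.Agent.Lib.MP_be4430_lc

variable {V : Type}

private theorem C4x_ne {A : V → V → Prop} {pos : V → ℝ × ℝ} (hP : PUp A pos) {k : ℕ} {v t : V}
    {C : ℕ → List V} (hF : Fam A k v t C) {f : ℕ → ℝ → ℝ} (hf : Funs pos k v t C f) {i j : ℕ}
    (hi : i < k) (hj : j < k) (hij : i ≠ j) {y : ℝ} (h1 : (pos v).2 < y) (h2 : y < (pos t).2) :
    f i y ≠ f j y := by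
  intro h
  have m1 := hf.mem i hi y h1.le h2.le
  have m2 := hf.mem j hj y h1.le h2.le
  rw [← h] at m2
  rcases trace_inter hP hF hi hj hij m1 m2 with h3 | h3
  · rw [← h3] at h1
    exact lt_irrefl _ h1
  · rw [← h3] at h2
    exact lt_irrefl _ h2

/-- (`f i - f j` is continuous and has no zero on the open interval, by `trace_inter`; the interval
is preconnected) -/
theorem ltF_or_gtF {A : V → V → Prop} {pos : V → ℝ × ℝ} (hP : PUp A pos) {k : ℕ} {v t : V}
    {C : ℕ → List V} (hF : Fam A k v t C) {f : ℕ → ℝ → ℝ} (hf : Funs pos k v t C f) {i j : ℕ}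
    (hi : i < k) (hj : j < k) (hij : i ≠ j) : LtF pos v t f i j ∨ LtF pos v t f j i := by
  by_contra hcon
  rw [not_or] at hcon
  obtain ⟨hc1, hc2⟩ := hcon
  unfold LtF at hc1 hc2
  push Not at hc1 hc2
  obtain ⟨y1, a1, b1, c1⟩ := hc1
  obtain ⟨y2, a2, b2, c2⟩ := hc2
  obtain ⟨y, hy, he⟩ := isPreconnected_Ioo.intermediate_value₂
    (s := Set.Ioo (pos v).2 (pos t).2) ⟨a2, b2⟩ ⟨a1, b1⟩
    (hf.cont i hi).continuousOn (hf.cont j hj).continuousOn c2 c1
  exact C4x_ne hP hF hf hi hj hij hy.1 hy.2 he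

theorem LtF.asymm {pos : V → ℝ × ℝ} {v t : V} {f : ℕ → ℝ → ℝ} {i j : ℕ}
    (hvt : (pos v).2 < (pos t).2) (h : LtF pos v t f i j) (h' : LtF pos v t f j i) : False := by
  obtain ⟨y, h1, h2⟩ := exists_between hvt
  exact lt_asymm (h y h1 h2) (h' y h1 h2)

end Pool.Agent.Lib.MP_be4430_lc
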