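import Pool.Agent.Lib.MP_be4430_lc.C3_Disjoint

/-! # A path cannot leave the region between two chains -/

namespace Pool.Agent.Lib.MP_be4430_lc

variable {V : Type}

/-- the region between two chains is open -/
private theorem C5_open {pos : V → ℝ × ℝ} {k : ℕ} {v t : V} {C : ℕ → List V} {f : ℕ → ℝ → ℝ}
    (hf : Funs pos k v t C f) {i j : ℕ} (hi : i < k) (hj : j < k) :
    IsOpen {z | InReg pos v t f i j z} := by
  have h1 : IsOpen {z : ℝ × ℝ | (pos v).2 < z.2} := isOpen_lt continuous_const continuous_snd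
  have h2 : IsOpen {z : ℝ × ℝ | z.2 < (pos t).2} := isOpen_lt continuous_snd continuous_const
  have h3 : IsOpen {z : ℝ × ℝ | f i z.2 < z.1} :=
    isOpen_lt ((hf.cont i hi).comp continuous_snd) continuous_fst
  have h4 : IsOpen {z : ℝ × ℝ | z.1 < f j z.2} :=
    isOpen_lt continuous_fst ((hf.cont j hj).comp continuous_snd)
  exact h1.inter (h2.inter (h3.inter h4))

/-- a point of the closure of the region between the chains `i` and `j` that is not in the region
itself lies on one of the two chains -/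
theorem frontier_region {pos : V → ℝ × ℝ} {k : ℕ} {v t : V} {C : ℕ → List V} {f : ℕ → ℝ → ℝ}
    (hf : Funs pos k v t C f) {i j : ℕ} (hi : i < k) (hj : j < k) (hvt : (pos v).2 < (pos t).2)
    (hvi : f i (pos v).2 = (pos v).1) (hvj : f j (pos v).2 = (pos v).1)
    (hti : f i (pos t).2 = (pos t).1) (htj : f j (pos t).2 = (pos t).1) :
    frontier {z | InReg pos v t f i j z} ⊆
      trace pos (v :: (C i ++ [t])) ∪ trace pos (v :: (C j ++ [t])) := by
  intro z hz
  have hopen := C5_open (v := v) (t := t) hf hi hj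
  rw [hopen.frontier_eq] at hz
  obtain ⟨hz1, hz2⟩ := hz
  -- the closed region
  have h1 : IsClosed {z : ℝ × ℝ | (pos v).2 ≤ z.2} := isClosed_le continuous_const continuous_snd
  have h2 : IsClosed {z : ℝ × ℝ | z.2 ≤ (pos t).2} := isClosed_le continuous_snd continuous_const
  have h3 : IsClosed {z : ℝ × ℝ | f i z.2 ≤ z.1} :=
    isClosed_le ((hf.cont i hi).comp continuous_snd) continuous_fst
  have h4 : IsClosed {z : ℝ × ℝ | z.1 ≤ f j z.2} :=
    isClosed_le continuous_fst ((hf.cont j hj).comp continuous_snd)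
  have hcl := h1.inter (h2.inter (h3.inter h4))
  have hsub : {z | InReg pos v t f i j z} ⊆ {z : ℝ × ℝ | (pos v).2 ≤ z.2} ∩
      ({z : ℝ × ℝ | z.2 ≤ (pos t).2} ∩ ({z : ℝ × ℝ | f i z.2 ≤ z.1} ∩
        {z : ℝ × ℝ | z.1 ≤ f j z.2})) := by
    intro w hw
    exact ⟨hw.1.le, hw.2.1.le, hw.2.2.1.le, hw.2.2.2.le⟩
  obtain ⟨g1, g2, g3, g4⟩ := closure_minimal hsub hcl hz1
  change (pos v).2 ≤ z.2 at g1
  change z.2 ≤ (pos t).2 at g2
  change f i z.2 ≤ z.1 at g3
  change z.1 ≤ f j z.2 at g4
  by_cases c3 : f i z.2 = z.1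
  · left
    have h := hf.mem i hi z.2 g1 g2
    rw [c3] at h
    exact h
  by_cases c4 : f j z.2 = z.1
  · right
    have h := hf.mem j hj z.2 g1 g2
    rw [c4] at h
    exact h
  exfalso
  have g3' : f i z.2 < z.1 := lt_of_le_of_ne g3 c3
  have g4' : z.1 < f j z.2 := lt_of_le_of_ne g4 (Ne.symm c4)
  rcases g1.lt_or_eq with g1' | g1'
  · rcases g2.lt_or_eq with g2' | g2'
    · exact hz2 ⟨g1', g2', g3', g4'⟩
    · rw [g2', hti] at g3'
      rw [g2', htj] at g4'
      exact lt_asymm g3' g4'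
  · rw [← g1', hvi] at g3'
    rw [← g1', hvj] at g4'
    exact lt_asymm g3' g4'

/-- One step of a path of free vertices stays in the region (the segment is connected and does not
meet the frontier of the region, by `edge_avoids`). -/
theorem step_trapped {A : V → V → Prop} {pos : V → ℝ × ℝ} (hP : PUp A pos) {k : ℕ} {v t : V}
    {C : ℕ → List V} (hF : Fam A k v t C) {f : ℕ → ℝ → ℝ} (hf : Funs pos k v t C f) {i j : ℕ}
    (hi : i < k) (hj : j < k) {p q : V} (hpq : A p q ∨ A q p)
    (hp : p ≠ v ∧ p ≠ t ∧ p ∉ C i ∧ p ∉ C j) (hq : q ≠ v ∧ q ≠ t ∧ q ∉ C i ∧ q ∉ C j)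
    (h : InReg pos v t f i j (pos p)) : InReg pos v t f i j (pos q) := by
  have hvt : (pos v).2 < (pos t).2 := h.1.trans h.2.1
  have hv : ∀ n, n < k → f n (pos v).2 = (pos v).1 := by
    intro n hn
    exact (hf.on n hn (pos v) (mem_trace_of_mem List.mem_cons_self)).symm
  have ht : ∀ n, n < k → f n (pos t).2 = (pos t).1 := by
    intro n hn
    refine (hf.on n hn (pos t) (mem_trace_of_mem ?_)).symm
    exact List.mem_cons_of_mem _ (List.mem_append_right _ (List.mem_singleton.2 rfl))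
  have hfr := frontier_region hf hi hj hvt (hv i hi) (hv j hj) (ht i hi) (ht j hj)
  have hopen := C5_open (v := v) (t := t) hf hi hj
  have hseg : segment ℝ (pos p) (pos q) ⊆ {z | InReg pos v t f i j z} := by
    apply IsPreconnected.subset_left_of_subset_union hopen
      (isClosed_closure (s := {z | InReg pos v t f i j z})).isOpen_compl
    · rw [Set.disjoint_left]
      intro z hz hz'
      exact hz' (subset_closure hz)
    · intro z hz
      by_cases hz1 : z ∈ {z | InReg pos v t f i j z}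
      · exact Or.inl hz1
      · right
        intro hz2
        have hz3 : z ∈ frontier {z | InReg pos v t f i j z} := by
          rw [hopen.frontier_eq]
          exact ⟨hz2, hz1⟩
        rcases hfr hz3 with hz4 | hz4
        · exact edge_avoids hP hF hi hpq ⟨hp.1, hp.2.1, hp.2.2.1⟩ ⟨hq.1, hq.2.1, hq.2.2.1⟩ hz4 hz
        · exact edge_avoids hP hF hj hpq ⟨hp.1, hp.2.1, hp.2.2.2⟩ ⟨hq.1, hq.2.1, hq.2.2.2⟩ hz4 hz
    · exact ⟨pos p, left_mem_segment ℝ _ _, h⟩
    · exact (convex_segment (pos p) (pos q)).isPreconnected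
  exact hseg (right_mem_segment ℝ _ _)

/-- An anchored vertex is in no region between two other chains. -/
theorem Anch.not_inReg {A : V → V → Prop} {pos : V → ℝ × ℝ} (hP : PUp A pos) {k : ℕ} {v t : V}
    {C : ℕ → List V} (hF : Fam A k v t C) {f : ℕ → ℝ → ℝ} (hf : Funs pos k v t C f) {a i j : ℕ}
    (hi : i < k) (hj : j < k) (hia : i ≠ a) (hja : j ≠ a) {p : V} (h : Anch A pos k v t C a p) :
    ¬ InReg pos v t f i j (pos p) := by
  have hfree : ∀ z, Anch A pos k v t C a z → z ≠ v ∧ z ≠ t ∧ z ∉ C i ∧ z ∉ C j := by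
    intro z hz
    cases hz with
    | far _ h1 _ => exact ⟨h1.1, h1.2.1, h1.2.2 i hi hia, h1.2.2 j hj hja⟩
    | step _ _ h1 _ _ => exact ⟨h1.1, h1.2.1, h1.2.2 i hi hia, h1.2.2 j hj hja⟩
  induction h with
  | far z h1 h2 =>
    intro hz
    rcases h2 with h2 | h2
    · exact lt_asymm h2 hz.1
    · exact lt_asymm h2 hz.2.1
  | step p q h1 h2 h3 ih =>
    intro hp
    exact ih (step_trapped hP hF hf hi hj h2 ⟨h1.1, h1.2.1, h1.2.2 i hi hia, h1.2.2 j hj hja⟩
      (hfree q h3) hp)

end Pool.Agent.Lib.MP_be4430_lc
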