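import Pool.Agent.Lib.MP_be4430_lc.C1_Fun
import Pool.Agent.Lib.MP_be4430_lc.C4_Order
import Pool.Agent.Lib.MP_be4430_lc.C5_Trap

/-! # The cell lemma -/

namespace Pool.Agent.Lib.MP_be4430_lc

variable {V : Type}

/-- an anchored chain is the leftmost or the rightmost one -/
theorem extreme {A : V → V → Prop} {pos : V → ℝ × ℝ} (hP : PUp A pos) {k : ℕ} {v t : V}
    {C : ℕ → List V} (hF : Fam A k v t C) {f : ℕ → ℝ → ℝ} (hf : Funs pos k v t C f) {a : ℕ}
    (ha : a < k) (hA : ∃ u ∈ C a, Anch A pos k v t C a u) :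
    (∀ j, j < k → j ≠ a → LtF pos v t f a j) ∨ (∀ j, j < k → j ≠ a → LtF pos v t f j a) := by
  by_contra hcon
  push Not at hcon
  obtain ⟨⟨j, hj, hja, hj'⟩, ⟨i, hi, hia, hi'⟩⟩ := hcon
  obtain ⟨u, hu, hanch⟩ := hA
  have h1 : LtF pos v t f j a := by
    rcases ltF_or_gtF hP hF hf ha hj (Ne.symm hja) with h | h
    · exact absurd h hj'
    · exact h
  have h2 : LtF pos v t f a i := by
    rcases ltF_or_gtF hP hF hf ha hi (Ne.symm hia) with h | h
    · exact h
    · exact absurd h hi'
  obtain ⟨hy1, hy2⟩ := fam_y hP hF ha hu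
  have hmem : u ∈ v :: (C a ++ [t]) := by simp [hu]
  have hon : (pos u).1 = f a (pos u).2 := hf.on a ha _ (mem_trace_of_mem hmem)
  refine Anch.not_inReg hP hF hf hj hi hja hia hanch ⟨hy1, hy2, ?_, ?_⟩
  · rw [hon]; exact h1 _ hy1 hy2
  · rw [hon]; exact h2 _ hy1 hy2

private theorem C6_first_edge {A : V → V → Prop} {k : ℕ} {v t : V}
    {C : ℕ → List V} (hF : Fam A k v t C) {j : ℕ} (hj : j < k) : A v ((C j).headD t) := by
  have h := hF.path j hj
  have hne := hF.ne j hj
  cases hC : C j with
  | nil => exact absurd hC hne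
  | cons x l =>
    rw [hC] at h
    simp only [List.cons_append, List.isChain_cons_cons] at h
    simpa using h.1

private theorem C6_last_edge {A : V → V → Prop} {k : ℕ} {v t : V}
    {C : ℕ → List V} (hF : Fam A k v t C) {j : ℕ} (hj : j < k) : A ((C j).getLastD v) t := by
  have h := hF.path j hj
  have hne := hF.ne j hj
  rcases List.eq_nil_or_concat (C j) with hC | ⟨l, x, hC⟩
  · exact absurd hC hne
  · rw [hC] at h ⊢
    have h' : List.IsChain A ((v :: l) ++ [x, t]) := by simpa using h
    have h2 : List.IsChain A [x, t] := (List.isChain_append.1 h').2.1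
    simpa using h2

/-- **Cell lemma.** `k` internally disjoint chains from `v` to `t`, at most `k` slopes, two of the
chains anchored: these two are the extreme ones, and their first and last edges have the extreme
slopes. -/
theorem cell_lemma {A : V → V → Prop} {pos : V → ℝ × ℝ} (hP : PUp A pos) {k : ℕ} {v t : V}
    {C : ℕ → List V} (hF : Fam A k v t C) (S : Finset ℝ) (hS : S.card ≤ k)
    (hsl : ∀ u w, A u w → sl pos u w ∈ S) {a b : ℕ} (ha : a < k) (hb : b < k) (hab : a ≠ b)
    (hA : ∃ u ∈ C a, Anch A pos k v t C a u) (hB : ∃ u ∈ C b, Anch A pos k v t C b u)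
    {lo hi : ℝ} (hlo : IsLeast (S : Set ℝ) lo) (hhi : IsGreatest (S : Set ℝ) hi) :
    CellState pos v t C a b lo hi ∨ CellState pos v t C a b hi lo := by
  obtain ⟨f, hf⟩ := fam_funs hP hF
  have hvt : (pos v).2 < (pos t).2 := by
    obtain ⟨u, hu, -⟩ := hA
    obtain ⟨h1, h2⟩ := fam_y hP hF ha hu
    exact h1.trans h2
  -- the first slopes fill `S`
  have hinj1 : Set.InjOn (fun j => sl pos v ((C j).headD t)) (Finset.range k : Set ℕ) := by
    intro i hi' j hj' hij
    have hi1 : i < k := by simpa using hi'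
    have hj1 : j < k := by simpa using hj'
    by_contra hne
    have hij' : sl pos v ((C i).headD t) = sl pos v ((C j).headD t) := hij
    rcases ltF_or_gtF hP hF hf hi1 hj1 hne with h | h
    · exact absurd hij' (ne_of_lt (LtF.first hP hF hf hi1 hj1 h))
    · exact absurd hij'.symm (ne_of_lt (LtF.first hP hF hf hj1 hi1 h))
  have hinj2 : Set.InjOn (fun j => sl pos ((C j).getLastD v) t) (Finset.range k : Set ℕ) := by
    intro i hi' j hj' hij
    have hi1 : i < k := by simpa using hi'
    have hj1 : j < k := by simpa using hj'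
    by_contra hne
    have hij' : sl pos ((C i).getLastD v) t = sl pos ((C j).getLastD v) t := hij
    rcases ltF_or_gtF hP hF hf hi1 hj1 hne with h | h
    · exact absurd hij'.symm (ne_of_lt (LtF.last hP hF hf hi1 hj1 h))
    · exact absurd hij' (ne_of_lt (LtF.last hP hF hf hj1 hi1 h))
  have hsurj1 : ∀ s ∈ S, ∃ j, j < k ∧ sl pos v ((C j).headD t) = s := by
    have hmaps : Set.MapsTo (fun j => sl pos v ((C j).headD t)) (Finset.range k : Set ℕ)
        (S : Set ℝ) := by
      intro j hj
      have hj1 : j < k := by simpa using hj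
      exact hsl _ _ (C6_first_edge hF hj1)
    have hs := Finset.surjOn_of_injOn_of_card_le (fun j => sl pos v ((C j).headD t)) hmaps hinj1
      (by simpa using hS)
    intro s hs'
    obtain ⟨j, hj, hjs⟩ := hs hs'
    exact ⟨j, by simpa using hj, hjs⟩
  have hsurj2 : ∀ s ∈ S, ∃ j, j < k ∧ sl pos ((C j).getLastD v) t = s := by
    have hmaps : Set.MapsTo (fun j => sl pos ((C j).getLastD v) t) (Finset.range k : Set ℕ)
        (S : Set ℝ) := by
      intro j hj
      have hj1 : j < k := by simpa using hj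
      exact hsl _ _ (C6_last_edge hF hj1)
    have hs := Finset.surjOn_of_injOn_of_card_le (fun j => sl pos ((C j).getLastD v) t) hmaps hinj2
      (by simpa using hS)
    intro s hs'
    obtain ⟨j, hj, hjs⟩ := hs hs'
    exact ⟨j, by simpa using hj, hjs⟩
  -- slopes of the leftmost chain
  have hleft : ∀ c, c < k → (∀ j, j < k → j ≠ c → LtF pos v t f c j) →
      sl pos v ((C c).headD t) = lo ∧ sl pos ((C c).getLastD v) t = hi := by
    intro c hc hcl
    constructor
    · apply le_antisymm
      · obtain ⟨j, hj, hjs⟩ := hsurj1 lo hlo.1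
        rcases eq_or_ne j c with h | h
        · rw [← h, hjs]
        · rw [← hjs]
          exact (LtF.first hP hF hf hc hj (hcl j hj h)).le
      · exact hlo.2 (hsl _ _ (C6_first_edge hF hc))
    · apply le_antisymm
      · exact hhi.2 (hsl _ _ (C6_last_edge hF hc))
      · obtain ⟨j, hj, hjs⟩ := hsurj2 hi hhi.1
        rcases eq_or_ne j c with h | h
        · rw [← h, hjs]
        · rw [← hjs]
          exact (LtF.last hP hF hf hc hj (hcl j hj h)).le
  have hright : ∀ c, c < k → (∀ j, j < k → j ≠ c → LtF pos v t f j c) →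
      sl pos v ((C c).headD t) = hi ∧ sl pos ((C c).getLastD v) t = lo := by
    intro c hc hcl
    constructor
    · apply le_antisymm
      · exact hhi.2 (hsl _ _ (C6_first_edge hF hc))
      · obtain ⟨j, hj, hjs⟩ := hsurj1 hi hhi.1
        rcases eq_or_ne j c with h | h
        · rw [← h, hjs]
        · rw [← hjs]
          exact (LtF.first hP hF hf hj hc (hcl j hj h)).le
    · apply le_antisymm
      · obtain ⟨j, hj, hjs⟩ := hsurj2 lo hlo.1
        rcases eq_or_ne j c with h | h
        · rw [← h, hjs]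
        · rw [← hjs]
          exact (LtF.last hP hF hf hj hc (hcl j hj h)).le
      · exact hlo.2 (hsl _ _ (C6_last_edge hF hc))
  rcases extreme hP hF hf ha hA with hal | har
  · rcases extreme hP hF hf hb hB with hbl | hbr
    · exact (LtF.asymm hvt (hal b hb (Ne.symm hab)) (hbl a ha hab)).elim
    · left
      obtain ⟨h1, h2⟩ := hleft a ha hal
      obtain ⟨h3, h4⟩ := hright b hb hbr
      exact ⟨h1, h2, h3, h4⟩
  · rcases extreme hP hF hf hb hB with hbl | hbr
    · right
      obtain ⟨h1, h2⟩ := hright a ha har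
      obtain ⟨h3, h4⟩ := hleft b hb hbl
      exact ⟨h1, h2, h3, h4⟩
    · exact (LtF.asymm hvt (har b hb (Ne.symm hab)) (hbr a ha hab)).elim

end Pool.Agent.Lib.MP_be4430_lc
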