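import Pool.Agent.Lib.MP_be4430_lc.Basic

/-!
# Families of `y`-monotone chains between two vertices: definitions
-/

namespace Pool.Agent.Lib.MP_be4430_lc

variable {V : Type}

/-- the polygonal line through the points of a list of vertices -/
def trace (pos : V → ℝ × ℝ) : List V → Set (ℝ × ℝ)
  | [] => ∅
  | [u] => {pos u}
  | u :: v :: l => segment ℝ (pos u) (pos v) ∪ trace pos (v :: l)

/-- `k` internally disjoint chains `v → C j → t`, `j < k` (each with at least one inner vertex) -/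
structure Fam (A : V → V → Prop) (k : ℕ) (v t : V) (C : ℕ → List V) : Prop where
  ne : ∀ j, j < k → C j ≠ []
  path : ∀ j, j < k → List.IsChain A (v :: (C j ++ [t]))
  nv : ∀ j, j < k → v ∉ C j
  nt : ∀ j, j < k → t ∉ C j
  disj : ∀ i j, i < k → j < k → i ≠ j → ∀ u ∈ C i, u ∉ C j

/-- `f j` describes the `j`-th chain as the graph of a function of `y` -/
structure Funs (pos : V → ℝ × ℝ) (k : ℕ) (v t : V) (C : ℕ → List V) (f : ℕ → ℝ → ℝ) : Prop where
  cont : ∀ j, j < k → Continuous (f j)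
  on : ∀ j, j < k → ∀ z ∈ trace pos (v :: (C j ++ [t])), z.1 = f j z.2
  mem : ∀ j, j < k → ∀ y, (pos v).2 ≤ y → y ≤ (pos t).2 →
    (f j y, y) ∈ trace pos (v :: (C j ++ [t]))

/-- chain `i` lies to the left of chain `j` -/
def LtF (pos : V → ℝ × ℝ) (v t : V) (f : ℕ → ℝ → ℝ) (i j : ℕ) : Prop :=
  ∀ y, (pos v).2 < y → y < (pos t).2 → f i y < f j y

/-- `z` lies strictly between the chains `i` and `j` -/
def InReg (pos : V → ℝ × ℝ) (v t : V) (f : ℕ → ℝ → ℝ) (i j : ℕ) (z : ℝ × ℝ) : Prop :=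
  (pos v).2 < z.2 ∧ z.2 < (pos t).2 ∧ f i z.2 < z.1 ∧ z.1 < f j z.2

/-- `p` is not `v`, `t` and not on any chain other than the chain `a` -/
def Free (k : ℕ) (v t : V) (C : ℕ → List V) (a : ℕ) (p : V) : Prop :=
  p ≠ v ∧ p ≠ t ∧ ∀ j, j < k → j ≠ a → p ∉ C j

/-- `p` is joined, by a path of free vertices, to a vertex lower than `v` or higher than `t` -/
inductive Anch (A : V → V → Prop) (pos : V → ℝ × ℝ) (k : ℕ) (v t : V) (C : ℕ → List V) (a : ℕ) :
    V → Prop
  | far (z : V) : Free k v t C a z → ((pos z).2 < (pos v).2 ∨ (pos t).2 < (pos z).2) →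
      Anch A pos k v t C a z
  | step (p q : V) : Free k v t C a p → (A p q ∨ A q p) → Anch A pos k v t C a q →
      Anch A pos k v t C a p

/-- slopes of the first and last edges of the chains `a` and `b` -/
def CellState (pos : V → ℝ × ℝ) (v t : V) (C : ℕ → List V) (a b : ℕ) (lo hi : ℝ) : Prop :=
  sl pos v ((C a).headD t) = lo ∧ sl pos ((C a).getLastD v) t = hi ∧
    sl pos v ((C b).headD t) = hi ∧ sl pos ((C b).getLastD v) t = lo

end Pool.Agent.Lib.MP_be4430_lc
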