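import Pool.Agent.Lib.MP_be4430_lc.Graph
import Pool.Agent.Lib.MP_be4430_lc.Chains

/-!
# The chains of the cells of the graph: definitions
-/

namespace Pool.Agent.Lib.MP_be4430_lc

/-- inner vertices of the left chain of a cell -/
def lch (ts : List Trp) : Rct → List Vtx
  | .FL g n => [.c g (n + 1)]
  | .CO g i => (List.range' (pp ts g i + 1) (pp ts g (i + 1) - pp ts g i)).map fun n => .d g n
  | .FR g n => [.s g n]
  | .LK g => [.O g, .c g 1]
  | _ => []

/-- inner vertices of the right chain of a cell -/
def rch (ts : List Trp) : Rct → List Vtx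
  | .FL g n => [.d g n]
  | .CO g i => ((List.range' (qq ts g (i + 1) + 1)
      (qq ts g i - qq ts g (i + 1))).reverse).map fun n => .s g n
  | .FR g n => [.r g (n + 1)]
  | .LK g => [.G (g - 1), .b (g - 1)]
  | _ => []

/-- the chains of a cell: `0` is the left one, `1` the right one, `2, …, m` the inner ones -/
def chains (ts : List Trp) (C : Rct) : ℕ → List Vtx
  | 0 => lch ts C
  | 1 => rch ts C
  | j => [.nn C j, .ww C j]

/-- the state of a cell: the four outer slopes are `lo, hi, hi, lo` -/
def Normal (ts : List Trp) (pos : Vtx → ℝ × ℝ) (lo hi : ℝ) (C : Rct) : Prop :=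
  CellState pos (cv ts C) (ct ts C) (chains ts C) 0 1 lo hi

end Pool.Agent.Lib.MP_be4430_lc
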