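import Pool.Agent.Lib.MP_be4430_lc.D5_Collinear

/-! # The fans: the `n`-th edge has the `n`-th largest slope -/

namespace Pool.Agent.Lib.MP_be4430_lc

variable {V : Type}

/-- fan out of `O`: the slopes decrease strictly and are larger than `lo` -/
theorem fan_out {A : V → V → Prop} {pos : V → ℝ × ℝ} (hP : PUp A pos) {lo : ℝ}
    (hlo : ∀ u w, A u w → lo ≤ sl pos u w) {m : ℕ} (hm : 2 ≤ m) {O : V} {c : ℕ → V}
    (hc : ∀ i j, 1 ≤ i → i < j → j ≤ m → c i ≠ c j)
    (h1 : ∀ n, 1 ≤ n → n ≤ m → A O (c n)) (h2 : ∀ n, 1 ≤ n → n < m → A (c n) (c (n + 1)))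
    (h3 : ∀ n, 1 ≤ n → n < m → sl pos (c n) (c (n + 1)) = lo) :
    (∀ n, 1 ≤ n → n < m → sl pos O (c (n + 1)) < sl pos O (c n)) ∧
      ∀ n, 1 ≤ n → n ≤ m → lo < sl pos O (c n) := by
  have key : ∀ n, 1 ≤ n → n < m → lo < sl pos O (c (n + 1)) ∧
      sl pos O (c (n + 1)) < sl pos O (c n) := by
    intro n hn1 hn2
    have hne : O ≠ c n := by
      intro h
      have h5 := hP.up _ _ (h1 n hn1 hn2.le)
      rw [← h] at h5
      exact lt_irrefl _ h5
    have hcc : c n ≠ c (n + 1) := hc n (n + 1) hn1 (Nat.lt_succ_self n) hn2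
    rcases triangle_lt hP (h1 n hn1 hn2.le) (h2 n hn1 hn2) (h1 (n + 1) (by omega) (by omega))
      hne hcc with ⟨h6, h7⟩ | ⟨h6, h7⟩
    · have h8 := hlo _ _ (h1 n hn1 hn2.le)
      rw [h3 n hn1 hn2] at h7
      linarith
    · rw [h3 n hn1 hn2] at h6
      exact ⟨h6, h7⟩
  refine ⟨fun n hn1 hn2 => (key n hn1 hn2).2, ?_⟩
  intro n hn1 hn2
  rcases Nat.lt_or_ge 1 n with h | h
  · have h5 := (key (n - 1) (by omega) (by omega)).1
    have h6 : n - 1 + 1 = n := by omega
    rwa [h6] at h5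
  · have h5 : n = 1 := by omega
    subst h5
    have h6 := key 1 le_rfl (by omega)
    linarith [h6.1, h6.2]

/-- fan into `G`: the slopes decrease strictly and are larger than `lo` -/
theorem fan_in {A : V → V → Prop} {pos : V → ℝ × ℝ} (hP : PUp A pos) {lo : ℝ}
    (hlo : ∀ u w, A u w → lo ≤ sl pos u w) {m : ℕ} (hm : 2 ≤ m) {G : V} {r : ℕ → V}
    (hr : ∀ i j, 1 ≤ i → i < j → j ≤ m → r i ≠ r j)
    (h1 : ∀ n, 1 ≤ n → n ≤ m → A (r n) G) (h2 : ∀ n, 1 ≤ n → n < m → A (r (n + 1)) (r n))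
    (h3 : ∀ n, 1 ≤ n → n < m → sl pos (r (n + 1)) (r n) = lo) :
    (∀ n, 1 ≤ n → n < m → sl pos (r (n + 1)) G < sl pos (r n) G) ∧
      ∀ n, 1 ≤ n → n ≤ m → lo < sl pos (r n) G := by
  have key : ∀ n, 1 ≤ n → n < m → lo < sl pos (r (n + 1)) G ∧
      sl pos (r (n + 1)) G < sl pos (r n) G := by
    intro n hn1 hn2
    have hne : r n ≠ G := by
      intro h
      have h5 := hP.up _ _ (h1 n hn1 hn2.le)
      rw [h] at h5
      exact lt_irrefl _ h5
    have hcc : r (n + 1) ≠ r n := (hr n (n + 1) hn1 (Nat.lt_succ_self n) hn2).symm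
    rcases triangle_lt hP (h2 n hn1 hn2) (h1 n hn1 hn2.le) (h1 (n + 1) (by omega) (by omega))
      hcc hne with ⟨h6, h7⟩ | ⟨h6, h7⟩
    · rw [h3 n hn1 hn2] at h6
      exact ⟨h6, h7⟩
    · have h8 := hlo _ _ (h1 n hn1 hn2.le)
      rw [h3 n hn1 hn2] at h7
      linarith
  refine ⟨fun n hn1 hn2 => (key n hn1 hn2).2, ?_⟩
  intro n hn1 hn2
  rcases Nat.lt_or_ge 1 n with h | h
  · have h5 := (key (n - 1) (by omega) (by omega)).1
    have h6 : n - 1 + 1 = n := by omega
    rwa [h6] at h5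
  · have h5 : n = 1 := by omega
    subst h5
    have h6 := key 1 le_rfl (by omega)
    linarith [h6.1, h6.2]

/-- a sequence decreasing on `1, …, m` is strictly decreasing there -/
private theorem D7_anti {m : ℕ} {σ : ℕ → ℝ} (h1 : ∀ n, 1 ≤ n → n < m → σ (n + 1) < σ n) :
    ∀ d n, 1 ≤ n → n + d + 1 ≤ m → σ (n + d + 1) < σ n := by
  intro d
  induction d with
  | zero => intro n hn1 hn2; exact h1 n hn1 hn2
  | succ d ih =>
    intro n hn1 hn2
    have h3 := ih n hn1 (by omega)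
    have h4 := h1 (n + d + 1) (by omega) (by omega)
    have h5 : n + (d + 1) + 1 = n + d + 1 + 1 := by ring
    rw [h5]
    linarith

/-- the reversed sequence as a strictly monotone map -/
private theorem D7_mono {m : ℕ} {σ : ℕ → ℝ} (h1 : ∀ n, 1 ≤ n → n < m → σ (n + 1) < σ n) :
    StrictMono (fun i : Fin m => σ (m - i.val)) := by
  intro i j hij
  have h2 : i.val < j.val := hij
  have hj := j.isLt
  have h3 := D7_anti h1 (m - i.val - (m - j.val) - 1) (m - j.val) (by omega) (by omega)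
  have h4 : m - j.val + (m - i.val - (m - j.val) - 1) + 1 = m - i.val := by omega
  rw [h4] at h3
  exact h3

/-- two strictly decreasing sequences of length `m` in `S \ {lo}`, `|S| ≤ m + 1`, are equal, and
their first term is the maximum of `S` -/
theorem seq_unique {S : Finset ℝ} {m : ℕ} (hm : 1 ≤ m) (hS : S.card ≤ m + 1) {lo hi : ℝ}
    (hloS : lo ∈ S) (hhi : IsGreatest (S : Set ℝ) hi) {σ τ : ℕ → ℝ}
    (h1 : ∀ n, 1 ≤ n → n < m → σ (n + 1) < σ n) (h2 : ∀ n, 1 ≤ n → n ≤ m → lo < σ n ∧ σ n ∈ S)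
    (h3 : ∀ n, 1 ≤ n → n < m → τ (n + 1) < τ n) (h4 : ∀ n, 1 ≤ n → n ≤ m → lo < τ n ∧ τ n ∈ S) :
    (∀ n, 1 ≤ n → n ≤ m → σ n = τ n) ∧ σ 1 = hi := by
  classical
  have hmσ := D7_mono h1
  have hmτ := D7_mono h3
  have hσT : ∀ i : Fin m, σ (m - i.val) ∈ S.erase lo := by
    intro i
    have hi' := i.isLt
    have h5 := h2 (m - i.val) (by omega) (by omega)
    exact Finset.mem_erase.2 ⟨h5.1.ne', h5.2⟩
  have hτT : ∀ i : Fin m, τ (m - i.val) ∈ S.erase lo := by
    intro i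
    have hi' := i.isLt
    have h5 := h4 (m - i.val) (by omega) (by omega)
    exact Finset.mem_erase.2 ⟨h5.1.ne', h5.2⟩
  have hc1 : (S.erase lo).card ≤ m := by
    rw [Finset.card_erase_of_mem hloS]
    omega
  have hc2 : m ≤ (S.erase lo).card := by
    have h5 : (Finset.univ.image (fun i : Fin m => σ (m - i.val))).card = m := by
      rw [Finset.card_image_of_injective _ hmσ.injective]
      simp
    calc m = (Finset.univ.image (fun i : Fin m => σ (m - i.val))).card := h5.symm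
      _ ≤ (S.erase lo).card := by
        apply Finset.card_le_card
        intro x hx
        rcases Finset.mem_image.1 hx with ⟨i, -, rfl⟩
        exact hσT i
  have hc : (S.erase lo).card = m := le_antisymm hc1 hc2
  have e1 := Finset.orderEmbOfFin_unique hc hσT hmσ
  have e2 := Finset.orderEmbOfFin_unique hc hτT hmτ
  have e3 : ∀ n, 1 ≤ n → n ≤ m → σ n = τ n := by
    intro n hn1 hn2
    have h5 : (fun i : Fin m => σ (m - i.val)) = (fun i : Fin m => τ (m - i.val)) := by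
      rw [e1, e2]
    have h6 := congrFun h5 ⟨m - n, by omega⟩
    have h7 : m - (m - n) = n := by omega
    simp only [h7] at h6
    exact h6
  refine ⟨e3, ?_⟩
  -- `σ 1` is the largest
  have hS1 : σ 1 ∈ S := (h2 1 le_rfl hm).2
  have hle : σ 1 ≤ hi := hhi.2 hS1
  have hlo1 : lo < hi := lt_of_lt_of_le (h2 1 le_rfl hm).1 hle
  have hhiT : hi ∈ S.erase lo := Finset.mem_erase.2 ⟨hlo1.ne', hhi.1⟩
  have himg : Finset.univ.image (fun i : Fin m => σ (m - i.val)) = S.erase lo := by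
    apply Finset.eq_of_subset_of_card_le
    · intro x hx
      rcases Finset.mem_image.1 hx with ⟨i, -, rfl⟩
      exact hσT i
    · rw [Finset.card_image_of_injective _ hmσ.injective, hc]
      simp
  rw [← himg] at hhiT
  rcases Finset.mem_image.1 hhiT with ⟨i, -, h5⟩
  have hlt := i.isLt
  apply le_antisymm hle
  rw [← h5]
  rcases Nat.lt_or_ge 1 (m - i.val) with h6 | h6
  · have h7 := D7_anti h1 (m - i.val - 2) 1 le_rfl (by omega)
    have h8 : 1 + (m - i.val - 2) + 1 = m - i.val := by omega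
    rw [h8] at h7
    exact h7.le
  · have h7 : m - i.val = 1 := by omega
    simp only [h7]
    exact le_rfl

end Pool.Agent.Lib.MP_be4430_lc
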