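import Pool.Agent.Lib.MP_be4430_lc.Graph

/-! # The linear algebra of one gadget -/

namespace Pool.Agent.Lib.MP_be4430_lc

variable {V : Type}

private theorem D8_sl_eq {V : Type} {pos : V → ℝ × ℝ} {u v : V} {σ : ℝ}
    (hy : (pos u).2 < (pos v).2) (h : sl pos u v = σ) :
    (pos v).1 - (pos u).1 = σ * ((pos v).2 - (pos u).2) := by
  have h0 : (pos v).2 - (pos u).2 ≠ 0 := (sub_pos.mpr hy).ne'
  rw [← h, sl, div_mul_cancel₀ _ h0]

/-- For a chain `O → c n → d n → s → r n' → G` with slopes `σ n, hi, hi, hi, σ n'`: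
`φ(G) - φ(O) = l · x n + u · x n'` where `φ(x,y) = hi·y - x`, `ψ(x,y) = x - lo·y`,
`l = ψ(c n) - ψ(O)`, `u = ψ(G) - ψ(r n')`, `x n = (hi - σ n)/(σ n - lo)`. -/
theorem chain_eq {pos : V → ℝ × ℝ} {O c d s r G : V} {lo hi σ τ : ℝ}
    (yOc : (pos O).2 < (pos c).2) (ycd : (pos c).2 < (pos d).2) (yds : (pos d).2 < (pos s).2)
    (ysr : (pos s).2 < (pos r).2) (yrG : (pos r).2 < (pos G).2)
    (h1 : sl pos O c = σ) (h2 : sl pos c d = hi) (h3 : sl pos d s = hi) (h4 : sl pos s r = hi)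
    (h5 : sl pos r G = τ) (hσ : lo < σ) (hτ : lo < τ) :
    (hi * (pos G).2 - (pos G).1) - (hi * (pos O).2 - (pos O).1) =
      (((pos c).1 - lo * (pos c).2) - ((pos O).1 - lo * (pos O).2)) * ((hi - σ) / (σ - lo)) +
      (((pos G).1 - lo * (pos G).2) - ((pos r).1 - lo * (pos r).2)) * ((hi - τ) / (τ - lo)) := by
  have e1 := D8_sl_eq yOc h1
  have e2 := D8_sl_eq ycd h2
  have e3 := D8_sl_eq yds h3
  have e4 := D8_sl_eq ysr h4
  have e5 := D8_sl_eq yrG h5
  have a1 : σ - lo ≠ 0 := (sub_pos.mpr hσ).ne'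
  have a2 : τ - lo ≠ 0 := (sub_pos.mpr hτ).ne'
  have b1 : (((pos c).1 - lo * (pos c).2) - ((pos O).1 - lo * (pos O).2)) =
      ((pos c).2 - (pos O).2) * (σ - lo) := by linear_combination e1
  have b2 : (((pos G).1 - lo * (pos G).2) - ((pos r).1 - lo * (pos r).2)) =
      ((pos G).2 - (pos r).2) * (τ - lo) := by linear_combination e5
  rw [b1, b2, mul_assoc, mul_assoc, mul_div_cancel₀ _ a1, mul_div_cancel₀ _ a2]
  linear_combination -e1 - e2 - e3 - e4 - e5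

/-- `ψ` is constant along edges of slope `lo` and increases along edges of larger slope -/
theorem psi_const {pos : V → ℝ × ℝ} {u v : V} {lo : ℝ} (hy : (pos u).2 < (pos v).2)
    (h : sl pos u v = lo) :
    (pos v).1 - lo * (pos v).2 = (pos u).1 - lo * (pos u).2 := by
  have e1 := D8_sl_eq hy h
  linear_combination e1

theorem psi_pos {pos : V → ℝ × ℝ} {u v : V} {lo : ℝ} (hy : (pos u).2 < (pos v).2)
    (h : lo < sl pos u v) :
    0 < ((pos v).1 - lo * (pos v).2) - ((pos u).1 - lo * (pos u).2) := by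
  have e1 := D8_sl_eq hy rfl
  have h2 : ((pos v).1 - lo * (pos v).2) - ((pos u).1 - lo * (pos u).2) =
      (sl pos u v - lo) * ((pos v).2 - (pos u).2) := by linear_combination e1
  rw [h2]
  exact mul_pos (sub_pos.mpr h) (sub_pos.mpr hy)

/-- real multipliers can be replaced by rational ones -/
theorem trpHolds_of_real {m : ℕ} {t : Trp} (ht : TrpOK m t) {x : ℕ → ℚ}
    (hx : ∀ n, 1 ≤ n → n < m → x n < x (n + 1)) {l u : ℝ} (hl : 0 < l) (hu : 0 < u)
    (h1 : l * x t.1.1 + u * x t.2.1 = l * x t.1.2.1 + u * x t.2.2.1)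
    (h2 : l * x t.1.1 + u * x t.2.1 = l * x t.1.2.2 + u * x t.2.2.2) : TrpHolds x t := by
  obtain ⟨⟨p0, p1, p2⟩, ⟨q0, q1, q2⟩⟩ := t
  obtain ⟨a1, a2, a3, a4, b1, b2, b3, b4⟩ := ht
  simp only at a1 a2 a3 a4 b1 b2 b3 b4 h1 h2
  have mono : ∀ i j, 1 ≤ i → i < j → j ≤ m → x i < x j := by
    intro i j hi hij
    induction j, hij using Nat.le_induction with
    | base => intro hj; exact hx i hi (by omega)
    | succ k hk ih => intro hj; exact (ih (by omega)).trans (hx k (by omega) (by omega))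
  have c1 : x p0 < x p1 := mono _ _ a1 a2 (by omega)
  have c2 : x q1 < x q0 := mono _ _ (by omega) b3 b4
  have d1 : l * ((x p1 - x p0 : ℚ) : ℝ) = u * ((x q0 - x q1 : ℚ) : ℝ) := by
    push_cast; linear_combination -h1
  have d2 : l * ((x p2 - x p0 : ℚ) : ℝ) = u * ((x q0 - x q2 : ℚ) : ℝ) := by
    push_cast; linear_combination -h2
  refine ⟨x q0 - x q1, x p1 - x p0, sub_pos.mpr c2, sub_pos.mpr c1, ?_, ?_⟩
  · simp only; ring
  · simp only
    have key : ((x q0 - x q1 : ℚ) : ℝ) * ((x p2 - x p0 : ℚ) : ℝ) =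
        ((x p1 - x p0 : ℚ) : ℝ) * ((x q0 - x q2 : ℚ) : ℝ) := by
      have hlu : l * u ≠ 0 := (mul_pos hl hu).ne'
      apply mul_left_cancel₀ hlu
      calc l * u * (((x q0 - x q1 : ℚ) : ℝ) * ((x p2 - x p0 : ℚ) : ℝ))
          = (u * ((x q0 - x q1 : ℚ) : ℝ)) * (l * ((x p2 - x p0 : ℚ) : ℝ)) := by ring
        _ = (l * ((x p1 - x p0 : ℚ) : ℝ)) * (u * ((x q0 - x q2 : ℚ) : ℝ)) := by rw [d1, d2]
        _ = _ := by ring
    have key' : (x q0 - x q1) * (x p2 - x p0) = (x p1 - x p0) * (x q0 - x q2) := by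
      exact_mod_cast key
    linear_combination -key'

/-- `(hi - σ)/(σ - lo)` increases when `σ > lo` decreases -/
theorem ratio_lt {lo hi σ τ : ℝ} (hh : lo < hi) (h1 : lo < τ) (h2 : τ < σ) :
    (hi - σ) / (σ - lo) < (hi - τ) / (τ - lo) := by
  have a1 : 0 < σ - lo := by linarith
  have a2 : 0 < τ - lo := by linarith
  rw [div_lt_div_iff₀ a1 a2]
  nlinarith [mul_pos (sub_pos.mpr h2) (sub_pos.mpr hh)]

end Pool.Agent.Lib.MP_be4430_lc
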