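import Pool.Agent.Lib.MP_be4430_lc.D6_Prop
import Pool.Agent.Lib.MP_be4430_lc.D7_Fan
import Pool.Agent.Lib.MP_be4430_lc.D8_Algebra

/-! # A drawing with all cells normal gives a solution of the T-system -/

namespace Pool.Agent.Lib.MP_be4430_lc

/-- one gadget: the equations of the `g`-th constraint hold for
`x n = (hi - σ n)/(σ n - lo)`, `σ n` the slope of `O 1 → c 1 n` -/
theorem gadget_eqs {m : ℕ} {ts : List Trp} (h : TValid m ts) {pos : Vtx → ℝ × ℝ}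
    (hP : PUp (Edge m ts) pos) (S : Finset ℝ) (hS : S.card ≤ m + 1)
    (hsl : ∀ u w, Edge m ts u w → sl pos u w ∈ S) {lo hi : ℝ} (hlo : IsLeast (S : Set ℝ) lo)
    (hhi : IsGreatest (S : Set ℝ) hi)
    (hN : ∀ C, Cok m ts.length C → Normal ts pos lo hi C)
    {g : ℕ} (h1 : 1 ≤ g) (h2 : g ≤ ts.length) :
    ∃ l u K : ℝ, 0 < l ∧ 0 < u ∧ ∀ i, i < 3 →
      l * ((hi - sl pos (.O 1) (.c 1 (pp ts g i))) / (sl pos (.O 1) (.c 1 (pp ts g i)) - lo)) +
      u * ((hi - sl pos (.O 1) (.c 1 (qq ts g i))) / (sl pos (.O 1) (.c 1 (qq ts g i)) - lo)) =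
      K := by
  have hm := three_le h
  have hl := one_le_length h
  have hlos : ∀ u w, Edge m ts u w → lo ≤ sl pos u w := fun u w e => hlo.2 (hsl u w e)
  obtain ⟨s1, s2, s3, s4, s5⟩ := slopes_of_normal h hN (g := 1) le_rfl hl
  obtain ⟨t1, t2, t3, t4, t5⟩ := slopes_of_normal h hN (g := g) h1 h2
  obtain ⟨hdec1, hgt1⟩ := fan_out (A := Edge m ts) hP hlos (m := m) (by omega) (O := .O 1)
    (c := fun n => .c 1 n) (fun i j _ hij _ he => by simp at he; omega)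
    (fun n a b => .Oc 1 n le_rfl hl a b) (fun n a b => .cc 1 n le_rfl hl a b) s1
  obtain ⟨hdecg, hgtg⟩ := fan_out (A := Edge m ts) hP hlos (m := m) (by omega) (O := .O g)
    (c := fun n => .c g n) (fun i j _ hij _ he => by simp at he; omega)
    (fun n a b => .Oc g n h1 h2 a b) (fun n a b => .cc g n h1 h2 a b) t1
  obtain ⟨hdecr, hgtr⟩ := fan_in (A := Edge m ts) hP hlos (m := m) (by omega) (G := .G g)
    (r := fun n => .r g n) (fun i j _ hij _ he => by simp at he; omega)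
    (fun n a b => .rG g n h2 a b) (fun n a b => .rr g n h2 a b) t5
  have e1 : ∀ n, 1 ≤ n → n ≤ m → sl pos (.O g) (.c g n) = sl pos (.O 1) (.c 1 n) :=
    (seq_unique (by omega) hS hlo.1 hhi hdecg
      (fun n a b => ⟨hgtg n a b, hsl _ _ (.Oc g n h1 h2 a b)⟩) hdec1
      (fun n a b => ⟨hgt1 n a b, hsl _ _ (.Oc 1 n le_rfl hl a b)⟩)).1
  have e2 : ∀ n, 1 ≤ n → n ≤ m → sl pos (.r g n) (.G g) = sl pos (.O 1) (.c 1 n) :=
    (seq_unique (by omega) hS hlo.1 hhi hdecr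
      (fun n a b => ⟨hgtr n a b, hsl _ _ (.rG g n h2 a b)⟩) hdec1
      (fun n a b => ⟨hgt1 n a b, hsl _ _ (.Oc 1 n le_rfl hl a b)⟩)).1
  have c1 : ∀ n, 1 ≤ n → n ≤ m → (pos (.c g n)).1 - lo * (pos (.c g n)).2 =
      (pos (.c g 1)).1 - lo * (pos (.c g 1)).2 := by
    intro n hn
    induction n, hn using Nat.le_induction with
    | base => intro _; rfl
    | succ k hk ih =>
      intro hk2
      rw [psi_const (hP.up _ _ (.cc g k h1 h2 hk (by omega))) (t1 k hk (by omega)),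
        ih (by omega)]
  have r1 : ∀ n, 1 ≤ n → n ≤ m → (pos (.r g n)).1 - lo * (pos (.r g n)).2 =
      (pos (.r g 1)).1 - lo * (pos (.r g 1)).2 := by
    intro n hn
    induction n, hn using Nat.le_induction with
    | base => intro _; rfl
    | succ k hk ih =>
      intro hk2
      rw [← psi_const (hP.up _ _ (.rr g k h2 hk (by omega))) (t5 k hk (by omega)),
        ih (by omega)]
  obtain ⟨o1, o2, o3, o4, o5, o6, o7, o8⟩ := pp_qq_order h h1 h2
  refine ⟨((pos (.c g 1)).1 - lo * (pos (.c g 1)).2) - ((pos (.O g)).1 - lo * (pos (.O g)).2),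
    ((pos (.G g)).1 - lo * (pos (.G g)).2) - ((pos (.r g 1)).1 - lo * (pos (.r g 1)).2),
    (hi * (pos (.G g)).2 - (pos (.G g)).1) - (hi * (pos (.O g)).2 - (pos (.O g)).1),
    psi_pos (hP.up _ _ (.Oc g 1 h1 h2 le_rfl (by omega))) (hgtg 1 le_rfl (by omega)),
    psi_pos (hP.up _ _ (.rG g 1 h2 le_rfl (by omega))) (hgtr 1 le_rfl (by omega)), ?_⟩
  intro i hi3
  have hp : 1 ≤ pp ts g i ∧ pp ts g i ≤ m := by
    interval_cases i <;> omega
  have hq : 1 ≤ qq ts g i ∧ qq ts g i ≤ m := by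
    interval_cases i <;> omega
  have key := chain_eq (pos := pos) (O := .O g) (c := .c g (pp ts g i)) (d := .d g (pp ts g i))
    (s := .s g (qq ts g i)) (r := .r g (qq ts g i)) (G := .G g) (lo := lo) (hi := hi)
    (hP.up _ _ (.Oc g _ h1 h2 hp.1 hp.2)) (hP.up _ _ (.cd g _ h1 h2 hp.1 hp.2))
    (hP.up _ _ (.ds g i h1 h2 hi3)) (hP.up _ _ (.sr g _ h1 h2 hq.1 hq.2))
    (hP.up _ _ (.rG g _ h2 hq.1 hq.2)) (e1 _ hp.1 hp.2) (t2 _ hp.1 hp.2) (t3 i hi3)
    (t4 _ hq.1 hq.2) (e2 _ hq.1 hq.2) (hgt1 _ hp.1 hp.2) (hgt1 _ hq.1 hq.2)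
  rw [c1 _ hp.1 hp.2, r1 _ hq.1 hq.2] at key
  exact key.symm

end Pool.Agent.Lib.MP_be4430_lc
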