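import Pool.Agent.Lib.MP_be4430_lc.D6_Prop
import Pool.Agent.Lib.MP_be4430_lc.D7_Fan
import Pool.Agent.Lib.MP_be4430_lc.D8_Algebra
import Pool.Agent.Lib.MP_be4430_lc.D9x_Eqs

/-! # A drawing with all cells normal gives a solution of the T-system -/

namespace Pool.Agent.Lib.MP_be4430_lc

theorem tSat_of_normal {m : ℕ} {ts : List Trp} (h : TValid m ts) {pos : Vtx → ℝ × ℝ}
    (hP : PUp (Edge m ts) pos) (S : Finset ℝ) (hS : S.card ≤ m + 1)
    (hsl : ∀ u w, Edge m ts u w → sl pos u w ∈ S) {lo hi : ℝ} (hlo : IsLeast (S : Set ℝ) lo)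
    (hhi : IsGreatest (S : Set ℝ) hi) (hrat : ∀ u w, Edge m ts u w → ∃ q : ℚ, sl pos u w = q)
    (hN : ∀ C, Cok m ts.length C → Normal ts pos lo hi C) : TSat m ts := by
  have hm := three_le h
  have hl := one_le_length h
  have hlos : ∀ u w, Edge m ts u w → lo ≤ sl pos u w := fun u w e => hlo.2 (hsl u w e)
  obtain ⟨s1, s2, s3, s4, s5⟩ := slopes_of_normal h hN (g := 1) le_rfl hl
  -- the fan of `O 1`
  obtain ⟨hdec, hgt⟩ := fan_out (A := Edge m ts) hP hlos (m := m) (by omega) (O := .O 1)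
    (c := fun n => .c 1 n) (fun i j _ hij _ he => by simp at he; omega)
    (fun n a b => .Oc 1 n le_rfl hl a b) (fun n a b => .cc 1 n le_rfl hl a b) s1
  -- rational slopes
  have hσ : ∀ n, ∃ q : ℚ, 1 ≤ n → n ≤ m → sl pos (.O 1) (.c 1 n) = q := by
    intro n
    by_cases hn : 1 ≤ n ∧ n ≤ m
    · obtain ⟨q, hq⟩ := hrat _ _ (Edge.Oc 1 n le_rfl hl hn.1 hn.2)
      exact ⟨q, fun _ _ => hq⟩
    · exact ⟨0, fun a b => absurd ⟨a, b⟩ hn⟩
  choose σ hσ using hσ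
  obtain ⟨a, ha⟩ := hrat _ _ (Edge.cc (m := m) (ts := ts) 1 1 le_rfl hl le_rfl (by omega))
  obtain ⟨b, hb⟩ := hrat _ _ (Edge.cd (m := m) (ts := ts) 1 1 le_rfl hl le_rfl (by omega))
  have hla : lo = a := by rw [← s1 1 le_rfl (by omega), ← ha]
  have hhb : hi = b := by rw [← s2 1 le_rfl (by omega), ← hb]
  have hlohi : lo < hi := lt_of_lt_of_le (hgt 1 le_rfl (by omega))
    (hhi.2 (hsl _ _ (Edge.Oc 1 1 le_rfl hl le_rfl (by omega))))
  have hx : ∀ n, 1 ≤ n → n < m → (b - σ n) / (σ n - a) < (b - σ (n + 1)) / (σ (n + 1) - a) := by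
    intro n h1 h2
    have e1 := hσ n h1 h2.le
    have e2 := hσ (n + 1) (by omega) h2
    have r := ratio_lt hlohi (hgt (n + 1) (by omega) h2) (hdec n h1 h2)
    rw [e1, e2, hla, hhb] at r
    exact_mod_cast r
  refine ⟨fun n => (b - σ n) / (σ n - a), hx, ?_⟩
  intro t ht
  obtain ⟨i, hi', hti⟩ := List.getElem_of_mem ht
  have hg : ts.getD (i + 1 - 1) ((1, 2, 3), (3, 2, 1)) = t := by
    simp [hi', ← hti]
  have hok := h.ok t ht
  obtain ⟨l, u, K, hl', hu', heq⟩ := gadget_eqs h hP S hS hsl hlo hhi hN (g := i + 1)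
    (by omega) (by omega)
  have e0 := heq 0 (by omega)
  have e1 := heq 1 (by omega)
  have e2 := heq 2 (by omega)
  simp only [pp, qq, hg, tri] at e0 e1 e2
  obtain ⟨o1, o2, o3, o4, o5, o6, o7, o8⟩ := hok
  rw [hσ _ (by omega) (by omega), hσ _ (by omega) (by omega), hla, hhb] at e0 e1 e2
  refine trpHolds_of_real (h.ok t ht) hx hl' hu' ?_ ?_
  · push_cast
    rw [e0, e1]
  · push_cast
    rw [e0, e2]

end Pool.Agent.Lib.MP_be4430_lc
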