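import Pool.Agent.Lib.MP_be4430_lc.D9x_Eqs
import Pool.Agent.Lib.MP_be4430_lc.D9y_TSat

/-! # A drawing with all cells normal gives a solution of the T-system -/
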