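import Pool.Agent.Lib.MP_be4430_lc.D3_Dich
import Pool.Agent.Lib.MP_be4430_lc.D9_Gadget
import Pool.Agent.Lib.MP_be4430_lc.A5_Clear

/-! # Soundness: a drawing with at most `m + 1` slopes gives a solution of the T-system -/

namespace Pool.Agent.Lib.MP_be4430_lc

variable {V : Type}

private def reflMap : (ℝ × ℝ) →ₗ[ℝ] (ℝ × ℝ) where
  toFun p := (-p.1, p.2)
  map_add' p q := by
    ext
    · simp only [Prod.fst_add]
      ring
    · rfl
  map_smul' c p := by
    ext
    · simp
    · simp

private theorem reflMap_inj : Function.Injective reflMap := by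
  intro p q h
  have h1 := congrArg Prod.fst h
  have h2 := congrArg Prod.snd h
  have h3 : -p.1 = -q.1 := h1
  have h4 : p.2 = q.2 := h2
  ext
  · linarith
  · exact h4

/-- reflection at the `y`-axis -/
theorem pUp_reflect {A : V → V → Prop} {pos : V → ℝ × ℝ} (hP : PUp A pos) :
    PUp A (fun v => (-(pos v).1, (pos v).2)) := by
  refine ⟨fun u v h => hP.up u v h, ?_⟩
  intro u v u' v' h h' hne
  exact meetOK_linear pos reflMap reflMap_inj u v u' v' (hP.planar u v u' v' h h' hne)

theorem sl_reflect (pos : V → ℝ × ℝ) (u v : V) :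
    sl (fun v => (-(pos v).1, (pos v).2)) u v = - sl pos u v := by
  unfold sl
  simp only
  rw [← neg_div]
  congr 1
  ring

end Pool.Agent.Lib.MP_be4430_lc
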