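import Pool.Agent.Lib.MP_be4430_lc.D3_Dich
import Pool.Agent.Lib.MP_be4430_lc.D9_Gadget
import Pool.Agent.Lib.MP_be4430_lc.A5_Clear
import Pool.Agent.Lib.MP_be4430_lc.D10x_Refl

/-! # Soundness: a drawing with at most `m + 1` slopes gives a solution of the T-system -/

namespace Pool.Agent.Lib.MP_be4430_lc

variable {V : Type}

theorem sound {m : ℕ} {ts : List Trp} (h : TValid m ts) {pos : Vtx → ℝ × ℝ}
    (hP : PUp (Edge m ts) pos) (S : Finset ℝ) (hS : S.card ≤ m + 1)
    (hsl : ∀ u w, Edge m ts u w → sl pos u w ∈ S)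
    (hrat : ∀ u w, Edge m ts u w → ∃ q : ℚ, sl pos u w = q) : TSat m ts := by
  have hm := three_le h
  have hN := one_le_length h
  have e1 : Edge m ts (.O 1) (.c 1 1) := .Oc 1 1 le_rfl hN le_rfl (by omega)
  have e2 : Edge m ts (.O 1) (.c 1 2) := .Oc 1 2 le_rfl hN (by omega) (by omega)
  have hne : S.Nonempty := ⟨_, hsl _ _ e1⟩
  have hlo : IsLeast (S : Set ℝ) (S.min' hne) := S.isLeast_min' hne
  have hhi : IsGreatest (S : Set ℝ) (S.max' hne) := S.isGreatest_max' hne
  have hdiff : sl pos (.O 1) (.c 1 1) ≠ sl pos (.O 1) (.c 1 2) :=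
    sl_ne_of_tail hP e1 e2 (by simp)
  have hlh : S.min' hne ≠ S.max' hne := by
    intro heq
    have a1 := S.min'_le _ (hsl _ _ e1)
    have a2 := S.le_max' _ (hsl _ _ e1)
    have a3 := S.min'_le _ (hsl _ _ e2)
    have a4 := S.le_max' _ (hsl _ _ e2)
    apply hdiff
    linarith
  have hLK : Cok m ts.length (.LK 1) := ⟨trivial, le_rfl, hN⟩
  rcases cell_dichotomy h hP S hS hsl hlo hhi (.LK 1) hLK with hn | hn
  · exact tSat_of_normal h hP S hS hsl hlo hhi hrat
      (all_normal h hP hlh (cell_dichotomy h hP S hS hsl hlo hhi) hn)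
  · -- reflect
    set pos' : Vtx → ℝ × ℝ := fun v => (-(pos v).1, (pos v).2) with hpos'
    have hP' : PUp (Edge m ts) pos' := pUp_reflect hP
    have hs' : ∀ u v, sl pos' u v = - sl pos u v := fun u v => sl_reflect pos u v
    set S' : Finset ℝ := S.image fun x => -x with hS'
    have hcard : S'.card ≤ m + 1 := le_trans Finset.card_image_le hS
    have hsl' : ∀ u w, Edge m ts u w → sl pos' u w ∈ S' := by
      intro u w e
      rw [hs']
      exact Finset.mem_image_of_mem _ (hsl u w e)
    have hlo' : IsLeast (S' : Set ℝ) (-(S.max' hne)) := by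
      constructor
      · simp only [hS', Finset.coe_image, Set.mem_image, Finset.mem_coe]
        exact ⟨_, S.max'_mem hne, rfl⟩
      · intro x hx
        simp only [hS', Finset.coe_image, Set.mem_image, Finset.mem_coe] at hx
        obtain ⟨y, hy, rfl⟩ := hx
        have := S.le_max' y hy
        linarith
    have hhi' : IsGreatest (S' : Set ℝ) (-(S.min' hne)) := by
      constructor
      · simp only [hS', Finset.coe_image, Set.mem_image, Finset.mem_coe]
        exact ⟨_, S.min'_mem hne, rfl⟩
      · intro x hx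
        simp only [hS', Finset.coe_image, Set.mem_image, Finset.mem_coe] at hx
        obtain ⟨y, hy, rfl⟩ := hx
        have := S.min'_le y hy
        linarith
    have hn' : Normal ts pos' (-(S.max' hne)) (-(S.min' hne)) (.LK 1) := by
      obtain ⟨a1, a2, a3, a4⟩ := hn
      refine ⟨?_, ?_, ?_, ?_⟩ <;> rw [hs']
      · rw [a1]
      · rw [a2]
      · rw [a3]
      · rw [a4]
    have hlh' : -(S.max' hne) ≠ -(S.min' hne) := by
      intro heq
      exact hlh (by linarith)
    refine tSat_of_normal h hP' S' hcard hsl' hlo' hhi' ?_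
      (all_normal h hP' hlh' (cell_dichotomy h hP' S' hcard hsl' hlo' hhi') hn')
    intro u w e
    obtain ⟨q, hq⟩ := hrat u w e
    exact ⟨-q, by rw [hs', hq]; push_cast; ring⟩

end Pool.Agent.Lib.MP_be4430_lc
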