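import Pool.Agent.Lib.MP_be4430_lc.Cells
import Pool.Agent.Lib.MP_be4430_lc.B2_Ends

/-! # The chains of a cell of kind CO form a family of `m+1` internally disjoint chains -/

namespace Pool.Agent.Lib.MP_be4430_lc

private lemma D1CO_up {V : Type} (A : V → V → Prop) (f : ℕ → V) (t : V) (k : ℕ) :
    ∀ p : ℕ, (∀ n, p ≤ n → n < p + k → A (f n) (f (n + 1))) → A (f (p + k)) t →
      List.IsChain A (f p :: ((List.range' (p + 1) k).map f ++ [t])) := by
  induction k with
  | zero =>
    intro p _ h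
    simpa using h
  | succ k ih =>
    intro p h1 h2
    rw [List.range'_succ, List.map_cons, List.cons_append, List.isChain_cons_cons]
    refine ⟨h1 p le_rfl (by omega), ih (p + 1) (fun n hn hn' => h1 n (by omega) (by omega)) ?_⟩
    rwa [show p + 1 + k = p + (k + 1) by omega]

private lemma D1CO_down {V : Type} (A : V → V → Prop) (f : ℕ → V) (q k : ℕ)
    (h1 : ∀ n, q ≤ n → n < q + k → A (f (n + 1)) (f n)) :
    ∀ v : V, A v (f (q + k)) →
      List.IsChain A (v :: (((List.range' (q + 1) k).reverse).map f ++ [f q])) := by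
  induction k with
  | zero =>
    intro v h
    simpa using h
  | succ k ih =>
    intro v h2
    rw [List.range'_concat, List.reverse_append, List.reverse_singleton, List.singleton_append,
      List.map_cons, List.cons_append, List.isChain_cons_cons]
    have e : q + 1 + 1 * k = q + (k + 1) := by omega
    rw [e]
    refine ⟨h2, ih (fun n hn hn' => h1 n hn (by omega)) _ ?_⟩
    exact h1 (q + k) (by omega) (by omega)

theorem fam_CO {m : ℕ} {ts : List Trp} (h : TValid m ts) (g i : ℕ)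
    (hC : Rok m ts.length (.CO g i)) :
    Fam (Edge m ts) (m + 1) (cv ts (.CO g i)) (ct ts (.CO g i)) (chains ts (.CO g i)) := by
  obtain ⟨⟨hg1, hg2⟩, hi⟩ := hC
  have hCok : Cok m ts.length (.CO g i) := ⟨trivial, ⟨hg1, hg2⟩, hi⟩
  obtain ⟨o1, o2, o3, o4, o5, o6, o7, o8⟩ := pp_qq_order h hg1 hg2
  have hp : 1 ≤ pp ts g i ∧ pp ts g i < pp ts g (i + 1) ∧ pp ts g (i + 1) ≤ m := by
    interval_cases i
    · exact ⟨o1, o2, by show pp ts g 1 ≤ m; omega⟩
    · exact ⟨by omega, o3, o4⟩
  have hq : 1 ≤ qq ts g (i + 1) ∧ qq ts g (i + 1) < qq ts g i ∧ qq ts g i ≤ m := by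
    interval_cases i
    · exact ⟨by show 1 ≤ qq ts g 1; omega, o7, o8⟩
    · exact ⟨o5, o6, by omega⟩
  obtain ⟨p1, p2, p3⟩ := hp
  obtain ⟨q1, q2, q3⟩ := hq
  have m0 : ∀ u ∈ chains ts (.CO g i) 0, ∃ n, pp ts g i < n ∧ u = Vtx.d g n := by
    intro u hu
    obtain ⟨n, hn, rfl⟩ := List.mem_map.1 hu
    rw [List.mem_range'] at hn
    obtain ⟨a, _, rfl⟩ := hn
    exact ⟨_, by omega, rfl⟩
  have m1 : ∀ u ∈ chains ts (.CO g i) 1, ∃ n, qq ts g (i + 1) < n ∧ u = Vtx.s g n := by
    intro u hu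
    obtain ⟨n, hn, rfl⟩ := List.mem_map.1 hu
    rw [List.mem_reverse, List.mem_range'] at hn
    obtain ⟨a, _, rfl⟩ := hn
    exact ⟨_, by omega, rfl⟩
  have m2 : ∀ j, ∀ u ∈ chains ts (.CO g i) (j + 2), u = Vtx.nn (.CO g i) (j + 2) ∨
      u = Vtx.ww (.CO g i) (j + 2) := by
    intro j u hu
    have : u ∈ [Vtx.nn (.CO g i) (j + 2), Vtx.ww (.CO g i) (j + 2)] := hu
    simpa using this
  have hcases : ∀ j : ℕ, j = 0 ∨ j = 1 ∨ ∃ l, j = l + 2 := by
    intro j
    rcases j with _ | _ | l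
    · exact Or.inl rfl
    · exact Or.inr (Or.inl rfl)
    · exact Or.inr (Or.inr ⟨l, rfl⟩)
  refine ⟨?_, ?_, ?_, ?_, ?_⟩
  · intro j _
    rcases hcases j with rfl | rfl | ⟨l, rfl⟩
    · show List.map _ (List.range' _ _) ≠ []
      simp
      omega
    · show List.map _ (List.reverse (List.range' _ _)) ≠ []
      simp
      omega
    · show [_, _] ≠ []
      simp
  · intro j hj
    rcases hcases j with rfl | rfl | ⟨l, rfl⟩
    · refine D1CO_up (Edge m ts) (fun n => Vtx.d g n) (Vtx.s g (qq ts g (i + 1)))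
        (pp ts g (i + 1) - pp ts g i) (pp ts g i) ?_ ?_
      · intro n hn hn'
        exact Edge.dd g n hg1 hg2 (by omega) (by omega)
      · show Edge m ts (Vtx.d g _) _
        rw [show pp ts g i + (pp ts g (i + 1) - pp ts g i) = pp ts g (i + 1) by omega]
        exact Edge.ds g (i + 1) hg1 hg2 (by omega)
    · refine D1CO_down (Edge m ts) (fun n => Vtx.s g n) (qq ts g (i + 1))
        (qq ts g i - qq ts g (i + 1)) ?_ (Vtx.d g (pp ts g i)) ?_
      · intro n hn hn'
        exact Edge.ss g n hg1 hg2 (by omega) (by omega)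
      · show Edge m ts _ (Vtx.s g _)
        rw [show qq ts g (i + 1) + (qq ts g i - qq ts g (i + 1)) = qq ts g i by omega]
        exact Edge.ds g i hg1 hg2 (by omega)
    · show List.IsChain (Edge m ts) [cv ts (.CO g i), Vtx.nn (.CO g i) (l + 2),
        Vtx.ww (.CO g i) (l + 2), ct ts (.CO g i)]
      rw [List.isChain_cons_cons, List.isChain_cons_cons, List.isChain_cons_cons]
      exact ⟨Edge.vn _ _ hCok (by omega) (by omega), Edge.nw _ _ hCok (by omega) (by omega),
        Edge.wt _ _ hCok (by omega) (by omega), List.isChain_singleton _⟩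
  · intro j _ hm
    rcases hcases j with rfl | rfl | ⟨l, rfl⟩
    · obtain ⟨n, hn, he⟩ := m0 _ hm
      have : Vtx.d g (pp ts g i) = Vtx.d g n := he
      injection this
      omega
    · obtain ⟨n, hn, he⟩ := m1 _ hm
      exact Vtx.noConfusion (show Vtx.d g (pp ts g i) = Vtx.s g n from he)
    · rcases m2 _ _ hm with he | he
      · exact Vtx.noConfusion (show Vtx.d g (pp ts g i) = Vtx.nn _ _ from he)
      · exact Vtx.noConfusion (show Vtx.d g (pp ts g i) = Vtx.ww _ _ from he)
  · intro j _ hm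
    rcases hcases j with rfl | rfl | ⟨l, rfl⟩
    · obtain ⟨n, hn, he⟩ := m0 _ hm
      exact Vtx.noConfusion (show Vtx.s g (qq ts g (i + 1)) = Vtx.d g n from he)
    · obtain ⟨n, hn, he⟩ := m1 _ hm
      have : Vtx.s g (qq ts g (i + 1)) = Vtx.s g n := he
      injection this
      omega
    · rcases m2 _ _ hm with he | he
      · exact Vtx.noConfusion (show Vtx.s g (qq ts g (i + 1)) = Vtx.nn _ _ from he)
      · exact Vtx.noConfusion (show Vtx.s g (qq ts g (i + 1)) = Vtx.ww _ _ from he)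
  · intro a b _ _ hab u hu hu'
    rcases hcases a with rfl | rfl | ⟨l, rfl⟩ <;> rcases hcases b with rfl | rfl | ⟨l', rfl⟩
    · exact hab rfl
    · obtain ⟨n, -, e1⟩ := m0 _ hu
      obtain ⟨n', -, e2⟩ := m1 _ hu'
      rw [e1] at e2
      exact Vtx.noConfusion e2
    · obtain ⟨n, -, e1⟩ := m0 _ hu
      rcases m2 _ _ hu' with e2 | e2 <;> rw [e1] at e2 <;> exact Vtx.noConfusion e2
    · obtain ⟨n, -, e1⟩ := m1 _ hu
      obtain ⟨n', -, e2⟩ := m0 _ hu'
      rw [e1] at e2
      exact Vtx.noConfusion e2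
    · exact hab rfl
    · obtain ⟨n, -, e1⟩ := m1 _ hu
      rcases m2 _ _ hu' with e2 | e2 <;> rw [e1] at e2 <;> exact Vtx.noConfusion e2
    · obtain ⟨n, -, e1⟩ := m0 _ hu'
      rcases m2 _ _ hu with e2 | e2 <;> rw [e1] at e2 <;> exact Vtx.noConfusion e2
    · obtain ⟨n, -, e1⟩ := m1 _ hu'
      rcases m2 _ _ hu with e2 | e2 <;> rw [e1] at e2 <;> exact Vtx.noConfusion e2
    · have hne : l + 2 ≠ l' + 2 := hab
      rcases m2 _ _ hu with e1 | e1 <;> rcases m2 _ _ hu' with e2 | e2 <;> rw [e1] at e2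
      · injection e2 with _ h2
        exact hne h2
      · exact Vtx.noConfusion e2
      · exact Vtx.noConfusion e2
      · injection e2 with _ h2
        exact hne h2

end Pool.Agent.Lib.MP_be4430_lc
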