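import Pool.Agent.Lib.MP_be4430_lc.Cells
import Pool.Agent.Lib.MP_be4430_lc.B2_Ends

/-! # The chains of a cell of kind FL form a family of `m+1` internally disjoint chains -/

namespace Pool.Agent.Lib.MP_be4430_lc

theorem fam_FL {m : ℕ} {ts : List Trp} (h : TValid m ts) (g n : ℕ)
    (hC : Rok m ts.length (.FL g n)) :
    Fam (Edge m ts) (m + 1) (cv ts (.FL g n)) (ct ts (.FL g n)) (chains ts (.FL g n)) := by
  have hc : Cok m ts.length (.FL g n) := ⟨trivial, hC⟩
  obtain ⟨⟨h1, h2⟩, h3, h4⟩ := hC
  have c0 : chains ts (.FL g n) 0 = [.c g (n + 1)] := rfl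
  have c1 : chains ts (.FL g n) 1 = [.d g n] := rfl
  have c2 : ∀ j, chains ts (.FL g n) (j + 2) =
      [.nn (.FL g n) (j + 2), .ww (.FL g n) (j + 2)] := fun j => rfl
  have hv : cv ts (.FL g n) = .c g n := rfl
  have ht : ct ts (.FL g n) = .d g (n + 1) := rfl
  constructor
  · intro j _
    rcases j with _ | _ | j
    · rw [c0]; simp
    · rw [c1]; simp
    · rw [c2]; simp
  · intro j hj
    rcases j with _ | _ | j
    · rw [c0, hv, ht]
      simp only [List.cons_append, List.nil_append, List.isChain_cons_cons,
        List.isChain_singleton, and_true]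
      exact ⟨Edge.cc g n h1 h2 h3 h4, Edge.cd g (n + 1) h1 h2 (by omega) (by omega)⟩
    · rw [zero_add, c1, hv, ht]
      simp only [List.cons_append, List.nil_append, List.isChain_cons_cons,
        List.isChain_singleton, and_true]
      exact ⟨Edge.cd g n h1 h2 h3 (by omega), Edge.dd g n h1 h2 h3 h4⟩
    · rw [c2]
      simp only [List.cons_append, List.nil_append, List.isChain_cons_cons,
        List.isChain_singleton, and_true]
      exact ⟨Edge.vn _ _ hc (by omega) (by omega), Edge.nw _ _ hc (by omega) (by omega),
        Edge.wt _ _ hc (by omega) (by omega)⟩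
  · intro j _
    rw [hv]
    rcases j with _ | _ | j
    · rw [c0]; simp
    · rw [zero_add, c1]; simp
    · rw [c2]; simp
  · intro j _
    rw [ht]
    rcases j with _ | _ | j
    · rw [c0]; simp
    · rw [zero_add, c1]; simp
    · rw [c2]; simp
  · intro i j _ _ hij u hu
    rcases i with _ | _ | i <;> rcases j with _ | _ | j
    · exact absurd rfl hij
    · rw [c0] at hu
      rw [zero_add, c1]
      simp only [List.mem_singleton] at hu ⊢
      subst hu
      simp
    · rw [c0] at hu
      rw [c2]
      simp only [List.mem_singleton] at hu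
      subst hu
      simp
    · rw [zero_add, c1] at hu
      rw [c0]
      simp only [List.mem_singleton] at hu ⊢
      subst hu
      simp
    · exact absurd rfl hij
    · rw [zero_add, c1] at hu
      rw [c2]
      simp only [List.mem_singleton] at hu
      subst hu
      simp
    · rw [c2] at hu
      rw [c0]
      simp only [List.mem_cons, List.not_mem_nil, or_false] at hu ⊢
      rcases hu with hu | hu <;> subst hu <;> simp
    · rw [c2] at hu
      rw [zero_add, c1]
      simp only [List.mem_cons, List.not_mem_nil, or_false] at hu ⊢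
      rcases hu with hu | hu <;> subst hu <;> simp
    · rw [c2] at hu
      rw [c2]
      have hne : i ≠ j := fun e => hij (by rw [e])
      simp only [List.mem_cons, List.not_mem_nil, or_false] at hu ⊢
      rcases hu with hu | hu <;> subst hu <;> simp [hne]

end Pool.Agent.Lib.MP_be4430_lc
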