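import Pool.Agent.Lib.MP_be4430_lc.Cells
import Pool.Agent.Lib.MP_be4430_lc.B2_Ends

/-! # The chains of a cell of kind FR form a family of `m+1` internally disjoint chains -/

namespace Pool.Agent.Lib.MP_be4430_lc

theorem fam_FR {m : ℕ} {ts : List Trp} (h : TValid m ts) (g n : ℕ)
    (hC : Rok m ts.length (.FR g n)) :
    Fam (Edge m ts) (m + 1) (cv ts (.FR g n)) (ct ts (.FR g n)) (chains ts (.FR g n)) := by
  have hcell : Cok m ts.length (.FR g n) := ⟨trivial, hC⟩
  obtain ⟨⟨hg1, hg2⟩, hn1, hn2⟩ := hC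
  refine ⟨?_, ?_, ?_, ?_, ?_⟩
  · intro j _
    rcases j with _ | _ | j <;> simp [chains, lch, rch]
  · intro j hj
    rcases j with _ | _ | j
    · have e1 := Edge.ss (m := m) (ts := ts) g n hg1 hg2 hn1 hn2
      have e2 := Edge.sr (m := m) (ts := ts) g n hg1 hg2 hn1 (by omega)
      simpa [chains, lch, cv, ct] using ⟨e1, e2⟩
    · have e1 := Edge.sr (m := m) (ts := ts) g (n + 1) hg1 hg2 (by omega) (by omega)
      have e2 := Edge.rr (m := m) (ts := ts) g n hg2 hn1 hn2
      simpa [chains, rch, cv, ct] using ⟨e1, e2⟩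
    · have e1 := Edge.vn (m := m) (ts := ts) (.FR g n) (j + 2) hcell (by omega) (by omega)
      have e2 := Edge.nw (m := m) (ts := ts) (.FR g n) (j + 2) hcell (by omega) (by omega)
      have e3 := Edge.wt (m := m) (ts := ts) (.FR g n) (j + 2) hcell (by omega) (by omega)
      simpa [chains] using ⟨e1, e2, e3⟩
  · intro j _
    rcases j with _ | _ | j <;> simp [chains, lch, rch, cv]
  · intro j _
    rcases j with _ | _ | j <;> simp [chains, lch, rch, ct]
  · intro i j _ _ hij u hu
    rcases i with _ | _ | i <;> rcases j with _ | _ | j <;>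
      simp_all [chains, lch, rch]
    all_goals
      rcases hu with rfl | rfl <;> simp_all

end Pool.Agent.Lib.MP_be4430_lc
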