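import Pool.Agent.Lib.MP_be4430_lc.Cells
import Pool.Agent.Lib.MP_be4430_lc.B2_Ends

/-! # The chains of a cell of kind LK form a family of `m+1` internally disjoint chains -/

namespace Pool.Agent.Lib.MP_be4430_lc

theorem fam_LK {m : ℕ} {ts : List Trp} (h : TValid m ts) (g : ℕ)
    (hC : Rok m ts.length (.LK g)) :
    Fam (Edge m ts) (m + 1) (cv ts (.LK g)) (ct ts (.LK g)) (chains ts (.LK g)) := by
  have hm := three_le h
  obtain ⟨hg1, hg2⟩ : 1 ≤ g ∧ g ≤ ts.length := hC
  have hcok : Cok m ts.length (.LK g) := ⟨trivial, hg1, hg2⟩
  obtain ⟨g', rfl⟩ : ∃ g', g = g' + 1 := ⟨g - 1, by omega⟩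
  constructor
  · intro j _
    match j with
    | 0 => simp [chains, lch]
    | 1 => simp [chains, rch]
    | j + 2 => simp [chains]
  · intro j hj
    match j with
    | 0 =>
      simp only [chains, lch, cv, ct, List.cons_append, List.nil_append, List.isChain_cons_cons,
        List.isChain_singleton, and_true, Nat.add_sub_cancel]
      exact ⟨Edge.rO g' (by omega), Edge.Oc (g' + 1) 1 hg1 hg2 le_rfl (by omega),
        Edge.cd (g' + 1) 1 hg1 hg2 le_rfl (by omega)⟩
    | 1 =>
      simp only [chains, rch, cv, ct, List.cons_append, List.nil_append, List.isChain_cons_cons,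
        List.isChain_singleton, and_true, Nat.add_sub_cancel]
      exact ⟨Edge.rG g' 1 (by omega) le_rfl (by omega), Edge.Gb g' (by omega),
        Edge.bd g' (by omega)⟩
    | j + 2 =>
      simp only [chains, List.cons_append, List.nil_append, List.isChain_cons_cons,
        List.isChain_singleton, and_true]
      exact ⟨Edge.vn _ (j + 2) hcok (by omega) (by omega),
        Edge.nw _ (j + 2) hcok (by omega) (by omega), Edge.wt _ (j + 2) hcok (by omega) (by omega)⟩
  · intro j _
    match j with
    | 0 => simp [chains, lch, cv]
    | 1 => simp [chains, rch, cv]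
    | j + 2 => simp [chains, cv]
  · intro j _
    match j with
    | 0 => simp [chains, lch, ct]
    | 1 => simp [chains, rch, ct]
    | j + 2 => simp [chains, ct]
  · intro i j _ _ hij u hu
    match i, j with
    | 0, 0 => exact absurd rfl hij
    | 0, 1 =>
      simp only [chains, lch, rch, List.mem_cons, List.not_mem_nil, or_false] at hu ⊢
      rcases hu with rfl | rfl <;> simp
    | 0, j + 2 =>
      simp only [chains, lch, List.mem_cons, List.not_mem_nil, or_false] at hu ⊢
      rcases hu with rfl | rfl <;> simp
    | 1, 0 =>
      simp only [chains, lch, rch, List.mem_cons, List.not_mem_nil, or_false] at hu ⊢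
      rcases hu with rfl | rfl <;> simp
    | 1, 1 => exact absurd rfl hij
    | 1, j + 2 =>
      simp only [chains, rch, List.mem_cons, List.not_mem_nil, or_false] at hu ⊢
      rcases hu with rfl | rfl <;> simp
    | i + 2, 0 =>
      simp only [chains, lch, List.mem_cons, List.not_mem_nil, or_false] at hu ⊢
      rcases hu with rfl | rfl <;> simp
    | i + 2, 1 =>
      simp only [chains, rch, List.mem_cons, List.not_mem_nil, or_false] at hu ⊢
      rcases hu with rfl | rfl <;> simp
    | i + 2, j + 2 =>
      simp only [chains, List.mem_cons, List.not_mem_nil, or_false] at hu ⊢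
      have hij' : i ≠ j := fun e => hij (by rw [e])
      rcases hu with rfl | rfl <;> simp [hij']

end Pool.Agent.Lib.MP_be4430_lc
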