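import Pool.Agent.Lib.MP_be4430_lc.Cells
import Pool.Agent.Lib.MP_be4430_lc.B2_Ends

/-! # The left and the right chain of a cell of kind CO are anchored -/

namespace Pool.Agent.Lib.MP_be4430_lc

/-- Left: `d g (p (i+1))`, `c g (p (i+1))`, `O g`, which is below `d g (p i)` (via `c g (p i)`).
Right: `s g (q i)`, `r g (q i)`, `G g`, which is above `s g (q (i+1))` (via `r g (q (i+1))`). -/
theorem anch_CO {m : ℕ} {ts : List Trp} (h : TValid m ts) {pos : Vtx → ℝ × ℝ}
    (hP : PUp (Edge m ts) pos) (g i : ℕ)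
    (hC : Rok m ts.length (.CO g i)) :
    (∃ u ∈ chains ts (.CO g i) 0,
      Anch (Edge m ts) pos (m + 1) (cv ts (.CO g i)) (ct ts (.CO g i)) (chains ts (.CO g i)) 0 u) ∧
    (∃ u ∈ chains ts (.CO g i) 1,
      Anch (Edge m ts) pos (m + 1) (cv ts (.CO g i)) (ct ts (.CO g i)) (chains ts (.CO g i)) 1 u) := by
  obtain ⟨⟨hg1, hg2⟩, hi⟩ := hC
  obtain ⟨o1, o2, o3, o4, o5, o6, o7, o8⟩ := pp_qq_order h hg1 hg2
  have hp : 1 ≤ pp ts g i ∧ pp ts g i < pp ts g (i + 1) ∧ pp ts g (i + 1) ≤ m := by
    interval_cases i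
    · exact ⟨o1, o2, by show pp ts g 1 ≤ m; omega⟩
    · exact ⟨by omega, o3, o4⟩
  have hq : 1 ≤ qq ts g (i + 1) ∧ qq ts g (i + 1) < qq ts g i ∧ qq ts g i ≤ m := by
    interval_cases i
    · exact ⟨by show 1 ≤ qq ts g 1; omega, o7, o8⟩
    · exact ⟨o5, o6, by omega⟩
  obtain ⟨p1, p2, p3⟩ := hp
  obtain ⟨q1, q2, q3⟩ := hq
  have m0 : ∀ u ∈ chains ts (.CO g i) 0, ∃ n, u = Vtx.d g n := by
    intro u hu
    obtain ⟨n, -, rfl⟩ := List.mem_map.1 hu
    exact ⟨_, rfl⟩
  have m1 : ∀ u ∈ chains ts (.CO g i) 1, ∃ n, u = Vtx.s g n := by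
    intro u hu
    obtain ⟨n, -, rfl⟩ := List.mem_map.1 hu
    exact ⟨_, rfl⟩
  have m2 : ∀ j, ∀ u ∈ chains ts (.CO g i) (j + 2), u = Vtx.nn (.CO g i) (j + 2) ∨
      u = Vtx.ww (.CO g i) (j + 2) := by
    intro j u hu
    have : u ∈ [Vtx.nn (.CO g i) (j + 2), Vtx.ww (.CO g i) (j + 2)] := hu
    simpa using this
  have hcases : ∀ j : ℕ, j = 0 ∨ j = 1 ∨ ∃ l, j = l + 2 := by
    intro j
    rcases j with _ | _ | l
    · exact Or.inl rfl
    · exact Or.inr (Or.inl rfl)
    · exact Or.inr (Or.inr ⟨l, rfl⟩)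
  constructor
  · refine ⟨Vtx.d g (pp ts g (i + 1)), ?_, ?_⟩
    · show _ ∈ List.map _ _
      refine List.mem_map.2 ⟨pp ts g (i + 1), ?_, rfl⟩
      rw [List.mem_range']
      exact ⟨pp ts g (i + 1) - pp ts g i - 1, by omega, by omega⟩
    · refine Anch.step _ (Vtx.c g (pp ts g (i + 1))) ⟨?_, ?_, ?_⟩
        (Or.inr (Edge.cd g _ hg1 hg2 (by omega) p3)) ?_
      · intro he
        have : Vtx.d g (pp ts g (i + 1)) = Vtx.d g (pp ts g i) := he
        injection this
        omega
      · intro he
        exact Vtx.noConfusion (show Vtx.d g _ = Vtx.s g (qq ts g (i + 1)) from he)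
      · intro j _ hj hm
        rcases hcases j with rfl | rfl | ⟨l, rfl⟩
        · exact hj rfl
        · obtain ⟨n, he⟩ := m1 _ hm
          exact Vtx.noConfusion he
        · rcases m2 _ _ hm with he | he <;> exact Vtx.noConfusion he
      · refine Anch.step _ (Vtx.O g) ⟨?_, ?_, ?_⟩
          (Or.inr (Edge.Oc g _ hg1 hg2 (by omega) p3)) ?_
        · intro he
          exact Vtx.noConfusion (show Vtx.c g _ = Vtx.d g (pp ts g i) from he)
        · intro he
          exact Vtx.noConfusion (show Vtx.c g _ = Vtx.s g (qq ts g (i + 1)) from he)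
        · intro j _ hj hm
          rcases hcases j with rfl | rfl | ⟨l, rfl⟩
          · exact hj rfl
          · obtain ⟨n, he⟩ := m1 _ hm
            exact Vtx.noConfusion he
          · rcases m2 _ _ hm with he | he <;> exact Vtx.noConfusion he
        · refine Anch.far _ ⟨?_, ?_, ?_⟩ (Or.inl ?_)
          · intro he
            exact Vtx.noConfusion (show Vtx.O g = Vtx.d g (pp ts g i) from he)
          · intro he
            exact Vtx.noConfusion (show Vtx.O g = Vtx.s g (qq ts g (i + 1)) from he)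
          · intro j _ hj hm
            rcases hcases j with rfl | rfl | ⟨l, rfl⟩
            · exact hj rfl
            · obtain ⟨n, he⟩ := m1 _ hm
              exact Vtx.noConfusion he
            · rcases m2 _ _ hm with he | he <;> exact Vtx.noConfusion he
          · exact (hP.up _ _ (Edge.Oc g (pp ts g i) hg1 hg2 p1 (by omega))).trans
              (hP.up _ _ (Edge.cd g (pp ts g i) hg1 hg2 p1 (by omega)))
  · refine ⟨Vtx.s g (qq ts g i), ?_, ?_⟩
    · show _ ∈ List.map _ _
      refine List.mem_map.2 ⟨qq ts g i, ?_, rfl⟩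
      rw [List.mem_reverse, List.mem_range']
      exact ⟨qq ts g i - qq ts g (i + 1) - 1, by omega, by omega⟩
    · refine Anch.step _ (Vtx.r g (qq ts g i)) ⟨?_, ?_, ?_⟩
        (Or.inl (Edge.sr g _ hg1 hg2 (by omega) q3)) ?_
      · intro he
        exact Vtx.noConfusion (show Vtx.s g _ = Vtx.d g (pp ts g i) from he)
      · intro he
        have : Vtx.s g (qq ts g i) = Vtx.s g (qq ts g (i + 1)) := he
        injection this
        omega
      · intro j _ hj hm
        rcases hcases j with rfl | rfl | ⟨l, rfl⟩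
        · obtain ⟨n, he⟩ := m0 _ hm
          exact Vtx.noConfusion he
        · exact hj rfl
        · rcases m2 _ _ hm with he | he <;> exact Vtx.noConfusion he
      · refine Anch.step _ (Vtx.G g) ⟨?_, ?_, ?_⟩
          (Or.inl (Edge.rG g _ hg2 (by omega) q3)) ?_
        · intro he
          exact Vtx.noConfusion (show Vtx.r g _ = Vtx.d g (pp ts g i) from he)
        · intro he
          exact Vtx.noConfusion (show Vtx.r g _ = Vtx.s g (qq ts g (i + 1)) from he)
        · intro j _ hj hm
          rcases hcases j with rfl | rfl | ⟨l, rfl⟩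
          · obtain ⟨n, he⟩ := m0 _ hm
            exact Vtx.noConfusion he
          · exact hj rfl
          · rcases m2 _ _ hm with he | he <;> exact Vtx.noConfusion he
        · refine Anch.far _ ⟨?_, ?_, ?_⟩ (Or.inr ?_)
          · intro he
            exact Vtx.noConfusion (show Vtx.G g = Vtx.d g (pp ts g i) from he)
          · intro he
            exact Vtx.noConfusion (show Vtx.G g = Vtx.s g (qq ts g (i + 1)) from he)
          · intro j _ hj hm
            rcases hcases j with rfl | rfl | ⟨l, rfl⟩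
            · obtain ⟨n, he⟩ := m0 _ hm
              exact Vtx.noConfusion he
            · exact hj rfl
            · rcases m2 _ _ hm with he | he <;> exact Vtx.noConfusion he
          · exact (hP.up _ _ (Edge.sr g (qq ts g (i + 1)) hg1 hg2 q1 (by omega))).trans
              (hP.up _ _ (Edge.rG g (qq ts g (i + 1)) hg2 q1 (by omega)))

end Pool.Agent.Lib.MP_be4430_lc
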