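import Pool.Agent.Lib.MP_be4430_lc.Cells
import Pool.Agent.Lib.MP_be4430_lc.B2_Ends

/-! # The left and the right chain of a cell of kind FL are anchored -/

namespace Pool.Agent.Lib.MP_be4430_lc

private theorem D2_AnchFL_free {m : ℕ} {ts : List Trp} {g n a : ℕ} (ha : a < 2) {p : Vtx}
    (h1 : p ≠ .c g n) (h2 : p ≠ .d g (n + 1)) (h3 : a = 1 → p ≠ .c g (n + 1))
    (h4 : a = 0 → p ≠ .d g n) (h5 : ∀ C j, p ≠ .nn C j) (h6 : ∀ C j, p ≠ .ww C j) :
    Free (m + 1) (cv ts (.FL g n)) (ct ts (.FL g n)) (chains ts (.FL g n)) a p := by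
  refine ⟨h1, h2, ?_⟩
  intro j _ hja
  match j with
  | 0 =>
    have : a = 1 := by omega
    simpa [chains, lch] using h3 this
  | 1 =>
    have : a = 0 := by omega
    simpa [chains, rch] using h4 this
  | (j + 2) =>
    simp only [chains, List.mem_cons, List.not_mem_nil, or_false, not_or]
    exact ⟨h5 _ _, h6 _ _⟩

/-- Left: `c g (n+1)`, then `O g`, which is below `c g n`.  Right, `n ≥ 2`: `d g n`, `d g (n-1)`,
`c g (n-1)`, which is below `c g n`.  Right, `n = 1`: `d g 1`, `b (g-1)`, `G (g-1)`, `r (g-1) 1`, which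
is below `O g`, which is below `c g 1`. -/
theorem anch_FL {m : ℕ} {ts : List Trp} (h : TValid m ts) {pos : Vtx → ℝ × ℝ}
    (hP : PUp (Edge m ts) pos) (g n : ℕ)
    (hC : Rok m ts.length (.FL g n)) :
    (∃ u ∈ chains ts (.FL g n) 0,
      Anch (Edge m ts) pos (m + 1) (cv ts (.FL g n)) (ct ts (.FL g n)) (chains ts (.FL g n)) 0 u) ∧
    (∃ u ∈ chains ts (.FL g n) 1,
      Anch (Edge m ts) pos (m + 1) (cv ts (.FL g n)) (ct ts (.FL g n)) (chains ts (.FL g n)) 1 u) := by
  obtain ⟨⟨hg1, hg2⟩, hn1, hn2⟩ := hC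
  constructor
  · refine ⟨.c g (n + 1), by simp [chains, lch], ?_⟩
    refine Anch.step _ (.O g) (D2_AnchFL_free (by omega) (by simp) (by simp) (by omega)
      (by simp) (by simp) (by simp)) (Or.inr (Edge.Oc g (n + 1) hg1 hg2 (by omega) (by omega))) ?_
    refine Anch.far _ (D2_AnchFL_free (by omega) (by simp) (by simp) (by simp)
      (by simp) (by simp) (by simp)) (Or.inl ?_)
    exact hP.up _ _ (Edge.Oc g n hg1 hg2 hn1 (by omega))
  · refine ⟨.d g n, by simp [chains, rch], ?_⟩
    by_cases hn : n = 1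
    · subst hn
      refine Anch.step _ (.b (g - 1)) (D2_AnchFL_free (by omega) (by simp) (by simp) (by simp)
        (by omega) (by simp) (by simp)) (Or.inr ?_) ?_
      · have e := Edge.bd (m := m) (ts := ts) (g - 1) (by omega)
        rwa [Nat.sub_add_cancel hg1] at e
      refine Anch.step _ (.G (g - 1)) (D2_AnchFL_free (by omega) (by simp) (by simp) (by simp)
        (by simp) (by simp) (by simp)) (Or.inr (Edge.Gb (g - 1) (by omega))) ?_
      refine Anch.step _ (.r (g - 1) 1) (D2_AnchFL_free (by omega) (by simp) (by simp) (by simp)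
        (by simp) (by simp) (by simp))
        (Or.inr (Edge.rG (g - 1) 1 (by omega) le_rfl (by omega))) ?_
      refine Anch.far _ (D2_AnchFL_free (by omega) (by simp) (by simp) (by simp)
        (by simp) (by simp) (by simp)) (Or.inl ?_)
      have e := Edge.rO (m := m) (ts := ts) (g - 1) (by omega)
      rw [Nat.sub_add_cancel hg1] at e
      exact (hP.up _ _ e).trans (hP.up _ _ (Edge.Oc g 1 hg1 hg2 le_rfl (by omega)))
    · obtain ⟨k, rfl⟩ : ∃ k, n = k + 1 := ⟨n - 1, by omega⟩
      refine Anch.step _ (.d g k) (D2_AnchFL_free (by omega) (by simp) (by simp) (by simp)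
        (by omega) (by simp) (by simp)) (Or.inr (Edge.dd g k hg1 hg2 (by omega) (by omega))) ?_
      refine Anch.step _ (.c g k) (D2_AnchFL_free (by omega) (by simp) (by simp; omega) (by simp)
        (by simp) (by simp) (by simp)) (Or.inr (Edge.cd g k hg1 hg2 (by omega) (by omega))) ?_
      refine Anch.far _ (D2_AnchFL_free (by omega) (by simp) (by simp) (by simp; omega)
        (by simp) (by simp) (by simp)) (Or.inl ?_)
      exact hP.up _ _ (Edge.cc g k hg1 hg2 (by omega) (by omega))

end Pool.Agent.Lib.MP_be4430_lc
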