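import Pool.Agent.Lib.MP_be4430_lc.Cells
import Pool.Agent.Lib.MP_be4430_lc.B2_Ends

/-! # The left and the right chain of a cell of kind FR are anchored -/

namespace Pool.Agent.Lib.MP_be4430_lc

private theorem D2FR_free (m : ℕ) (ts : List Trp) (g n a : ℕ) (u : Vtx)
    (h1 : u ≠ .s g (n + 1)) (h2 : u ≠ .r g n) (h3 : a ≠ 0 → u ≠ .s g n)
    (h4 : a ≠ 1 → u ≠ .r g (n + 1)) (h5 : ∀ C j, u ≠ .nn C j) (h6 : ∀ C j, u ≠ .ww C j) :
    Free (m + 1) (cv ts (.FR g n)) (ct ts (.FR g n)) (chains ts (.FR g n)) a u := by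
  refine ⟨h1, h2, ?_⟩
  intro j _ hja
  rcases j with _ | _ | j
  · simpa [chains, lch] using h3 hja.symm
  · simpa [chains, rch] using h4 hja.symm
  · simp [chains, h5, h6]

/-- Right: `r g (n+1)`, then `G g`, which is above `r g n`.  Left, `n ≥ 2`: `s g n`, `s g (n-1)`,
`r g (n-1)`, which is above `r g n`.  Left, `n = 1`: `s g 1`, `a g`, `O (g+1)`, which is above
`r g 1`. -/
theorem anch_FR {m : ℕ} {ts : List Trp} (h : TValid m ts) {pos : Vtx → ℝ × ℝ}
    (hP : PUp (Edge m ts) pos) (g n : ℕ)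
    (hC : Rok m ts.length (.FR g n)) :
    (∃ u ∈ chains ts (.FR g n) 0,
      Anch (Edge m ts) pos (m + 1) (cv ts (.FR g n)) (ct ts (.FR g n)) (chains ts (.FR g n)) 0 u) ∧
    (∃ u ∈ chains ts (.FR g n) 1,
      Anch (Edge m ts) pos (m + 1) (cv ts (.FR g n)) (ct ts (.FR g n)) (chains ts (.FR g n)) 1 u) := by
  obtain ⟨⟨hg1, hg2⟩, hn1, hn2⟩ := hC
  constructor
  · refine ⟨.s g n, by simp [chains, lch], ?_⟩
    obtain ⟨k, rfl⟩ : ∃ k, n = k + 1 := ⟨n - 1, by omega⟩
    rcases k with _ | k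
    · -- n = 1
      refine Anch.step _ (.a g) ?_ (Or.inl (Edge.sa g hg1 hg2)) ?_
      · apply D2FR_free <;> simp
      refine Anch.step _ (.O (g + 1)) ?_ (Or.inl (Edge.aO g hg1 hg2)) ?_
      · apply D2FR_free <;> simp
      refine Anch.far _ ?_ (Or.inr ?_)
      · apply D2FR_free <;> simp
      · exact hP.up _ _ (Edge.rO g hg2)
    · refine Anch.step _ (.s g (k + 1)) ?_
        (Or.inl (Edge.ss g (k + 1) hg1 hg2 (by omega) (by omega))) ?_
      · apply D2FR_free <;> simp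
      refine Anch.step _ (.r g (k + 1)) ?_
        (Or.inl (Edge.sr g (k + 1) hg1 hg2 (by omega) (by omega))) ?_
      · apply D2FR_free <;> simp
      refine Anch.far _ ?_ (Or.inr ?_)
      · apply D2FR_free <;> simp
      · exact hP.up _ _ (Edge.rr g (k + 1) hg2 (by omega) (by omega))
  · refine ⟨.r g (n + 1), by simp [chains, rch], ?_⟩
    refine Anch.step _ (.G g) ?_ (Or.inl (Edge.rG g (n + 1) hg2 (by omega) (by omega))) ?_
    · apply D2FR_free <;> simp
    refine Anch.far _ ?_ (Or.inr ?_)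
    · apply D2FR_free <;> simp
    · exact hP.up _ _ (Edge.rG g n hg2 hn1 (by omega))

end Pool.Agent.Lib.MP_be4430_lc
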