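import Pool.Agent.Lib.MP_be4430_lc.Cells
import Pool.Agent.Lib.MP_be4430_lc.B2_Ends

/-! # The left and the right chain of a cell of kind LK are anchored -/

namespace Pool.Agent.Lib.MP_be4430_lc

/-- Right: `G (g-1)`, then `r (g-1) 2`, which is below `r (g-1) 1`.  Left: `c g 1`, `c g 2`, `d g 2`,
which is above `d g 1`. -/
theorem anch_LK {m : ℕ} {ts : List Trp} (h : TValid m ts) {pos : Vtx → ℝ × ℝ}
    (hP : PUp (Edge m ts) pos) (g : ℕ)
    (hC : Rok m ts.length (.LK g)) :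
    (∃ u ∈ chains ts (.LK g) 0,
      Anch (Edge m ts) pos (m + 1) (cv ts (.LK g)) (ct ts (.LK g)) (chains ts (.LK g)) 0 u) ∧
    (∃ u ∈ chains ts (.LK g) 1,
      Anch (Edge m ts) pos (m + 1) (cv ts (.LK g)) (ct ts (.LK g)) (chains ts (.LK g)) 1 u) := by
  have h3 := three_le h
  obtain ⟨hg1, hg2⟩ : 1 ≤ g ∧ g ≤ ts.length := hC
  have hfree : ∀ (a : ℕ) (p : Vtx), p ≠ Vtx.r (g - 1) 1 → p ≠ Vtx.d g 1 →
      (a ≠ 0 → p ≠ Vtx.O g ∧ p ≠ Vtx.c g 1) → (a ≠ 1 → p ≠ Vtx.G (g - 1) ∧ p ≠ Vtx.b (g - 1)) →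
      (∀ C j, p ≠ Vtx.nn C j ∧ p ≠ Vtx.ww C j) →
      Free (m + 1) (cv ts (.LK g)) (ct ts (.LK g)) (chains ts (.LK g)) a p := by
    intro a p h1 h2 h4 h5 h6
    refine ⟨h1, h2, fun j _ hja => ?_⟩
    match j, hja with
    | 0, hja =>
      obtain ⟨e1, e2⟩ := h4 (Ne.symm hja)
      simp [chains, lch, e1, e2]
    | 1, hja =>
      obtain ⟨e1, e2⟩ := h5 (Ne.symm hja)
      simp [chains, rch, e1, e2]
    | j + 2, _ =>
      obtain ⟨e1, e2⟩ := h6 (.LK g) (j + 2)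
      simp [chains, e1, e2]
  constructor
  · refine ⟨Vtx.c g 1, by simp [chains, lch], ?_⟩
    refine Anch.step _ (Vtx.c g 2) (hfree 0 _ ?_ ?_ ?_ ?_ ?_)
      (Or.inl (Edge.cc g 1 hg1 hg2 le_rfl (by omega))) ?_
    · simp
    · simp
    · intro h; exact absurd rfl h
    · intro _; simp
    · intro _ _; simp
    refine Anch.step _ (Vtx.d g 2) (hfree 0 _ ?_ ?_ ?_ ?_ ?_)
      (Or.inl (Edge.cd g 2 hg1 hg2 (by omega) (by omega))) ?_
    · simp
    · simp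
    · intro h; exact absurd rfl h
    · intro _; simp
    · intro _ _; simp
    refine Anch.far _ (hfree 0 _ ?_ ?_ ?_ ?_ ?_) (Or.inr ?_)
    · simp
    · simp
    · intro h; exact absurd rfl h
    · intro _; simp
    · intro _ _; simp
    · exact hP.up _ _ (Edge.dd g 1 hg1 hg2 le_rfl (by omega))
  · refine ⟨Vtx.G (g - 1), by simp [chains, rch], ?_⟩
    refine Anch.step _ (Vtx.r (g - 1) 2) (hfree 1 _ ?_ ?_ ?_ ?_ ?_)
      (Or.inr (Edge.rG (g - 1) 2 (by omega) (by omega) (by omega))) ?_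
    · simp
    · simp
    · intro _; simp
    · intro h; exact absurd rfl h
    · intro _ _; simp
    refine Anch.far _ (hfree 1 _ ?_ ?_ ?_ ?_ ?_) (Or.inl ?_)
    · simp
    · simp
    · intro _; simp
    · intro h; exact absurd rfl h
    · intro _ _; simp
    · exact hP.up _ _ (Edge.rr (g - 1) 1 (by omega) le_rfl (by omega))

end Pool.Agent.Lib.MP_be4430_lc
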