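import Pool.Agent.Lib.MP_be4430_lc.C6_Cell
import Pool.Agent.Lib.MP_be4430_lc.D1_FamFL
import Pool.Agent.Lib.MP_be4430_lc.D1_FamCO
import Pool.Agent.Lib.MP_be4430_lc.D1_FamFR
import Pool.Agent.Lib.MP_be4430_lc.D1_FamLK
import Pool.Agent.Lib.MP_be4430_lc.D2_AnchFL
import Pool.Agent.Lib.MP_be4430_lc.D2_AnchCO
import Pool.Agent.Lib.MP_be4430_lc.D2_AnchFR
import Pool.Agent.Lib.MP_be4430_lc.D2_AnchLK

/-! # Every cell is normal or mirrored -/

namespace Pool.Agent.Lib.MP_be4430_lc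

theorem cell_dichotomy {m : ℕ} {ts : List Trp} (h : TValid m ts) {pos : Vtx → ℝ × ℝ}
    (hP : PUp (Edge m ts) pos) (S : Finset ℝ) (hS : S.card ≤ m + 1)
    (hsl : ∀ u w, Edge m ts u w → sl pos u w ∈ S) {lo hi : ℝ} (hlo : IsLeast (S : Set ℝ) lo)
    (hhi : IsGreatest (S : Set ℝ) hi) (C : Rct) (hC : Cok m ts.length C) :
    Normal ts pos lo hi C ∨ Normal ts pos hi lo C := by
  have hm := three_le h
  obtain ⟨hc, hr⟩ := hC
  cases C with
  | FO g => exact hc.elim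
  | FG g => exact hc.elim
  | AX g => exact hc.elim
  | FL g n =>
    obtain ⟨h0, h1⟩ := anch_FL h hP g n hr
    exact cell_lemma hP (fam_FL h g n hr) S hS hsl (by omega) (by omega) (by omega) h0 h1 hlo hhi
  | CO g i =>
    obtain ⟨h0, h1⟩ := anch_CO h hP g i hr
    exact cell_lemma hP (fam_CO h g i hr) S hS hsl (by omega) (by omega) (by omega) h0 h1 hlo hhi
  | FR g n =>
    obtain ⟨h0, h1⟩ := anch_FR h hP g n hr
    exact cell_lemma hP (fam_FR h g n hr) S hS hsl (by omega) (by omega) (by omega) h0 h1 hlo hhi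
  | LK g =>
    obtain ⟨h0, h1⟩ := anch_LK h hP g hr
    exact cell_lemma hP (fam_LK h g hr) S hS hsl (by omega) (by omega) (by omega) h0 h1 hlo hhi

end Pool.Agent.Lib.MP_be4430_lc
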