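import Pool.Agent.Lib.MP_be4430_lc.Cells
import Pool.Agent.Lib.MP_be4430_lc.B2_Ends

/-! # The four outer slopes of each cell, explicitly -/

namespace Pool.Agent.Lib.MP_be4430_lc

theorem normal_FL (ts : List Trp) (pos : Vtx → ℝ × ℝ) (lo hi : ℝ) (g n : ℕ) :
    Normal ts pos lo hi (.FL g n) ↔
      sl pos (.c g n) (.c g (n + 1)) = lo ∧ sl pos (.c g (n + 1)) (.d g (n + 1)) = hi ∧
        sl pos (.c g n) (.d g n) = hi ∧ sl pos (.d g n) (.d g (n + 1)) = lo := by
  exact Iff.rfl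

theorem normal_FR (ts : List Trp) (pos : Vtx → ℝ × ℝ) (lo hi : ℝ) (g n : ℕ) :
    Normal ts pos lo hi (.FR g n) ↔
      sl pos (.s g (n + 1)) (.s g n) = lo ∧ sl pos (.s g n) (.r g n) = hi ∧
        sl pos (.s g (n + 1)) (.r g (n + 1)) = hi ∧ sl pos (.r g (n + 1)) (.r g n) = lo := by
  exact Iff.rfl

theorem normal_LK (ts : List Trp) (pos : Vtx → ℝ × ℝ) (lo hi : ℝ) (g : ℕ) :
    Normal ts pos lo hi (.LK g) ↔
      sl pos (.r (g - 1) 1) (.O g) = lo ∧ sl pos (.c g 1) (.d g 1) = hi ∧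
        sl pos (.r (g - 1) 1) (.G (g - 1)) = hi ∧ sl pos (.b (g - 1)) (.d g 1) = lo := by
  exact Iff.rfl

theorem normal_CO {m : ℕ} {ts : List Trp} (h : TValid m ts) (pos : Vtx → ℝ × ℝ) (lo hi : ℝ)
    (g i : ℕ) (hC : Rok m ts.length (.CO g i)) :
    Normal ts pos lo hi (.CO g i) ↔
      sl pos (.d g (pp ts g i)) (.d g (pp ts g i + 1)) = lo ∧
        sl pos (.d g (pp ts g (i + 1))) (.s g (qq ts g (i + 1))) = hi ∧
        sl pos (.d g (pp ts g i)) (.s g (qq ts g i)) = hi ∧
        sl pos (.s g (qq ts g (i + 1) + 1)) (.s g (qq ts g (i + 1))) = lo := by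
  obtain ⟨⟨hg1, hg2⟩, hi2⟩ := hC
  obtain ⟨h1, h2, h3, h4, h5, h6, h7, h8⟩ := pp_qq_order h hg1 hg2
  have hp : pp ts g i < pp ts g (i + 1) := by
    rcases (by omega : i = 0 ∨ i = 1) with rfl | rfl
    · exact h2
    · exact h3
  have hq : qq ts g (i + 1) < qq ts g i := by
    rcases (by omega : i = 0 ∨ i = 1) with rfl | rfl
    · exact h7
    · exact h6
  obtain ⟨k, hk⟩ : ∃ k, pp ts g (i + 1) - pp ts g i = k + 1 := ⟨_, (Nat.succ_pred (by omega)).symm⟩
  obtain ⟨l, hl⟩ : ∃ l, qq ts g i - qq ts g (i + 1) = l + 1 := ⟨_, (Nat.succ_pred (by omega)).symm⟩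
  have e1 : lch ts (.CO g i) = .d g (pp ts g i + 1) ::
      (List.range' (pp ts g i + 1 + 1) k).map (fun n => Vtx.d g n) := by
    show (List.range' (pp ts g i + 1) (pp ts g (i + 1) - pp ts g i)).map _ = _
    rw [hk, List.range'_succ, List.map_cons]
  have e2 : lch ts (.CO g i) = (List.range' (pp ts g i + 1) k).map (fun n => Vtx.d g n) ++
      [.d g (pp ts g (i + 1))] := by
    show (List.range' (pp ts g i + 1) (pp ts g (i + 1) - pp ts g i)).map _ = _
    rw [hk, List.range'_1_concat, List.map_append, List.map_singleton]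
    congr 3
    omega
  have e3 : rch ts (.CO g i) = .s g (qq ts g i) ::
      ((List.range' (qq ts g (i + 1) + 1) l).reverse).map (fun n => Vtx.s g n) := by
    show ((List.range' (qq ts g (i + 1) + 1) (qq ts g i - qq ts g (i + 1))).reverse).map _ = _
    rw [hl, List.range'_1_concat, List.reverse_append, List.reverse_singleton,
      List.singleton_append, List.map_cons]
    congr 2
    omega
  have e4 : rch ts (.CO g i) =
      ((List.range' (qq ts g (i + 1) + 1 + 1) l).reverse).map (fun n => Vtx.s g n) ++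
      [.s g (qq ts g (i + 1) + 1)] := by
    show ((List.range' (qq ts g (i + 1) + 1) (qq ts g i - qq ts g (i + 1))).reverse).map _ = _
    rw [hl, List.range'_succ, List.reverse_cons, List.map_append, List.map_singleton]
  have f1 : (lch ts (.CO g i)).headD (ct ts (.CO g i)) = .d g (pp ts g i + 1) := by
    rw [e1]; rfl
  have f2 : (lch ts (.CO g i)).getLastD (cv ts (.CO g i)) = .d g (pp ts g (i + 1)) := by
    rw [e2, List.getLastD_concat]
  have f3 : (rch ts (.CO g i)).headD (ct ts (.CO g i)) = .s g (qq ts g i) := by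
    rw [e3]; rfl
  have f4 : (rch ts (.CO g i)).getLastD (cv ts (.CO g i)) = .s g (qq ts g (i + 1) + 1) := by
    rw [e4, List.getLastD_concat]
  show (sl pos (cv ts (.CO g i)) ((lch ts (.CO g i)).headD (ct ts (.CO g i))) = lo ∧
    sl pos ((lch ts (.CO g i)).getLastD (cv ts (.CO g i))) (ct ts (.CO g i)) = hi ∧
    sl pos (cv ts (.CO g i)) ((rch ts (.CO g i)).headD (ct ts (.CO g i))) = hi ∧
    sl pos ((rch ts (.CO g i)).getLastD (cv ts (.CO g i))) (ct ts (.CO g i)) = lo) ↔ _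
  rw [f1, f2, f3, f4]
  exact Iff.rfl

end Pool.Agent.Lib.MP_be4430_lc
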