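import Pool.Agent.Lib.MP_be4430_lc.Basic

/-! # Two edges from (or to) a common vertex have different slopes; triangles -/

namespace Pool.Agent.Lib.MP_be4430_lc

variable {V : Type}

private theorem D5_seg {U W : ℝ × ℝ} (h : U.2 < W.2) {t : ℝ} (h0 : 0 ≤ t) (h1 : t ≤ W.2 - U.2) :
    (U.1 + (W.1 - U.1) / (W.2 - U.2) * t, U.2 + t) ∈ segment ℝ U W := by
  have hd : 0 < W.2 - U.2 := by linarith
  refine ⟨1 - t / (W.2 - U.2), t / (W.2 - U.2), ?_, by positivity, by ring, ?_⟩
  · rw [sub_nonneg, div_le_one hd]
    exact h1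
  · ext
    · simp only [Prod.fst_add, Prod.smul_fst, smul_eq_mul]
      ring
    · simp only [Prod.snd_add, Prod.smul_snd, smul_eq_mul]
      field_simp
      ring

private theorem D5_seg' {U W : ℝ × ℝ} (h : U.2 < W.2) {t : ℝ} (h0 : 0 ≤ t) (h1 : t ≤ W.2 - U.2) :
    (W.1 - (W.1 - U.1) / (W.2 - U.2) * t, W.2 - t) ∈ segment ℝ U W := by
  have hd : 0 < W.2 - U.2 := by linarith
  refine ⟨t / (W.2 - U.2), 1 - t / (W.2 - U.2), by positivity, ?_, by ring, ?_⟩
  · rw [sub_nonneg, div_le_one hd]
    exact h1
  · ext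
    · simp only [Prod.fst_add, Prod.smul_fst, smul_eq_mul]
      ring
    · simp only [Prod.snd_add, Prod.smul_snd, smul_eq_mul]
      field_simp
      ring

/-- different edges with the same tail have different slopes -/
theorem sl_ne_of_tail {A : V → V → Prop} {pos : V → ℝ × ℝ} (hP : PUp A pos) {u v w : V}
    (h1 : A u v) (h2 : A u w) (hvw : v ≠ w) : sl pos u v ≠ sl pos u w := by
  intro hs
  have u1 := hP.up _ _ h1
  have u2 := hP.up _ _ h2
  set t : ℝ := min ((pos v).2 - (pos u).2) ((pos w).2 - (pos u).2) with ht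
  have ht0 : 0 < t := lt_min (by linarith) (by linarith)
  have m1 := D5_seg u1 ht0.le (min_le_left _ _)
  have m2 := D5_seg u2 ht0.le (min_le_right _ _)
  have hne : (u, v) ≠ (u, w) := by
    intro h
    exact hvw (Prod.ext_iff.1 h).2
  unfold sl at hs
  rw [← hs] at m2
  obtain ⟨x, hx1, hx2, hx3⟩ := hP.planar _ _ _ _ h1 h2 hne _ m1 m2
  have hxu : x ≠ u := by
    rintro rfl
    have := (Prod.ext_iff.1 hx3).2
    simp only at this
    linarith
  rcases hx1 with h | h
  · exact hxu h
  · rcases hx2 with h' | h'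
    · exact hxu h'
    · exact hvw (h.symm.trans h')

/-- different edges with the same head have different slopes -/
theorem sl_ne_of_head {A : V → V → Prop} {pos : V → ℝ × ℝ} (hP : PUp A pos) {u v w : V}
    (h1 : A v u) (h2 : A w u) (hvw : v ≠ w) : sl pos v u ≠ sl pos w u := by
  intro hs
  have u1 := hP.up _ _ h1
  have u2 := hP.up _ _ h2
  set t : ℝ := min ((pos u).2 - (pos v).2) ((pos u).2 - (pos w).2) with ht
  have ht0 : 0 < t := lt_min (by linarith) (by linarith)
  have m1 := D5_seg' u1 ht0.le (min_le_left _ _)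
  have m2 := D5_seg' u2 ht0.le (min_le_right _ _)
  have hne : (v, u) ≠ (w, u) := by
    intro h
    exact hvw (Prod.ext_iff.1 h).1
  unfold sl at hs
  rw [← hs] at m2
  obtain ⟨x, hx1, hx2, hx3⟩ := hP.planar _ _ _ _ h1 h2 hne _ m1 m2
  have hxu : x ≠ u := by
    rintro rfl
    have := (Prod.ext_iff.1 hx3).2
    simp only at this
    linarith
  rcases hx1 with h | h
  · rcases hx2 with h' | h'
    · exact hvw (h.symm.trans h')
    · exact hxu h'
  · exact hxu h

/-- in a triangle `u → v → w`, `u → w` the slope of `u → w` is strictly between the other two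
(which are different) -/
theorem triangle_lt {A : V → V → Prop} {pos : V → ℝ × ℝ} (hP : PUp A pos) {u v w : V}
    (h1 : A u v) (h2 : A v w) (h3 : A u w) (huv : u ≠ v) (hvw : v ≠ w) :
    (sl pos u v < sl pos u w ∧ sl pos u w < sl pos v w) ∨
      (sl pos v w < sl pos u w ∧ sl pos u w < sl pos u v) := by
  have hne := sl_ne_of_tail hP h1 h3 hvw
  have u1 := hP.up _ _ h1
  have u2 := hP.up _ _ h2
  have d1 : 0 < (pos v).2 - (pos u).2 := by linarith
  have d2 : 0 < (pos w).2 - (pos v).2 := by linarith
  have d3 : 0 < (pos w).2 - (pos u).2 := by linarith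
  have e1 : sl pos u v * ((pos v).2 - (pos u).2) = (pos v).1 - (pos u).1 := by
    unfold sl
    field_simp
  have e2 : sl pos v w * ((pos w).2 - (pos v).2) = (pos w).1 - (pos v).1 := by
    unfold sl
    field_simp
  have e3 : sl pos u w * ((pos w).2 - (pos u).2) = (pos w).1 - (pos u).1 := by
    unfold sl
    field_simp
  generalize sl pos u v = a at *
  generalize sl pos v w = b at *
  generalize sl pos u w = c at *
  generalize hp : (pos v).2 - (pos u).2 = p at *
  generalize hq : (pos w).2 - (pos v).2 = q at *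
  have hr : (pos w).2 - (pos u).2 = p + q := by rw [← hp, ← hq]; ring
  rw [hr] at e3
  have key : (c - a) * p = (b - c) * q := by linarith
  rcases lt_or_gt_of_ne hne with h | h
  · left
    refine ⟨h, ?_⟩
    have : 0 < (b - c) * q := by rw [← key]; exact mul_pos (by linarith) d1
    have := (pos_iff_pos_of_mul_pos this).2 d2
    linarith
  · right
    refine ⟨?_, h⟩
    have : 0 < (c - b) * q := by
      have h5 : (c - b) * q = (a - c) * p := by linarith
      rw [h5]; exact mul_pos (by linarith) d1
    have := (pos_iff_pos_of_mul_pos this).2 d2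
    linarith

end Pool.Agent.Lib.MP_be4430_lc
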