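import Pool.Agent.Lib.MP_be4430_lc.D4_Explicit
import Pool.Agent.Lib.MP_be4430_lc.D5_Collinear

/-! # If the first linking cell is normal, all cells are normal -/

namespace Pool.Agent.Lib.MP_be4430_lc

/-- `FR g 1` normal implies `LK (g+1)` normal: otherwise `r g 2 → r g 1` and `r g 1 → G g` both
have slope `lo`, contradicting `triangle_lt` with `r g 2 → G g`. -/
theorem normal_LK_of_FR {m : ℕ} {ts : List Trp} (h : TValid m ts) {pos : Vtx → ℝ × ℝ}
    (hP : PUp (Edge m ts) pos) {lo hi : ℝ} (hne : lo ≠ hi)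
    (hd : ∀ C, Cok m ts.length C → Normal ts pos lo hi C ∨ Normal ts pos hi lo C)
    {g : ℕ} (h1 : 1 ≤ g) (h2 : g < ts.length) (hL : Normal ts pos lo hi (.FR g 1)) :
    Normal ts pos lo hi (.LK (g + 1)) := by
  have hm := three_le h
  rcases hd (.LK (g + 1)) ⟨trivial, by omega, by omega⟩ with h3 | h3
  · exact h3
  · exfalso
    rw [normal_LK] at h3
    rw [normal_FR] at hL
    simp only [Nat.add_sub_cancel] at h3
    have e1 : Edge m ts (.r g (1 + 1)) (.r g 1) := Edge.rr g 1 (by omega) le_rfl (by omega)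
    have e2 : Edge m ts (.r g 1) (.G g) := Edge.rG g 1 (by omega) le_rfl (by omega)
    have e3 : Edge m ts (.r g (1 + 1)) (.G g) := Edge.rG g (1 + 1) (by omega) (by omega) (by omega)
    have h4 := hL.2.2.2
    have h5 := h3.2.2.1
    rcases triangle_lt hP e1 e2 e3 (by simp) (by simp) with ⟨h6, h7⟩ | ⟨h6, h7⟩
    · have := h6.trans h7
      rw [h4, h5] at this
      exact lt_irrefl _ this
    · have := h6.trans h7
      rw [h4, h5] at this
      exact lt_irrefl _ this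

/-- the slopes of the edges of gadget `g` when all cells are normal -/
theorem slopes_of_normal {m : ℕ} {ts : List Trp} (h : TValid m ts) {pos : Vtx → ℝ × ℝ}
    {lo hi : ℝ} (hN : ∀ C, Cok m ts.length C → Normal ts pos lo hi C)
    {g : ℕ} (h1 : 1 ≤ g) (h2 : g ≤ ts.length) :
    (∀ n, 1 ≤ n → n < m → sl pos (.c g n) (.c g (n + 1)) = lo) ∧
    (∀ n, 1 ≤ n → n ≤ m → sl pos (.c g n) (.d g n) = hi) ∧
    (∀ i, i < 3 → sl pos (.d g (pp ts g i)) (.s g (qq ts g i)) = hi) ∧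
    (∀ n, 1 ≤ n → n ≤ m → sl pos (.s g n) (.r g n) = hi) ∧
    (∀ n, 1 ≤ n → n < m → sl pos (.r g (n + 1)) (.r g n) = lo) := by
  have hm := three_le h
  have hFL : ∀ n, 1 ≤ n → n < m →
      sl pos (.c g n) (.c g (n + 1)) = lo ∧ sl pos (.c g (n + 1)) (.d g (n + 1)) = hi ∧
        sl pos (.c g n) (.d g n) = hi ∧ sl pos (.d g n) (.d g (n + 1)) = lo := by
    intro n h3 h4
    exact (normal_FL ts pos lo hi g n).1 (hN _ ⟨trivial, ⟨h1, h2⟩, h3, h4⟩)
  have hFR : ∀ n, 1 ≤ n → n < m →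
      sl pos (.s g (n + 1)) (.s g n) = lo ∧ sl pos (.s g n) (.r g n) = hi ∧
        sl pos (.s g (n + 1)) (.r g (n + 1)) = hi ∧ sl pos (.r g (n + 1)) (.r g n) = lo := by
    intro n h3 h4
    exact (normal_FR ts pos lo hi g n).1 (hN _ ⟨trivial, ⟨h1, h2⟩, h3, h4⟩)
  have hCO : ∀ i, i < 2 → sl pos (.d g (pp ts g (i + 1))) (.s g (qq ts g (i + 1))) = hi ∧
        sl pos (.d g (pp ts g i)) (.s g (qq ts g i)) = hi := by
    intro i h3
    have hC : Rok m ts.length (.CO g i) := ⟨⟨h1, h2⟩, h3⟩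
    have h4 := (normal_CO h pos lo hi g i hC).1 (hN _ ⟨trivial, hC⟩)
    exact ⟨h4.2.1, h4.2.2.1⟩
  refine ⟨fun n h3 h4 => (hFL n h3 h4).1, ?_, ?_, ?_, fun n h3 h4 => (hFR n h3 h4).2.2.2⟩
  · intro n h3 h4
    rcases Nat.lt_or_ge n m with h5 | h5
    · exact (hFL n h3 h5).2.2.1
    · obtain ⟨k, rfl⟩ : ∃ k, n = k + 1 := ⟨n - 1, by omega⟩
      exact (hFL k (by omega) (by omega)).2.1
  · intro i h3
    rcases Nat.lt_or_ge i 2 with h5 | h5
    · exact (hCO i h5).2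
    · have : i = 1 + 1 := by omega
      rw [this]
      exact (hCO 1 (by norm_num)).1
  · intro n h3 h4
    rcases Nat.lt_or_ge n m with h5 | h5
    · exact (hFR n h3 h5).2.1
    · obtain ⟨k, rfl⟩ : ∃ k, n = k + 1 := ⟨n - 1, by omega⟩
      exact (hFR k (by omega) (by omega)).2.2.1

end Pool.Agent.Lib.MP_be4430_lc
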