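import Pool.Agent.Lib.MP_be4430_lc.D4_Explicit
import Pool.Agent.Lib.MP_be4430_lc.D5_Collinear

/-! # If the first linking cell is normal, all cells are normal -/

namespace Pool.Agent.Lib.MP_be4430_lc

/-- neighbouring cells `FR g n`, `FR g (n + 1)` are both normal or both mirrored -/
private theorem normal_FR_succ_iff {m : ℕ} {ts : List Trp} {pos : Vtx → ℝ × ℝ}
    {lo hi : ℝ} (hne : lo ≠ hi)
    (hd : ∀ C, Cok m ts.length C → Normal ts pos lo hi C ∨ Normal ts pos hi lo C)
    {g : ℕ} (h1 : 1 ≤ g) (h2 : g ≤ ts.length) {n : ℕ} (hn : 1 ≤ n) (hn2 : n + 1 < m) :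
    Normal ts pos lo hi (.FR g n) ↔ Normal ts pos lo hi (.FR g (n + 1)) := by
  constructor
  · intro h3
    rcases hd (.FR g (n + 1)) ⟨trivial, ⟨h1, h2⟩, by omega, hn2⟩ with h4 | h4
    · exact h4
    · exfalso
      rw [normal_FR] at h3 h4
      exact hne (h4.2.1.symm.trans h3.2.2.1)
  · intro h3
    rcases hd (.FR g n) ⟨trivial, ⟨h1, h2⟩, hn, by omega⟩ with h4 | h4
    · exact h4
    · exfalso
      rw [normal_FR] at h3 h4
      exact hne (h4.2.2.1.symm.trans h3.2.1)

/-- `LK g` normal implies all `FL g n` normal (shared edges `c g n → d g n`). -/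
theorem normal_FL_of_LK {m : ℕ} {ts : List Trp} (h : TValid m ts) {pos : Vtx → ℝ × ℝ}
    {lo hi : ℝ} (hne : lo ≠ hi)
    (hd : ∀ C, Cok m ts.length C → Normal ts pos lo hi C ∨ Normal ts pos hi lo C)
    {g : ℕ} (h1 : 1 ≤ g) (h2 : g ≤ ts.length) (hL : Normal ts pos lo hi (.LK g)) :
    ∀ n, 1 ≤ n → n < m → Normal ts pos lo hi (.FL g n) := by
  intro n hn
  induction n, hn using Nat.le_induction with
  | base =>
    intro hm
    rcases hd (.FL g 1) ⟨trivial, ⟨h1, h2⟩, le_rfl, hm⟩ with h4 | h4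
    · exact h4
    · exfalso
      rw [normal_LK] at hL
      rw [normal_FL] at h4
      exact hne (h4.2.2.1.symm.trans hL.2.1)
  | succ n hn ih =>
    intro hm
    have h3 := ih (by omega)
    rcases hd (.FL g (n + 1)) ⟨trivial, ⟨h1, h2⟩, by omega, hm⟩ with h4 | h4
    · exact h4
    · exfalso
      rw [normal_FL] at h3 h4
      exact hne (h4.2.2.1.symm.trans h3.2.1)

/-- all `FL g n` normal implies `CO g 0`, `CO g 1` normal (shared edge `d g p → d g (p+1)`). -/
theorem normal_CO_of_FL {m : ℕ} {ts : List Trp} (h : TValid m ts) {pos : Vtx → ℝ × ℝ}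
    {lo hi : ℝ} (hne : lo ≠ hi)
    (hd : ∀ C, Cok m ts.length C → Normal ts pos lo hi C ∨ Normal ts pos hi lo C)
    {g : ℕ} (h1 : 1 ≤ g) (h2 : g ≤ ts.length)
    (hL : ∀ n, 1 ≤ n → n < m → Normal ts pos lo hi (.FL g n)) :
    ∀ i, i < 2 → Normal ts pos lo hi (.CO g i) := by
  intro i hi2
  have hR : Rok m ts.length (.CO g i) := ⟨⟨h1, h2⟩, hi2⟩
  obtain ⟨a1, a2, a3, a4, a5, a6, a7, a8⟩ := pp_qq_order h h1 h2
  have hp : 1 ≤ pp ts g i ∧ pp ts g i < m := by
    rcases (by omega : i = 0 ∨ i = 1) with rfl | rfl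
    · constructor <;> omega
    · constructor <;> omega
  rcases hd (.CO g i) ⟨trivial, hR⟩ with h4 | h4
  · exact h4
  · exfalso
    have h3 := hL _ hp.1 hp.2
    rw [normal_FL] at h3
    rw [normal_CO h pos hi lo g i hR] at h4
    exact hne (h3.2.2.2.symm.trans h4.1)

/-- `CO g 0` normal implies all `FR g n` normal (shared edge `s g (q+1) → s g q` for `q = q₁`, then
shared edges `s g n → r g n` in both directions). -/
theorem normal_FR_of_CO {m : ℕ} {ts : List Trp} (h : TValid m ts) {pos : Vtx → ℝ × ℝ}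
    {lo hi : ℝ} (hne : lo ≠ hi)
    (hd : ∀ C, Cok m ts.length C → Normal ts pos lo hi C ∨ Normal ts pos hi lo C)
    {g : ℕ} (h1 : 1 ≤ g) (h2 : g ≤ ts.length) (hL : Normal ts pos lo hi (.CO g 0)) :
    ∀ n, 1 ≤ n → n < m → Normal ts pos lo hi (.FR g n) := by
  have hR : Rok m ts.length (.CO g 0) := ⟨⟨h1, h2⟩, by norm_num⟩
  obtain ⟨a1, a2, a3, a4, a5, a6, a7, a8⟩ := pp_qq_order h h1 h2
  obtain ⟨q, hq⟩ : ∃ q, q = qq ts g 1 := ⟨_, rfl⟩
  have hq1 : 1 ≤ q := by omega
  have hqm : q < m := by omega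
  have h0 : Normal ts pos lo hi (.FR g q) := by
    rcases hd (.FR g q) ⟨trivial, ⟨h1, h2⟩, hq1, hqm⟩ with h4 | h4
    · exact h4
    · exfalso
      rw [normal_CO h pos lo hi g 0 hR] at hL
      rw [normal_FR] at h4
      have h5 := hL.2.2.2
      simp only [Nat.zero_add] at h5
      rw [← hq] at h5
      exact hne (h5.symm.trans h4.1)
  -- upward
  have hup : ∀ n, q ≤ n → n < m → Normal ts pos lo hi (.FR g n) := by
    intro n hn
    induction n, hn using Nat.le_induction with
    | base => exact fun _ => h0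
    | succ n hn ih =>
      intro hm
      exact (normal_FR_succ_iff hne hd h1 h2 (by omega) hm).1 (ih (by omega))
  -- downward
  have hdown : ∀ k n, n + k = q → 1 ≤ n → Normal ts pos lo hi (.FR g n) := by
    intro k
    induction k with
    | zero =>
      intro n hn _
      have : n = q := by omega
      rw [this]
      exact h0
    | succ k ih =>
      intro n hn h3
      exact (normal_FR_succ_iff hne hd h1 h2 h3 (by omega)).2 (ih (n + 1) (by omega) (by omega))
  intro n hn hnm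
  rcases Nat.le_total q n with h3 | h3
  · exact hup n h3 hnm
  · exact hdown (q - n) n (by omega) hn

end Pool.Agent.Lib.MP_be4430_lc
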