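import Pool.Agent.Lib.MP_be4430_lc.D4_Explicit
import Pool.Agent.Lib.MP_be4430_lc.D5_Collinear
import Pool.Agent.Lib.MP_be4430_lc.D6x_Gadget
import Pool.Agent.Lib.MP_be4430_lc.D6y_Link

/-! # If the first linking cell is normal, all cells are normal -/

namespace Pool.Agent.Lib.MP_be4430_lc

theorem all_normal {m : ℕ} {ts : List Trp} (h : TValid m ts) {pos : Vtx → ℝ × ℝ}
    (hP : PUp (Edge m ts) pos) {lo hi : ℝ} (hne : lo ≠ hi)
    (hd : ∀ C, Cok m ts.length C → Normal ts pos lo hi C ∨ Normal ts pos hi lo C)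
    (hL : Normal ts pos lo hi (.LK 1)) : ∀ C, Cok m ts.length C → Normal ts pos lo hi C := by
  have hm := three_le h
  have hstep : ∀ g, 1 ≤ g → g ≤ ts.length → Normal ts pos lo hi (.LK g) →
      (∀ n, 1 ≤ n → n < m → Normal ts pos lo hi (.FL g n)) ∧
      (∀ i, i < 2 → Normal ts pos lo hi (.CO g i)) ∧
      (∀ n, 1 ≤ n → n < m → Normal ts pos lo hi (.FR g n)) := by
    intro g h1 h2 hLg
    have hFL := normal_FL_of_LK h hne hd h1 h2 hLg
    have hCO := normal_CO_of_FL h hne hd h1 h2 hFL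
    exact ⟨hFL, hCO, normal_FR_of_CO h hne hd h1 h2 (hCO 0 (by omega))⟩
  have hLK : ∀ g, 1 ≤ g → g ≤ ts.length → Normal ts pos lo hi (.LK g) := by
    intro g h1
    induction g, h1 using Nat.le_induction with
    | base => intro _; exact hL
    | succ g h1 ih =>
      intro h2
      have hLg := ih (by omega)
      have hFR := (hstep g h1 (by omega) hLg).2.2
      exact normal_LK_of_FR h hP hne hd h1 (by omega) (hFR 1 le_rfl (by omega))
  rintro C ⟨hcell, hC⟩
  cases C with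
  | FO g => exact absurd hcell (by simp [IsCell])
  | FL g n =>
    obtain ⟨⟨h1, h2⟩, h3, h4⟩ := hC
    exact (hstep g h1 h2 (hLK g h1 h2)).1 n h3 h4
  | CO g i =>
    obtain ⟨⟨h1, h2⟩, h3⟩ := hC
    exact (hstep g h1 h2 (hLK g h1 h2)).2.1 i h3
  | FR g n =>
    obtain ⟨⟨h1, h2⟩, h3, h4⟩ := hC
    exact (hstep g h1 h2 (hLK g h1 h2)).2.2 n h3 h4
  | FG g => exact absurd hcell (by simp [IsCell])
  | AX g => exact absurd hcell (by simp [IsCell])
  | LK g => exact hLK g hC.1 hC.2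

end Pool.Agent.Lib.MP_be4430_lc
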