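import Pool.Agent.Lib.MP_be4430_lc.D6x_Gadget
import Pool.Agent.Lib.MP_be4430_lc.D6y_Link
import Pool.Agent.Lib.MP_be4430_lc.D6z_All

/-! # If the first linking cell is normal, all cells are normal -/
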