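import Pool.Agent.Lib.MP_634427_lc.Data

/-!
# Definitions for problem MP_be4430_lc

The existential theory of the rationals `ETQ`, the grid version `GRID` of the upward planar slope
number problem, and polynomial-time many-one reductions.

Inputs are words over `{0,1}`.  A word codes a binary tree (`code`), and trees code pairs, lists and
natural numbers (`enc`, numbers in unary).  `PT f` says that `f` is computable in polynomial time
(Cobham's function algebra on binary trees, see `Pool.Agent.Lib.MP_634427_lc.Model`).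
-/

namespace Pool.Agent.Lib.MP_be4430_lc

open MP_634427_lc

/-! ## The existential theory of the rationals -/

/-- Terms over `0, 1, +, ×` in the variables `x₀, x₁, …`. -/
inductive Trm : Type
  | zero : Trm
  | one : Trm
  | var : ℕ → Trm
  | add : Trm → Trm → Trm
  | mul : Trm → Trm → Trm

/-- Quantifier-free formulas over `0, 1, +, ×, =, <`. -/
inductive Fml : Type
  | eq : Trm → Trm → Fml
  | lt : Trm → Trm → Fml
  | not : Fml → Fml
  | and : Fml → Fml → Fml
  | or : Fml → Fml → Fml

/-- Value of a term over the rationals. -/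
def Trm.eval (v : ℕ → ℚ) : Trm → ℚ
  | .zero => 0
  | .one => 1
  | .var i => v i
  | .add s t => s.eval v + t.eval v
  | .mul s t => s.eval v * t.eval v

/-- Truth of a formula over the rationals. -/
def Fml.Holds (v : ℕ → ℚ) : Fml → Prop
  | .eq s t => s.eval v = t.eval v
  | .lt s t => s.eval v < t.eval v
  | .not φ => ¬ φ.Holds v
  | .and φ ψ => φ.Holds v ∧ ψ.Holds v
  | .or φ ψ => φ.Holds v ∨ ψ.Holds v

/-- All variables of the term are among `x₀, …, x_{n-1}`. -/
def Trm.Below (n : ℕ) : Trm → Prop
  | .zero => True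
  | .one => True
  | .var i => i < n
  | .add s t => s.Below n ∧ t.Below n
  | .mul s t => s.Below n ∧ t.Below n

/-- All variables of the formula are among `x₀, …, x_{n-1}`. -/
def Fml.Below (n : ℕ) : Fml → Prop
  | .eq s t => s.Below n ∧ t.Below n
  | .lt s t => s.Below n ∧ t.Below n
  | .not φ => φ.Below n
  | .and φ ψ => φ.Below n ∧ ψ.Below n
  | .or φ ψ => φ.Below n ∧ ψ.Below n

/-- The syntax tree of a term. -/
def Trm.toBT : Trm → BT
  | .zero => .node (enc (0 : ℕ)) .nil
  | .one => .node (enc (1 : ℕ)) .nil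
  | .var i => .node (enc (2 : ℕ)) (enc i)
  | .add s t => .node (enc (3 : ℕ)) (.node s.toBT t.toBT)
  | .mul s t => .node (enc (4 : ℕ)) (.node s.toBT t.toBT)

/-- The syntax tree of a formula. -/
def Fml.toBT : Fml → BT
  | .eq s t => .node (enc (5 : ℕ)) (.node s.toBT t.toBT)
  | .lt s t => .node (enc (6 : ℕ)) (.node s.toBT t.toBT)
  | .not φ => .node (enc (7 : ℕ)) φ.toBT
  | .and φ ψ => .node (enc (8 : ℕ)) (.node φ.toBT ψ.toBT)
  | .or φ ψ => .node (enc (9 : ℕ)) (.node φ.toBT ψ.toBT)

instance : Enc Trm := ⟨Trm.toBT⟩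
instance : Enc Fml := ⟨Fml.toBT⟩

/-- The existential theory of the rationals: the set of (codes of) true sentences
`∃ x₀ … ∃ x_{n-1}, φ`, where `φ` is quantifier-free in `0, 1, +, ×, =, <` with all its variables
among `x₀, …, x_{n-1}`, interpreted over `ℚ`. -/
def ETQ : Set Word :=
  {w | ∃ (n : ℕ) (φ : Fml), w = code (enc (n, φ)) ∧ φ.Below n ∧ ∃ v : ℕ → ℚ, φ.Holds v}

/-! ## The grid version of the upward planar slope number problem -/

/-- `E` is the list of edges of a directed graph with vertices `0, …, n-1`, without loops and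
without multiple edges. -/
def IsDigraph (n : ℕ) (E : List (ℕ × ℕ)) : Prop :=
  E.Nodup ∧ ∀ e ∈ E, e.1 < n ∧ e.2 < n ∧ e.1 ≠ e.2

/-- A grid point as a point of the real plane. -/
def toR (p : ℤ × ℤ) : ℝ × ℝ := ((p.1 : ℝ), (p.2 : ℝ))

/-- The segment that draws the edge `e`. -/
def eseg (pos : ℕ → ℤ × ℤ) (e : ℕ × ℕ) : Set (ℝ × ℝ) :=
  segment ℝ (toR (pos e.1)) (toR (pos e.2))

/-- `pos` is an upward planar straight-line drawing on the grid `ℤ²` of the directed graph with
vertices `0, …, n-1` and edges `E`. -/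
structure IsDrawing (n : ℕ) (E : List (ℕ × ℕ)) (pos : ℕ → ℤ × ℤ) : Prop where
  /-- each vertex has its own point -/
  inj : ∀ i < n, ∀ j < n, pos i = pos j → i = j
  /-- no vertex lies in the interior of an edge -/
  clear : ∀ i < n, ∀ e ∈ E, i ≠ e.1 → i ≠ e.2 → toR (pos i) ∉ eseg pos e
  /-- two edges meet only at a common endpoint -/
  planar : ∀ e ∈ E, ∀ f ∈ E, e ≠ f → ∀ z ∈ eseg pos e ∩ eseg pos f,
    ∃ i, (i = e.1 ∨ i = e.2) ∧ (i = f.1 ∨ i = f.2) ∧ z = toR (pos i)
  /-- every edge points upward -/
  upward : ∀ e ∈ E, (pos e.1).2 < (pos e.2).2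

/-- The direction of an edge: the line through the origin parallel to it. -/
noncomputable def dir (pos : ℕ → ℤ × ℤ) (e : ℕ × ℕ) : Submodule ℝ (ℝ × ℝ) :=
  Submodule.span ℝ {toR (pos e.2) - toR (pos e.1)}

/-- The set of slopes (directions of the edges) of a drawing. -/
def slopes (E : List (ℕ × ℕ)) (pos : ℕ → ℤ × ℤ) : Set (Submodule ℝ (ℝ × ℝ)) :=
  {d | ∃ e ∈ E, d = dir pos e}

/-- The grid version of the upward planar slope number problem.  An input consists of the number
`n` of vertices, the list `E` of edges, and a number `k` in binary (`k = bval b`, least significant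
bit first); the question is whether the graph has an upward planar straight-line drawing with all
vertices at points of `ℤ²` and with at most `k` slopes. -/
def GRID : Set Word :=
  {w | ∃ (n : ℕ) (E : List (ℕ × ℕ)) (b : Word), w = code (enc ((n, E), b)) ∧ IsDigraph n E ∧
    ∃ pos : ℕ → ℤ × ℤ, IsDrawing n E pos ∧ (slopes E pos).ncard ≤ bval b}

/-! ## Reductions and completeness -/

/-- `A` reduces to `B` by a polynomial-time many-one reduction. -/
def Reduces (A B : Set Word) : Prop := ∃ f : Word → Word, PT f ∧ ∀ w, w ∈ A ↔ f w ∈ B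

/-- The complexity class `∃ℚ`. -/
def InExistsQ (L : Set Word) : Prop := Reduces L ETQ

/-- `∃ℚ`-completeness. -/
def ExistsQComplete (L : Set Word) : Prop :=
  InExistsQ L ∧ ∀ A : Set Word, InExistsQ A → Reduces A L

end Pool.Agent.Lib.MP_be4430_lc
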