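import Pool.Agent.Lib.MP_be4430_lc.E2_Facts

/-! # The inner edges -/

namespace Pool.Agent.Lib.MP_be4430_lc

variable {m : ℕ} {ts : List Trp} {P : Par}

theorem inner_FO (hP : ParOK m ts P) (hT : TValid m ts) {g n : ℕ} (h1 : 1 ≤ g)
    (h2 : g ≤ ts.length) (h3 : 2 ≤ n) (h4 : n ≤ m) :
    Inner (rect m ts P (.FO g)) (loc m ts P (.O g)) (loc m ts P (.c g n)) := by
  have hl := hP.lam_pos g
  have hn := x_pos hP h3 h4
  have hm := x_le_max hP (show 1 ≤ n by omega) h4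
  have e1 : 0 < P.lam g * P.x n := mul_pos hl hn
  have e2 : P.lam g * P.x n ≤ P.lam g * P.x m := mul_le_mul_of_nonneg_left hm hl.le
  simp only [Inner, rect, loc]
  refine ⟨⟨?_, ?_, ?_, ?_⟩, ⟨?_, ?_, ?_, ?_⟩, ?_, ?_, ?_, ?_⟩ <;> linarith

theorem inner_FG (hP : ParOK m ts P) (hT : TValid m ts) {g n : ℕ} (h2 : g ≤ ts.length)
    (h3 : 2 ≤ n) (h4 : n ≤ m) :
    Inner (rect m ts P (.FG g)) (loc m ts P (.r g n)) (loc m ts P (.G g)) := by
  have hl := hP.mu_pos g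
  have hn := x_pos hP h3 h4
  have hm := x_le_max hP (show 1 ≤ n by omega) h4
  have e1 : 0 < P.mu g * P.x n := mul_pos hl hn
  have e2 : P.mu g * P.x n ≤ P.mu g * P.x m := mul_le_mul_of_nonneg_left hm hl.le
  simp only [Inner, rect, loc]
  refine ⟨⟨?_, ?_, ?_, ?_⟩, ⟨?_, ?_, ?_, ?_⟩, ?_, ?_, ?_, ?_⟩ <;> linarith

/-- bounds for the horizontal offset -/
theorem off_bounds {w : ℚ} (hw : 0 < w) {j : ℕ} (h1 : 2 ≤ j) (h2 : j ≤ m) :
    0 < off m w j ∧ off m w j < w := by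
  have hm : (0 : ℚ) < m := by
    have : 0 < m := by omega
    exact_mod_cast this
  have hj : (2 : ℚ) ≤ j := by exact_mod_cast h1
  have hj' : (j : ℚ) ≤ m := by exact_mod_cast h2
  unfold off
  constructor
  · exact div_pos (mul_pos hw (by linarith)) hm
  · rw [div_lt_iff₀ hm]
    exact mul_lt_mul_of_pos_left (by linarith) hw

theorem off_lt {w : ℚ} (hw : 0 < w) {j j' : ℕ} (h1 : 2 ≤ j) (h2 : j < j') (h3 : j' ≤ m) :
    off m w j' < off m w j := by
  have hm : (0 : ℚ) < m := by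
    have : 0 < m := by omega
    exact_mod_cast this
  have hj : (j : ℚ) < j' := by exact_mod_cast h2
  unfold off
  rw [div_lt_div_iff_of_pos_right hm]
  exact mul_lt_mul_of_pos_left (by linarith) hw

/-- the inner vertices of a cell lie in the interior of its rectangle, `nn C j` below `ww C j` -/
theorem inner_vertices (hP : ParOK m ts P) (hT : TValid m ts) {C : Rct}
    (hC : Cok m ts.length C) {j : ℕ} (h1 : 2 ≤ j) (h2 : j ≤ m) :
    (rect m ts P C).l < (loc m ts P (.nn C j)).1 ∧ (loc m ts P (.nn C j)).1 < (rect m ts P C).r ∧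
    (loc m ts P (.ww C j)).1 = (loc m ts P (.nn C j)).1 ∧
    (rect m ts P C).b < (loc m ts P (.nn C j)).2 ∧
    (loc m ts P (.nn C j)).2 < (loc m ts P (.ww C j)).2 ∧
    (loc m ts P (.ww C j)).2 < (rect m ts P C).t := by
  obtain ⟨hw, hh⟩ := cell_height hP hT hC
  obtain ⟨o1, o2⟩ := off_bounds (m := m) hw h1 h2
  have hxj := x_pos hP h1 h2
  have hxj' := x_le_max hP (show 1 ≤ j by omega) h2
  have hxk := x_pos hP (show 2 ≤ m + 2 - j by omega) (show m + 2 - j ≤ m by omega)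
  have hxk' := x_le_max hP (show 1 ≤ m + 2 - j by omega) (show m + 2 - j ≤ m by omega)
  have hlocn : loc m ts P (.nn C j) = ((rect m ts P C).l +
      off m ((rect m ts P C).r - (rect m ts P C).l) j, (rect m ts P C).b +
      off m ((rect m ts P C).r - (rect m ts P C).l) j * P.x j) := rfl
  have hlocw : loc m ts P (.ww C j) = ((rect m ts P C).l +
      off m ((rect m ts P C).r - (rect m ts P C).l) j, (rect m ts P C).t -
      (((rect m ts P C).r - (rect m ts P C).l) -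
        off m ((rect m ts P C).r - (rect m ts P C).l) j) * P.x (m + 2 - j)) := rfl
  rw [hlocn, hlocw]
  generalize off m ((rect m ts P C).r - (rect m ts P C).l) j = o at *
  generalize rect m ts P C = R at *
  have e1 : 0 < o * P.x j := mul_pos o1 hxj
  have e2 : o * P.x j ≤ o * P.x m := mul_le_mul_of_nonneg_left hxj' o1.le
  have e3 : 0 < (R.r - R.l - o) * P.x (m + 2 - j) := mul_pos (by linarith) hxk
  have e4 : (R.r - R.l - o) * P.x (m + 2 - j) ≤ (R.r - R.l - o) * P.x m :=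
    mul_le_mul_of_nonneg_left hxk' (by linarith)
  have e5 : (R.r - R.l) * P.x m = o * P.x m + (R.r - R.l - o) * P.x m := by ring
  refine ⟨?_, ?_, rfl, ?_, ?_, ?_⟩ <;> dsimp only <;> linarith

theorem inner_cell (hP : ParOK m ts P) (hT : TValid m ts) {C : Rct} (hC : Cok m ts.length C)
    {j : ℕ} (h1 : 2 ≤ j) (h2 : j ≤ m) :
    Inner (rect m ts P C) (loc m ts P (cv ts C)) (loc m ts P (.nn C j)) ∧
    Inner (rect m ts P C) (loc m ts P (.nn C j)) (loc m ts P (.ww C j)) ∧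
    Inner (rect m ts P C) (loc m ts P (.ww C j)) (loc m ts P (ct ts C)) := by
  obtain ⟨a1, a2, a3, a4, a5, a6⟩ := inner_vertices hP hT hC h1 h2
  obtain ⟨c1, c2⟩ := loc_cv_ct hP hT hC
  rw [c1, c2]
  generalize loc m ts P (.nn C j) = p at *
  generalize loc m ts P (.ww C j) = q at *
  generalize rect m ts P C = R at *
  simp only [Inner]
  refine ⟨⟨⟨?_, ?_, ?_, ?_⟩, ⟨?_, ?_, ?_, ?_⟩, ?_, ?_, ?_, ?_⟩,
    ⟨⟨?_, ?_, ?_, ?_⟩, ⟨?_, ?_, ?_, ?_⟩, ?_, ?_, ?_, ?_⟩,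
    ⟨⟨?_, ?_, ?_, ?_⟩, ⟨?_, ?_, ?_, ?_⟩, ?_, ?_, ?_, ?_⟩⟩ <;> linarith

end Pool.Agent.Lib.MP_be4430_lc
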