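import Pool.Agent.Lib.MP_be4430_lc.E4_Kind
import Pool.Agent.Lib.MP_be4430_lc.E5_Inner

/-! # The kind of every edge -/

namespace Pool.Agent.Lib.MP_be4430_lc

variable {m : ℕ} {ts : List Trp} {P : Par}

private lemma of_side {u v : Vtx} (h : OnASide m ts P u v) (s : Sid m ts u v) :
    ∃ C, Rok m ts.length C ∧
      ((Inn m ts u v C ∧ Inner (rect m ts P C) (loc m ts P u) (loc m ts P v)) ∨
        (Sid m ts u v ∧ (VSide (rect m ts P C) (loc m ts P u) (loc m ts P v) ∨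
          HSide (rect m ts P C) (loc m ts P u) (loc m ts P v)))) := by
  obtain ⟨C, hC, h⟩ := h
  exact ⟨C, hC, Or.inr ⟨s, h⟩⟩

theorem edge_kind (hP : ParOK m ts P) (hT : TValid m ts) {u v : Vtx} (h : Edge m ts u v) :
    ∃ C, Rok m ts.length C ∧
      ((Inn m ts u v C ∧ Inner (rect m ts P C) (loc m ts P u) (loc m ts P v)) ∨
        (Sid m ts u v ∧ (VSide (rect m ts P C) (loc m ts P u) (loc m ts P v) ∨
          HSide (rect m ts P C) (loc m ts P u) (loc m ts P v)))) := by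
  cases h with
  | Oc g n h1 h2 h3 h4 =>
    rcases Nat.lt_or_ge 1 n with hn | hn
    · exact ⟨.FO g, ⟨h1, h2⟩, Or.inl ⟨.Oc g n h1 h2 hn h4, inner_FO hP hT h1 h2 hn h4⟩⟩
    · obtain rfl : n = 1 := by omega
      exact of_side (side_Oc hP hT h1 h2) (.Oc g h1 h2)
  | cc g n h1 h2 h3 h4 => exact of_side (side_cc hP hT h1 h2 h3 h4) (.cc g n h1 h2 h3 h4)
  | cd g n h1 h2 h3 h4 => exact of_side (side_cd hP hT h1 h2 h3 h4) (.cd g n h1 h2 h3 h4)
  | dd g n h1 h2 h3 h4 => exact of_side (side_dd hP hT h1 h2 h3 h4) (.dd g n h1 h2 h3 h4)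
  | ds g i h1 h2 h3 => exact of_side (side_ds hP hT h1 h2 h3) (.ds g i h1 h2 h3)
  | ss g n h1 h2 h3 h4 => exact of_side (side_ss hP hT h1 h2 h3 h4) (.ss g n h1 h2 h3 h4)
  | sr g n h1 h2 h3 h4 => exact of_side (side_sr hP hT h1 h2 h3 h4) (.sr g n h1 h2 h3 h4)
  | rr g n h2 h3 h4 => exact of_side (side_rr hP hT h2 h3 h4) (.rr g n h2 h3 h4)
  | rG g n h2 h3 h4 =>
    rcases Nat.lt_or_ge 1 n with hn | hn
    · exact ⟨.FG g, h2, Or.inl ⟨.rG g n h2 hn h4, inner_FG hP hT h2 hn h4⟩⟩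
    · obtain rfl : n = 1 := by omega
      exact of_side (side_rG hP hT h2) (.rG g h2)
  | sa g h1 h2 => exact of_side (side_sa hP hT h1 h2) (.sa g h1 h2)
  | aO g h1 h2 => exact of_side (side_aO hP hT h1 h2) (.aO g h1 h2)
  | rO g h2 => exact of_side (side_rO hP hT h2) (.rO g h2)
  | Gb g h2 => exact of_side (side_Gb hP hT h2) (.Gb g h2)
  | bd g h2 => exact of_side (side_bd hP hT h2) (.bd g h2)
  | vn C j h1 h2 h3 =>
    exact ⟨C, h1.2, Or.inl ⟨.vn C j h1 h2 h3, (inner_cell hP hT h1 h2 h3).1⟩⟩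
  | nw C j h1 h2 h3 =>
    exact ⟨C, h1.2, Or.inl ⟨.nw C j h1 h2 h3, (inner_cell hP hT h1 h2 h3).2.1⟩⟩
  | wt C j h1 h2 h3 =>
    exact ⟨C, h1.2, Or.inl ⟨.wt C j h1 h2 h3, (inner_cell hP hT h1 h2 h3).2.2⟩⟩

end Pool.Agent.Lib.MP_be4430_lc
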