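import Pool.Agent.Lib.MP_be4430_lc.E2_Facts

/-! # Side edges within one column -/

namespace Pool.Agent.Lib.MP_be4430_lc

variable {m : ℕ} {ts : List Trp} {P : Par}

private theorem vcol_ok {N : ℕ} {w : Vtx} (hw : Vok m N w) (bw : Bdry w) :
    1 ≤ (vcol w).1 ∧ (vcol w).2 ≤ 4 := by
  cases w <;> simp only [Vok, vcol, Bdry] at * <;> omega

private theorem vcol_eq (hP : ParOK m ts P) {N : ℕ} {w : Vtx} (hw : Vok m N w) (bw : Bdry w)
    {g r : ℕ} (hg : 1 ≤ g) (hr : r ≤ 4) (h : (loc m ts P w).1 = colx P g r) :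
    (vcol w).1 = g ∧ (vcol w).2 = r := by
  rw [loc_fst P m ts bw] at h
  obtain ⟨h1, h2⟩ := vcol_ok hw bw
  have h3 : 5 * (vcol w).1 + (vcol w).2 = 5 * g + r := by
    rcases Nat.lt_trichotomy (5 * (vcol w).1 + (vcol w).2) (5 * g + r) with h4 | h4 | h4
    · exact absurd h (colx_lt hP h1 hg h2 hr h4).ne
    · exact h4
    · exact absurd h (colx_lt hP hg h1 hr h2 h4).ne'
  omega

theorem free_sa (hP : ParOK m ts P) (hT : TValid m ts) {g : ℕ} (h1 : 1 ≤ g)
    (h2 : g ≤ ts.length) {w : Vtx} (hw : Vok m ts.length w) (bw : Bdry w) :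
    ¬ OnSide (loc m ts P (.s g 1)) (loc m ts P (.a g)) (loc m ts P w) := by
  have hl := hP.mu_pos g
  have hx := hP.x1
  have h5 := T_lt_B hP hT g
  rintro (⟨_, e1, e2, e3⟩ | ⟨e1, _, _, _⟩)
  · have e4 : (loc m ts P w).1 = colx P g 4 := e1
    obtain ⟨c1, c2⟩ := vcol_eq hP hw bw h1 (by norm_num) e4
    cases w with
    | s g' n' =>
      simp only [vcol] at c1
      subst c1
      obtain ⟨_, h8, h6⟩ := hw
      simp only [loc, hx, mul_zero] at e2
      have h7 : 0 ≤ P.mu g' * P.x n' := mul_nonneg hl.le (x_nonneg hP h8 h6)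
      linarith
    | a g' =>
      simp only [vcol] at c1
      subst c1
      exact lt_irrefl _ e3
    | O g' => simp [vcol] at c2
    | G g' => simp [vcol] at c2
    | b g' => simp [vcol] at c2
    | c g' n' => simp [vcol] at c2
    | d g' n' => simp [vcol] at c2
    | r g' n' => simp [vcol] at c2
    | nn C j => exact bw
    | ww C j => exact bw
  · simp only [loc, hx, mul_zero] at e1
    linarith

theorem free_rO (hP : ParOK m ts P) (hT : TValid m ts) {g : ℕ} (h2 : g ≤ ts.length) {w : Vtx}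
    (hw : Vok m ts.length w) (bw : Bdry w) :
    ¬ OnSide (loc m ts P (.r g 1)) (loc m ts P (.O (g + 1))) (loc m ts P w) := by
  have hl := hP.mu_pos g
  have hx := hP.x1
  have h5 := T_lt_B hP hT g
  rintro (⟨_, e1, e2, e3⟩ | ⟨e1, _, _, _⟩)
  · have e4 : (loc m ts P w).1 = colx P (g + 1) 0 := e1
    obtain ⟨c1, c2⟩ := vcol_eq hP hw bw (by omega) (by norm_num) e4
    cases w with
    | r g' n' =>
      simp only [vcol, Nat.add_right_cancel_iff] at c1
      subst c1
      obtain ⟨_, h8, h6⟩ := hw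
      simp only [loc, hx, mul_zero] at e2
      have h7 : 0 ≤ P.mu g' * P.x n' := mul_nonneg hl.le (x_nonneg hP h8 h6)
      linarith
    | O g' =>
      simp only [vcol] at c1
      subst c1
      exact lt_irrefl _ e3
    | a g' => simp [vcol] at c2
    | G g' => simp [vcol] at c2
    | b g' => simp [vcol] at c2
    | c g' n' => simp [vcol] at c2
    | d g' n' => simp [vcol] at c2
    | s g' n' => simp [vcol] at c2
    | nn C j => exact bw
    | ww C j => exact bw
  · simp only [loc, hx, mul_zero] at e1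
    linarith

theorem free_bd (hP : ParOK m ts P) (hT : TValid m ts) {g : ℕ} (h2 : g < ts.length) {w : Vtx}
    (hw : Vok m ts.length w) (bw : Bdry w) :
    ¬ OnSide (loc m ts P (.b g)) (loc m ts P (.d (g + 1) 1)) (loc m ts P w) := by
  have hl := hP.lam_pos (g + 1)
  have hx := hP.x1
  have h5 := T_lt_B hP hT g
  rintro (⟨_, e1, e2, e3⟩ | ⟨e1, _, _, _⟩)
  · have e4 : (loc m ts P w).1 = colx P (g + 1) 3 := e1
    obtain ⟨c1, c2⟩ := vcol_eq hP hw bw (by omega) (by norm_num) e4
    cases w with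
    | d g' n' =>
      simp only [vcol] at c1
      subst c1
      obtain ⟨_, h8, h6⟩ := hw
      simp only [loc, hx, mul_zero] at e3
      have h7 : 0 ≤ P.lam (g + 1) * P.x n' := mul_nonneg hl.le (x_nonneg hP h8 h6)
      linarith
    | b g' =>
      simp only [vcol, Nat.add_right_cancel_iff] at c1
      subst c1
      exact lt_irrefl _ e2
    | O g' => simp [vcol] at c2
    | G g' => simp [vcol] at c2
    | a g' => simp [vcol] at c2
    | c g' n' => simp [vcol] at c2
    | s g' n' => simp [vcol] at c2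
    | r g' n' => simp [vcol] at c2
    | nn C j => exact bw
    | ww C j => exact bw
  · simp only [loc, hx, mul_zero] at e1
    linarith

end Pool.Agent.Lib.MP_be4430_lc
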