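import Pool.Agent.Lib.MP_be4430_lc.E2_Facts

/-! # Horizontal side edges -/

namespace Pool.Agent.Lib.MP_be4430_lc

variable {m : ℕ} {ts : List Trp} {P : Par}

private theorem E8hTwo_vcol {N : ℕ} {w : Vtx} (hw : Vok m N w) (bw : Bdry w) :
    1 ≤ (vcol w).1 ∧ (vcol w).2 ≤ 4 := by
  cases w with
  | O g => exact ⟨hw.1, by simp [vcol]⟩
  | G g => exact ⟨by simp [vcol], by simp [vcol]⟩
  | a g => exact ⟨hw.1, by simp [vcol]⟩
  | b g => exact ⟨by simp [vcol], by simp [vcol]⟩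
  | c g n => exact ⟨hw.1.1, by simp [vcol]⟩
  | d g n => exact ⟨hw.1.1, by simp [vcol]⟩
  | s g n => exact ⟨hw.1.1, by simp [vcol]⟩
  | r g n => exact ⟨by simp [vcol], by simp [vcol]⟩
  | nn C j => exact bw.elim
  | ww C j => exact bw.elim

private theorem E8hTwo_between (hP : ParOK m ts P) {g r g' r' : ℕ} (hg : 1 ≤ g) (hg' : 1 ≤ g')
    (hr : r ≤ 4) (hr' : r' ≤ 4) (h : 5 * g' + r' = 5 * g + r + 1) {w : Vtx}
    (hw : Vok m ts.length w) (bw : Bdry w)
    (h1 : colx P g r < (loc m ts P w).1) (h2 : (loc m ts P w).1 < colx P g' r') : False := by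
  obtain ⟨e1, e2⟩ := E8hTwo_vcol hw bw
  rw [loc_fst P m ts bw] at h1 h2
  rcases Nat.lt_or_ge (5 * g + r) (5 * (vcol w).1 + (vcol w).2) with h3 | h3
  · have := colx_le hP hg' e1 hr' e2 (by omega)
    exact absurd h2 (not_lt.2 this)
  · have := colx_le hP e1 hg e2 hr h3
    exact absurd h1 (not_lt.2 this)

theorem free_cd (hP : ParOK m ts P) (hT : TValid m ts) {g n : ℕ} (h1 : 1 ≤ g)
    (h2 : g ≤ ts.length) (h3 : 1 ≤ n) (h4 : n ≤ m) {w : Vtx} (hw : Vok m ts.length w)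
    (bw : Bdry w) : ¬ OnSide (loc m ts P (.c g n)) (loc m ts P (.d g n)) (loc m ts P w) := by
  have he := hP.eps_pos
  rintro (⟨e, -⟩ | ⟨-, -, e1, e2⟩)
  · simp only [loc] at e
    linarith
  · exact E8hTwo_between hP (g := g) (r := 2) (g' := g) (r' := 3) h1 h1 (by norm_num)
      (by norm_num) (by omega) hw bw e1 e2

theorem free_ds (hP : ParOK m ts P) (hT : TValid m ts) {g i : ℕ} (h1 : 1 ≤ g)
    (h2 : g ≤ ts.length) (h3 : i < 3) {w : Vtx} (hw : Vok m ts.length w) (bw : Bdry w) :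
    ¬ OnSide (loc m ts P (.d g (pp ts g i))) (loc m ts P (.s g (qq ts g i)))
      (loc m ts P w) := by
  have he := hP.eps_pos
  rintro (⟨e, -⟩ | ⟨-, -, e1, e2⟩)
  · simp only [loc] at e
    linarith
  · exact E8hTwo_between hP (g := g) (r := 3) (g' := g) (r' := 4) h1 h1 (by norm_num)
      (by norm_num) (by omega) hw bw e1 e2

theorem free_sr (hP : ParOK m ts P) (hT : TValid m ts) {g n : ℕ} (h1 : 1 ≤ g)
    (h2 : g ≤ ts.length) (h3 : 1 ≤ n) (h4 : n ≤ m) {w : Vtx} (hw : Vok m ts.length w)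
    (bw : Bdry w) : ¬ OnSide (loc m ts P (.s g n)) (loc m ts P (.r g n)) (loc m ts P w) := by
  have he := hP.eps_pos
  rintro (⟨e, -⟩ | ⟨-, -, e1, e2⟩)
  · simp only [loc, A_succ] at e
    linarith
  · exact E8hTwo_between hP (g := g) (r := 4) (g' := g + 1) (r' := 0) h1 (by omega)
      (by norm_num) (by norm_num) (by omega) hw bw e1 e2

end Pool.Agent.Lib.MP_be4430_lc
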