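import Pool.Agent.Lib.MP_be4430_lc.E8_Free
import Pool.Agent.Lib.MP_be4430_lc.E8a_FreeVert
import Pool.Agent.Lib.MP_be4430_lc.E8b_FreeHor

/-! # No vertex in the relative interior of a side edge: all cases -/

namespace Pool.Agent.Lib.MP_be4430_lc

variable {m : ℕ} {ts : List Trp} {P : Par}

theorem free_all (hP : ParOK m ts P) (hT : TValid m ts) {u v w : Vtx} (h : Sid m ts u v)
    (hw : Vok m ts.length w) : ¬ OnSide (loc m ts P u) (loc m ts P v) (loc m ts P w) := by
  by_cases bw : Bdry w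
  · cases h with
    | Oc g h1 h2 => exact free_Oc hP hT h1 h2 hw bw
    | cc g n h1 h2 h3 h4 => exact free_cc hP hT h1 h2 h3 h4 hw bw
    | cd g n h1 h2 h3 h4 => exact free_cd hP hT h1 h2 h3 h4 hw bw
    | dd g n h1 h2 h3 h4 => exact free_dd hP hT h1 h2 h3 h4 hw bw
    | ds g i h1 h2 h3 => exact free_ds hP hT h1 h2 h3 hw bw
    | ss g n h1 h2 h3 h4 => exact free_ss hP hT h1 h2 h3 h4 hw bw
    | sr g n h1 h2 h3 h4 => exact free_sr hP hT h1 h2 h3 h4 hw bw
    | rr g n h2 h3 h4 => exact free_rr hP hT h2 h3 h4 hw bw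
    | rG g h2 => exact free_rG hP hT h2 hw bw
    | sa g h1 h2 => exact free_sa hP hT h1 h2 hw bw
    | aO g h1 h2 => exact free_aO hP hT h1 h2 hw bw
    | rO g h2 => exact free_rO hP hT h2 hw bw
    | Gb g h2 => exact free_Gb hP hT h2 hw bw
    | bd g h2 => exact free_bd hP hT h2 hw bw
  · exact free_inner hP hT h hw bw

end Pool.Agent.Lib.MP_be4430_lc
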