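import Pool.Agent.Lib.MP_be4430_lc.E9_Local

/-! # The inner edges of one cell

In coordinates relative to the lower left corner: `w` = width, `h > w·X` = height, `s j = off m w j`
(decreasing in `j`), `nn j = (s j, s j · x j)`, `ww j = (s j, h - (w - s j)·x (m+2-j))`. -/

namespace Pool.Agent.Lib.MP_be4430_lc

variable {m : ℕ} {ts : List Trp} {P : Par}

/-- the position of `ww C j` -/
private theorem E9y_ww (C : Rct) (j : ℕ) :
    loc m ts P (.ww C j) =
      ((rect m ts P C).l + off m ((rect m ts P C).r - (rect m ts P C).l) j,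
        (rect m ts P C).t - (((rect m ts P C).r - (rect m ts P C).l) -
          off m ((rect m ts P C).r - (rect m ts P C).l) j) * P.x (m + 2 - j)) := rfl

/-- the position of `nn C j` -/
private theorem E9y_nn (C : Rct) (j : ℕ) :
    loc m ts P (.nn C j) =
      ((rect m ts P C).l + off m ((rect m ts P C).r - (rect m ts P C).l) j,
        (rect m ts P C).b + off m ((rect m ts P C).r - (rect m ts P C).l) j * P.x j) := rfl

/-- `v → nn j` against `ww j' → t`: the first lies below the line `y = X x`, the second above the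
line of slope `X` through `t`, which is higher as `h > w X` -/
theorem cell_vn_wt (hP : ParOK m ts P) (hT : TValid m ts) {C : Rct} (hC : Cok m ts.length C)
    {j j' : ℕ} (h1 : 2 ≤ j) (h2 : j ≤ m) (h3 : 2 ≤ j') (h4 : j' ≤ m) :
    MeetOK (fun w => qR (loc m ts P w)) (cv ts C) (.nn C j) (.ww C j') (ct ts C) := by
  intro z hz hz'
  exfalso
  obtain ⟨hw, hh⟩ := cell_height hP hT hC
  obtain ⟨hcv, hct⟩ := loc_cv_ct hP hT hC
  obtain ⟨hs0, hs1⟩ := off_bounds (m := m) hw h1 h2
  obtain ⟨hs0', hs1'⟩ := off_bounds (m := m) hw h3 h4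
  simp only [hcv] at hz
  simp only [hct] at hz'
  simp only [E9y_ww, E9y_nn] at hz hz'
  have hs0R := (Rat.cast_lt (K := ℝ)).2 hs0
  have hs1R' := (Rat.cast_lt (K := ℝ)).2 hs1'
  have hhR := (Rat.cast_lt (K := ℝ)).2 hh
  have hx1 := (Rat.cast_le (K := ℝ)).2 (x_le_max hP (show 1 ≤ j by omega) h2)
  have hx2 := (Rat.cast_le (K := ℝ)).2
    (x_le_max hP (show 1 ≤ m + 2 - j' by omega) (show m + 2 - j' ≤ m by omega))
  obtain ⟨c, d, hc, hd, hcd, hz2⟩ := hz
  obtain ⟨a, b, ha, hb, hab, hz1⟩ := hz'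
  have e3 : z.1 = ((rect m ts P C).l : ℝ) +
      d * (off m ((rect m ts P C).r - (rect m ts P C).l) j : ℝ) := by
    rw [← hz2]
    simp only [qR, Prod.fst_add, Prod.smul_fst, smul_eq_mul]
    push_cast
    have h6 : c = 1 - d := by linarith
    rw [h6]
    ring
  have e4 : z.2 = ((rect m ts P C).b : ℝ) + (z.1 - (rect m ts P C).l) * P.x j := by
    rw [e3, ← hz2]
    simp only [qR, Prod.snd_add, Prod.smul_snd, smul_eq_mul]
    push_cast
    have h6 : c = 1 - d := by linarith
    rw [h6]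
    ring
  have e5 : z.1 = a * (((rect m ts P C).l : ℝ) +
      (off m ((rect m ts P C).r - (rect m ts P C).l) j' : ℝ)) + b * ((rect m ts P C).r : ℝ) := by
    rw [← hz1]
    simp only [qR, Prod.fst_add, Prod.smul_fst, smul_eq_mul]
    push_cast
    ring
  have e6 : z.2 = ((rect m ts P C).t : ℝ) -
      (((rect m ts P C).r : ℝ) - z.1) * P.x (m + 2 - j') := by
    rw [e5, ← hz1]
    simp only [qR, Prod.snd_add, Prod.smul_snd, smul_eq_mul]
    push_cast
    have h6 : b = 1 - a := by linarith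
    rw [h6]
    ring
  push_cast at hs0R hs1R' hhR
  have e7 : (0 : ℝ) ≤ z.1 - (rect m ts P C).l := by
    rw [e3]
    have := mul_nonneg hd hs0R.le
    linarith
  have e8 : (0 : ℝ) ≤ ((rect m ts P C).r : ℝ) - z.1 := by
    rw [e5]
    have h6 : b = 1 - a := by linarith
    rw [h6]
    have : 0 ≤ a * ((((rect m ts P C).r : ℝ) - (rect m ts P C).l) -
      (off m ((rect m ts P C).r - (rect m ts P C).l) j' : ℝ)) := mul_nonneg ha (by linarith)
    linarith
  have e9 := mul_le_mul_of_nonneg_left hx1 e7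
  have e10 := mul_le_mul_of_nonneg_left hx2 e8
  nlinarith

/-- `nn j → ww j` against `nn j' → ww j'`: different vertical lines -/
theorem cell_nw_nw (hP : ParOK m ts P) (hT : TValid m ts) {C : Rct} (hC : Cok m ts.length C)
    {j j' : ℕ} (h1 : 2 ≤ j) (h2 : j ≤ m) (h3 : 2 ≤ j') (h4 : j' ≤ m) (hne : j ≠ j') :
    MeetOK (fun w => qR (loc m ts P w)) (.nn C j) (.ww C j) (.nn C j') (.ww C j') := by
  intro z hz hz'
  exfalso
  obtain ⟨hw, hh⟩ := cell_height hP hT hC
  simp only [E9y_ww, E9y_nn] at hz hz'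
  obtain ⟨c, d, hc, hd, hcd, hz2⟩ := hz
  obtain ⟨a, b, ha, hb, hab, hz1⟩ := hz'
  have e1 : z.1 = ((rect m ts P C).l : ℝ) +
      (off m ((rect m ts P C).r - (rect m ts P C).l) j' : ℝ) := by
    rw [← hz1]
    simp only [qR, Prod.fst_add, Prod.smul_fst, smul_eq_mul]
    push_cast
    rw [← add_mul, hab, one_mul]
  have e2 : z.1 = ((rect m ts P C).l : ℝ) +
      (off m ((rect m ts P C).r - (rect m ts P C).l) j : ℝ) := by
    rw [← hz2]
    simp only [qR, Prod.fst_add, Prod.smul_fst, smul_eq_mul]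
    push_cast
    rw [← add_mul, hcd, one_mul]
  have e3 : (off m ((rect m ts P C).r - (rect m ts P C).l) j : ℝ) =
      (off m ((rect m ts P C).r - (rect m ts P C).l) j' : ℝ) := by linarith
  have e4 : off m ((rect m ts P C).r - (rect m ts P C).l) j =
      off m ((rect m ts P C).r - (rect m ts P C).l) j' := by exact_mod_cast e3
  rcases lt_or_gt_of_ne hne with h | h
  · exact (off_lt (m := m) hw h1 h h4).ne' e4
  · exact (off_lt (m := m) hw h3 h h2).ne e4

end Pool.Agent.Lib.MP_be4430_lc
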