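import Pool.Agent.Lib.MP_be4430_lc.E9_Local

/-! # The inner edges of one cell

In coordinates relative to the lower left corner: `w` = width, `h > w·X` = height, `s j = off m w j`
(decreasing in `j`), `nn j = (s j, s j · x j)`, `ww j = (s j, h - (w - s j)·x (m+2-j))`. -/

namespace Pool.Agent.Lib.MP_be4430_lc

variable {m : ℕ} {ts : List Trp} {P : Par}

/-- the position of `ww C j` -/
private theorem E9z_ww (C : Rct) (j : ℕ) :
    loc m ts P (.ww C j) =
      ((rect m ts P C).l + off m ((rect m ts P C).r - (rect m ts P C).l) j,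
        (rect m ts P C).t - (((rect m ts P C).r - (rect m ts P C).l) -
          off m ((rect m ts P C).r - (rect m ts P C).l) j) * P.x (m + 2 - j)) := rfl

/-- the first coordinate of `nn C j` -/
private theorem E9z_nn (C : Rct) (j : ℕ) :
    loc m ts P (.nn C j) =
      ((rect m ts P C).l + off m ((rect m ts P C).r - (rect m ts P C).l) j,
        (rect m ts P C).b + off m ((rect m ts P C).r - (rect m ts P C).l) j * P.x j) := rfl

/-- `nn j → ww j` against `ww j' → t` (symmetric to `cell_vn_nw`) -/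
theorem cell_nw_wt (hP : ParOK m ts P) (hT : TValid m ts) {C : Rct} (hC : Cok m ts.length C)
    {j j' : ℕ} (h1 : 2 ≤ j) (h2 : j ≤ m) (h3 : 2 ≤ j') (h4 : j' ≤ m) :
    MeetOK (fun w => qR (loc m ts P w)) (.nn C j) (.ww C j) (.ww C j') (ct ts C) := by
  intro z hz hz'
  obtain ⟨hw, -⟩ := cell_height hP hT hC
  obtain ⟨-, hct⟩ := loc_cv_ct hP hT hC
  obtain ⟨-, -, -, -, hlt, -⟩ := inner_vertices hP hT hC h1 h2
  obtain ⟨hs0, hs1⟩ := off_bounds (m := m) hw h1 h2
  obtain ⟨hs0', hs1'⟩ := off_bounds (m := m) hw h3 h4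
  simp only [hct] at hz'
  simp only [E9z_ww, E9z_nn] at hz hz' hlt
  have hlt' := (Rat.cast_lt (K := ℝ)).2 hlt
  have hs1R := (Rat.cast_lt (K := ℝ)).2 hs1
  have hs1R' := (Rat.cast_lt (K := ℝ)).2 hs1'
  obtain ⟨a, b, ha, hb, hab, hz1⟩ := hz
  obtain ⟨c, d, hc, hd, hcd, hz2⟩ := hz'
  have e1 : z.1 = ((rect m ts P C).l : ℝ) +
      (off m ((rect m ts P C).r - (rect m ts P C).l) j : ℝ) := by
    rw [← hz1]
    simp only [qR, Prod.fst_add, Prod.smul_fst, smul_eq_mul]
    push_cast
    rw [← add_mul, hab, one_mul]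
  have e2 : z.2 ≤ ((rect m ts P C).t : ℝ) - ((((rect m ts P C).r : ℝ) - (rect m ts P C).l) -
          off m ((rect m ts P C).r - (rect m ts P C).l) j) * P.x (m + 2 - j) := by
    rw [← hz1]
    simp only [qR, Prod.snd_add, Prod.smul_snd, smul_eq_mul]
    push_cast at hlt' ⊢
    have h5 : a * ((((rect m ts P C).t : ℝ) - ((((rect m ts P C).r : ℝ) - (rect m ts P C).l) -
          off m ((rect m ts P C).r - (rect m ts P C).l) j) * P.x (m + 2 - j)) -
        (((rect m ts P C).b : ℝ) + off m ((rect m ts P C).r - (rect m ts P C).l) j * P.x j)) ≥ 0 :=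
      mul_nonneg ha (by linarith)
    have h6 : b = 1 - a := by linarith
    rw [h6]
    nlinarith
  have e3 : z.1 = c * (((rect m ts P C).l : ℝ) +
      (off m ((rect m ts P C).r - (rect m ts P C).l) j' : ℝ)) + d * ((rect m ts P C).r : ℝ) := by
    rw [← hz2]
    simp only [qR, Prod.fst_add, Prod.smul_fst, smul_eq_mul]
    push_cast
    ring
  have e4 : z.2 = ((rect m ts P C).t : ℝ) -
      (((rect m ts P C).r : ℝ) - z.1) * P.x (m + 2 - j') := by
    rw [e3, ← hz2]
    simp only [qR, Prod.snd_add, Prod.smul_snd, smul_eq_mul]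
    push_cast
    have h6 : d = 1 - c := by linarith
    rw [h6]
    ring
  push_cast at hs1R hs1R'
  rcases lt_trichotomy j j' with hjj | hjj | hjj
  · -- the vertical edge passes below
    exfalso
    have hx := x_lt hP (i := m + 2 - j') (j := m + 2 - j) (by omega) (by omega) (by omega)
    have hxR := (Rat.cast_lt (K := ℝ)).2 hx
    rw [e1] at e4
    have h7 : (0 : ℝ) < (((rect m ts P C).r : ℝ) - (rect m ts P C).l) -
          off m ((rect m ts P C).r - (rect m ts P C).l) j := by linarith
    nlinarith [mul_pos h7 (sub_pos.2 hxR)]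
  · -- the common vertex
    subst hjj
    refine ⟨.ww C j, Or.inr rfl, Or.inl rfl, ?_⟩
    simp only [E9z_ww, qR]
    apply Prod.ext
    · rw [e1]
      push_cast
      rfl
    · rw [e4, e1]
      push_cast
      ring
  · -- the vertical edge is to the left
    exfalso
    have ho := off_lt (m := m) hw h3 hjj h2
    have hoR := (Rat.cast_lt (K := ℝ)).2 ho
    have h6 : c = 1 - d := by linarith
    rw [e1, h6] at e3
    have h7 : 0 ≤ d * (((rect m ts P C).r : ℝ) - (((rect m ts P C).l : ℝ) +
      (off m ((rect m ts P C).r - (rect m ts P C).l) j' : ℝ))) := mul_nonneg hd (by linarith)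
    nlinarith

/-- `ww j → t` against `ww j' → t` -/
theorem cell_wt_wt (hP : ParOK m ts P) (hT : TValid m ts) {C : Rct} (hC : Cok m ts.length C)
    {j j' : ℕ} (h1 : 2 ≤ j) (h2 : j ≤ m) (h3 : 2 ≤ j') (h4 : j' ≤ m) (hne : j ≠ j') :
    MeetOK (fun w => qR (loc m ts P w)) (.ww C j) (ct ts C) (.ww C j') (ct ts C) := by
  apply meet_same_head
  obtain ⟨hw, -⟩ := cell_height hP hT hC
  obtain ⟨-, hct⟩ := loc_cv_ct hP hT hC
  obtain ⟨hs0, hs1⟩ := off_bounds (m := m) hw h1 h2
  obtain ⟨hs0', hs1'⟩ := off_bounds (m := m) hw h3 h4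
  have hxne : P.x (m + 2 - j) ≠ P.x (m + 2 - j') := by
    rcases lt_or_gt_of_ne hne with h | h
    · exact (x_lt hP (i := m + 2 - j') (j := m + 2 - j) (by omega) (by omega) (by omega)).ne'
    · exact (x_lt hP (i := m + 2 - j) (j := m + 2 - j') (by omega) (by omega) (by omega)).ne
  simp only [hct, E9z_ww, qR]
  intro hcon
  have hcon' : ((rect m ts P C).l + off m ((rect m ts P C).r - (rect m ts P C).l) j -
        (rect m ts P C).r) * ((rect m ts P C).t - (((rect m ts P C).r - (rect m ts P C).l) -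
          off m ((rect m ts P C).r - (rect m ts P C).l) j') * P.x (m + 2 - j') -
          (rect m ts P C).t) =
      ((rect m ts P C).t - (((rect m ts P C).r - (rect m ts P C).l) -
          off m ((rect m ts P C).r - (rect m ts P C).l) j) * P.x (m + 2 - j) -
          (rect m ts P C).t) *
        ((rect m ts P C).l + off m ((rect m ts P C).r - (rect m ts P C).l) j' -
        (rect m ts P C).r) := by
    exact_mod_cast hcon
  have h5 : (((rect m ts P C).r - (rect m ts P C).l) -
          off m ((rect m ts P C).r - (rect m ts P C).l) j) *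
        (((rect m ts P C).r - (rect m ts P C).l) -
          off m ((rect m ts P C).r - (rect m ts P C).l) j') *
        (P.x (m + 2 - j) - P.x (m + 2 - j')) = 0 := by
    linear_combination -hcon'
  rcases mul_eq_zero.1 h5 with h6 | h6
  · rcases mul_eq_zero.1 h6 with h7 | h7
    · linarith
    · linarith
  · exact hxne (by linarith)

end Pool.Agent.Lib.MP_be4430_lc
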