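import Pool.Agent.Lib.MP_be4430_lc.E9x_VN
import Pool.Agent.Lib.MP_be4430_lc.E9y_Mid
import Pool.Agent.Lib.MP_be4430_lc.E9z_WT

/-! # The inner edges of one cell

In coordinates relative to the lower left corner: `w` = width, `h > w·X` = height, `s j = off m w j`
(decreasing in `j`), `nn j = (s j, s j · x j)`, `ww j = (s j, h - (w - s j)·x (m+2-j))`. -/
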