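import Pool.Agent.Lib.MP_be4430_lc.E1c_Planar
import Pool.Agent.Lib.MP_be4430_lc.E6_KindAll
import Pool.Agent.Lib.MP_be4430_lc.E8c_FreeAll
import Pool.Agent.Lib.MP_be4430_lc.E9a_LocalCell

/-! # The layout is a system of rectangles -/

namespace Pool.Agent.Lib.MP_be4430_lc

variable {m : ℕ} {ts : List Trp} {P : Par}

/-- all inner edges of one rectangle -/
theorem local_all (hP : ParOK m ts P) (hT : TValid m ts) {u v u' v' : Vtx} {C : Rct}
    (h1 : Inn m ts u v C) (h2 : Inn m ts u' v' C) (hne : (u, v) ≠ (u', v')) :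
    MeetOK (fun w => qR (loc m ts P w)) u v u' v' := by
  cases h1 with
  | Oc g n a1 a2 a3 a4 =>
    cases h2 with
    | Oc g n' b1 b2 b3 b4 =>
      exact local_FO hP hT a1 a2 a3 a4 b3 b4 (fun e => hne (by rw [e]))
    | vn C j hC _ _ => exact hC.1.elim
    | nw C j hC _ _ => exact hC.1.elim
    | wt C j hC _ _ => exact hC.1.elim
  | rG g n a2 a3 a4 =>
    cases h2 with
    | rG g n' b2 b3 b4 =>
      exact local_FG hP hT a2 a3 a4 b3 b4 (fun e => hne (by rw [e]))
    | vn C j hC _ _ => exact hC.1.elim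
    | nw C j hC _ _ => exact hC.1.elim
    | wt C j hC _ _ => exact hC.1.elim
  | vn C j hC a1 a2 =>
    cases h2 with
    | Oc g n b1 b2 b3 b4 => exact hC.1.elim
    | rG g n b2 b3 b4 => exact hC.1.elim
    | vn C j' hC' b1 b2 =>
      exact cell_vn_vn hP hT hC a1 a2 b1 b2 (fun e => hne (by rw [e]))
    | nw C j' hC' b1 b2 => exact cell_vn_nw hP hT hC a1 a2 b1 b2
    | wt C j' hC' b1 b2 => exact cell_vn_wt hP hT hC a1 a2 b1 b2
  | nw C j hC a1 a2 =>
    cases h2 with
    | Oc g n b1 b2 b3 b4 => exact hC.1.elim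
    | rG g n b2 b3 b4 => exact hC.1.elim
    | vn C j' hC' b1 b2 => exact (cell_vn_nw hP hT hC b1 b2 a1 a2).symm
    | nw C j' hC' b1 b2 =>
      exact cell_nw_nw hP hT hC a1 a2 b1 b2 (fun e => hne (by rw [e]))
    | wt C j' hC' b1 b2 => exact cell_nw_wt hP hT hC a1 a2 b1 b2
  | wt C j hC a1 a2 =>
    cases h2 with
    | Oc g n b1 b2 b3 b4 => exact hC.1.elim
    | rG g n b2 b3 b4 => exact hC.1.elim
    | vn C j' hC' b1 b2 => exact (cell_vn_wt hP hT hC b1 b2 a1 a2).symm
    | nw C j' hC' b1 b2 => exact (cell_nw_wt hP hT hC b1 b2 a1 a2).symm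
    | wt C j' hC' b1 b2 =>
      exact cell_wt_wt hP hT hC a1 a2 b1 b2 (fun e => hne (by rw [e]))

theorem rectSys (hP : ParOK m ts P) (hT : TValid m ts) :
    RectSys (Vok m ts.length) (Edge m ts) (loc m ts P) (Rok m ts.length) (rect m ts P)
      (Inn m ts) (Sid m ts) where
  nondeg := fun _ hi => rect_nondeg hP hT hi
  sep := fun _ _ hi hj hij => rect_sep hP hT hi hj hij
  ends := fun _ _ e => ⟨(edge_ends hT e).1, (edge_ends hT e).2.1⟩
  kind := fun _ _ e => edge_kind hP hT e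
  inj := fun _ _ hu hv h => loc_inj hP hT hu hv h
  free := fun _ _ _ _ hs hw => free_all hP hT hs hw
  loc := fun _ _ _ _ _ _ _ hne _ h1 h2 => local_all hP hT h1 h2 hne

end Pool.Agent.Lib.MP_be4430_lc
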