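import Pool.Agent.Lib.MP_be4430_lc.E4_Kind
import Pool.Agent.Lib.MP_be4430_lc.E5_Inner

/-! # The directions of the edges -/

namespace Pool.Agent.Lib.MP_be4430_lc

variable {m : ℕ} {ts : List Trp} {P : Par}

/-- every edge is vertical upward or parallel to `(1, x n)` (to the right) for some `n` -/
theorem edge_dir (hP : ParOK m ts P) (hT : TValid m ts) {u v : Vtx} (h : Edge m ts u v) :
    ((loc m ts P v).1 = (loc m ts P u).1 ∧ (loc m ts P u).2 < (loc m ts P v).2) ∨
    ∃ n, 1 ≤ n ∧ n ≤ m ∧ (loc m ts P u).1 < (loc m ts P v).1 ∧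
      (loc m ts P v).2 - (loc m ts P u).2 =
        ((loc m ts P v).1 - (loc m ts P u).1) * P.x n := by
  have h3 := three_le hT
  have he := hP.eps_pos
  have hx := hP.x1
  cases h with
  | Oc g n a1 a2 a3 a4 =>
    have hl := hP.lam_pos g
    refine Or.inr ⟨n, a3, a4, ?_, ?_⟩
    · simp only [loc]; linarith
    · simp only [loc]; ring
  | cc g n a1 a2 a3 a4 =>
    have hl := hP.lam_pos g
    have h5 := mul_lt_mul_of_pos_left (hP.xs n a3 a4) hl
    refine Or.inl ⟨rfl, ?_⟩
    simp only [loc]; linarith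
  | cd g n a1 a2 a3 a4 =>
    refine Or.inr ⟨1, le_refl _, by omega, ?_, ?_⟩
    · simp only [loc]; linarith
    · simp only [loc, hx]; ring
  | dd g n a1 a2 a3 a4 =>
    have hl := hP.lam_pos g
    have h5 := mul_lt_mul_of_pos_left (hP.xs n a3 a4) hl
    refine Or.inl ⟨rfl, ?_⟩
    simp only [loc]; linarith
  | ds g i a1 a2 a3 =>
    have h5 := hP.hh g i a1 a2 a3
    refine Or.inr ⟨1, le_refl _, by omega, ?_, ?_⟩
    · simp only [loc]; linarith
    · simp only [loc, hx, Par.T]; linarith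
  | ss g n a1 a2 a3 a4 =>
    have hl := hP.mu_pos g
    have h5 := mul_lt_mul_of_pos_left (hP.xs n a3 a4) hl
    refine Or.inl ⟨rfl, ?_⟩
    simp only [loc]; linarith
  | sr g n a1 a2 a3 a4 =>
    refine Or.inr ⟨1, le_refl _, by omega, ?_, ?_⟩
    · simp only [loc, A_succ]; linarith
    · simp only [loc, hx]; ring
  | rr g n a2 a3 a4 =>
    have hl := hP.mu_pos g
    have h5 := mul_lt_mul_of_pos_left (hP.xs n a3 a4) hl
    refine Or.inl ⟨rfl, ?_⟩
    simp only [loc]; linarith
  | rG g n a2 a3 a4 =>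
    have hl := hP.mu_pos g
    refine Or.inr ⟨n, a3, a4, ?_, ?_⟩
    · simp only [loc]; linarith
    · simp only [loc]; ring
  | sa g a1 a2 =>
    have h5 := T_lt_B hP hT g
    refine Or.inl ⟨?_, ?_⟩
    · simp only [loc, A_succ]; ring
    · simp only [loc, hx]; linarith
  | aO g a1 a2 =>
    refine Or.inr ⟨1, le_refl _, by omega, ?_, ?_⟩
    · simp only [loc]; linarith
    · simp only [loc, hx]; ring
  | rO g a2 =>
    have h5 := T_lt_B hP hT g
    refine Or.inl ⟨rfl, ?_⟩
    simp only [loc, hx]; linarith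
  | Gb g a2 =>
    have h5 := hP.mu_lam g
    refine Or.inr ⟨1, le_refl _, by omega, ?_, ?_⟩
    · simp only [loc]; linarith
    · simp only [loc, hx]; ring
  | bd g a2 =>
    have h5 := T_lt_B hP hT g
    refine Or.inl ⟨rfl, ?_⟩
    simp only [loc, hx]; linarith
  | vn C j hC a1 a2 =>
    obtain ⟨c1, c2⟩ := loc_cv_ct hP hT hC
    obtain ⟨o1, o2⟩ := off_bounds (m := m) (cell_height hP hT hC).1 a1 a2
    have hloc : loc m ts P (.nn C j) = ((rect m ts P C).l +
      off m ((rect m ts P C).r - (rect m ts P C).l) j, (rect m ts P C).b +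
      off m ((rect m ts P C).r - (rect m ts P C).l) j * P.x j) := rfl
    refine Or.inr ⟨j, by omega, a2, ?_, ?_⟩
    · rw [c1, hloc]; dsimp only; linarith
    · rw [c1, hloc]; dsimp only; ring
  | nw C j hC a1 a2 =>
    obtain ⟨b1, b2, b3, b4, b5, b6⟩ := inner_vertices hP hT hC a1 a2
    exact Or.inl ⟨b3, b5⟩
  | wt C j hC a1 a2 =>
    obtain ⟨c1, c2⟩ := loc_cv_ct hP hT hC
    obtain ⟨o1, o2⟩ := off_bounds (m := m) (cell_height hP hT hC).1 a1 a2
    have hloc : loc m ts P (.ww C j) = ((rect m ts P C).l +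
      off m ((rect m ts P C).r - (rect m ts P C).l) j, (rect m ts P C).t -
      (((rect m ts P C).r - (rect m ts P C).l) -
        off m ((rect m ts P C).r - (rect m ts P C).l) j) * P.x (m + 2 - j)) := rfl
    refine Or.inr ⟨m + 2 - j, by omega, by omega, ?_, ?_⟩
    · rw [c2, hloc]; dsimp only; linarith
    · rw [c2, hloc]; dsimp only; ring

/-- in the final drawing all edges point upward -/
theorem fin_up (hP : ParOK m ts P) (hT : TValid m ts) {u v : Vtx} (h : Edge m ts u v) :
    (fin m ts P u).2 < (fin m ts P v).2 := by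
  show (loc m ts P u).1 + (loc m ts P u).2 < (loc m ts P v).1 + (loc m ts P v).2
  rcases edge_dir hP hT h with ⟨h1, h2⟩ | ⟨n, h1, h2, h3, h4⟩
  · linarith
  · have h5 : 0 ≤ ((loc m ts P v).1 - (loc m ts P u).1) * P.x n :=
      mul_nonneg (by linarith) (x_nonneg hP h1 h2)
    linarith

/-- the final drawing has at most `m + 1` slopes -/
theorem fin_slopes (hP : ParOK m ts P) (hT : TValid m ts) :
    ∃ S : Finset ℝ, S.card ≤ m + 1 ∧
      ∀ u v, Edge m ts u v → sl (fun w => qR (fin m ts P w)) u v ∈ S := by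
  classical
  refine ⟨insert 0 ((Finset.Icc 1 m).image fun n => 1 / (1 + (P.x n : ℝ))), ?_, ?_⟩
  · refine (Finset.card_insert_le _ _).trans ?_
    have h1 : ((Finset.Icc 1 m).image fun n => 1 / (1 + (P.x n : ℝ))).card ≤ m := by
      refine Finset.card_image_le.trans ?_
      simp
    omega
  · intro u v h
    have hs : sl (fun w => qR (fin m ts P w)) u v =
        (((loc m ts P v).1 - (loc m ts P u).1 : ℚ) : ℝ) /
          ((((loc m ts P v).1 + (loc m ts P v).2) - ((loc m ts P u).1 + (loc m ts P u).2) : ℚ) : ℝ) := by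
      unfold sl qR fin
      push_cast
      rfl
    rw [hs, Finset.mem_insert, Finset.mem_image]
    rcases edge_dir hP hT h with ⟨h1, h2⟩ | ⟨n, h1, h2, h3, h4⟩
    · left
      rw [h1, sub_self, Rat.cast_zero, zero_div]
    · right
      refine ⟨n, Finset.mem_Icc.2 ⟨h1, h2⟩, ?_⟩
      have h5 : ((loc m ts P v).1 + (loc m ts P v).2) - ((loc m ts P u).1 + (loc m ts P u).2) =
          ((loc m ts P v).1 - (loc m ts P u).1) * (1 + P.x n) := by
        linear_combination h4
      have h6 : (0 : ℝ) < (((loc m ts P v).1 - (loc m ts P u).1 : ℚ) : ℝ) := by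
        exact_mod_cast sub_pos.2 h3
      have h7 : (0 : ℝ) < 1 + (P.x n : ℝ) := by
        have : (0 : ℝ) ≤ (P.x n : ℝ) := by exact_mod_cast x_nonneg hP h1 h2
        linarith
      rw [h5, Rat.cast_mul, Rat.cast_add, Rat.cast_one]
      rw [div_mul_eq_div_div, div_self h6.ne']

end Pool.Agent.Lib.MP_be4430_lc
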