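import Pool.Agent.Lib.MP_be4430_lc.Layout
import Pool.Agent.Lib.MP_be4430_lc.B2_Ends

/-! # Parameters from a solution of the T-system -/

namespace Pool.Agent.Lib.MP_be4430_lc

variable {m : ℕ} {ts : List Trp}

/-- `lam g = ρ g · mu g` and `mu (g-1) < lam g`: `mu 0 = 1`, `mu (g+1) = (mu g + 1)/ρ (g+1)` -/
theorem exists_lam_mu {ρ : ℕ → ℚ} (hρ : ∀ g, 0 < ρ g) :
    ∃ lam mu : ℕ → ℚ, (∀ g, 0 < lam g) ∧ (∀ g, 0 < mu g) ∧ (∀ g, mu g < lam (g + 1)) ∧
      ∀ g, lam g = ρ g * mu g := by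
  let mu : ℕ → ℚ := fun g => Nat.rec 1 (fun g mg => (mg + 1) / ρ (g + 1)) g
  have h0 : mu 0 = 1 := rfl
  have hs : ∀ g, mu (g + 1) = (mu g + 1) / ρ (g + 1) := fun g => rfl
  have hpos : ∀ g, 0 < mu g := by
    intro g
    induction g with
    | zero => rw [h0]; norm_num
    | succ g ih =>
      rw [hs]
      exact div_pos (by linarith) (hρ _)
  refine ⟨fun g => ρ g * mu g, mu, fun g => mul_pos (hρ g) (hpos g), hpos, ?_, fun g => rfl⟩
  intro g
  show mu g < ρ (g + 1) * mu (g + 1)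
  rw [hs, mul_div_cancel₀ _ (hρ (g + 1)).ne']
  linarith

private theorem E12y_min {α : Type*} (S : Finset α) (d : α → ℚ) (hd : ∀ a ∈ S, 0 < d a) :
    ∃ δ : ℚ, 0 < δ ∧ ∀ a ∈ S, δ ≤ d a := by
  classical
  induction S using Finset.induction_on with
  | empty => exact ⟨1, one_pos, fun a ha => absurd ha (Finset.notMem_empty a)⟩
  | insert b S hb ih =>
    obtain ⟨δ, h1, h2⟩ := ih (fun a ha => hd a (Finset.mem_insert_of_mem ha))
    refine ⟨min δ (d b), lt_min h1 (hd b (Finset.mem_insert_self b S)), ?_⟩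
    intro a ha
    rcases Finset.mem_insert.1 ha with rfl | ha
    · exact min_le_right _ _
    · exact (min_le_left _ _).trans (h2 a ha)

/-- a small `eps` -/
theorem exists_eps (N : ℕ) {x lam mu : ℕ → ℚ} (hx : ∀ n, 1 ≤ n → n < m → x n < x (n + 1))
    (hl : ∀ g, 0 < lam g) (hm : ∀ g, 0 < mu g) :
    ∃ eps : ℚ, 0 < eps ∧ ∀ g n, g ≤ N → 1 ≤ n → n < m →
      eps * x m < lam g * (x (n + 1) - x n) ∧ eps * x m < mu g * (x (n + 1) - x n) := by
  obtain ⟨δ, h1, h2⟩ := E12y_min ((Finset.range (N + 1)) ×ˢ (Finset.Ico 1 m))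
    (fun a => min (lam a.1 * (x (a.2 + 1) - x a.2)) (mu a.1 * (x (a.2 + 1) - x a.2))) (by
      rintro ⟨g, n⟩ ha
      rw [Finset.mem_product, Finset.mem_range, Finset.mem_Ico] at ha
      have h3 := hx n ha.2.1 ha.2.2
      exact lt_min (mul_pos (hl g) (by linarith)) (mul_pos (hm g) (by linarith)))
  have hpos : 0 < 2 * (|x m| + 1) := by positivity
  refine ⟨δ / (2 * (|x m| + 1)), div_pos h1 hpos, ?_⟩
  intro g n hg hn1 hn2
  have h3 := h2 (g, n) (by
    rw [Finset.mem_product, Finset.mem_range, Finset.mem_Ico]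
    exact ⟨by simp only; omega, hn1, hn2⟩)
  simp only [le_min_iff] at h3
  have h4 : δ / (2 * (|x m| + 1)) * x m < δ := by
    rw [div_mul_eq_mul_div, div_lt_iff₀ hpos]
    have h5 : x m ≤ |x m| := le_abs_self _
    have h6 : δ * x m ≤ δ * |x m| := mul_le_mul_of_nonneg_left h5 h1.le
    have h7 : 0 ≤ δ * |x m| := mul_nonneg h1.le (abs_nonneg _)
    nlinarith
  exact ⟨h4.trans_le h3.1, h4.trans_le h3.2⟩

end Pool.Agent.Lib.MP_be4430_lc
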