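import Pool.Agent.Lib.MP_be4430_lc.Layout
import Pool.Agent.Lib.MP_be4430_lc.B2_Ends

/-! # Parameters from a solution of the T-system -/

namespace Pool.Agent.Lib.MP_be4430_lc

variable {m : ℕ} {ts : List Trp}

/-- normalise `x 1 = 0` (the constraints are invariant under translations) -/
theorem tSat_normalise (h : TSat m ts) :
    ∃ x : ℕ → ℚ, x 1 = 0 ∧ (∀ n, 1 ≤ n → n < m → x n < x (n + 1)) ∧ ∀ t ∈ ts, TrpHolds x t := by
  obtain ⟨x, hx, ht⟩ := h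
  refine ⟨fun n => x n - x 1, by simp, fun n h1 h2 => ?_, fun t htm => ?_⟩
  · have := hx n h1 h2
    simp only
    linarith
  · obtain ⟨l, u, hl, hu, e1, e2⟩ := ht t htm
    refine ⟨l, u, hl, hu, ?_, ?_⟩
    · simp only
      linarith
    · simp only
      linarith

private theorem E12x_one {ts : List Trp} {x : ℕ → ℚ} (hx : ∀ t ∈ ts, TrpHolds x t) (g : ℕ)
    (h1 : 1 ≤ g) (h2 : g ≤ ts.length) :
    ∃ r : ℚ, 0 < r ∧ ∀ i, i < 3 →
      r * x (pp ts g i) + x (qq ts g i) = r * x (pp ts g 0) + x (qq ts g 0) := by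
  have hlt : g - 1 < ts.length := by omega
  have hmem : ts.getD (g - 1) ((1, 2, 3), (3, 2, 1)) ∈ ts := by
    rw [List.getD_eq_getElem _ _ hlt]
    exact List.getElem_mem hlt
  obtain ⟨l, u, hl, hu, e1, e2⟩ := hx _ hmem
  refine ⟨l / u, div_pos hl hu, fun i hi => ?_⟩
  have hu0 : u ≠ 0 := hu.ne'
  unfold pp qq
  generalize ts.getD (g - 1) ((1, 2, 3), (3, 2, 1)) = t at *
  match i with
  | 0 => rfl
  | 1 =>
    simp only [tri]
    field_simp
    linarith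
  | 2 =>
    simp only [tri]
    field_simp
    linarith
  | i + 3 => omega

/-- a positive ratio for every gadget -/
theorem exists_ratio (hT : TValid m ts) {x : ℕ → ℚ} (hx : ∀ t ∈ ts, TrpHolds x t) :
    ∃ ρ : ℕ → ℚ, (∀ g, 0 < ρ g) ∧ ∀ g i, 1 ≤ g → g ≤ ts.length → i < 3 →
      ρ g * x (pp ts g i) + x (qq ts g i) = ρ g * x (pp ts g 0) + x (qq ts g 0) := by
  have _ := hT
  have hex : ∀ g : ℕ, ∃ r : ℚ, 0 < r ∧ (1 ≤ g → g ≤ ts.length → ∀ i, i < 3 →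
      r * x (pp ts g i) + x (qq ts g i) = r * x (pp ts g 0) + x (qq ts g 0)) := by
    intro g
    by_cases hg : 1 ≤ g ∧ g ≤ ts.length
    · obtain ⟨r, hr, hr2⟩ := E12x_one hx g hg.1 hg.2
      exact ⟨r, hr, fun _ _ => hr2⟩
    · exact ⟨1, one_pos, fun h1 h2 => absurd ⟨h1, h2⟩ hg⟩
  choose ρ h1 h2 using hex
  exact ⟨ρ, h1, fun g i hg1 hg2 hi => h2 g hg1 hg2 i hi⟩

end Pool.Agent.Lib.MP_be4430_lc
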