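import Pool.Agent.Lib.MP_be4430_lc.Layout
import Pool.Agent.Lib.MP_be4430_lc.B2_Ends
import Pool.Agent.Lib.MP_be4430_lc.E12x_Ratio
import Pool.Agent.Lib.MP_be4430_lc.E12y_Eps

/-! # Parameters from a solution of the T-system -/

namespace Pool.Agent.Lib.MP_be4430_lc

variable {m : ℕ} {ts : List Trp}

theorem exists_parOK (hT : TValid m ts) (h : TSat m ts) : ∃ P : Par, ParOK m ts P := by
  obtain ⟨x, h1, hx, ht⟩ := tSat_normalise h
  obtain ⟨ρ, hρ, hr⟩ := exists_ratio hT ht
  obtain ⟨lam, mu, hl, hm, hml, he⟩ := exists_lam_mu hρ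
  obtain ⟨eps, h0, hE⟩ := exists_eps (m := m) ts.length hx hl hm
  refine ⟨⟨x, lam, mu, eps⟩, ?_⟩
  exact {
    x1 := h1
    xs := hx
    lam_pos := hl
    mu_pos := hm
    eps_pos := h0
    mu_lam := hml
    eps_lam := fun g n _ h2 h3 h4 => (hE g n h2 h3 h4).1
    eps_mu := fun g n _ h2 h3 h4 => (hE g n h2 h3 h4).2
    hh := by
      intro g i h2 h3 h4
      show lam g * x (pp ts g i) + mu g * x (qq ts g i) = lam g * x (pp ts g 0) + mu g * x (qq ts g 0)
      have h5 := hr g i h2 h3 h4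
      rw [he g]
      linear_combination mu g * h5 }

end Pool.Agent.Lib.MP_be4430_lc
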