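import Pool.Agent.Lib.MP_be4430_lc.E12x_Ratio
import Pool.Agent.Lib.MP_be4430_lc.E12y_Eps
import Pool.Agent.Lib.MP_be4430_lc.E12z_All

/-! # Parameters from a solution of the T-system -/
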