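import Pool.Agent.Lib.MP_be4430_lc.E10_System
import Pool.Agent.Lib.MP_be4430_lc.E11_Dirs
import Pool.Agent.Lib.MP_be4430_lc.E12_Params
import Pool.Agent.Lib.MP_be4430_lc.A5_Clear
import Pool.Agent.Lib.MP_be4430_lc.B1_GraphMem

/-! # Completeness: a solution of the T-system gives a drawing with `m + 1` slopes -/

namespace Pool.Agent.Lib.MP_be4430_lc

variable {m : ℕ} {ts : List Trp}

/-- the linear map `(p, q) ↦ (p, p + q)` -/
private noncomputable def shear : (ℝ × ℝ) →ₗ[ℝ] (ℝ × ℝ) :=
  (LinearMap.fst ℝ ℝ ℝ).prod (LinearMap.fst ℝ ℝ ℝ + LinearMap.snd ℝ ℝ ℝ)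

private lemma shear_apply (z : ℝ × ℝ) : shear z = (z.1, z.1 + z.2) := by
  simp [shear]

private lemma shear_inj : Function.Injective shear := by
  intro a b h
  rw [shear_apply, shear_apply, Prod.mk.injEq] at h
  exact Prod.ext h.1 (by linarith [h.1, h.2])

private lemma fin_eq (P : Par) (v : Vtx) : qR (fin m ts P v) = shear (qR (loc m ts P v)) := by
  rw [shear_apply]
  simp [qR, fin]

/-- the shear `(p, q) ↦ (p, p + q)` -/
theorem fin_planar {P : Par} (hP : ParOK m ts P) (hT : TValid m ts) {u v u' v' : Vtx}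
    (h1 : Edge m ts u v) (h2 : Edge m ts u' v') (hne : (u, v) ≠ (u', v')) :
    MeetOK (fun w => qR (fin m ts P w)) u v u' v' := by
  have h := meetOK_linear (fun w => qR (loc m ts P w)) shear shear_inj u v u' v'
    (rect_planar (rectSys hP hT) h1 h2 hne)
  simpa only [fin_eq] using h

theorem exist (hT : TValid m ts) (h : TSat m ts) : RatDraw (verts m ts) (edges m ts) (m + 1) := by
  obtain ⟨P, hP⟩ := exists_parOK hT h
  obtain ⟨S, hS, hsl⟩ := fin_slopes hP hT
  refine ⟨fin m ts P, drawOn_of_planar ?_ ?_ ?_ ?_, S, hS, ?_⟩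
  · intro w hw
    obtain ⟨u, v, e, he⟩ := exists_edge hT ((mem_verts m ts w).1 hw)
    exact ⟨(u, v), (mem_edges m ts u v).2 e, he⟩
  · intro u hu v hv huv
    apply loc_inj hP hT ((mem_verts m ts u).1 hu) ((mem_verts m ts v).1 hv)
    have h1 : fin m ts P u = fin m ts P v := by
      simp only [qR, Prod.mk.injEq, Rat.cast_inj] at huv
      exact Prod.ext huv.1 huv.2
    simp only [fin, Prod.mk.injEq] at h1
    exact Prod.ext h1.1 (by linarith [h1.1, h1.2])
  · intro e he f hf hef
    exact fin_planar hP hT ((mem_edges m ts e.1 e.2).1 he) ((mem_edges m ts f.1 f.2).1 hf) hef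
  · intro e he
    have := fin_up hP hT ((mem_edges m ts e.1 e.2).1 he)
    simp only [qR]
    exact_mod_cast this
  · intro e he
    exact hsl e.1 e.2 ((mem_edges m ts e.1 e.2).1 he)

end Pool.Agent.Lib.MP_be4430_lc
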