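import Pool.Agent.Lib.MP_be4430_lc.Layout

/-! # A system of rectangles is drawn without crossings -/

namespace Pool.Agent.Lib.MP_be4430_lc

variable {V I : Type}

private theorem E1_aux {a b s t : ℝ} (ha : 0 ≤ a) (hb : 0 ≤ b) (hab : 0 < a + b) (hs : 0 < s)
    (ht : 0 < t) : 0 < s * a + t * b := by
  rcases ha.eq_or_lt with h | h
  · have : 0 < b := by linarith
    rw [← h]
    have := mul_pos ht this
    linarith
  · have h1 := mul_pos hs h
    have h2 := mul_nonneg ht.le hb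
    linarith

private theorem E1_seg {p q : ℚ × ℚ} {z : ℝ × ℝ} (hz : z ∈ segment ℝ (qR p) (qR q)) :
    ∃ s t : ℝ, 0 ≤ s ∧ 0 ≤ t ∧ s + t = 1 ∧ z.1 = s * p.1 + t * q.1 ∧ z.2 = s * p.2 + t * q.2 := by
  obtain ⟨s, t, hs, ht, hst, rfl⟩ := hz
  exact ⟨s, t, hs, ht, hst, rfl, rfl⟩

/-- a point of the segment of an inner edge is an endpoint or lies in the interior of the
rectangle -/
theorem inner_point {R : Rect} {p q : ℚ × ℚ} (h : Inner R p q) {z : ℝ × ℝ}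
    (hz : z ∈ segment ℝ (qR p) (qR q)) :
    z = qR p ∨ z = qR q ∨ ((R.l : ℝ) < z.1 ∧ z.1 < R.r ∧ (R.b : ℝ) < z.2 ∧ z.2 < R.t) := by
  obtain ⟨s, t, hs, ht, hst, h1, h2⟩ := E1_seg hz
  rcases hs.eq_or_lt with hs0 | hs0
  · right; left
    have : t = 1 := by linarith
    subst this
    rw [← hs0] at h1 h2
    apply Prod.ext
    · rw [h1]; simp [qR]
    · rw [h2]; simp [qR]
  rcases ht.eq_or_lt with ht0 | ht0
  · left
    have : s = 1 := by linarith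
    subst this
    rw [← ht0] at h1 h2
    apply Prod.ext
    · rw [h1]; simp [qR]
    · rw [h2]; simp [qR]
  right; right
  obtain ⟨⟨a1, a2, a3, a4⟩, ⟨b1, b2, b3, b4⟩, c1, c2, c3, c4⟩ := h
  have a1' : (R.l : ℝ) ≤ p.1 := by exact_mod_cast a1
  have a2' : (p.1 : ℝ) ≤ R.r := by exact_mod_cast a2
  have a3' : (R.b : ℝ) ≤ p.2 := by exact_mod_cast a3
  have a4' : (p.2 : ℝ) ≤ R.t := by exact_mod_cast a4
  have b1' : (R.l : ℝ) ≤ q.1 := by exact_mod_cast b1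
  have b2' : (q.1 : ℝ) ≤ R.r := by exact_mod_cast b2
  have b3' : (R.b : ℝ) ≤ q.2 := by exact_mod_cast b3
  have b4' : (q.2 : ℝ) ≤ R.t := by exact_mod_cast b4
  have c1' : 2 * (R.l : ℝ) < p.1 + q.1 := by exact_mod_cast c1
  have c2' : (p.1 : ℝ) + q.1 < 2 * R.r := by exact_mod_cast c2
  have c3' : 2 * (R.b : ℝ) < p.2 + q.2 := by exact_mod_cast c3
  have c4' : (p.2 : ℝ) + q.2 < 2 * R.t := by exact_mod_cast c4
  have d1 := E1_aux (sub_nonneg.2 a1') (sub_nonneg.2 b1') (by linarith) hs0 ht0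
  have d2 := E1_aux (sub_nonneg.2 a2') (sub_nonneg.2 b2') (by linarith) hs0 ht0
  have d3 := E1_aux (sub_nonneg.2 a3') (sub_nonneg.2 b3') (by linarith) hs0 ht0
  have d4 := E1_aux (sub_nonneg.2 a4') (sub_nonneg.2 b4') (by linarith) hs0 ht0
  have e1 : s * ((p.1 : ℝ) - R.l) + t * (q.1 - R.l) = z.1 - R.l := by
    rw [h1]; linear_combination (-(R.l : ℝ)) * hst
  have e2 : s * ((R.r : ℝ) - p.1) + t * (R.r - q.1) = R.r - z.1 := by
    rw [h1]; linear_combination ((R.r : ℝ)) * hst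
  have e3 : s * ((p.2 : ℝ) - R.b) + t * (q.2 - R.b) = z.2 - R.b := by
    rw [h2]; linear_combination (-(R.b : ℝ)) * hst
  have e4 : s * ((R.t : ℝ) - p.2) + t * (R.t - q.2) = R.t - z.2 := by
    rw [h2]; linear_combination ((R.t : ℝ)) * hst
  refine ⟨by linarith, by linarith, by linarith, by linarith⟩

private theorem E1_between {a b s t l : ℝ} (hs : 0 ≤ s) (ht : 0 ≤ t) (hst : s + t = 1)
    (ha : l ≤ a) (hb : l ≤ b) : l ≤ s * a + t * b := by
  have h1 := mul_le_mul_of_nonneg_left ha hs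
  have h2 := mul_le_mul_of_nonneg_left hb ht
  have h3 : l = s * l + t * l := by rw [← add_mul, hst, one_mul]
  linarith

private theorem E1_between' {a b s t l : ℝ} (hs : 0 ≤ s) (ht : 0 ≤ t) (hst : s + t = 1)
    (ha : a ≤ l) (hb : b ≤ l) : s * a + t * b ≤ l := by
  have h1 := mul_le_mul_of_nonneg_left ha hs
  have h2 := mul_le_mul_of_nonneg_left hb ht
  have h3 : l = s * l + t * l := by rw [← add_mul, hst, one_mul]
  linarith

theorem inner_point_closed {R : Rect} {p q : ℚ × ℚ} (h : Inner R p q) {z : ℝ × ℝ}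
    (hz : z ∈ segment ℝ (qR p) (qR q)) :
    (R.l : ℝ) ≤ z.1 ∧ z.1 ≤ R.r ∧ (R.b : ℝ) ≤ z.2 ∧ z.2 ≤ R.t := by
  obtain ⟨s, t, hs, ht, hst, h1, h2⟩ := E1_seg hz
  obtain ⟨⟨a1, a2, a3, a4⟩, ⟨b1, b2, b3, b4⟩, -⟩ := h
  rw [h1, h2]
  exact ⟨E1_between hs ht hst (by exact_mod_cast a1) (by exact_mod_cast b1),
    E1_between' hs ht hst (by exact_mod_cast a2) (by exact_mod_cast b2),
    E1_between hs ht hst (by exact_mod_cast a3) (by exact_mod_cast b3),
    E1_between' hs ht hst (by exact_mod_cast a4) (by exact_mod_cast b4)⟩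

/-- the one dimensional fact -/
private theorem E1_line {a b z : ℝ} (hab : a < b) (h1 : a ≤ z) (h2 : z ≤ b) :
    ∃ s t : ℝ, 0 ≤ s ∧ 0 ≤ t ∧ s + t = 1 ∧ s * a + t * b = z := by
  have h : 0 < b - a := sub_pos.2 hab
  refine ⟨(b - z) / (b - a), (z - a) / (b - a), div_nonneg (by linarith) h.le,
    div_nonneg (by linarith) h.le, ?_, ?_⟩
  · rw [← add_div, div_eq_one_iff_eq h.ne']
    ring
  · field_simp
    ring

theorem vSide_point {R : Rect} {p q : ℚ × ℚ} (h : VSide R p q) (z : ℝ × ℝ) :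
    z ∈ segment ℝ (qR p) (qR q) ↔ z.1 = p.1 ∧ (p.2 : ℝ) ≤ z.2 ∧ z.2 ≤ q.2 := by
  obtain ⟨h1, -, -, h4, -⟩ := h
  have h1' : (p.1 : ℝ) = q.1 := by exact_mod_cast h1
  have h4' : (p.2 : ℝ) < q.2 := by exact_mod_cast h4
  constructor
  · intro hz
    obtain ⟨s, t, hs, ht, hst, e1, e2⟩ := E1_seg hz
    rw [e1, e2]
    refine ⟨?_, E1_between hs ht hst le_rfl h4'.le, E1_between' hs ht hst h4'.le le_rfl⟩
    rw [← h1', ← add_mul, hst, one_mul]
  · rintro ⟨e1, e2, e3⟩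
    obtain ⟨s, t, hs, ht, hst, e4⟩ := E1_line h4' e2 e3
    refine ⟨s, t, hs, ht, hst, ?_⟩
    apply Prod.ext
    · show s * (p.1 : ℝ) + t * (q.1 : ℝ) = z.1
      rw [e1, ← h1', ← add_mul, hst, one_mul]
    · exact e4

theorem hSide_point {R : Rect} {p q : ℚ × ℚ} (h : HSide R p q) (z : ℝ × ℝ) :
    z ∈ segment ℝ (qR p) (qR q) ↔ z.2 = p.2 ∧ (p.1 : ℝ) ≤ z.1 ∧ z.1 ≤ q.1 := by
  obtain ⟨h1, -, -, h4, -⟩ := h
  have h1' : (p.2 : ℝ) = q.2 := by exact_mod_cast h1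
  have h4' : (p.1 : ℝ) < q.1 := by exact_mod_cast h4
  constructor
  · intro hz
    obtain ⟨s, t, hs, ht, hst, e1, e2⟩ := E1_seg hz
    rw [e1, e2]
    refine ⟨?_, E1_between hs ht hst le_rfl h4'.le, E1_between' hs ht hst h4'.le le_rfl⟩
    rw [← h1', ← add_mul, hst, one_mul]
  · rintro ⟨e1, e2, e3⟩
    obtain ⟨s, t, hs, ht, hst, e4⟩ := E1_line h4' e2 e3
    refine ⟨s, t, hs, ht, hst, ?_⟩
    apply Prod.ext
    · exact e4
    · show s * (p.2 : ℝ) + t * (q.2 : ℝ) = z.2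
      rw [e1, ← h1', ← add_mul, hst, one_mul]

end Pool.Agent.Lib.MP_be4430_lc
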