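import Pool.Agent.Lib.MP_be4430_lc.E1_RectPlanar

/-! # Inner edges against inner edges and against side edges -/

namespace Pool.Agent.Lib.MP_be4430_lc

variable {V I : Type}

private theorem E1a_inj {p q : ℚ × ℚ} (h : qR p = qR q) : p = q := by
  have h1 : (p.1 : ℝ) = q.1 := congrArg Prod.fst h
  have h2 : (p.2 : ℝ) = q.2 := congrArg Prod.snd h
  exact Prod.ext (by exact_mod_cast h1) (by exact_mod_cast h2)

/-- an interior point of a rectangle is in no other closed rectangle -/
private theorem E1a_sep {R S : Rect} {z : ℝ × ℝ}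
    (h : R.r ≤ S.l ∨ S.r ≤ R.l ∨ R.t ≤ S.b ∨ S.t ≤ R.b)
    (h1 : (R.l : ℝ) < z.1 ∧ z.1 < R.r ∧ (R.b : ℝ) < z.2 ∧ z.2 < R.t)
    (h2 : (S.l : ℝ) ≤ z.1 ∧ z.1 ≤ S.r ∧ (S.b : ℝ) ≤ z.2 ∧ z.2 ≤ S.t) : False := by
  obtain ⟨a1, a2, a3, a4⟩ := h1
  obtain ⟨b1, b2, b3, b4⟩ := h2
  rcases h with h | h | h | h
  · have : (R.r : ℝ) ≤ S.l := by exact_mod_cast h
    linarith
  · have : (S.r : ℝ) ≤ R.l := by exact_mod_cast h
    linarith
  · have : (R.t : ℝ) ≤ S.b := by exact_mod_cast h
    linarith
  · have : (S.t : ℝ) ≤ R.b := by exact_mod_cast h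
    linarith

theorem meet_inner_inner {vs : V → Prop} {A : V → V → Prop} {pos : V → ℚ × ℚ} {is : I → Prop}
    {R : I → Rect} {inn : V → V → I → Prop} {sid : V → V → Prop}
    (h : RectSys vs A pos is R inn sid) {u v u' v' : V}
    (h1 : A u v) (h2 : A u' v') (hne : (u, v) ≠ (u', v')) {i j : I} (hi : is i) (hj : is j)
    (hi1 : inn u v i) (hi2 : Inner (R i) (pos u) (pos v)) (hj1 : inn u' v' j)
    (hj2 : Inner (R j) (pos u') (pos v')) : MeetOK (fun w => qR (pos w)) u v u' v' := by
  by_cases hij : i = j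
  · subst hij
    exact h.loc u v u' v' i h1 h2 hne hi hi1 hj1
  · intro z hz hz'
    obtain ⟨vu, vv⟩ := h.ends u v h1
    obtain ⟨vu', vv'⟩ := h.ends u' v' h2
    have hsep := h.sep i j hi hj hij
    have hsep' := h.sep j i hj hi (Ne.symm hij)
    have key1 : ∃ w, (w = u ∨ w = v) ∧ z = qR (pos w) := by
      rcases inner_point hi2 hz with e | e | e
      · exact ⟨u, Or.inl rfl, e⟩
      · exact ⟨v, Or.inr rfl, e⟩
      · exact (E1a_sep hsep e (inner_point_closed hj2 hz')).elim
    have key2 : ∃ w, (w = u' ∨ w = v') ∧ z = qR (pos w) := by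
      rcases inner_point hj2 hz' with e | e | e
      · exact ⟨u', Or.inl rfl, e⟩
      · exact ⟨v', Or.inr rfl, e⟩
      · exact (E1a_sep hsep' e (inner_point_closed hi2 hz)).elim
    obtain ⟨w, hw, e⟩ := key1
    obtain ⟨w', hw', e'⟩ := key2
    have vw : vs w := by rcases hw with rfl | rfl <;> assumption
    have vw' : vs w' := by rcases hw' with rfl | rfl <;> assumption
    have hww : w = w' := h.inj w w' vw vw' (E1a_inj (e.symm.trans e'))
    subst hww
    exact ⟨w, hw, hw', e⟩

theorem meet_inner_side {vs : V → Prop} {A : V → V → Prop} {pos : V → ℚ × ℚ} {is : I → Prop}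
    {R : I → Rect} {inn : V → V → I → Prop} {sid : V → V → Prop}
    (h : RectSys vs A pos is R inn sid) {u v u' v' : V}
    (h1 : A u v) (h2 : A u' v') (hne : (u, v) ≠ (u', v')) {i j : I} (hi : is i) (hj : is j)
    (hi2 : Inner (R i) (pos u) (pos v)) (hs : sid u' v')
    (hj2 : VSide (R j) (pos u') (pos v') ∨ HSide (R j) (pos u') (pos v')) :
    MeetOK (fun w => qR (pos w)) u v u' v' := by
  intro z hz hz'
  obtain ⟨vu, vv⟩ := h.ends u v h1
  obtain ⟨vu', vv'⟩ := h.ends u' v' h2
  -- the point is not in the interior of the first rectangle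
  have hint : ¬ (((R i).l : ℝ) < z.1 ∧ z.1 < (R i).r ∧ ((R i).b : ℝ) < z.2 ∧ z.2 < (R i).t) := by
    intro e
    rcases hj2 with hv | hh
    · obtain ⟨e1, e2, e3⟩ := (vSide_point hv z).1 hz'
      obtain ⟨k1, k2, k3, k4, k5⟩ := hv
      have k3' : ((R j).b : ℝ) ≤ (pos u').2 := by exact_mod_cast k3
      have k5' : ((pos v').2 : ℝ) ≤ (R j).t := by exact_mod_cast k5
      by_cases hij : i = j
      · subst hij
        rcases k2 with k2 | k2
        · have : ((pos u').1 : ℝ) = (R i).l := by exact_mod_cast k2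
          linarith [e.1]
        · have : ((pos u').1 : ℝ) = (R i).r := by exact_mod_cast k2
          linarith [e.2.1]
      · have hlr : ((R j).l : ℝ) < (R j).r := by exact_mod_cast (h.nondeg j hj).1
        refine E1a_sep (h.sep i j hi hj hij) e ⟨?_, ?_, by linarith, by linarith⟩
        · rcases k2 with k2 | k2
          · have : ((pos u').1 : ℝ) = (R j).l := by exact_mod_cast k2
            linarith
          · have : ((pos u').1 : ℝ) = (R j).r := by exact_mod_cast k2
            linarith
        · rcases k2 with k2 | k2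
          · have : ((pos u').1 : ℝ) = (R j).l := by exact_mod_cast k2
            linarith
          · have : ((pos u').1 : ℝ) = (R j).r := by exact_mod_cast k2
            linarith
    · obtain ⟨e1, e2, e3⟩ := (hSide_point hh z).1 hz'
      obtain ⟨k1, k2, k3, k4, k5⟩ := hh
      have k3' : ((R j).l : ℝ) ≤ (pos u').1 := by exact_mod_cast k3
      have k5' : ((pos v').1 : ℝ) ≤ (R j).r := by exact_mod_cast k5
      by_cases hij : i = j
      · subst hij
        rcases k2 with k2 | k2
        · have : ((pos u').2 : ℝ) = (R i).b := by exact_mod_cast k2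
          linarith [e.2.2.1]
        · have : ((pos u').2 : ℝ) = (R i).t := by exact_mod_cast k2
          linarith [e.2.2.2]
      · have hlr : ((R j).b : ℝ) < (R j).t := by exact_mod_cast (h.nondeg j hj).2
        refine E1a_sep (h.sep i j hi hj hij) e ⟨by linarith, by linarith, ?_, ?_⟩
        · rcases k2 with k2 | k2
          · have : ((pos u').2 : ℝ) = (R j).b := by exact_mod_cast k2
            linarith
          · have : ((pos u').2 : ℝ) = (R j).t := by exact_mod_cast k2
            linarith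
        · rcases k2 with k2 | k2
          · have : ((pos u').2 : ℝ) = (R j).b := by exact_mod_cast k2
            linarith
          · have : ((pos u').2 : ℝ) = (R j).t := by exact_mod_cast k2
            linarith
  have key1 : ∃ w, (w = u ∨ w = v) ∧ z = qR (pos w) := by
    rcases inner_point hi2 hz with e | e | e
    · exact ⟨u, Or.inl rfl, e⟩
    · exact ⟨v, Or.inr rfl, e⟩
    · exact (hint e).elim
  obtain ⟨w, hw, e⟩ := key1
  have vw : vs w := by rcases hw with rfl | rfl <;> assumption
  have hfree := h.free u' v' w h2 hs vw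
  have z1 : z.1 = (pos w).1 := by rw [e]; rfl
  have z2 : z.2 = (pos w).2 := by rw [e]; rfl
  refine ⟨w, hw, ?_, e⟩
  rcases hj2 with hv | hh
  · obtain ⟨e1, e2, e3⟩ := (vSide_point hv z).1 hz'
    obtain ⟨k1, k2, k3, k4, k5⟩ := hv
    rw [z1] at e1
    rw [z2] at e2 e3
    have e1' : (pos w).1 = (pos u').1 := by exact_mod_cast e1
    have e2' : (pos u').2 ≤ (pos w).2 := by exact_mod_cast e2
    have e3' : (pos w).2 ≤ (pos v').2 := by exact_mod_cast e3
    rcases e2'.eq_or_lt with e4 | e4
    · left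
      exact h.inj w u' vw vu' (Prod.ext e1' e4.symm)
    rcases e3'.eq_or_lt with e5 | e5
    · right
      exact h.inj w v' vw vv' (Prod.ext (e1'.trans k1) e5)
    exact (hfree (Or.inl ⟨k1, e1', e4, e5⟩)).elim
  · obtain ⟨e1, e2, e3⟩ := (hSide_point hh z).1 hz'
    obtain ⟨k1, k2, k3, k4, k5⟩ := hh
    rw [z2] at e1
    rw [z1] at e2 e3
    have e1' : (pos w).2 = (pos u').2 := by exact_mod_cast e1
    have e2' : (pos u').1 ≤ (pos w).1 := by exact_mod_cast e2
    have e3' : (pos w).1 ≤ (pos v').1 := by exact_mod_cast e3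
    rcases e2'.eq_or_lt with e4 | e4
    · left
      exact h.inj w u' vw vu' (Prod.ext e4.symm e1')
    rcases e3'.eq_or_lt with e5 | e5
    · right
      exact h.inj w v' vw vv' (Prod.ext e5 (e1'.trans k1))
    exact (hfree (Or.inr ⟨k1, e1', e4, e5⟩)).elim

end Pool.Agent.Lib.MP_be4430_lc
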