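import Pool.Agent.Lib.MP_be4430_lc.E1_RectPlanar

/-! # Side edges against side edges -/

namespace Pool.Agent.Lib.MP_be4430_lc

variable {V I : Type}

private theorem E1b_pt {p : ℚ × ℚ} {z : ℝ × ℝ} (h1 : z.1 = p.1) (h2 : z.2 = p.2) : z = qR p :=
  Prod.ext h1 h2

/-- parallel case: if the segments share a point that is not a common endpoint, an endpoint of one
is in the relative interior of the other, or they have the same endpoints -/
theorem meet_vSide_vSide {vs : V → Prop} {A : V → V → Prop} {pos : V → ℚ × ℚ} {is : I → Prop}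
    {R : I → Rect} {inn : V → V → I → Prop} {sid : V → V → Prop}
    (h : RectSys vs A pos is R inn sid) {u v u' v' : V}
    (h1 : A u v) (h2 : A u' v') (hne : (u, v) ≠ (u', v')) {i j : I} (hi : is i) (hj : is j)
    (hs1 : sid u v) (hs2 : sid u' v')
    (hi2 : VSide (R i) (pos u) (pos v)) (hj2 : VSide (R j) (pos u') (pos v')) :
    MeetOK (fun w => qR (pos w)) u v u' v' := by
  intro z hz hz'
  obtain ⟨vu, vv⟩ := h.ends u v h1
  obtain ⟨vu', vv'⟩ := h.ends u' v' h2
  obtain ⟨a1, a2, a3⟩ := (vSide_point hi2 z).1 hz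
  obtain ⟨b1, b2, b3⟩ := (vSide_point hj2 z).1 hz'
  obtain ⟨p1, -, -, p4, -⟩ := hi2
  obtain ⟨q1, -, -, q4, -⟩ := hj2
  have huu : (pos u).1 = (pos u').1 := by
    have : ((pos u).1 : ℝ) = (pos u').1 := a1.symm.trans b1
    exact_mod_cast this
  have c1 : (pos u).2 ≤ (pos v').2 := by
    have : ((pos u).2 : ℝ) ≤ (pos v').2 := a2.trans b3
    exact_mod_cast this
  have c2 : (pos u').2 ≤ (pos v).2 := by
    have : ((pos u').2 : ℝ) ≤ (pos v).2 := b2.trans a3
    exact_mod_cast this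
  rcases lt_trichotomy (pos u).2 (pos u').2 with hlt | heq | hgt
  · rcases c2.eq_or_lt with e | e
    · have hvu : v = u' := h.inj v u' vv vu' (Prod.ext (p1.symm.trans huu) e.symm)
      refine ⟨v, Or.inr rfl, Or.inl hvu, E1b_pt (by rw [a1, p1]) ?_⟩
      have e' : ((pos u').2 : ℝ) = (pos v).2 := by exact_mod_cast e
      linarith
    · exact (h.free u v u' h1 hs1 vu' (Or.inl ⟨p1, huu.symm, hlt, e⟩)).elim
  · have huu' : u = u' := h.inj u u' vu vu' (Prod.ext huu heq)
    rcases lt_trichotomy (pos v).2 (pos v').2 with hlt | heq2 | hgt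
    · exact (h.free u' v' v h2 hs2 vv (Or.inl ⟨q1, p1.symm.trans huu, by rw [← heq]; exact p4,
        hlt⟩)).elim
    · have hvv' : v = v' := h.inj v v' vv vv' (Prod.ext (p1.symm.trans (huu.trans q1)) heq2)
      exact (hne (by rw [huu', hvv'])).elim
    · exact (h.free u v v' h1 hs1 vv' (Or.inl ⟨p1, (huu.trans q1).symm, by rw [heq]; exact q4,
        hgt⟩)).elim
  · rcases c1.eq_or_lt with e | e
    · have hvu : u = v' := h.inj u v' vu vv' (Prod.ext (huu.trans q1) e)
      refine ⟨u, Or.inl rfl, Or.inr hvu, E1b_pt a1 ?_⟩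
      have e' : ((pos u).2 : ℝ) = (pos v').2 := by exact_mod_cast e
      linarith
    · exact (h.free u' v' u h2 hs2 vu (Or.inl ⟨q1, huu, hgt, e⟩)).elim

theorem meet_hSide_hSide {vs : V → Prop} {A : V → V → Prop} {pos : V → ℚ × ℚ} {is : I → Prop}
    {R : I → Rect} {inn : V → V → I → Prop} {sid : V → V → Prop}
    (h : RectSys vs A pos is R inn sid) {u v u' v' : V}
    (h1 : A u v) (h2 : A u' v') (hne : (u, v) ≠ (u', v')) {i j : I} (hi : is i) (hj : is j)
    (hs1 : sid u v) (hs2 : sid u' v')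
    (hi2 : HSide (R i) (pos u) (pos v)) (hj2 : HSide (R j) (pos u') (pos v')) :
    MeetOK (fun w => qR (pos w)) u v u' v' := by
  intro z hz hz'
  obtain ⟨vu, vv⟩ := h.ends u v h1
  obtain ⟨vu', vv'⟩ := h.ends u' v' h2
  obtain ⟨a1, a2, a3⟩ := (hSide_point hi2 z).1 hz
  obtain ⟨b1, b2, b3⟩ := (hSide_point hj2 z).1 hz'
  obtain ⟨p1, -, -, p4, -⟩ := hi2
  obtain ⟨q1, -, -, q4, -⟩ := hj2
  have huu : (pos u).2 = (pos u').2 := by
    have : ((pos u).2 : ℝ) = (pos u').2 := a1.symm.trans b1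
    exact_mod_cast this
  have c1 : (pos u).1 ≤ (pos v').1 := by
    have : ((pos u).1 : ℝ) ≤ (pos v').1 := a2.trans b3
    exact_mod_cast this
  have c2 : (pos u').1 ≤ (pos v).1 := by
    have : ((pos u').1 : ℝ) ≤ (pos v).1 := b2.trans a3
    exact_mod_cast this
  rcases lt_trichotomy (pos u).1 (pos u').1 with hlt | heq | hgt
  · rcases c2.eq_or_lt with e | e
    · have hvu : v = u' := h.inj v u' vv vu' (Prod.ext e.symm (p1.symm.trans huu))
      refine ⟨v, Or.inr rfl, Or.inl hvu, E1b_pt ?_ (by rw [a1, p1])⟩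
      have e' : ((pos u').1 : ℝ) = (pos v).1 := by exact_mod_cast e
      linarith
    · exact (h.free u v u' h1 hs1 vu' (Or.inr ⟨p1, huu.symm, hlt, e⟩)).elim
  · have huu' : u = u' := h.inj u u' vu vu' (Prod.ext heq huu)
    rcases lt_trichotomy (pos v).1 (pos v').1 with hlt | heq2 | hgt
    · exact (h.free u' v' v h2 hs2 vv (Or.inr ⟨q1, p1.symm.trans huu, by rw [← heq]; exact p4,
        hlt⟩)).elim
    · have hvv' : v = v' := h.inj v v' vv vv' (Prod.ext heq2 (p1.symm.trans (huu.trans q1)))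
      exact (hne (by rw [huu', hvv'])).elim
    · exact (h.free u v v' h1 hs1 vv' (Or.inr ⟨p1, (huu.trans q1).symm, by rw [heq]; exact q4,
        hgt⟩)).elim
  · rcases c1.eq_or_lt with e | e
    · have hvu : u = v' := h.inj u v' vu vv' (Prod.ext e (huu.trans q1))
      refine ⟨u, Or.inl rfl, Or.inr hvu, E1b_pt ?_ a1⟩
      have e' : ((pos u).1 : ℝ) = (pos v').1 := by exact_mod_cast e
      linarith
    · exact (h.free u' v' u h2 hs2 vu (Or.inr ⟨q1, huu, hgt, e⟩)).elim

/-- crossing case: a crossing in the relative interior of both would give points of the horizontal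
edge in the interior of the rectangle of the vertical one -/
theorem meet_vSide_hSide {vs : V → Prop} {A : V → V → Prop} {pos : V → ℚ × ℚ} {is : I → Prop}
    {R : I → Rect} {inn : V → V → I → Prop} {sid : V → V → Prop}
    (h : RectSys vs A pos is R inn sid) {u v u' v' : V}
    (h1 : A u v) (h2 : A u' v') (hne : (u, v) ≠ (u', v')) {i j : I} (hi : is i) (hj : is j)
    (hs1 : sid u v) (hs2 : sid u' v')
    (hi2 : VSide (R i) (pos u) (pos v)) (hj2 : HSide (R j) (pos u') (pos v')) :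
    MeetOK (fun w => qR (pos w)) u v u' v' := by
  intro z hz hz'
  obtain ⟨vu, vv⟩ := h.ends u v h1
  obtain ⟨vu', vv'⟩ := h.ends u' v' h2
  obtain ⟨a1, a2, a3⟩ := (vSide_point hi2 z).1 hz
  obtain ⟨b1, b2, b3⟩ := (hSide_point hj2 z).1 hz'
  obtain ⟨p1, p2, p3, p4, p5⟩ := hi2
  obtain ⟨q1, q2, q3, q4, q5⟩ := hj2
  -- the crossing point has rational coordinates
  have a2' : (pos u).2 ≤ (pos u').2 := by rw [b1] at a2; exact_mod_cast a2
  have a3' : (pos u').2 ≤ (pos v).2 := by rw [b1] at a3; exact_mod_cast a3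
  have b2' : (pos u').1 ≤ (pos u).1 := by rw [a1] at b2; exact_mod_cast b2
  have b3' : (pos u).1 ≤ (pos v').1 := by rw [a1] at b3; exact_mod_cast b3
  have zero : ∀ w, (w = u ∨ w = v) → vs w → z = qR (pos w) → (pos w).1 = (pos u).1 →
      (pos w).2 = (pos u').2 → ∃ w, (w = u ∨ w = v) ∧ (w = u' ∨ w = v') ∧ z = qR (pos w) := by
    intro w hw vw e w1 w2
    refine ⟨w, hw, ?_, e⟩
    rcases b2'.eq_or_lt with e4 | e4
    · left
      exact h.inj w u' vw vu' (Prod.ext (w1.trans e4.symm) w2)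
    rcases b3'.eq_or_lt with e5 | e5
    · right
      exact h.inj w v' vw vv' (Prod.ext (w1.trans e5) (w2.trans q1))
    exact (h.free u' v' w h2 hs2 vw (Or.inr ⟨q1, w2, by rw [w1]; exact e4,
      by rw [w1]; exact e5⟩)).elim
  rcases a2'.eq_or_lt with e4 | e4
  · exact zero u (Or.inl rfl) vu (E1b_pt a1 (by rw [b1, e4])) rfl e4
  rcases a3'.eq_or_lt with e5 | e5
  · exact zero v (Or.inr rfl) vv (E1b_pt (by rw [a1, p1]) (by rw [b1, e5])) p1.symm e5.symm
  rcases b2'.eq_or_lt with e6 | e6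
  · exact (h.free u v u' h1 hs1 vu' (Or.inl ⟨p1, e6, e4, e5⟩)).elim
  rcases b3'.eq_or_lt with e7 | e7
  · exact (h.free u v v' h1 hs1 vv' (Or.inl ⟨p1, e7.symm, by rw [← q1]; exact e4,
      by rw [← q1]; exact e5⟩)).elim
  exfalso
  by_cases hij : i = j
  · subst hij
    rcases p2 with p2 | p2 <;> rw [p2] at e6 e7
    · exact absurd (lt_of_le_of_lt q3 e6) (lt_irrefl _)
    · exact absurd (lt_of_lt_of_le e7 q5) (lt_irrefl _)
  · have hi0 := h.nondeg i hi
    have hj0 := h.nondeg j hj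
    rcases h.sep i j hi hj hij with k | k | k | k
    · have : (pos u).1 ≤ (R i).r := by rcases p2 with p2 | p2 <;> rw [p2]; exact hi0.1.le
      linarith
    · have : (R i).l ≤ (pos u).1 := by rcases p2 with p2 | p2 <;> rw [p2]; exact hi0.1.le
      linarith
    · have : (R j).b ≤ (pos u').2 := by rcases q2 with q2 | q2 <;> rw [q2]; exact hj0.2.le
      linarith
    · have : (pos u').2 ≤ (R j).t := by rcases q2 with q2 | q2 <;> rw [q2]; exact hj0.2.le
      linarith

end Pool.Agent.Lib.MP_be4430_lc
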