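import Pool.Agent.Lib.MP_be4430_lc.E1a_InnerInner
import Pool.Agent.Lib.MP_be4430_lc.E1b_SideSide

/-! # Planarity of a system of rectangles -/

namespace Pool.Agent.Lib.MP_be4430_lc

variable {V I : Type}

theorem MeetOK.symm {pos : V → ℝ × ℝ} {u v u' v' : V} (h : MeetOK pos u v u' v') :
    MeetOK pos u' v' u v := by
  intro z hz hz'
  obtain ⟨w, h1, h2, h3⟩ := h z hz' hz
  exact ⟨w, h2, h1, h3⟩

theorem rect_planar {vs : V → Prop} {A : V → V → Prop} {pos : V → ℚ × ℚ} {is : I → Prop}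
    {R : I → Rect} {inn : V → V → I → Prop} {sid : V → V → Prop}
    (h : RectSys vs A pos is R inn sid) {u v u' v' : V}
    (h1 : A u v) (h2 : A u' v') (hne : (u, v) ≠ (u', v')) :
    MeetOK (fun w => qR (pos w)) u v u' v' := by
  obtain ⟨i, hi, hi'⟩ := h.kind u v h1
  obtain ⟨j, hj, hj'⟩ := h.kind u' v' h2
  rcases hi' with ⟨a1, a2⟩ | ⟨a1, a2⟩
  · rcases hj' with ⟨b1, b2⟩ | ⟨b1, b2⟩
    · exact meet_inner_inner h h1 h2 hne hi hj a1 a2 b1 b2
    · exact meet_inner_side h h1 h2 hne hi hj a2 b1 b2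
  · rcases hj' with ⟨b1, b2⟩ | ⟨b1, b2⟩
    · exact (meet_inner_side h h2 h1 (Ne.symm hne) hj hi b2 a1 a2).symm
    · rcases a2 with a2 | a2 <;> rcases b2 with b2 | b2
      · exact meet_vSide_vSide h h1 h2 hne hi hj a1 b1 a2 b2
      · exact meet_vSide_hSide h h1 h2 hne hi hj a1 b1 a2 b2
      · exact (meet_vSide_hSide h h2 h1 (Ne.symm hne) hj hi b1 a1 b2 a2).symm
      · exact meet_hSide_hSide h h1 h2 hne hi hj a1 b1 a2 b2

end Pool.Agent.Lib.MP_be4430_lc
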