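import Pool.Agent.Lib.MP_be4430_lc.Layout
import Pool.Agent.Lib.MP_be4430_lc.B2_Ends

/-! # Basic inequalities between the parameters -/

namespace Pool.Agent.Lib.MP_be4430_lc

variable {m : ℕ} {ts : List Trp} {P : Par}

theorem x_lt (hP : ParOK m ts P) {i j : ℕ} (h1 : 1 ≤ i) (h2 : i < j) (h3 : j ≤ m) :
    P.x i < P.x j := by
  induction j with
  | zero => omega
  | succ j ih =>
    rcases Nat.lt_or_ge i j with h | h
    · exact (ih h (by omega)).trans (hP.xs j (by omega) (by omega))
    · have : i = j := by omega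
      rw [this]
      exact hP.xs j (by omega) (by omega)

theorem x_nonneg (hP : ParOK m ts P) {i : ℕ} (h1 : 1 ≤ i) (h3 : i ≤ m) : 0 ≤ P.x i := by
  rcases Nat.lt_or_ge 1 i with h | h
  · have := x_lt hP le_rfl h h3
    rw [hP.x1] at this
    exact this.le
  · have : i = 1 := by omega
    rw [this, hP.x1]

theorem x_pos (hP : ParOK m ts P) {i : ℕ} (h1 : 2 ≤ i) (h3 : i ≤ m) : 0 < P.x i := by
  have := x_lt hP le_rfl (show 1 < i by omega) h3
  rw [hP.x1] at this
  exact this

theorem x_le_max (hP : ParOK m ts P) {i : ℕ} (h1 : 1 ≤ i) (h3 : i ≤ m) : P.x i ≤ P.x m := by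
  rcases Nat.lt_or_ge i m with h | h
  · exact (x_lt hP h1 h le_rfl).le
  · have : i = m := by omega
    rw [this]

theorem A_succ (P : Par) (g : ℕ) : P.A (g + 1) = P.A g + P.lam g + 3 * P.eps := rfl

theorem B_succ (P : Par) (m : ℕ) (ts : List Trp) (g : ℕ) :
    P.B m ts (g + 1) = P.T m ts g + P.H m (g + 1) := rfl

/-- `H g > (lam g + eps) * x m` and so `H g > 0` -/
theorem H_gt (hP : ParOK m ts P) (hT : TValid m ts) (g : ℕ) :
    (P.lam g + P.eps) * P.x m < P.H m g ∧ 0 < P.H m g := by
  have h3 := three_le hT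
  have hx : 0 ≤ P.x m := x_nonneg hP (by omega) le_rfl
  have hl := hP.lam_pos g
  have he := hP.eps_pos
  have h0 : 0 ≤ (P.lam g + P.eps) * P.x m := mul_nonneg (by linarith) hx
  unfold Par.H
  constructor <;> linarith

theorem T_lt_B (hP : ParOK m ts P) (hT : TValid m ts) (g : ℕ) :
    P.T m ts g < P.B m ts (g + 1) := by
  rw [B_succ]
  have := (H_gt hP hT (g + 1)).2
  linarith

/-- the height of a gadget is larger than that of both fans -/
theorem h_bounds (hP : ParOK m ts P) (hT : TValid m ts) {g : ℕ} (h1 : 1 ≤ g)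
    (h2 : g ≤ ts.length) :
    0 < P.h ts g ∧ P.B m ts g < P.T m ts g := by
  obtain ⟨a1, a2, a3, a4, a5, a6, a7, a8⟩ := pp_qq_order hT h1 h2
  have hp : 0 ≤ P.x (pp ts g 0) := x_nonneg hP a1 (by omega)
  have hq : 0 < P.x (qq ts g 0) := x_pos hP (by omega) a8
  have h3 : 0 < P.h ts g := by
    unfold Par.h
    have e1 : 0 ≤ P.lam g * P.x (pp ts g 0) := mul_nonneg (hP.lam_pos g).le hp
    have e2 : 0 < P.mu g * P.x (qq ts g 0) := mul_pos (hP.mu_pos g) hq
    linarith
  refine ⟨h3, ?_⟩
  unfold Par.T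
  linarith

/-- gadgets from left to right -/
theorem A_le (hP : ParOK m ts P) {g g' : ℕ} (h2 : g < g') : P.A (g + 1) ≤ P.A g' := by
  induction g' with
  | zero => omega
  | succ g' ih =>
    rcases Nat.lt_or_ge g g' with h | h
    · refine (ih h).trans ?_
      rw [A_succ P g']
      have := hP.lam_pos g'
      have := hP.eps_pos
      linarith
    · have : g = g' := by omega
      rw [this]

end Pool.Agent.Lib.MP_be4430_lc
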