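import Pool.Agent.Lib.MP_be4430_lc.Layout
import Pool.Agent.Lib.MP_be4430_lc.B2_Ends
import Pool.Agent.Lib.MP_be4430_lc.E2x_Basic

/-! # Basic inequalities between the parameters -/

namespace Pool.Agent.Lib.MP_be4430_lc

variable {m : ℕ} {ts : List Trp} {P : Par}

/-- the column `r` (`0 ≤ r ≤ 4`) of gadget `g`: `0`: `r (g-1) n`, `O g`; `1`: `G (g-1)`;
`2`: `c g n`; `3`: `d g n`, `b (g-1)`; `4`: `s g n`, `a g` -/
def colx (P : Par) (g : ℕ) : ℕ → ℚ
  | 0 => P.A g
  | 1 => P.A g + P.mu (g - 1)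
  | 2 => P.A g + P.lam g
  | 3 => P.A g + P.lam g + P.eps
  | _ => P.A g + P.lam g + 2 * P.eps

private theorem E2y_step (hP : ParOK m ts P) {g : ℕ} (hg : 1 ≤ g) :
    P.A g < P.A g + P.mu (g - 1) ∧ P.A g + P.mu (g - 1) < P.A g + P.lam g ∧
    P.A g + P.lam g < P.A g + P.lam g + P.eps ∧
    P.A g + P.lam g + P.eps < P.A g + P.lam g + 2 * P.eps ∧
    P.A g + P.lam g + 2 * P.eps < P.A (g + 1) := by
  have h1 := hP.mu_pos (g - 1)
  have h2 := hP.mu_lam (g - 1)
  rw [Nat.sub_add_cancel hg] at h2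
  have h3 := hP.eps_pos
  rw [A_succ]
  refine ⟨?_, ?_, ?_, ?_, ?_⟩ <;> linarith

private theorem E2y_same (hP : ParOK m ts P) {g r r' : ℕ} (hg : 1 ≤ g) (hr : r < r')
    (hr' : r' ≤ 4) : colx P g r < colx P g r' := by
  obtain ⟨h1, h2, h3, h4, -⟩ := E2y_step hP hg
  have c0 : colx P g 0 = P.A g := rfl
  have c1 : colx P g 1 = P.A g + P.mu (g - 1) := rfl
  have c2 : colx P g 2 = P.A g + P.lam g := rfl
  have c3 : colx P g 3 = P.A g + P.lam g + P.eps := rfl
  have c4 : colx P g 4 = P.A g + P.lam g + 2 * P.eps := rfl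
  interval_cases r' <;> interval_cases r <;> simp only [c0, c1, c2, c3, c4] <;> linarith

private theorem E2y_up (hP : ParOK m ts P) {g r : ℕ} (hg : 1 ≤ g) (hr : r ≤ 4) :
    P.A g ≤ colx P g r ∧ colx P g r < P.A (g + 1) := by
  obtain ⟨h1, h2, h3, h4, h5⟩ := E2y_step hP hg
  have c0 : colx P g 0 = P.A g := rfl
  have c1 : colx P g 1 = P.A g + P.mu (g - 1) := rfl
  have c2 : colx P g 2 = P.A g + P.lam g := rfl
  have c3 : colx P g 3 = P.A g + P.lam g + P.eps := rfl
  have c4 : colx P g 4 = P.A g + P.lam g + 2 * P.eps := rfl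
  interval_cases r <;> simp only [c0, c1, c2, c3, c4] <;> constructor <;> linarith

/-- the columns are ordered from left to right -/
theorem colx_lt (hP : ParOK m ts P) {g g' r r' : ℕ} (hg : 1 ≤ g) (hg' : 1 ≤ g') (hr : r ≤ 4)
    (hr' : r' ≤ 4) (h : 5 * g + r < 5 * g' + r') : colx P g r < colx P g' r' := by
  rcases Nat.lt_or_ge g g' with h1 | h1
  · have h2 := (E2y_up hP hg hr).2
    have h3 := (E2y_up hP hg' hr').1
    have h4 := A_le hP h1
    linarith
  · have h2 : g = g' := by omega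
    subst h2
    exact E2y_same hP hg (by omega) hr'

theorem colx_le (hP : ParOK m ts P) {g g' r r' : ℕ} (hg : 1 ≤ g) (hg' : 1 ≤ g') (hr : r ≤ 4)
    (hr' : r' ≤ 4) (h : 5 * g + r ≤ 5 * g' + r') : colx P g r ≤ colx P g' r' := by
  rcases Nat.lt_or_ge (5 * g + r) (5 * g' + r') with h1 | h1
  · exact (colx_lt hP hg hg' hr hr' h1).le
  · have h2 : g = g' ∧ r = r' := by omega
    rw [h2.1, h2.2]

/-- left column of a rectangle -/
def lcol : Rct → ℕ × ℕ
  | .FO g => (g, 0)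
  | .FL g _ => (g, 2)
  | .CO g _ => (g, 3)
  | .FR g _ => (g, 4)
  | .FG g => (g + 1, 0)
  | .AX g => (g, 4)
  | .LK g => (g, 0)

/-- right column of a rectangle -/
def rcol : Rct → ℕ × ℕ
  | .FO g => (g, 2)
  | .FL g _ => (g, 3)
  | .CO g _ => (g, 4)
  | .FR g _ => (g + 1, 0)
  | .FG g => (g + 1, 1)
  | .AX g => (g + 1, 0)
  | .LK g => (g, 3)

/-- column of a vertex that is not an inner vertex of a cell -/
def vcol : Vtx → ℕ × ℕ
  | .O g => (g, 0)
  | .G g => (g + 1, 1)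
  | .a g => (g, 4)
  | .b g => (g + 1, 3)
  | .c g _ => (g, 2)
  | .d g _ => (g, 3)
  | .s g _ => (g, 4)
  | .r g _ => (g + 1, 0)
  | _ => (0, 0)

/-- not an inner vertex of a cell -/
def Bdry : Vtx → Prop
  | .nn _ _ => False
  | .ww _ _ => False
  | _ => True

theorem rect_l (P : Par) (m : ℕ) (ts : List Trp) (C : Rct) :
    (rect m ts P C).l = colx P (lcol C).1 (lcol C).2 := by
  cases C <;> first | rfl | (simp only [rect, lcol, colx, A_succ]; ring)

theorem rect_r (P : Par) (m : ℕ) (ts : List Trp) (C : Rct) :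
    (rect m ts P C).r = colx P (rcol C).1 (rcol C).2 := by
  cases C <;> rfl

theorem loc_fst (P : Par) (m : ℕ) (ts : List Trp) {v : Vtx} (hv : Bdry v) :
    (loc m ts P v).1 = colx P (vcol v).1 (vcol v).2 := by
  cases v <;> first | rfl | exact hv.elim | (simp only [loc, vcol, colx, A_succ]; try ring)

end Pool.Agent.Lib.MP_be4430_lc
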