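import Pool.Agent.Lib.MP_be4430_lc.Layout
import Pool.Agent.Lib.MP_be4430_lc.B2_Ends
import Pool.Agent.Lib.MP_be4430_lc.E2x_Basic

/-! # Basic inequalities between the parameters -/

namespace Pool.Agent.Lib.MP_be4430_lc

variable {m : ℕ} {ts : List Trp} {P : Par}

/-- the height of the rectangle of a cell is larger than its width times `x m` -/
theorem cell_height (hP : ParOK m ts P) (hT : TValid m ts) {C : Rct}
    (hC : Cok m ts.length C) :
    0 < (rect m ts P C).r - (rect m ts P C).l ∧
    ((rect m ts P C).r - (rect m ts P C).l) * P.x m < (rect m ts P C).t - (rect m ts P C).b := by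
  obtain ⟨hC1, hC2⟩ := hC
  have he := hP.eps_pos
  cases C with
  | FO g => exact hC1.elim
  | FG g => exact hC1.elim
  | AX g => exact hC1.elim
  | FL g n =>
    obtain ⟨⟨h1, h2⟩, h3, h4⟩ := hC2
    have h5 := hP.eps_lam g n h1 h2 h3 h4
    have e1 : (rect m ts P (.FL g n)).r - (rect m ts P (.FL g n)).l = P.eps := by
      simp only [rect]
      ring
    have e2 : (rect m ts P (.FL g n)).t - (rect m ts P (.FL g n)).b =
        P.lam g * (P.x (n + 1) - P.x n) := by
      simp only [rect]
      ring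
    rw [e1, e2]
    exact ⟨he, h5⟩
  | CO g i =>
    obtain ⟨⟨h1, h2⟩, h3⟩ := hC2
    obtain ⟨a1, a2, a3, a4, -⟩ := pp_qq_order hT h1 h2
    have hi : 1 ≤ pp ts g i ∧ pp ts g i < pp ts g (i + 1) ∧ pp ts g (i + 1) ≤ m := by
      interval_cases i
      · exact ⟨a1, a2, show pp ts g 1 ≤ m by omega⟩
      · exact ⟨show 1 ≤ pp ts g 1 by omega, a3, show pp ts g 2 ≤ m by omega⟩
    have h5 := hP.eps_lam g (pp ts g i) h1 h2 hi.1 (by omega)
    have e1 : (rect m ts P (.CO g i)).r - (rect m ts P (.CO g i)).l = P.eps := by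
      simp only [rect]
      ring
    have e2 : (rect m ts P (.CO g i)).t - (rect m ts P (.CO g i)).b =
        P.lam g * (P.x (pp ts g (i + 1)) - P.x (pp ts g i)) := by
      simp only [rect]
      ring
    have h6 : P.x (pp ts g i + 1) ≤ P.x (pp ts g (i + 1)) := by
      rcases Nat.lt_or_ge (pp ts g i + 1) (pp ts g (i + 1)) with h | h
      · exact (x_lt hP (by omega) h hi.2.2).le
      · have : pp ts g i + 1 = pp ts g (i + 1) := by omega
        rw [this]
    have h7 : P.lam g * (P.x (pp ts g i + 1) - P.x (pp ts g i)) ≤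
        P.lam g * (P.x (pp ts g (i + 1)) - P.x (pp ts g i)) :=
      mul_le_mul_of_nonneg_left (by linarith) (hP.lam_pos g).le
    rw [e1, e2]
    exact ⟨he, by linarith⟩
  | FR g n =>
    obtain ⟨⟨h1, h2⟩, h3, h4⟩ := hC2
    have h5 := hP.eps_mu g n h1 h2 h3 h4
    have e1 : (rect m ts P (.FR g n)).r - (rect m ts P (.FR g n)).l = P.eps := by
      simp only [rect, A_succ]
      ring
    have e2 : (rect m ts P (.FR g n)).t - (rect m ts P (.FR g n)).b =
        P.mu g * (P.x (n + 1) - P.x n) := by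
      simp only [rect]
      ring
    rw [e1, e2]
    exact ⟨he, h5⟩
  | LK g =>
    obtain ⟨h1, h2⟩ := hC2
    have h5 := (H_gt hP hT g).1
    have h6 := hP.lam_pos g
    have h7 : P.B m ts g = P.T m ts (g - 1) + P.H m g := by
      have := B_succ P m ts (g - 1)
      rw [Nat.sub_add_cancel h1] at this
      exact this
    have e1 : (rect m ts P (.LK g)).r - (rect m ts P (.LK g)).l = P.lam g + P.eps := by
      simp only [rect]
      ring
    have e2 : (rect m ts P (.LK g)).t - (rect m ts P (.LK g)).b = P.H m g := by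
      simp only [rect]
      rw [h7]
      ring
    rw [e1, e2]
    exact ⟨by linarith, h5⟩

/-- the corners of a cell are the corners of its rectangle -/
theorem loc_cv_ct (hP : ParOK m ts P) (hT : TValid m ts) {C : Rct} (hC : Cok m ts.length C) :
    loc m ts P (cv ts C) = ((rect m ts P C).l, (rect m ts P C).b) ∧
      loc m ts P (ct ts C) = ((rect m ts P C).r, (rect m ts P C).t) := by
  obtain ⟨hC1, hC2⟩ := hC
  cases C with
  | FO g => exact hC1.elim
  | FG g => exact hC1.elim
  | AX g => exact hC1.elim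
  | FL g n => exact ⟨rfl, rfl⟩
  | CO g i =>
    obtain ⟨⟨h1, h2⟩, h3⟩ := hC2
    refine ⟨rfl, ?_⟩
    have h4 := hP.hh g (i + 1) h1 h2 (by omega)
    refine Prod.ext rfl ?_
    show P.T m ts g - P.mu g * P.x (qq ts g (i + 1)) = P.B m ts g + P.lam g * P.x (pp ts g (i + 1))
    unfold Par.T
    linarith
  | FR g n => exact ⟨rfl, rfl⟩
  | LK g =>
    obtain ⟨h1, h2⟩ := hC2
    constructor
    · show (P.A (g - 1 + 1), P.T m ts (g - 1) - P.mu (g - 1) * P.x 1) = (P.A g, P.T m ts (g - 1))
      rw [Nat.sub_add_cancel h1, hP.x1]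
      refine Prod.ext rfl ?_
      ring
    · show (P.A g + P.lam g + P.eps, P.B m ts g + P.lam g * P.x 1) =
        (P.A g + P.lam g + P.eps, P.B m ts g)
      rw [hP.x1]
      refine Prod.ext rfl ?_
      ring

end Pool.Agent.Lib.MP_be4430_lc
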