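import Pool.Agent.Lib.MP_be4430_lc.E2x_Basic
import Pool.Agent.Lib.MP_be4430_lc.E2y_Cols
import Pool.Agent.Lib.MP_be4430_lc.E2z_Height

/-! # Basic inequalities between the parameters -/
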