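import Pool.Agent.Lib.MP_be4430_lc.E2_Facts

/-! # The rectangles of the layout are nondegenerate and pairwise separated -/

namespace Pool.Agent.Lib.MP_be4430_lc

variable {m : ℕ} {ts : List Trp} {P : Par}

theorem rect_nondeg (hP : ParOK m ts P) (hT : TValid m ts) {C : Rct}
    (hC : Rok m ts.length C) :
    (rect m ts P C).l < (rect m ts P C).r ∧ (rect m ts P C).b < (rect m ts P C).t := by
  have hm := three_le hT
  have hx : 0 ≤ P.x m := x_nonneg hP (by omega) le_rfl
  have cell : ∀ D : Rct, Cok m ts.length D →
      (rect m ts P D).l < (rect m ts P D).r ∧ (rect m ts P D).b < (rect m ts P D).t := by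
    intro D hD
    obtain ⟨h1, h2⟩ := cell_height hP hT hD
    have h3 := mul_nonneg h1.le hx
    constructor <;> linarith
  cases C with
  | FL g n => exact cell _ ⟨trivial, hC⟩
  | CO g i => exact cell _ ⟨trivial, hC⟩
  | FR g n => exact cell _ ⟨trivial, hC⟩
  | LK g => exact cell _ ⟨trivial, hC⟩
  | FO g =>
    have h1 := hP.lam_pos g
    have h2 : 0 < P.x m := x_pos hP (by omega) le_rfl
    have h3 := mul_pos h1 h2
    simp only [rect]
    constructor <;> linarith
  | FG g =>
    have h1 := hP.mu_pos g
    have h2 : 0 < P.x m := x_pos hP (by omega) le_rfl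
    have h3 := mul_pos h1 h2
    simp only [rect]
    constructor <;> linarith
  | AX g =>
    have h1 := hP.eps_pos
    have h2 := T_lt_B hP hT g
    simp only [rect]
    constructor <;> linarith

/-- columns: if the column ranges do not overlap the rectangles are separated horizontally -/
theorem sep_of_cols (hP : ParOK m ts P) {C D : Rct} (hC : Rok m ts.length C)
    (hD : Rok m ts.length D)
    (h : 5 * (rcol C).1 + (rcol C).2 ≤ 5 * (lcol D).1 + (lcol D).2) :
    (rect m ts P C).r ≤ (rect m ts P D).l := by
  rw [rect_r, rect_l]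
  refine colx_le hP ?_ ?_ ?_ ?_ h
  · cases C <;> simp only [rcol, Rok] at hC ⊢ <;> omega
  · cases D <;> simp only [lcol, Rok] at hD ⊢ <;> omega
  · cases C <;> simp only [rcol] <;> omega
  · cases D <;> simp only [lcol] <;> omega

end Pool.Agent.Lib.MP_be4430_lc
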