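import Pool.Agent.Lib.MP_be4430_lc.E3_Nondeg

/-! # Rectangles with overlapping column ranges are separated vertically -/

namespace Pool.Agent.Lib.MP_be4430_lc

variable {m : ℕ} {ts : List Trp} {P : Par}

private theorem E3a_x_le (hP : ParOK m ts P) {i j : ℕ} (h1 : 1 ≤ i) (h2 : i ≤ j) (h3 : j ≤ m) :
    P.x i ≤ P.x j := by
  rcases Nat.lt_or_ge i j with h | h
  · exact (x_lt hP h1 h h3).le
  · have : i = j := by omega
    rw [this]

/-- the pairs of different rectangles whose column ranges overlap, up to symmetry: `FL g n`,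
`FL g n'` (`n < n'`); `CO g 0`, `CO g 1`; `FR g n`, `FR g n'`; `FO g`, `LK g`; `FO (g+1)`, `FG g`;
`LK (g+1)`, `FG g`; `FL g n`, `LK g`; `FR g n`, `AX g` -/
inductive Over : Rct → Rct → Prop
  | FLFL (g n n' : ℕ) : n < n' → Over (.FL g n) (.FL g n')
  | COCO (g : ℕ) : Over (.CO g 0) (.CO g 1)
  | FRFR (g n n' : ℕ) : n < n' → Over (.FR g n') (.FR g n)
  | LKFO (g : ℕ) : Over (.LK g) (.FO g)
  | FGFO (g : ℕ) : Over (.FG g) (.FO (g + 1))
  | FGLK (g : ℕ) : Over (.FG g) (.LK (g + 1))
  | LKFL (g n : ℕ) : Over (.LK g) (.FL g n)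
  | FRAX (g n : ℕ) : Over (.FR g n) (.AX g)

/-- (case analysis on `C`, `D`, then `omega`) -/
theorem over_of_cols {N : ℕ} {C D : Rct} (hC : Rok m N C) (hD : Rok m N D) (hne : C ≠ D)
    (h1 : 5 * (lcol D).1 + (lcol D).2 < 5 * (rcol C).1 + (rcol C).2)
    (h2 : 5 * (lcol C).1 + (lcol C).2 < 5 * (rcol D).1 + (rcol D).2) : Over C D ∨ Over D C := by
  have e3 : ∀ g g' n n' : ℕ, g = g' → n ≠ n' → (Over (.FL g n) (.FL g' n') ∨
      Over (.FL g' n') (.FL g n)) ∧ (Over (.FR g n) (.FR g' n') ∨ Over (.FR g' n') (.FR g n)) := by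
    intro g g' n n' h h'
    subst h
    rcases Nat.lt_or_ge n n' with h3 | h3
    · exact ⟨Or.inl (.FLFL g n n' h3), Or.inr (.FRFR g n n' h3)⟩
    · have h4 : n' < n := by omega
      exact ⟨Or.inr (.FLFL g n' n h4), Or.inl (.FRFR g n' n h4)⟩
  have e4 : ∀ g g' i i' : ℕ, g = g' → i ≠ i' → i < 2 → i' < 2 → (Over (.CO g i) (.CO g' i') ∨
      Over (.CO g' i') (.CO g i)) := by
    intro g g' i i' h h' h1 h2
    subst h
    rcases Nat.lt_or_ge i i' with h3 | h3
    · have h4 : i = 0 ∧ i' = 1 := by omega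
      rw [h4.1, h4.2]
      exact Or.inl (.COCO g)
    · have h4 : i = 1 ∧ i' = 0 := by omega
      rw [h4.1, h4.2]
      exact Or.inr (.COCO g)
  have e5 : ∀ g g' : ℕ, g = g' → Over (.LK g) (.FO g') := by
    intro g g' h
    subst h
    exact .LKFO g
  have e6 : ∀ g g' : ℕ, g' = g + 1 → Over (.FG g) (.FO g') ∧ Over (.FG g) (.LK g') := by
    intro g g' h
    subst h
    exact ⟨.FGFO g, .FGLK g⟩
  have e7 : ∀ g g' n : ℕ, g = g' → Over (.LK g) (.FL g' n) ∧ Over (.FR g n) (.AX g') := by
    intro g g' n h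
    subst h
    exact ⟨.LKFL g n, .FRAX g n⟩
  cases C with
  | FO g =>
    cases D with
    | FO g' =>
      simp only [lcol, rcol, Rok] at hC hD h1 h2
      have : g = g' := by omega
      exact absurd (by rw [this]) hne
    | LK g' =>
      simp only [lcol, rcol, Rok] at hC hD h1 h2
      exact Or.inr (e5 _ _ (by omega))
    | FG g' =>
      simp only [lcol, rcol, Rok] at hC hD h1 h2
      exact Or.inr (e6 _ _ (by omega)).1
    | _ => simp only [lcol, rcol, Rok] at hC hD h1 h2; omega
  | FL g n =>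
    cases D with
    | FL g' n' =>
      simp only [lcol, rcol, Rok] at hC hD h1 h2
      have h3 : g = g' := by omega
      refine (e3 g g' n n' h3 fun h => hne ?_).1
      rw [h3, h]
    | LK g' =>
      simp only [lcol, rcol, Rok] at hC hD h1 h2
      exact Or.inr (e7 _ _ _ (by omega)).1
    | _ => simp only [lcol, rcol, Rok] at hC hD h1 h2; omega
  | CO g i =>
    cases D with
    | CO g' i' =>
      simp only [lcol, rcol, Rok] at hC hD h1 h2
      have h3 : g = g' := by omega
      refine e4 g g' i i' h3 (fun h => hne ?_) hC.2 hD.2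
      rw [h3, h]
    | _ => simp only [lcol, rcol, Rok] at hC hD h1 h2; omega
  | FR g n =>
    cases D with
    | FR g' n' =>
      simp only [lcol, rcol, Rok] at hC hD h1 h2
      have h3 : g = g' := by omega
      refine (e3 g g' n n' h3 fun h => hne ?_).2
      rw [h3, h]
    | AX g' =>
      simp only [lcol, rcol, Rok] at hC hD h1 h2
      exact Or.inl (e7 _ _ _ (by omega)).2
    | _ => simp only [lcol, rcol, Rok] at hC hD h1 h2; omega
  | FG g =>
    cases D with
    | FG g' =>
      simp only [lcol, rcol, Rok] at hC hD h1 h2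
      have : g = g' := by omega
      exact absurd (by rw [this]) hne
    | FO g' =>
      simp only [lcol, rcol, Rok] at hC hD h1 h2
      exact Or.inl (e6 _ _ (by omega)).1
    | LK g' =>
      simp only [lcol, rcol, Rok] at hC hD h1 h2
      exact Or.inl (e6 _ _ (by omega)).2
    | _ => simp only [lcol, rcol, Rok] at hC hD h1 h2; omega
  | AX g =>
    cases D with
    | AX g' =>
      simp only [lcol, rcol, Rok] at hC hD h1 h2
      have : g = g' := by omega
      exact absurd (by rw [this]) hne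
    | FR g' n' =>
      simp only [lcol, rcol, Rok] at hC hD h1 h2
      exact Or.inr (e7 _ _ _ (by omega)).2
    | _ => simp only [lcol, rcol, Rok] at hC hD h1 h2; omega
  | LK g =>
    cases D with
    | LK g' =>
      simp only [lcol, rcol, Rok] at hC hD h1 h2
      have : g = g' := by omega
      exact absurd (by rw [this]) hne
    | FO g' =>
      simp only [lcol, rcol, Rok] at hC hD h1 h2
      exact Or.inl (e5 _ _ (by omega))
    | FL g' n' =>
      simp only [lcol, rcol, Rok] at hC hD h1 h2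
      exact Or.inl (e7 _ _ _ (by omega)).1
    | FG g' =>
      simp only [lcol, rcol, Rok] at hC hD h1 h2
      exact Or.inr (e6 _ _ (by omega)).2
    | _ => simp only [lcol, rcol, Rok] at hC hD h1 h2; omega

/-- the first rectangle is below the second one -/
theorem sep_of_over (hP : ParOK m ts P) (hT : TValid m ts) {C D : Rct}
    (hC : Rok m ts.length C) (hD : Rok m ts.length D) (h : Over C D) :
    (rect m ts P C).t ≤ (rect m ts P D).b := by
  have hm := three_le hT
  cases h with
  | FLFL g n n' h =>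
    obtain ⟨-, h1, h2⟩ := hC
    obtain ⟨-, h3, h4⟩ := hD
    have h5 := E3a_x_le hP (show 1 ≤ n + 1 by omega) (show n + 1 ≤ n' by omega) (by omega)
    have h6 := mul_le_mul_of_nonneg_left h5 (hP.lam_pos g).le
    simp only [rect]
    linarith
  | COCO g => exact le_rfl
  | FRFR g n n' h =>
    obtain ⟨-, h1, h2⟩ := hC
    obtain ⟨-, h3, h4⟩ := hD
    have h5 := E3a_x_le hP (show 1 ≤ n + 1 by omega) (show n + 1 ≤ n' by omega) (by omega)
    have h6 := mul_le_mul_of_nonneg_left h5 (hP.mu_pos g).le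
    simp only [rect]
    linarith
  | LKFO g => exact le_rfl
  | FGFO g =>
    have h1 := T_lt_B hP hT g
    simp only [rect]
    linarith
  | FGLK g => exact le_rfl
  | LKFL g n =>
    obtain ⟨-, h1, h2⟩ := hD
    have h3 : 0 ≤ P.x n := x_nonneg hP h1 h2.le
    have h4 := mul_nonneg (hP.lam_pos g).le h3
    simp only [rect]
    linarith
  | FRAX g n =>
    obtain ⟨-, h1, h2⟩ := hC
    have h3 : 0 ≤ P.x n := x_nonneg hP h1 h2.le
    have h4 := mul_nonneg (hP.mu_pos g).le h3
    simp only [rect]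
    linarith

theorem rect_sep (hP : ParOK m ts P) (hT : TValid m ts) {C D : Rct}
    (hC : Rok m ts.length C) (hD : Rok m ts.length D) (hne : C ≠ D) :
    (rect m ts P C).r ≤ (rect m ts P D).l ∨ (rect m ts P D).r ≤ (rect m ts P C).l ∨
      (rect m ts P C).t ≤ (rect m ts P D).b ∨ (rect m ts P D).t ≤ (rect m ts P C).b := by
  rcases Nat.lt_or_ge (5 * (lcol D).1 + (lcol D).2) (5 * (rcol C).1 + (rcol C).2) with h1 | h1
  · rcases Nat.lt_or_ge (5 * (lcol C).1 + (lcol C).2) (5 * (rcol D).1 + (rcol D).2) with h2 | h2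
    · rcases over_of_cols hC hD hne h1 h2 with h | h
      · exact Or.inr (Or.inr (Or.inl (sep_of_over hP hT hC hD h)))
      · exact Or.inr (Or.inr (Or.inr (sep_of_over hP hT hD hC h)))
    · exact Or.inr (Or.inl (sep_of_cols hP hD hC h2))
  · exact Or.inl (sep_of_cols hP hC hD h1)

end Pool.Agent.Lib.MP_be4430_lc
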