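import Pool.Agent.Lib.MP_be4430_lc.E2_Facts

/-! # Every edge is an inner edge or lies on a side of a rectangle -/

namespace Pool.Agent.Lib.MP_be4430_lc

variable {m : ℕ} {ts : List Trp} {P : Par}

/-- the edge `u → v` lies on a side of a valid rectangle -/
def OnASide (m : ℕ) (ts : List Trp) (P : Par) (u v : Vtx) : Prop :=
  ∃ C, Rok m ts.length C ∧ (VSide (rect m ts P C) (loc m ts P u) (loc m ts P v) ∨
    HSide (rect m ts P C) (loc m ts P u) (loc m ts P v))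

/-- `O g → c g 1`: bottom of `FO g` -/
theorem side_Oc (hP : ParOK m ts P) (hT : TValid m ts) {g : ℕ} (h1 : 1 ≤ g)
    (h2 : g ≤ ts.length) : OnASide m ts P (.O g) (.c g 1) := by
  have h3 := three_le hT
  have h4 := hP.lam_pos g
  have h5 : 0 ≤ P.x m := x_nonneg hP (by omega) le_rfl
  have h6 := mul_nonneg h4.le h5
  refine ⟨.FO g, ⟨h1, h2⟩, Or.inr ?_⟩
  simp only [HSide, rect, loc]
  rw [hP.x1]
  refine ⟨by ring, Or.inl trivial, le_rfl, by linarith, le_rfl⟩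

/-- `c g n → c g (n+1)`: left side of `FL g n` -/
theorem side_cc (hP : ParOK m ts P) (hT : TValid m ts) {g n : ℕ} (h1 : 1 ≤ g)
    (h2 : g ≤ ts.length) (h3 : 1 ≤ n) (h4 : n < m) :
    OnASide m ts P (.c g n) (.c g (n + 1)) := by
  have h5 := mul_lt_mul_of_pos_left (hP.xs n h3 h4) (hP.lam_pos g)
  refine ⟨.FL g n, ⟨⟨h1, h2⟩, h3, h4⟩, Or.inl ?_⟩
  simp only [VSide, rect, loc]
  exact ⟨trivial, Or.inl trivial, le_rfl, by linarith, le_rfl⟩

/-- `c g n → d g n`: bottom of `FL g n`, for `n = m` top of `FL g (m-1)` -/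
theorem side_cd (hP : ParOK m ts P) (hT : TValid m ts) {g n : ℕ} (h1 : 1 ≤ g)
    (h2 : g ≤ ts.length) (h3 : 1 ≤ n) (h4 : n ≤ m) : OnASide m ts P (.c g n) (.d g n) := by
  have h5 := hP.eps_pos
  rcases Nat.lt_or_ge n m with h6 | h6
  · refine ⟨.FL g n, ⟨⟨h1, h2⟩, h3, h6⟩, Or.inr ?_⟩
    simp only [HSide, rect, loc]
    exact ⟨trivial, Or.inl trivial, le_rfl, by linarith, le_rfl⟩
  · have h7 := three_le hT
    obtain ⟨k, rfl⟩ : ∃ k, n = k + 1 := ⟨n - 1, by omega⟩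
    refine ⟨.FL g k, ⟨⟨h1, h2⟩, by omega, by omega⟩, Or.inr ?_⟩
    simp only [HSide, rect, loc]
    exact ⟨trivial, Or.inr trivial, le_rfl, by linarith, le_rfl⟩

/-- `d g n → d g (n+1)`: right side of `FL g n` -/
theorem side_dd (hP : ParOK m ts P) (hT : TValid m ts) {g n : ℕ} (h1 : 1 ≤ g)
    (h2 : g ≤ ts.length) (h3 : 1 ≤ n) (h4 : n < m) :
    OnASide m ts P (.d g n) (.d g (n + 1)) := by
  have h5 := mul_lt_mul_of_pos_left (hP.xs n h3 h4) (hP.lam_pos g)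
  refine ⟨.FL g n, ⟨⟨h1, h2⟩, h3, h4⟩, Or.inl ?_⟩
  simp only [VSide, rect, loc]
  exact ⟨trivial, Or.inr trivial, le_rfl, by linarith, le_rfl⟩

/-- `d g (p i) → s g (q i)`: bottom of `CO g i` for `i < 2`, top of `CO g 1` for `i = 2` -/
theorem side_ds (hP : ParOK m ts P) (hT : TValid m ts) {g i : ℕ} (h1 : 1 ≤ g)
    (h2 : g ≤ ts.length) (h3 : i < 3) :
    OnASide m ts P (.d g (pp ts g i)) (.s g (qq ts g i)) := by
  have h5 := hP.eps_pos
  have h6 := hP.hh g i h1 h2 h3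
  have h7 : P.B m ts g + P.lam g * P.x (pp ts g i) = P.T m ts g - P.mu g * P.x (qq ts g i) := by
    unfold Par.T
    linarith
  rcases Nat.lt_or_ge i 2 with h8 | h8
  · refine ⟨.CO g i, ⟨⟨h1, h2⟩, h8⟩, Or.inr ?_⟩
    simp only [HSide, rect, loc]
    exact ⟨h7, Or.inl trivial, le_rfl, by linarith, le_rfl⟩
  · have h9 : i = 2 := by omega
    subst h9
    refine ⟨.CO g 1, ⟨⟨h1, h2⟩, by omega⟩, Or.inr ?_⟩
    simp only [HSide, rect, loc]
    exact ⟨h7, Or.inr trivial, le_rfl, by linarith, le_rfl⟩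

end Pool.Agent.Lib.MP_be4430_lc
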