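import Pool.Agent.Lib.MP_be4430_lc.E2_Facts
import Pool.Agent.Lib.MP_be4430_lc.E4x_One

/-! # Every edge is an inner edge or lies on a side of a rectangle -/

namespace Pool.Agent.Lib.MP_be4430_lc

variable {m : ℕ} {ts : List Trp} {P : Par}

/-- `s g (n+1) → s g n`: left side of `FR g n` -/
theorem side_ss (hP : ParOK m ts P) (hT : TValid m ts) {g n : ℕ} (h1 : 1 ≤ g)
    (h2 : g ≤ ts.length) (h3 : 1 ≤ n) (h4 : n < m) :
    OnASide m ts P (.s g (n + 1)) (.s g n) := by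
  have hl := hP.mu_pos g
  have hx := hP.xs n h3 h4
  refine ⟨.FR g n, ⟨⟨h1, h2⟩, h3, h4⟩, Or.inl ⟨rfl, Or.inl rfl, le_rfl, ?_, le_rfl⟩⟩
  simp only [loc]
  nlinarith

/-- `s g n → r g n`: top of `FR g n`, for `n = m` bottom of `FR g (m-1)` -/
theorem side_sr (hP : ParOK m ts P) (hT : TValid m ts) {g n : ℕ} (h1 : 1 ≤ g)
    (h2 : g ≤ ts.length) (h3 : 1 ≤ n) (h4 : n ≤ m) : OnASide m ts P (.s g n) (.r g n) := by
  have he := hP.eps_pos
  have hm := three_le hT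
  have key : P.A g + P.lam g + 2 * P.eps < P.A (g + 1) := by
    rw [A_succ]
    linarith
  rcases Nat.lt_or_ge n m with h | h
  · exact ⟨.FR g n, ⟨⟨h1, h2⟩, h3, h⟩, Or.inr ⟨rfl, Or.inr rfl, le_rfl, key, le_rfl⟩⟩
  · have hn : n = (m - 1) + 1 := by omega
    refine ⟨.FR g (m - 1), ⟨⟨h1, h2⟩, by omega, by omega⟩, Or.inr ⟨rfl, Or.inl ?_, le_rfl, key,
      le_rfl⟩⟩
    rw [hn]
    rfl

/-- `r g (n+1) → r g n`: left side of `FG g` -/
theorem side_rr (hP : ParOK m ts P) (hT : TValid m ts) {g n : ℕ}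
    (h2 : g ≤ ts.length) (h3 : 1 ≤ n) (h4 : n < m) :
    OnASide m ts P (.r g (n + 1)) (.r g n) := by
  have hl := hP.mu_pos g
  have hx := hP.xs n h3 h4
  have hx2 := x_le_max hP (show 1 ≤ n + 1 by omega) (show n + 1 ≤ m by omega)
  have hx3 := x_nonneg hP h3 h4.le
  refine ⟨.FG g, h2, Or.inl ⟨rfl, Or.inl rfl, ?_, ?_, ?_⟩⟩
  · simp only [loc, rect]
    nlinarith
  · simp only [loc]
    nlinarith
  · simp only [loc, rect]
    nlinarith

/-- `r g 1 → G g`: top of `FG g` -/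
theorem side_rG (hP : ParOK m ts P) (hT : TValid m ts) {g : ℕ} (h2 : g ≤ ts.length) :
    OnASide m ts P (.r g 1) (.G g) := by
  have hl := hP.mu_pos g
  have hx := hP.x1
  refine ⟨.FG g, h2, Or.inr ⟨?_, Or.inr ?_, le_rfl, ?_, le_rfl⟩⟩
  · simp only [loc, hx]
    ring
  · simp only [loc, rect, hx]
    ring
  · simp only [loc]
    linarith

end Pool.Agent.Lib.MP_be4430_lc
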