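import Pool.Agent.Lib.MP_be4430_lc.E2_Facts
import Pool.Agent.Lib.MP_be4430_lc.E4x_One

/-! # Every edge is an inner edge or lies on a side of a rectangle -/

namespace Pool.Agent.Lib.MP_be4430_lc

variable {m : ℕ} {ts : List Trp} {P : Par}

/-- `s g 1 → a g`: left side of `AX g` -/
theorem side_sa (hP : ParOK m ts P) (hT : TValid m ts) {g : ℕ} (h1 : 1 ≤ g)
    (h2 : g ≤ ts.length) : OnASide m ts P (.s g 1) (.a g) := by
  have hTB := T_lt_B hP hT g
  have hx := hP.x1
  refine ⟨.AX g, ⟨h1, h2⟩, Or.inl ⟨?_, Or.inl ?_, ?_, ?_, ?_⟩⟩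
  · simp only [loc, A_succ]; ring
  · simp only [loc, rect, A_succ]; ring
  · simp only [loc, rect, hx]; simp
  · simp only [loc, hx]; simpa using hTB
  · simp only [loc, rect]; exact le_refl _

/-- `a g → O (g+1)`: top of `AX g` -/
theorem side_aO (hP : ParOK m ts P) (hT : TValid m ts) {g : ℕ} (h1 : 1 ≤ g)
    (h2 : g ≤ ts.length) : OnASide m ts P (.a g) (.O (g + 1)) := by
  have he := hP.eps_pos
  refine ⟨.AX g, ⟨h1, h2⟩, Or.inr ⟨?_, Or.inr ?_, ?_, ?_, ?_⟩⟩
  · simp only [loc]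
  · simp only [loc, rect]
  · simp only [loc, rect]; exact le_refl _
  · simp only [loc]; linarith
  · simp only [loc, rect]; exact le_refl _

/-- `r g 1 → O (g+1)`: right side of `AX g` for `g ≥ 1`, left side of `LK 1` for `g = 0` -/
theorem side_rO (hP : ParOK m ts P) (hT : TValid m ts) {g : ℕ} (h2 : g ≤ ts.length) :
    OnASide m ts P (.r g 1) (.O (g + 1)) := by
  have hTB := T_lt_B hP hT g
  have hx := hP.x1
  rcases Nat.eq_zero_or_pos g with h0 | h1
  · subst h0
    have hne : 1 ≤ ts.length := List.length_pos_iff.mpr hT.ne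
    refine ⟨.LK 1, ⟨le_refl _, hne⟩, Or.inl ⟨?_, Or.inl ?_, ?_, ?_, ?_⟩⟩
    · simp only [loc]
    · simp only [loc, rect]
    · simp only [loc, rect, hx]; simp
    · simp only [loc, hx]; simpa using hTB
    · simp only [loc, rect]; exact le_refl _
  · refine ⟨.AX g, ⟨h1, h2⟩, Or.inl ⟨?_, Or.inr ?_, ?_, ?_, ?_⟩⟩
    · simp only [loc]
    · simp only [loc, rect]
    · simp only [loc, rect, hx]; simp
    · simp only [loc, hx]; simpa using hTB
    · simp only [loc, rect]; exact le_refl _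

/-- `G g → b g`: bottom of `LK (g+1)` -/
theorem side_Gb (hP : ParOK m ts P) (hT : TValid m ts) {g : ℕ} (h2 : g < ts.length) :
    OnASide m ts P (.G g) (.b g) := by
  have he := hP.eps_pos
  have hm := hP.mu_pos g
  have hml := hP.mu_lam g
  refine ⟨.LK (g + 1), ⟨Nat.le_add_left 1 g, h2⟩, Or.inr ⟨?_, Or.inl ?_, ?_, ?_, ?_⟩⟩
  · simp only [loc]
  · simp only [loc, rect, Nat.add_sub_cancel]
  · simp only [loc, rect]; linarith
  · simp only [loc]; linarith
  · simp only [loc, rect]; exact le_refl _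

/-- `b g → d (g+1) 1`: right side of `LK (g+1)` -/
theorem side_bd (hP : ParOK m ts P) (hT : TValid m ts) {g : ℕ} (h2 : g < ts.length) :
    OnASide m ts P (.b g) (.d (g + 1) 1) := by
  have hTB := T_lt_B hP hT g
  have hx := hP.x1
  refine ⟨.LK (g + 1), ⟨Nat.le_add_left 1 g, h2⟩, Or.inl ⟨?_, Or.inr ?_, ?_, ?_, ?_⟩⟩
  · simp only [loc]
  · simp only [loc, rect]
  · simp only [loc, rect, Nat.add_sub_cancel]; exact le_refl _
  · simp only [loc, hx]; simpa using hTB
  · simp only [loc, rect, hx]; simp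

end Pool.Agent.Lib.MP_be4430_lc
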