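import Pool.Agent.Lib.MP_be4430_lc.E4x_One
import Pool.Agent.Lib.MP_be4430_lc.E4y_Two
import Pool.Agent.Lib.MP_be4430_lc.E4z_Three

/-! # Every edge is an inner edge or lies on a side of a rectangle -/
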