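import Pool.Agent.Lib.MP_be4430_lc.E3a_Sep
import Pool.Agent.Lib.MP_be4430_lc.E5_Inner

/-! # The vertices are placed at different points -/

namespace Pool.Agent.Lib.MP_be4430_lc

variable {m : ℕ} {ts : List Trp} {P : Par}

private theorem E7_x_inj (hP : ParOK m ts P) {i j : ℕ} (h1 : 1 ≤ i) (h2 : i ≤ m) (h3 : 1 ≤ j)
    (h4 : j ≤ m) (h : P.x i = P.x j) : i = j := by
  rcases Nat.lt_trichotomy i j with h5 | h5 | h5
  · exact absurd h (x_lt hP h1 h5 h4).ne
  · exact h5
  · exact absurd h (x_lt hP h3 h5 h2).ne'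

private theorem E7_lo (hP : ParOK m ts P) (g : ℕ) {n : ℕ} (h1 : 1 ≤ n) (h2 : n ≤ m) :
    0 ≤ P.lam g * P.x n ∧ 0 ≤ P.mu g * P.x n :=
  ⟨mul_nonneg (hP.lam_pos g).le (x_nonneg hP h1 h2), mul_nonneg (hP.mu_pos g).le (x_nonneg hP h1 h2)⟩

private theorem E7_col {w : Vtx} (hw : Vok m ts.length w) (bw : Bdry w) :
    1 ≤ (vcol w).1 ∧ (vcol w).2 ≤ 4 := by
  cases w with
  | nn C j => exact bw.elim
  | ww C j => exact bw.elim
  | _ => simp only [vcol, Vok] at hw ⊢; omega

private theorem E7_vcol (hP : ParOK m ts P) {u v : Vtx} (hu : Vok m ts.length u)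
    (hv : Vok m ts.length v) (bu : Bdry u) (bv : Bdry v)
    (h : (loc m ts P u).1 = (loc m ts P v).1) : vcol u = vcol v := by
  rw [loc_fst P m ts bu, loc_fst P m ts bv] at h
  obtain ⟨u1, u2⟩ := E7_col hu bu
  obtain ⟨v1, v2⟩ := E7_col hv bv
  rcases Nat.lt_trichotomy (5 * (vcol u).1 + (vcol u).2) (5 * (vcol v).1 + (vcol v).2) with
    h2 | h2 | h2
  · exact absurd h (colx_lt hP u1 v1 u2 v2 h2).ne
  · exact Prod.ext (by omega) (by omega)
  · exact absurd h (colx_lt hP v1 u1 v2 u2 h2).ne'

/-- one half of the comparisons of vertices on a column -/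
private theorem E7_ne (hP : ParOK m ts P) (hT : TValid m ts) {g g' n : ℕ} (h : g + 1 = g') :
    (1 ≤ n → n ≤ m → P.T m ts g - P.mu g * P.x n ≠ P.B m ts g') ∧
    (1 ≤ n → n ≤ m → P.B m ts g' + P.lam g' * P.x n ≠ P.T m ts g) := by
  subst h
  have h1 := T_lt_B hP hT g
  refine ⟨fun h2 h3 h4 => ?_, fun h2 h3 h4 => ?_⟩
  · have := (E7_lo hP g h2 h3).2
    linarith
  · have := (E7_lo hP (g + 1) h2 h3).1
    linarith

private theorem E7_lam (hP : ParOK m ts P) {g g' n n' : ℕ} (hg : g = g') (h1 : 1 ≤ n)
    (h2 : n ≤ m) (h3 : 1 ≤ n') (h4 : n' ≤ m)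
    (h : P.B m ts g + P.lam g * P.x n = P.B m ts g' + P.lam g' * P.x n') : n = n' := by
  subst hg
  refine E7_x_inj hP h1 h2 h3 h4 ?_
  exact mul_left_cancel₀ (hP.lam_pos g).ne' (add_left_cancel h)

private theorem E7_mu (hP : ParOK m ts P) {g g' n n' : ℕ} (hg : g = g') (h1 : 1 ≤ n)
    (h2 : n ≤ m) (h3 : 1 ≤ n') (h4 : n' ≤ m)
    (h : P.T m ts g - P.mu g * P.x n = P.T m ts g' - P.mu g' * P.x n') : n = n' := by
  subst hg
  refine E7_x_inj hP h1 h2 h3 h4 ?_
  refine mul_left_cancel₀ (hP.mu_pos g).ne' ?_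
  linarith

/-- vertices on the same column: order of the second coordinates.  (Same column and `Bdry`; the
vertices of column `0` of gadget `g` are `r (g-1) n` and `O g`, etc.) -/
theorem inj_bdry (hP : ParOK m ts P) (hT : TValid m ts) {u v : Vtx} (hu : Vok m ts.length u)
    (hv : Vok m ts.length v) (bu : Bdry u) (bv : Bdry v) (h : loc m ts P u = loc m ts P v) :
    u = v := by
  have hc := E7_vcol hP hu hv bu bv (congrArg Prod.fst h)
  have h2 := congrArg Prod.snd h
  cases u with
  | O g =>
    cases v with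
    | O g' =>
      simp only [vcol, Prod.mk.injEq] at hc
      simp only [loc] at h2
      simp only [Vok] at hu hv
      have h3 : g = g' := by omega
      rw [h3]
    | r g' n' =>
      simp only [vcol, Prod.mk.injEq] at hc
      simp only [loc] at h2
      simp only [Vok] at hu hv
      exact absurd h2.symm ((E7_ne hP hT (by omega)).1 hv.2.1 hv.2.2)
    | nn C j => exact bv.elim
    | ww C j => exact bv.elim
    | _ => simp only [vcol, Prod.mk.injEq] at hc; omega
  | G g =>
    cases v with
    | G g' =>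
      simp only [vcol, Prod.mk.injEq] at hc
      simp only [loc] at h2
      simp only [Vok] at hu hv
      have h3 : g = g' := by omega
      rw [h3]
    | nn C j => exact bv.elim
    | ww C j => exact bv.elim
    | _ => simp only [vcol, Prod.mk.injEq] at hc; omega
  | a g =>
    cases v with
    | a g' =>
      simp only [vcol, Prod.mk.injEq] at hc
      simp only [loc] at h2
      simp only [Vok] at hu hv
      have h3 : g = g' := by omega
      rw [h3]
    | s g' n' =>
      simp only [vcol, Prod.mk.injEq] at hc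
      simp only [loc] at h2
      simp only [Vok] at hu hv
      exact absurd h2.symm ((E7_ne hP hT (by omega)).1 hv.2.1 hv.2.2)
    | nn C j => exact bv.elim
    | ww C j => exact bv.elim
    | _ => simp only [vcol, Prod.mk.injEq] at hc; omega
  | b g =>
    cases v with
    | b g' =>
      simp only [vcol, Prod.mk.injEq] at hc
      simp only [loc] at h2
      simp only [Vok] at hu hv
      have h3 : g = g' := by omega
      rw [h3]
    | d g' n' =>
      simp only [vcol, Prod.mk.injEq] at hc
      simp only [loc] at h2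
      simp only [Vok] at hu hv
      exact absurd h2.symm ((E7_ne hP hT (by omega)).2 hv.2.1 hv.2.2)
    | nn C j => exact bv.elim
    | ww C j => exact bv.elim
    | _ => simp only [vcol, Prod.mk.injEq] at hc; omega
  | c g n =>
    cases v with
    | c g' n' =>
      simp only [vcol, Prod.mk.injEq] at hc
      simp only [loc] at h2
      simp only [Vok] at hu hv
      have h3 : g = g' := by omega
      have h4 := E7_lam hP h3 hu.2.1 hu.2.2 hv.2.1 hv.2.2 h2
      rw [h3, h4]
    | nn C j => exact bv.elim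
    | ww C j => exact bv.elim
    | _ => simp only [vcol, Prod.mk.injEq] at hc; omega
  | d g n =>
    cases v with
    | d g' n' =>
      simp only [vcol, Prod.mk.injEq] at hc
      simp only [loc] at h2
      simp only [Vok] at hu hv
      have h3 : g = g' := by omega
      have h4 := E7_lam hP h3 hu.2.1 hu.2.2 hv.2.1 hv.2.2 h2
      rw [h3, h4]
    | b g' =>
      simp only [vcol, Prod.mk.injEq] at hc
      simp only [loc] at h2
      simp only [Vok] at hu hv
      exact absurd h2 ((E7_ne hP hT (by omega)).2 hu.2.1 hu.2.2)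
    | nn C j => exact bv.elim
    | ww C j => exact bv.elim
    | _ => simp only [vcol, Prod.mk.injEq] at hc; omega
  | s g n =>
    cases v with
    | s g' n' =>
      simp only [vcol, Prod.mk.injEq] at hc
      simp only [loc] at h2
      simp only [Vok] at hu hv
      have h3 : g = g' := by omega
      have h4 := E7_mu hP h3 hu.2.1 hu.2.2 hv.2.1 hv.2.2 h2
      rw [h3, h4]
    | a g' =>
      simp only [vcol, Prod.mk.injEq] at hc
      simp only [loc] at h2
      simp only [Vok] at hu hv
      exact absurd h2 ((E7_ne hP hT (by omega)).1 hu.2.1 hu.2.2)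
    | nn C j => exact bv.elim
    | ww C j => exact bv.elim
    | _ => simp only [vcol, Prod.mk.injEq] at hc; omega
  | r g n =>
    cases v with
    | r g' n' =>
      simp only [vcol, Prod.mk.injEq] at hc
      simp only [loc] at h2
      simp only [Vok] at hu hv
      have h3 : g = g' := by omega
      have h4 := E7_mu hP h3 hu.2.1 hu.2.2 hv.2.1 hv.2.2 h2
      rw [h3, h4]
    | O g' =>
      simp only [vcol, Prod.mk.injEq] at hc
      simp only [loc] at h2
      simp only [Vok] at hu hv
      exact absurd h2 ((E7_ne hP hT (by omega)).1 hu.2.1 hu.2.2)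
    | nn C j => exact bv.elim
    | ww C j => exact bv.elim
    | _ => simp only [vcol, Prod.mk.injEq] at hc; omega
  | nn C j => exact bu.elim
  | ww C j => exact bu.elim

/-- a vertex that is not an inner vertex of a cell is not in the interior of any rectangle -/
theorem bdry_not_inside (hP : ParOK m ts P) (hT : TValid m ts) {v : Vtx}
    (hv : Vok m ts.length v) (bv : Bdry v) {C : Rct} (hC : Rok m ts.length C) :
    ¬ ((rect m ts P C).l < (loc m ts P v).1 ∧ (loc m ts P v).1 < (rect m ts P C).r ∧
      (rect m ts P C).b < (loc m ts P v).2 ∧ (loc m ts P v).2 < (rect m ts P C).t) := by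
  rintro ⟨h1, h2, h3, h4⟩
  rw [rect_l, loc_fst P m ts bv] at h1
  rw [rect_r, loc_fst P m ts bv] at h2
  obtain ⟨v1, v2⟩ := E7_col hv bv
  have k1 : 1 ≤ (lcol C).1 ∧ (lcol C).2 ≤ 4 ∧ 1 ≤ (rcol C).1 ∧ (rcol C).2 ≤ 4 := by
    cases C <;> simp only [lcol, rcol, Rok] at hC ⊢ <;> omega
  obtain ⟨c1, c2, c3, c4⟩ := k1
  have h5 : 5 * (lcol C).1 + (lcol C).2 < 5 * (vcol v).1 + (vcol v).2 := by
    by_contra hc
    have := colx_le hP v1 c1 v2 c2 (not_lt.1 hc)
    linarith
  have h6 : 5 * (vcol v).1 + (vcol v).2 < 5 * (rcol C).1 + (rcol C).2 := by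
    by_contra hc
    have := colx_le hP c3 v1 c4 v2 (not_lt.1 hc)
    linarith
  clear h1 h2 c1 c2 c3 c4
  cases C with
  | FO g =>
    cases v with
    | G g' =>
      simp only [lcol, rcol, vcol] at h5 h6
      have h7 : g = g' + 1 := by omega
      subst h7
      have h8 := T_lt_B hP hT g'
      simp only [rect, loc] at h3
      linarith
    | nn C j => exact bv.elim
    | ww C j => exact bv.elim
    | _ => simp only [lcol, rcol, vcol] at h5 h6; omega
  | LK g =>
    cases v with
    | G g' =>
      simp only [lcol, rcol, vcol] at h5 h6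
      have h7 : g = g' + 1 := by omega
      subst h7
      simp only [rect, loc, Nat.add_sub_cancel] at h3
      exact lt_irrefl _ h3
    | c g' n' =>
      simp only [lcol, rcol, vcol] at h5 h6
      have h7 : g = g' := by omega
      subst h7
      have h8 := (E7_lo hP g hv.2.1 hv.2.2).1
      simp only [rect, loc] at h4
      linarith
    | nn C j => exact bv.elim
    | ww C j => exact bv.elim
    | _ => simp only [lcol, rcol, vcol] at h5 h6; omega
  | _ => simp only [lcol, rcol] at h5 h6; omega

/-- inner vertices of cells -/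
theorem inj_inner (hP : ParOK m ts P) (hT : TValid m ts) {u v : Vtx} (hu : Vok m ts.length u)
    (hv : Vok m ts.length v) (bu : ¬ Bdry u) (bv : ¬ Bdry v)
    (h : loc m ts P u = loc m ts P v) : u = v := by
  -- the cell and the index of an inner vertex
  have key : ∀ w : Vtx, Vok m ts.length w → ¬ Bdry w → ∃ C j, Cok m ts.length C ∧ 2 ≤ j ∧ j ≤ m ∧
      (w = .nn C j ∨ w = .ww C j) ∧ (loc m ts P w).1 = (loc m ts P (.nn C j)).1 ∧
      (rect m ts P C).l < (loc m ts P w).1 ∧ (loc m ts P w).1 < (rect m ts P C).r ∧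
      (rect m ts P C).b < (loc m ts P w).2 ∧ (loc m ts P w).2 < (rect m ts P C).t := by
    intro w hw bw
    cases w with
    | nn C j =>
      obtain ⟨h1, h2, h3⟩ := hw
      obtain ⟨a1, a2, a3, a4, a5, a6⟩ := inner_vertices hP hT h1 h2 h3
      exact ⟨C, j, h1, h2, h3, Or.inl rfl, rfl, a1, a2, a4, by linarith⟩
    | ww C j =>
      obtain ⟨h1, h2, h3⟩ := hw
      obtain ⟨a1, a2, a3, a4, a5, a6⟩ := inner_vertices hP hT h1 h2 h3
      exact ⟨C, j, h1, h2, h3, Or.inr rfl, a3, by rw [a3]; exact a1, by rw [a3]; exact a2,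
        by linarith, a6⟩
    | _ => exact absurd trivial bw
  obtain ⟨C, j, c1, c2, c3, c4, c5, c6, c7, c8, c9⟩ := key u hu bu
  obtain ⟨D, k, d1, d2, d3, d4, d5, d6, d7, d8, d9⟩ := key v hv bv
  have hCD : C = D := by
    by_contra hne
    rw [h] at c6 c7 c8 c9
    rcases rect_sep hP hT c1.2 d1.2 hne with h1 | h1 | h1 | h1 <;> linarith
  subst hCD
  have hw : 0 < (rect m ts P C).r - (rect m ts P C).l := (cell_height hP hT c1).1
  have hjk : j = k := by
    have e : (loc m ts P (.nn C j)).1 = (loc m ts P (.nn C k)).1 := by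
      rw [← c5, ← d5, h]
    have e1 : off m ((rect m ts P C).r - (rect m ts P C).l) j =
        off m ((rect m ts P C).r - (rect m ts P C).l) k := by
      simp only [loc] at e
      exact add_left_cancel e
    rcases Nat.lt_trichotomy j k with h1 | h1 | h1
    · exact absurd e1 (off_lt hw c2 h1 d3).ne'
    · exact h1
    · exact absurd e1 (off_lt hw d2 h1 c3).ne
  subst hjk
  obtain ⟨a1, a2, a3, a4, a5, a6⟩ := inner_vertices hP hT c1 c2 c3
  rcases c4 with rfl | rfl <;> rcases d4 with rfl | rfl
  · rfl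
  · rw [h] at a5
    exact absurd a5 (lt_irrefl _)
  · rw [h] at a5
    exact absurd a5 (lt_irrefl _)
  · rfl

theorem loc_inj (hP : ParOK m ts P) (hT : TValid m ts) {u v : Vtx} (hu : Vok m ts.length u)
    (hv : Vok m ts.length v) (h : loc m ts P u = loc m ts P v) : u = v := by
  have aux : ∀ u v : Vtx, Vok m ts.length u → Vok m ts.length v → Bdry u → ¬ Bdry v →
      loc m ts P u ≠ loc m ts P v := by
    intro u v hu hv bu bv h
    have key : ∃ C, Rok m ts.length C ∧ (rect m ts P C).l < (loc m ts P v).1 ∧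
        (loc m ts P v).1 < (rect m ts P C).r ∧ (rect m ts P C).b < (loc m ts P v).2 ∧
        (loc m ts P v).2 < (rect m ts P C).t := by
      cases v with
      | nn C j =>
        obtain ⟨h1, h2, h3⟩ := hv
        obtain ⟨a1, a2, a3, a4, a5, a6⟩ := inner_vertices hP hT h1 h2 h3
        exact ⟨C, h1.2, a1, a2, a4, by linarith⟩
      | ww C j =>
        obtain ⟨h1, h2, h3⟩ := hv
        obtain ⟨a1, a2, a3, a4, a5, a6⟩ := inner_vertices hP hT h1 h2 h3
        exact ⟨C, h1.2, by rw [a3]; exact a1, by rw [a3]; exact a2, by linarith, a6⟩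
      | _ => exact absurd trivial bv
    obtain ⟨C, hC, hC'⟩ := key
    rw [← h] at hC'
    exact bdry_not_inside hP hT hu bu hC hC'
  by_cases bu : Bdry u <;> by_cases bv : Bdry v
  · exact inj_bdry hP hT hu hv bu bv h
  · exact absurd h (aux u v hu hv bu bv)
  · exact absurd h.symm (aux v u hv hu bv bu)
  · exact inj_inner hP hT hu hv bu bv h

end Pool.Agent.Lib.MP_be4430_lc
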