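import Pool.Agent.Lib.MP_be4430_lc.E4_Kind
import Pool.Agent.Lib.MP_be4430_lc.E7_Inj

/-! # No vertex in the relative interior of a side edge -/

namespace Pool.Agent.Lib.MP_be4430_lc

variable {m : ℕ} {ts : List Trp} {P : Par}

/-- a side edge lies on a side of a valid rectangle -/
theorem onASide_of_sid (hP : ParOK m ts P) (hT : TValid m ts) {u v : Vtx}
    (h : Sid m ts u v) : OnASide m ts P u v := by
  cases h with
  | Oc g h1 h2 => exact side_Oc hP hT h1 h2
  | cc g n h1 h2 h3 h4 => exact side_cc hP hT h1 h2 h3 h4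
  | cd g n h1 h2 h3 h4 => exact side_cd hP hT h1 h2 h3 h4
  | dd g n h1 h2 h3 h4 => exact side_dd hP hT h1 h2 h3 h4
  | ds g i h1 h2 h3 => exact side_ds hP hT h1 h2 h3
  | ss g n h1 h2 h3 h4 => exact side_ss hP hT h1 h2 h3 h4
  | sr g n h1 h2 h3 h4 => exact side_sr hP hT h1 h2 h3 h4
  | rr g n h1 h2 h3 => exact side_rr hP hT h1 h2 h3
  | rG g h1 => exact side_rG hP hT h1
  | sa g h1 h2 => exact side_sa hP hT h1 h2
  | aO g h1 h2 => exact side_aO hP hT h1 h2
  | rO g h1 => exact side_rO hP hT h1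
  | Gb g h1 => exact side_Gb hP hT h1
  | bd g h1 => exact side_bd hP hT h1

/-- a point in the relative interior of a side edge is on the boundary of the rectangle -/
private theorem E8_onside_boundary {R : Rect} {p q w : ℚ × ℚ}
    (h : VSide R p q ∨ HSide R p q) (hw : OnSide p q w) (hR : R.l < R.r ∧ R.b < R.t) :
    (R.l ≤ w.1 ∧ w.1 ≤ R.r ∧ R.b ≤ w.2 ∧ w.2 ≤ R.t) ∧
      (w.1 = R.l ∨ w.1 = R.r ∨ w.2 = R.b ∨ w.2 = R.t) := by
  obtain ⟨r1, r2⟩ := hR
  rcases h with ⟨h1, h2, h3, h4, h5⟩ | ⟨h1, h2, h3, h4, h5⟩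
  · rcases hw with ⟨w1, w2, w3, w4⟩ | ⟨w1, w2, w3, w4⟩
    · rcases h2 with h2 | h2
      · refine ⟨⟨?_, ?_, ?_, ?_⟩, Or.inl (by linarith)⟩ <;> linarith
      · refine ⟨⟨?_, ?_, ?_, ?_⟩, Or.inr (Or.inl (by linarith))⟩ <;> linarith
    · linarith
  · rcases hw with ⟨w1, w2, w3, w4⟩ | ⟨w1, w2, w3, w4⟩
    · linarith
    · rcases h2 with h2 | h2
      · refine ⟨⟨?_, ?_, ?_, ?_⟩, Or.inr (Or.inr (Or.inl (by linarith)))⟩ <;> linarith
      · refine ⟨⟨?_, ?_, ?_, ?_⟩, Or.inr (Or.inr (Or.inr (by linarith)))⟩ <;> linarith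

/-- points in the interior of a rectangle are not in the relative interior of a side edge -/
private theorem E8_inside (hP : ParOK m ts P) (hT : TValid m ts) {u v : Vtx} {w : ℚ × ℚ}
    (h : Sid m ts u v) {C : Rct} (hC : Rok m ts.length C)
    (h1 : (rect m ts P C).l < w.1) (h2 : w.1 < (rect m ts P C).r)
    (h3 : (rect m ts P C).b < w.2) (h4 : w.2 < (rect m ts P C).t) :
    ¬ OnSide (loc m ts P u) (loc m ts P v) w := by
  intro hw
  obtain ⟨D, hD, hs⟩ := onASide_of_sid hP hT h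
  obtain ⟨⟨a1, a2, a3, a4⟩, a5⟩ := E8_onside_boundary hs hw (rect_nondeg hP hT hD)
  by_cases hCD : C = D
  · subst hCD
    rcases a5 with a5 | a5 | a5 | a5 <;> linarith
  · rcases rect_sep hP hT hC hD hCD with b | b | b | b <;> linarith

/-- inner vertices of cells: they are in the interior of a rectangle, the side edge is on a side of
a rectangle (use `rect_sep` if it is another one) -/
theorem free_inner (hP : ParOK m ts P) (hT : TValid m ts) {u v w : Vtx} (h : Sid m ts u v)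
    (hw : Vok m ts.length w) (bw : ¬ Bdry w) :
    ¬ OnSide (loc m ts P u) (loc m ts P v) (loc m ts P w) := by
  cases w with
  | nn C j =>
    obtain ⟨hC, h1, h2⟩ := hw
    obtain ⟨a1, a2, a3, a4, a5, a6⟩ := inner_vertices hP hT hC h1 h2
    exact E8_inside hP hT h hC.2 a1 a2 a4 (a5.trans a6)
  | ww C j =>
    obtain ⟨hC, h1, h2⟩ := hw
    obtain ⟨a1, a2, a3, a4, a5, a6⟩ := inner_vertices hP hT hC h1 h2
    exact E8_inside hP hT h hC.2 (by rw [a3]; exact a1) (by rw [a3]; exact a2) (a4.trans a5) a6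
  | _ => exact absurd trivial bw

end Pool.Agent.Lib.MP_be4430_lc
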