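import Pool.Agent.Lib.MP_be4430_lc.E2_Facts

/-! # Horizontal side edges -/

namespace Pool.Agent.Lib.MP_be4430_lc

variable {m : ℕ} {ts : List Trp} {P : Par}

private theorem vcol_ok {N : ℕ} {w : Vtx} (hw : Vok m N w) (bw : Bdry w) :
    1 ≤ (vcol w).1 ∧ (vcol w).2 ≤ 4 := by
  cases w <;> simp only [Vok, vcol, Bdry] at * <;> omega

private theorem vcol_between (hP : ParOK m ts P) {N : ℕ} {w : Vtx} (hw : Vok m N w)
    (bw : Bdry w) {g r g' r' : ℕ} (hg : 1 ≤ g) (hr : r ≤ 4) (hg' : 1 ≤ g') (hr' : r' ≤ 4)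
    (h : colx P g r < (loc m ts P w).1) (h' : (loc m ts P w).1 < colx P g' r') :
    5 * g + r < 5 * (vcol w).1 + (vcol w).2 ∧ 5 * (vcol w).1 + (vcol w).2 < 5 * g' + r' ∧
      (vcol w).2 ≤ 4 := by
  rw [loc_fst P m ts bw] at h h'
  obtain ⟨h1, h2⟩ := vcol_ok hw bw
  refine ⟨?_, ?_, h2⟩
  · by_contra h4
    exact absurd h (not_lt.mpr (colx_le hP h1 hg h2 hr (by omega)))
  · by_contra h4
    exact absurd h' (not_lt.mpr (colx_le hP hg' h1 hr' h2 (by omega)))

/-- Horizontal side edges (`Oc`, `cd`, `ds`, `sr`, `rG`, `aO`, `Gb`): all but `Oc` and `Gb` join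
consecutive columns; between the columns of `O g` and `c g 1` there is only `G (g-1)`, lower by
`T_lt_B`; between those of `G g` and `b g` there are only the `c (g+1) n`, higher. -/
theorem free_Oc (hP : ParOK m ts P) (hT : TValid m ts) {g : ℕ} (h1 : 1 ≤ g)
    (h2 : g ≤ ts.length) {w : Vtx} (hw : Vok m ts.length w) (bw : Bdry w) :
    ¬ OnSide (loc m ts P (.O g)) (loc m ts P (.c g 1)) (loc m ts P w) := by
  have hl := hP.lam_pos g
  rintro (⟨e1, _, _, _⟩ | ⟨_, e1, e2, e3⟩)
  · simp only [loc] at e1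
    linarith
  · have e4 : colx P g 0 < (loc m ts P w).1 := e2
    have e5 : (loc m ts P w).1 < colx P g 2 := e3
    obtain ⟨c1, c2, c3⟩ := vcol_between hP hw bw h1 (by norm_num) h1 (by norm_num) e4 e5
    cases w with
    | G g' =>
      simp only [vcol] at c1 c2
      have c4 : g = g' + 1 := by omega
      subst c4
      simp only [loc] at e1
      have h5 := T_lt_B hP hT g'
      linarith
    | O g' => simp only [vcol] at c1 c2; omega
    | a g' => simp only [vcol] at c1 c2; omega
    | b g' => simp only [vcol] at c1 c2; omega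
    | c g' n' => simp only [vcol] at c1 c2; omega
    | d g' n' => simp only [vcol] at c1 c2; omega
    | s g' n' => simp only [vcol] at c1 c2; omega
    | r g' n' => simp only [vcol] at c1 c2; omega
    | nn C j => exact bw
    | ww C j => exact bw

theorem free_rG (hP : ParOK m ts P) (hT : TValid m ts) {g : ℕ} (h2 : g ≤ ts.length) {w : Vtx}
    (hw : Vok m ts.length w) (bw : Bdry w) :
    ¬ OnSide (loc m ts P (.r g 1)) (loc m ts P (.G g)) (loc m ts P w) := by
  have hl := hP.mu_pos g
  rintro (⟨e1, _, _, _⟩ | ⟨_, e1, e2, e3⟩)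
  · simp only [loc] at e1
    linarith
  · have e4 : colx P (g + 1) 0 < (loc m ts P w).1 := e2
    have e5 : (loc m ts P w).1 < colx P (g + 1) 1 := e3
    obtain ⟨c1, c2, c3⟩ := vcol_between hP hw bw (by omega) (by norm_num) (by omega)
      (by norm_num) e4 e5
    omega

theorem free_aO (hP : ParOK m ts P) (hT : TValid m ts) {g : ℕ} (h1 : 1 ≤ g)
    (h2 : g ≤ ts.length) {w : Vtx} (hw : Vok m ts.length w) (bw : Bdry w) :
    ¬ OnSide (loc m ts P (.a g)) (loc m ts P (.O (g + 1))) (loc m ts P w) := by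
  have hl := hP.eps_pos
  rintro (⟨e1, _, _, _⟩ | ⟨_, e1, e2, e3⟩)
  · simp only [loc] at e1
    linarith
  · have e4 : colx P g 4 < (loc m ts P w).1 := by
      have : colx P g 4 = (loc m ts P (.a g)).1 := by
        simp only [colx, loc, A_succ]
        ring
      rw [this]
      exact e2
    have e5 : (loc m ts P w).1 < colx P (g + 1) 0 := e3
    obtain ⟨c1, c2, c3⟩ := vcol_between hP hw bw h1 (by norm_num) (by omega)
      (by norm_num) e4 e5
    omega

theorem free_Gb (hP : ParOK m ts P) (hT : TValid m ts) {g : ℕ} (h2 : g < ts.length) {w : Vtx}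
    (hw : Vok m ts.length w) (bw : Bdry w) :
    ¬ OnSide (loc m ts P (.G g)) (loc m ts P (.b g)) (loc m ts P w) := by
  have hl := hP.lam_pos (g + 1)
  have hml := hP.mu_lam g
  have he := hP.eps_pos
  rintro (⟨e1, _, _, _⟩ | ⟨_, e1, e2, e3⟩)
  · simp only [loc] at e1
    linarith
  · have e4 : colx P (g + 1) 1 < (loc m ts P w).1 := e2
    have e5 : (loc m ts P w).1 < colx P (g + 1) 3 := e3
    obtain ⟨c1, c2, c3⟩ := vcol_between hP hw bw (by omega) (by norm_num) (by omega)
      (by norm_num) e4 e5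
    cases w with
    | c g' n' =>
      simp only [vcol] at c1 c2
      have c4 : g' = g + 1 := by omega
      subst c4
      simp only [loc] at e1
      obtain ⟨_, h8, h6⟩ := hw
      have h5 := T_lt_B hP hT g
      have h7 : 0 ≤ P.lam (g + 1) * P.x n' := mul_nonneg hl.le (x_nonneg hP h8 h6)
      linarith
    | O g' => simp only [vcol] at c1 c2; omega
    | G g' => simp only [vcol] at c1 c2; omega
    | a g' => simp only [vcol] at c1 c2; omega
    | b g' => simp only [vcol] at c1 c2; omega
    | d g' n' => simp only [vcol] at c1 c2; omega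
    | s g' n' => simp only [vcol] at c1 c2; omega
    | r g' n' => simp only [vcol] at c1 c2; omega
    | nn C j => exact bw
    | ww C j => exact bw

end Pool.Agent.Lib.MP_be4430_lc
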