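import Pool.Agent.Lib.MP_be4430_lc.E2_Facts

/-! # Side edges within one column -/

namespace Pool.Agent.Lib.MP_be4430_lc

variable {m : ℕ} {ts : List Trp} {P : Par}

private theorem vcol_ok {N : ℕ} {w : Vtx} (hw : Vok m N w) (bw : Bdry w) :
    1 ≤ (vcol w).1 ∧ (vcol w).2 ≤ 4 := by
  cases w <;> simp only [Vok, vcol, Bdry] at * <;> omega

private theorem vcol_eq (hP : ParOK m ts P) {N : ℕ} {w : Vtx} (hw : Vok m N w) (bw : Bdry w)
    {g r : ℕ} (hg : 1 ≤ g) (hr : r ≤ 4) (h : (loc m ts P w).1 = colx P g r) :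
    (vcol w).1 = g ∧ (vcol w).2 = r := by
  rw [loc_fst P m ts bw] at h
  obtain ⟨h1, h2⟩ := vcol_ok hw bw
  have h3 : 5 * (vcol w).1 + (vcol w).2 = 5 * g + r := by
    rcases Nat.lt_trichotomy (5 * (vcol w).1 + (vcol w).2) (5 * g + r) with h4 | h4 | h4
    · exact absurd h (colx_lt hP h1 hg h2 hr h4).ne
    · exact h4
    · exact absurd h (colx_lt hP hg h1 hr h2 h4).ne'
  omega

private theorem x_between (hP : ParOK m ts P) {n n' : ℕ} (h3 : 1 ≤ n) (h4 : n < m) (h5 : 1 ≤ n')
    (h6 : n' ≤ m) (h7 : P.x n < P.x n') (h8 : P.x n' < P.x (n + 1)) : False := by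
  rcases Nat.lt_trichotomy n' n with h | h | h
  · exact absurd h7 (not_lt.mpr (x_lt hP h5 h h4.le).le)
  · rw [h] at h7
    exact lt_irrefl _ h7
  · rcases Nat.lt_or_ge n' (n + 1) with h9 | h9
    · omega
    · rcases Nat.lt_or_ge (n + 1) n' with h10 | h10
      · exact absurd h8 (not_lt.mpr (x_lt hP (by omega) h10 h6).le)
      · have : n' = n + 1 := by omega
        rw [this] at h8
        exact lt_irrefl _ h8

/-- Vertical side edges (`cc`, `dd`, `ss`, `rr`, `sa`, `rO`, `bd`) join vertices that are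
consecutive in their column.  (`w` must be in the same column by `colx_lt`; compare the second
coordinates.)  One statement for each kind. -/
theorem free_cc (hP : ParOK m ts P) (hT : TValid m ts) {g n : ℕ} (h1 : 1 ≤ g)
    (h2 : g ≤ ts.length) (h3 : 1 ≤ n) (h4 : n < m) {w : Vtx} (hw : Vok m ts.length w)
    (bw : Bdry w) : ¬ OnSide (loc m ts P (.c g n)) (loc m ts P (.c g (n + 1))) (loc m ts P w) := by
  have hl := hP.lam_pos g
  have hx := hP.xs n h3 h4
  rintro (⟨_, e1, e2, e3⟩ | ⟨e1, _, _, _⟩)
  · have e4 : (loc m ts P w).1 = colx P g 2 := e1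
    obtain ⟨c1, c2⟩ := vcol_eq hP hw bw h1 (by norm_num) e4
    cases w with
    | c g' n' =>
      simp only [vcol] at c1
      subst c1
      obtain ⟨_, h5, h6⟩ := hw
      simp only [loc] at e2 e3
      refine x_between hP h3 h4 h5 h6 ?_ ?_
      · by_contra h
        nlinarith
      · by_contra h
        nlinarith
    | O g' => simp [vcol] at c2
    | G g' => simp [vcol] at c2
    | a g' => simp [vcol] at c2
    | b g' => simp [vcol] at c2
    | d g' n' => simp [vcol] at c2
    | s g' n' => simp [vcol] at c2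
    | r g' n' => simp [vcol] at c2
    | nn C j => exact bw
    | ww C j => exact bw
  · simp only [loc] at e1
    nlinarith

theorem free_dd (hP : ParOK m ts P) (hT : TValid m ts) {g n : ℕ} (h1 : 1 ≤ g)
    (h2 : g ≤ ts.length) (h3 : 1 ≤ n) (h4 : n < m) {w : Vtx} (hw : Vok m ts.length w)
    (bw : Bdry w) : ¬ OnSide (loc m ts P (.d g n)) (loc m ts P (.d g (n + 1))) (loc m ts P w) := by
  have hl := hP.lam_pos g
  have hx := hP.xs n h3 h4
  rintro (⟨_, e1, e2, e3⟩ | ⟨e1, _, _, _⟩)
  · have e4 : (loc m ts P w).1 = colx P g 3 := e1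
    obtain ⟨c1, c2⟩ := vcol_eq hP hw bw h1 (by norm_num) e4
    cases w with
    | d g' n' =>
      simp only [vcol] at c1
      subst c1
      obtain ⟨_, h5, h6⟩ := hw
      simp only [loc] at e2 e3
      refine x_between hP h3 h4 h5 h6 ?_ ?_
      · by_contra h
        nlinarith
      · by_contra h
        nlinarith
    | b g' =>
      simp only [vcol] at c1
      subst c1
      simp only [loc] at e2
      have h5 := T_lt_B hP hT g'
      have h6 := x_nonneg hP h3 h4.le
      have h7 : 0 ≤ P.lam (g' + 1) * P.x n := mul_nonneg hl.le h6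
      linarith
    | O g' => simp [vcol] at c2
    | G g' => simp [vcol] at c2
    | a g' => simp [vcol] at c2
    | c g' n' => simp [vcol] at c2
    | s g' n' => simp [vcol] at c2
    | r g' n' => simp [vcol] at c2
    | nn C j => exact bw
    | ww C j => exact bw
  · simp only [loc] at e1
    nlinarith

theorem free_ss (hP : ParOK m ts P) (hT : TValid m ts) {g n : ℕ} (h1 : 1 ≤ g)
    (h2 : g ≤ ts.length) (h3 : 1 ≤ n) (h4 : n < m) {w : Vtx} (hw : Vok m ts.length w)
    (bw : Bdry w) : ¬ OnSide (loc m ts P (.s g (n + 1))) (loc m ts P (.s g n)) (loc m ts P w) := by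
  have hl := hP.mu_pos g
  have hx := hP.xs n h3 h4
  rintro (⟨_, e1, e2, e3⟩ | ⟨e1, _, _, _⟩)
  · have e4 : (loc m ts P w).1 = colx P g 4 := e1
    obtain ⟨c1, c2⟩ := vcol_eq hP hw bw h1 (by norm_num) e4
    cases w with
    | s g' n' =>
      simp only [vcol] at c1
      subst c1
      obtain ⟨_, h5, h6⟩ := hw
      simp only [loc] at e2 e3
      refine x_between hP h3 h4 h5 h6 ?_ ?_
      · by_contra h
        nlinarith
      · by_contra h
        nlinarith
    | a g' =>
      simp only [vcol] at c1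
      subst c1
      simp only [loc] at e3
      have h5 := T_lt_B hP hT g'
      have h6 := x_nonneg hP h3 h4.le
      have h7 : 0 ≤ P.mu g' * P.x n := mul_nonneg hl.le h6
      linarith
    | O g' => simp [vcol] at c2
    | G g' => simp [vcol] at c2
    | b g' => simp [vcol] at c2
    | c g' n' => simp [vcol] at c2
    | d g' n' => simp [vcol] at c2
    | r g' n' => simp [vcol] at c2
    | nn C j => exact bw
    | ww C j => exact bw
  · simp only [loc] at e1
    nlinarith

theorem free_rr (hP : ParOK m ts P) (hT : TValid m ts) {g n : ℕ}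
    (h2 : g ≤ ts.length) (h3 : 1 ≤ n) (h4 : n < m) {w : Vtx} (hw : Vok m ts.length w)
    (bw : Bdry w) : ¬ OnSide (loc m ts P (.r g (n + 1))) (loc m ts P (.r g n)) (loc m ts P w) := by
  have hl := hP.mu_pos g
  have hx := hP.xs n h3 h4
  rintro (⟨_, e1, e2, e3⟩ | ⟨e1, _, _, _⟩)
  · have e4 : (loc m ts P w).1 = colx P (g + 1) 0 := e1
    obtain ⟨c1, c2⟩ := vcol_eq hP hw bw (by omega) (by norm_num) e4
    cases w with
    | r g' n' =>
      simp only [vcol, Nat.add_right_cancel_iff] at c1
      subst c1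
      obtain ⟨_, h5, h6⟩ := hw
      simp only [loc] at e2 e3
      refine x_between hP h3 h4 h5 h6 ?_ ?_
      · by_contra h
        nlinarith
      · by_contra h
        nlinarith
    | O g' =>
      simp only [vcol] at c1
      subst c1
      simp only [loc] at e3
      have h5 := T_lt_B hP hT g
      have h6 := x_nonneg hP h3 h4.le
      have h7 : 0 ≤ P.mu g * P.x n := mul_nonneg hl.le h6
      linarith
    | a g' => simp [vcol] at c2
    | G g' => simp [vcol] at c2
    | b g' => simp [vcol] at c2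
    | c g' n' => simp [vcol] at c2
    | d g' n' => simp [vcol] at c2
    | s g' n' => simp [vcol] at c2
    | nn C j => exact bw
    | ww C j => exact bw
  · simp only [loc] at e1
    nlinarith

end Pool.Agent.Lib.MP_be4430_lc
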