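import Pool.Agent.Lib.MP_be4430_lc.E5_Inner

/-! # The inner edges of one rectangle meet only at common endpoints -/

namespace Pool.Agent.Lib.MP_be4430_lc

variable {m : ℕ} {ts : List Trp} {P : Par}

private theorem E9_core {u v v' : ℝ × ℝ}
    (h : (v.1 - u.1) * (v'.2 - u.2) ≠ (v.2 - u.2) * (v'.1 - u.1)) {s s' : ℝ}
    (h1 : s * (v.1 - u.1) = s' * (v'.1 - u.1)) (h2 : s * (v.2 - u.2) = s' * (v'.2 - u.2)) :
    s = 0 := by
  have h3 : s * ((v.1 - u.1) * (v'.2 - u.2) - (v.2 - u.2) * (v'.1 - u.1)) = 0 := by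
    linear_combination (v'.2 - u.2) * h1 - (v'.1 - u.1) * h2
  rcases mul_eq_zero.1 h3 with h4 | h4
  · exact h4
  · exact absurd (sub_eq_zero.1 h4) h

/-- two segments from the same point with different directions meet only there -/
theorem meet_same_tail {V : Type} {pos : V → ℝ × ℝ} {u v v' : V}
    (h : ((pos v).1 - (pos u).1) * ((pos v').2 - (pos u).2) ≠
      ((pos v).2 - (pos u).2) * ((pos v').1 - (pos u).1)) : MeetOK pos u v u v' := by
  rintro z ⟨a, b, ha, hb, hab, hz⟩ ⟨c, d, hc, hd, hcd, hz'⟩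
  have ha' : a = 1 - b := by linarith
  have hc' : c = 1 - d := by linarith
  have e1 : b * ((pos v).1 - (pos u).1) = d * ((pos v').1 - (pos u).1) := by
    have := congrArg Prod.fst (hz.trans hz'.symm)
    simp only [Prod.fst_add, Prod.smul_fst, smul_eq_mul] at this
    rw [ha', hc'] at this
    linear_combination this
  have e2 : b * ((pos v).2 - (pos u).2) = d * ((pos v').2 - (pos u).2) := by
    have := congrArg Prod.snd (hz.trans hz'.symm)
    simp only [Prod.snd_add, Prod.smul_snd, smul_eq_mul] at this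
    rw [ha', hc'] at this
    linear_combination this
  have hb0 := E9_core h e1 e2
  refine ⟨u, Or.inl rfl, Or.inl rfl, ?_⟩
  rw [← hz, ha', hb0]
  simp

theorem meet_same_head {V : Type} {pos : V → ℝ × ℝ} {u v v' : V}
    (h : ((pos v).1 - (pos u).1) * ((pos v').2 - (pos u).2) ≠
      ((pos v).2 - (pos u).2) * ((pos v').1 - (pos u).1)) : MeetOK pos v u v' u := by
  rintro z ⟨b, a, hb, ha, hab, hz⟩ ⟨d, c, hd, hc, hcd, hz'⟩
  have ha' : a = 1 - b := by linarith
  have hc' : c = 1 - d := by linarith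
  have e1 : b * ((pos v).1 - (pos u).1) = d * ((pos v').1 - (pos u).1) := by
    have := congrArg Prod.fst (hz.trans hz'.symm)
    simp only [Prod.fst_add, Prod.smul_fst, smul_eq_mul] at this
    rw [ha', hc'] at this
    linear_combination this
  have e2 : b * ((pos v).2 - (pos u).2) = d * ((pos v').2 - (pos u).2) := by
    have := congrArg Prod.snd (hz.trans hz'.symm)
    simp only [Prod.snd_add, Prod.smul_snd, smul_eq_mul] at this
    rw [ha', hc'] at this
    linear_combination this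
  have hb0 := E9_core h e1 e2
  refine ⟨u, Or.inr rfl, Or.inr rfl, ?_⟩
  rw [← hz, ha', hb0]
  simp

private theorem E9_xne (hP : ParOK m ts P) {n n' : ℕ} (h3 : 2 ≤ n) (h4 : n ≤ m) (h5 : 2 ≤ n')
    (h6 : n' ≤ m) (hne : n ≠ n') : P.x n ≠ P.x n' := by
  rcases lt_or_gt_of_ne hne with h | h
  · exact (x_lt hP (by omega) h h6).ne
  · exact (x_lt hP (by omega) h h4).ne'

/-- the fan of `O g` -/
theorem local_FO (hP : ParOK m ts P) (hT : TValid m ts) {g n n' : ℕ} (h1 : 1 ≤ g)
    (h2 : g ≤ ts.length) (h3 : 2 ≤ n) (h4 : n ≤ m) (h5 : 2 ≤ n') (h6 : n' ≤ m) (hne : n ≠ n') :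
    MeetOK (fun w => qR (loc m ts P w)) (.O g) (.c g n) (.O g) (.c g n') := by
  apply meet_same_tail
  intro hcon
  simp only [qR, loc] at hcon
  have hcon' : (P.A g + P.lam g - P.A g) * (P.B m ts g + P.lam g * P.x n' - P.B m ts g) =
      (P.B m ts g + P.lam g * P.x n - P.B m ts g) * (P.A g + P.lam g - P.A g) := by
    exact_mod_cast hcon
  have hl := hP.lam_pos g
  have h7 : P.lam g * P.lam g * (P.x n - P.x n') = 0 := by linear_combination -hcon'
  rcases mul_eq_zero.1 h7 with h8 | h8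
  · exact absurd h8 (mul_pos hl hl).ne'
  · exact E9_xne hP h3 h4 h5 h6 hne (sub_eq_zero.1 h8)

/-- the fan of `G g` -/
theorem local_FG (hP : ParOK m ts P) (hT : TValid m ts) {g n n' : ℕ} (h2 : g ≤ ts.length)
    (h3 : 2 ≤ n) (h4 : n ≤ m) (h5 : 2 ≤ n') (h6 : n' ≤ m) (hne : n ≠ n') :
    MeetOK (fun w => qR (loc m ts P w)) (.r g n) (.G g) (.r g n') (.G g) := by
  apply meet_same_head
  intro hcon
  simp only [qR, loc] at hcon
  have hcon' : (P.A (g + 1) - (P.A (g + 1) + P.mu g)) *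
      (P.T m ts g - P.mu g * P.x n' - P.T m ts g) =
      (P.T m ts g - P.mu g * P.x n - P.T m ts g) * (P.A (g + 1) - (P.A (g + 1) + P.mu g)) := by
    exact_mod_cast hcon
  have hl := hP.mu_pos g
  have h7 : P.mu g * P.mu g * (P.x n - P.x n') = 0 := by linear_combination -hcon'
  rcases mul_eq_zero.1 h7 with h8 | h8
  · exact absurd h8 (mul_pos hl hl).ne'
  · exact E9_xne hP h3 h4 h5 h6 hne (sub_eq_zero.1 h8)

end Pool.Agent.Lib.MP_be4430_lc
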