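import Pool.Agent.Lib.MP_be4430_lc.E9_Local

/-! # The inner edges of one cell

In coordinates relative to the lower left corner: `w` = width, `h > w·X` = height, `s j = off m w j`
(decreasing in `j`), `nn j = (s j, s j · x j)`, `ww j = (s j, h - (w - s j)·x (m+2-j))`. -/

namespace Pool.Agent.Lib.MP_be4430_lc

variable {m : ℕ} {ts : List Trp} {P : Par}

/-- the position of `ww C j` -/
private theorem E9x_ww (C : Rct) (j : ℕ) :
    loc m ts P (.ww C j) =
      ((rect m ts P C).l + off m ((rect m ts P C).r - (rect m ts P C).l) j,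
        (rect m ts P C).t - (((rect m ts P C).r - (rect m ts P C).l) -
          off m ((rect m ts P C).r - (rect m ts P C).l) j) * P.x (m + 2 - j)) := rfl

/-- the position of `nn C j` -/
private theorem E9x_nn (C : Rct) (j : ℕ) :
    loc m ts P (.nn C j) =
      ((rect m ts P C).l + off m ((rect m ts P C).r - (rect m ts P C).l) j,
        (rect m ts P C).b + off m ((rect m ts P C).r - (rect m ts P C).l) j * P.x j) := rfl

/-- `v → nn j` against `v → nn j'` -/
theorem cell_vn_vn (hP : ParOK m ts P) (hT : TValid m ts) {C : Rct} (hC : Cok m ts.length C)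
    {j j' : ℕ} (h1 : 2 ≤ j) (h2 : j ≤ m) (h3 : 2 ≤ j') (h4 : j' ≤ m) (hne : j ≠ j') :
    MeetOK (fun w => qR (loc m ts P w)) (cv ts C) (.nn C j) (cv ts C) (.nn C j') := by
  apply meet_same_tail
  obtain ⟨hw, -⟩ := cell_height hP hT hC
  obtain ⟨hcv, -⟩ := loc_cv_ct hP hT hC
  obtain ⟨hs0, hs1⟩ := off_bounds (m := m) hw h1 h2
  obtain ⟨hs0', hs1'⟩ := off_bounds (m := m) hw h3 h4
  have hxne : P.x j ≠ P.x j' := by
    rcases lt_or_gt_of_ne hne with h | h
    · exact (x_lt hP (i := j) (j := j') (by omega) (by omega) (by omega)).ne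
    · exact (x_lt hP (i := j') (j := j) (by omega) (by omega) (by omega)).ne'
  simp only [hcv, E9x_nn, qR]
  intro hcon
  have hcon' : ((rect m ts P C).l + off m ((rect m ts P C).r - (rect m ts P C).l) j -
        (rect m ts P C).l) * ((rect m ts P C).b +
        off m ((rect m ts P C).r - (rect m ts P C).l) j' * P.x j' - (rect m ts P C).b) =
      ((rect m ts P C).b + off m ((rect m ts P C).r - (rect m ts P C).l) j * P.x j -
        (rect m ts P C).b) *
        ((rect m ts P C).l + off m ((rect m ts P C).r - (rect m ts P C).l) j' -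
        (rect m ts P C).l) := by
    exact_mod_cast hcon
  have h5 : off m ((rect m ts P C).r - (rect m ts P C).l) j *
        off m ((rect m ts P C).r - (rect m ts P C).l) j' *
        (P.x j - P.x j') = 0 := by
    linear_combination -hcon'
  rcases mul_eq_zero.1 h5 with h6 | h6
  · exact (mul_pos hs0 hs0').ne' h6
  · exact hxne (sub_eq_zero.1 h6)

/-- `v → nn j` against `nn j' → ww j'`: for `j' = j` they share `nn j` and one is vertical, the
other not; for `j' > j` the vertical edge at `s j' < s j` starts at height `s j' x j'`, above the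
first edge (height `s j' x j` there); for `j' < j` the vertical edge is to the right of `nn j` -/
theorem cell_vn_nw (hP : ParOK m ts P) (hT : TValid m ts) {C : Rct} (hC : Cok m ts.length C)
    {j j' : ℕ} (h1 : 2 ≤ j) (h2 : j ≤ m) (h3 : 2 ≤ j') (h4 : j' ≤ m) :
    MeetOK (fun w => qR (loc m ts P w)) (cv ts C) (.nn C j) (.nn C j') (.ww C j') := by
  intro z hz hz'
  obtain ⟨hw, -⟩ := cell_height hP hT hC
  obtain ⟨hcv, -⟩ := loc_cv_ct hP hT hC
  obtain ⟨-, -, -, -, hlt, -⟩ := inner_vertices hP hT hC h3 h4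
  obtain ⟨hs0, hs1⟩ := off_bounds (m := m) hw h1 h2
  obtain ⟨hs0', hs1'⟩ := off_bounds (m := m) hw h3 h4
  simp only [hcv] at hz
  simp only [E9x_ww, E9x_nn] at hz hz' hlt
  have hlt' := (Rat.cast_lt (K := ℝ)).2 hlt
  have hs0R := (Rat.cast_lt (K := ℝ)).2 hs0
  have hs0R' := (Rat.cast_lt (K := ℝ)).2 hs0'
  obtain ⟨c, d, hc, hd, hcd, hz2⟩ := hz
  obtain ⟨a, b, ha, hb, hab, hz1⟩ := hz'
  have e1 : z.1 = ((rect m ts P C).l : ℝ) +
      (off m ((rect m ts P C).r - (rect m ts P C).l) j' : ℝ) := by
    rw [← hz1]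
    simp only [qR, Prod.fst_add, Prod.smul_fst, smul_eq_mul]
    push_cast
    rw [← add_mul, hab, one_mul]
  have e2 : ((rect m ts P C).b : ℝ) +
      off m ((rect m ts P C).r - (rect m ts P C).l) j' * P.x j' ≤ z.2 := by
    rw [← hz1]
    simp only [qR, Prod.snd_add, Prod.smul_snd, smul_eq_mul]
    push_cast at hlt' ⊢
    have h5 : b * ((((rect m ts P C).t : ℝ) - ((((rect m ts P C).r : ℝ) - (rect m ts P C).l) -
          off m ((rect m ts P C).r - (rect m ts P C).l) j') * P.x (m + 2 - j')) -
        (((rect m ts P C).b : ℝ) + off m ((rect m ts P C).r - (rect m ts P C).l) j' * P.x j')) ≥ 0 :=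
      mul_nonneg hb (by linarith)
    have h6 : a = 1 - b := by linarith
    rw [h6]
    nlinarith
  have e3 : z.1 = ((rect m ts P C).l : ℝ) +
      d * (off m ((rect m ts P C).r - (rect m ts P C).l) j : ℝ) := by
    rw [← hz2]
    simp only [qR, Prod.fst_add, Prod.smul_fst, smul_eq_mul]
    push_cast
    have h6 : c = 1 - d := by linarith
    rw [h6]
    ring
  have e4 : z.2 = ((rect m ts P C).b : ℝ) + (z.1 - (rect m ts P C).l) * P.x j := by
    rw [e3, ← hz2]
    simp only [qR, Prod.snd_add, Prod.smul_snd, smul_eq_mul]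
    push_cast
    have h6 : c = 1 - d := by linarith
    rw [h6]
    ring
  push_cast at hs0R hs0R'
  rcases lt_trichotomy j j' with hjj | hjj | hjj
  · -- the vertical edge starts above
    exfalso
    have hx := x_lt hP (i := j) (j := j') (by omega) hjj h4
    have hxR := (Rat.cast_lt (K := ℝ)).2 hx
    rw [e1] at e4
    nlinarith [mul_pos hs0R' (sub_pos.2 hxR)]
  · -- the common vertex
    subst hjj
    refine ⟨.nn C j, Or.inr rfl, Or.inl rfl, ?_⟩
    simp only [E9x_nn, qR]
    apply Prod.ext
    · rw [e1]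
      push_cast
      rfl
    · rw [e4, e1]
      push_cast
      ring
  · -- the vertical edge is to the right
    exfalso
    have ho := off_lt (m := m) hw h3 hjj h2
    have hoR := (Rat.cast_lt (K := ℝ)).2 ho
    rw [e1] at e3
    have h6 : d ≤ 1 := by linarith
    have h7 : 0 ≤ (1 - d) * (off m ((rect m ts P C).r - (rect m ts P C).l) j : ℝ) :=
      mul_nonneg (by linarith) hs0R.le
    nlinarith

end Pool.Agent.Lib.MP_be4430_lc
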