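import Pool.Agent.Lib.MP_be4430_lc.D10_Sound
import Pool.Agent.Lib.MP_be4430_lc.E13_Exist
import Pool.Agent.Lib.MP_be4430_lc.A3_Scale
import Pool.Agent.Lib.MP_be4430_lc.A4_Num

/-! # The graph of a T-system is drawable on the grid with `m + 1` slopes iff the system is
satisfiable -/

namespace Pool.Agent.Lib.MP_be4430_lc

private lemma ends_mem {m : ℕ} {ts : List Trp} (hT : TValid m ts) :
    ∀ e ∈ edges m ts, e.1 ∈ verts m ts ∧ e.2 ∈ verts m ts ∧ e.1 ≠ e.2 := by
  intro e he
  have h := edge_ends hT ((mem_edges m ts e.1 e.2).1 he)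
  exact ⟨(mem_verts m ts _).2 h.1, (mem_verts m ts _).2 h.2.1, h.2.2⟩

theorem gridDraw_iff_tSat {m : ℕ} {ts : List Trp} (hT : TValid m ts) :
    GridDraw (verts m ts) (edges m ts) (m + 1) ↔ TSat m ts := by
  constructor
  · rintro ⟨pos, hD, S, hS, hsl⟩
    have hP : PUp (Edge m ts) (fun v => toR (pos v)) := by
      constructor
      · intro u v e
        exact hD.up (u, v) ((mem_edges m ts u v).2 e)
      · intro u v u' v' e e' hne
        exact hD.planar (u, v) ((mem_edges m ts u v).2 e) (u', v') ((mem_edges m ts u' v').2 e') hne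
    refine sound hT hP S hS (fun u w e => hsl (u, w) ((mem_edges m ts u w).2 e)) ?_
    intro u w _
    refine ⟨(((pos w).1 - (pos u).1 : ℤ) : ℚ) / (((pos w).2 - (pos u).2 : ℤ) : ℚ), ?_⟩
    simp only [sl, toR]
    push_cast
    rfl
  · intro h
    exact gridDraw_of_ratDraw (fun e he => ⟨(ends_mem hT e he).1, (ends_mem hT e he).2.1⟩)
      (exist hT h)

theorem num_graph {m : ℕ} {ts : List Trp} (hT : TValid m ts) :
    IsDigraph (num (verts m ts) (edges m ts)).1 (num (verts m ts) (edges m ts)).2 ∧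
      (GridDraw (List.range (num (verts m ts) (edges m ts)).1)
        (num (verts m ts) (edges m ts)).2 (m + 1) ↔ TSat m ts) :=
  ⟨isDigraph_num _ _ (ends_mem hT),
    (gridDraw_num _ _ _ (ends_mem hT)).trans (gridDraw_iff_tSat hT)⟩

end Pool.Agent.Lib.MP_be4430_lc
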