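import Pool.Agent.Lib.MP_634427_lc.Data

/-! # Binary numbers -/

namespace Pool.Agent.Lib.MP_be4430_lc

open MP_634427_lc

/-- add one to a binary number (least significant bit first) -/
def inc : Word → Word
  | [] => [true]
  | false :: w => true :: w
  | true :: w => false :: inc w

/-- the binary representation of `n` -/
def toBin (n : ℕ) : Word := inc^[n] []

theorem bval_inc (w : Word) : bval (inc w) = bval w + 1 := by
  induction w with
  | nil => rfl
  | cons b w ih =>
    cases b
    · simp only [inc, bval]
      simp
      omega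
    · simp only [inc, bval, ih]
      simp
      omega

theorem bval_toBin (n : ℕ) : bval (toBin n) = n := by
  induction n with
  | zero => rfl
  | succ n ih => rw [toBin, Function.iterate_succ_apply', bval_inc]; exact congrArg (· + 1) ih

private theorem sz_inc (w : Word) : sz (inc w) ≤ sz w + 2 := by
  induction w with
  | nil => simp [inc]
  | cons b w ih =>
    cases b
    · simp [inc]
      omega
    · simp only [inc, sz_cons, sz_false, sz_true]
      omega

private theorem inc_eq (w : Word) :
    PT.lrec [true] (fun (a : Bool) l r => bif a then false :: r else true :: l) w = inc w := by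
  induction w with
  | nil => rfl
  | cons b w ih =>
    rw [PT.lrec, ih]
    cases b <;> rfl

private theorem pow_aux (X a : ℕ) (hX : 2 ≤ X) : X ^ a + 2 ≤ X ^ (a + 2) := by
  have h1 : 1 ≤ X ^ a := Nat.one_le_pow _ _ (by omega)
  have h2 : 2 * 2 ≤ X * X := Nat.mul_le_mul hX hX
  rw [pow_add, pow_two]
  nlinarith

theorem pt_inc {γ : Type} [Enc γ] {w : γ → Word} (hw : PT w) : PT fun c => inc (w c) := by
  have h := PT.listRec (l := w) (s := fun _ => [true])
    (f := fun _ (a : Bool) l r => bif a then false :: r else true :: l) hw (PT.const _)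
    (PT.cond (PT.fst' PT.snd)
      (PT.cons (PT.const false) (PT.snd' (PT.snd' PT.snd)))
      (PT.cons (PT.const true) (PT.fst' (PT.snd' PT.snd)))) (by
      obtain ⟨a, ha⟩ := hw.size_le
      refine ⟨a + 2, fun c l' hl' => ?_⟩
      rw [inc_eq]
      have h1 := sz_inc l'
      have h2 := sz_suffix_le hl'
      have h3 := ha c
      have h4 := pow_aux (sz c + 2) a (by omega)
      omega)
  exact h.of_eq fun c => inc_eq (w c)

theorem pt_toBin {γ : Type} [Enc γ] {n : γ → ℕ} (hn : PT n) : PT fun c => toBin (n c) := by
  refine PT.iterate (f := fun _ => inc) hn (PT.const []) (pt_inc PT.snd) ?_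
  obtain ⟨a, ha⟩ := hn.size_le
  refine ⟨a + 1, fun c i hi => ?_⟩
  have key : ∀ i : ℕ, sz (inc^[i] []) ≤ 2 * i := by
    intro i
    induction i with
    | zero => simp
    | succ i ih =>
      rw [Function.iterate_succ_apply']
      have := sz_inc (inc^[i] [])
      omega
  have h1 := key i
  have h2 := ha c
  rw [sz_nat] at h2
  have h3 : 2 * (sz c + 2) ^ a ≤ (sz c + 2) ^ (a + 1) := by
    rw [pow_succ, mul_comm]
    exact Nat.mul_le_mul_left _ (by omega)
  omega

end Pool.Agent.Lib.MP_be4430_lc
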