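import Pool.Agent.Lib.MP_be4430_lc.P8_GraphPT

/-! # Polynomial time: the edges -/

namespace Pool.Agent.Lib.MP_be4430_lc

open MP_634427_lc

variable {γ : Type} [Enc γ]

private theorem p8a_range' (s : ℕ) {n : γ → ℕ} (hn : PT n) :
    PT fun c => List.range' s (n c) :=
  (PT.map (f := fun (_ : γ) (i : ℕ) => s + i) (PT.range hn)
    (PT.add (PT.const s) PT.snd)).of_eq fun c => by
      rw [List.range'_eq_map_range]

private theorem p8a_nil {α : Type} [Enc α] : PT fun _ : γ => ([] : List α) := PT.const []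

theorem pt_gedges {m g : γ → ℕ} {ts : γ → List Trp} (hm : PT m) (ht : PT ts) (hg : PT g) :
    PT fun c => gedges (m c) (ts c) (g c) := by
  have hg1 : PT fun p : γ × ℕ => g p.1 := hg.comp PT.fst
  have hn1 : PT fun p : γ × ℕ => p.2 := PT.snd
  have hm1 : PT fun c => m c - 1 := PT.sub hm (PT.const 1)
  have hgm : PT fun c => g c - 1 := PT.sub hg (PT.const 1)
  have hgp : PT fun c => g c + 1 := hg.succ
  -- first block
  have h1 : PT fun c => (List.range' 1 (m c)).flatMap fun n =>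
      [(Vtx.O (g c), Vtx.c (g c) n), (Vtx.c (g c) n, Vtx.d (g c) n),
      (Vtx.s (g c) n, Vtx.r (g c) n), (Vtx.r (g c) n, Vtx.G (g c))] := by
    refine PT.flatMap (f := fun c n => [(Vtx.O (g c), Vtx.c (g c) n), (Vtx.c (g c) n, Vtx.d (g c) n),
      (Vtx.s (g c) n, Vtx.r (g c) n), (Vtx.r (g c) n, Vtx.G (g c))]) (p8a_range' 1 hm) ?_
    exact PT.cons (PT.pair (pt_O hg1) (pt_c hg1 hn1)) (PT.cons (PT.pair (pt_c hg1 hn1) (pt_d hg1 hn1))
      (PT.cons (PT.pair (pt_s hg1 hn1) (pt_r hg1 hn1))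
        (PT.cons (PT.pair (pt_r hg1 hn1) (pt_G hg1)) p8a_nil)))
  have h2 : PT fun c => (List.range' 1 (m c - 1)).flatMap fun n =>
      [(Vtx.c (g c) n, Vtx.c (g c) (n + 1)),
      (Vtx.d (g c) n, Vtx.d (g c) (n + 1)), (Vtx.s (g c) (n + 1), Vtx.s (g c) n),
      (Vtx.r (g c) (n + 1), Vtx.r (g c) n)] := by
    refine PT.flatMap (f := fun c n => [(Vtx.c (g c) n, Vtx.c (g c) (n + 1)),
      (Vtx.d (g c) n, Vtx.d (g c) (n + 1)), (Vtx.s (g c) (n + 1), Vtx.s (g c) n),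
      (Vtx.r (g c) (n + 1), Vtx.r (g c) n)]) (p8a_range' 1 hm1) ?_
    have hn2 : PT fun p : γ × ℕ => p.2 + 1 := hn1.succ
    exact PT.cons (PT.pair (pt_c hg1 hn1) (pt_c hg1 hn2)) (PT.cons (PT.pair (pt_d hg1 hn1) (pt_d hg1 hn2))
      (PT.cons (PT.pair (pt_s hg1 hn2) (pt_s hg1 hn1))
        (PT.cons (PT.pair (pt_r hg1 hn2) (pt_r hg1 hn1)) p8a_nil)))
  have hk (i : ℕ) : PT fun c => (Vtx.d (g c) (pp (ts c) (g c) i), Vtx.s (g c) (qq (ts c) (g c) i)) :=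
    PT.pair (pt_d hg (pt_pp ht hg i)) (pt_s hg (pt_qq ht hg i))
  have h3 : PT fun c =>
      [(Vtx.d (g c) (pp (ts c) (g c) 0), Vtx.s (g c) (qq (ts c) (g c) 0)),
      (Vtx.d (g c) (pp (ts c) (g c) 1), Vtx.s (g c) (qq (ts c) (g c) 1)),
      (Vtx.d (g c) (pp (ts c) (g c) 2), Vtx.s (g c) (qq (ts c) (g c) 2)),
      (Vtx.s (g c) 1, Vtx.a (g c)), (Vtx.a (g c), Vtx.O (g c + 1)),
      (Vtx.r (g c) 1, Vtx.O (g c + 1)), (Vtx.G (g c - 1), Vtx.b (g c - 1)),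
      (Vtx.b (g c - 1), Vtx.d (g c) 1)] :=
    PT.cons (hk 0) (PT.cons (hk 1) (PT.cons (hk 2)
      (PT.cons (PT.pair (pt_s hg (PT.const 1)) (pt_a hg))
      (PT.cons (PT.pair (pt_a hg) (pt_O hgp))
      (PT.cons (PT.pair (pt_r hg (PT.const 1)) (pt_O hgp))
      (PT.cons (PT.pair (pt_G hgm) (pt_b hgm))
      (PT.cons (PT.pair (pt_b hgm) (pt_d hg (PT.const 1))) p8a_nil)))))))
  have h4 : PT fun c => (cellsOf (m c) (g c)).flatMap fun C =>
      (List.range' 2 (m c - 1)).flatMap fun j =>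
      [(cv (ts c) C, Vtx.nn C j), (Vtx.nn C j, Vtx.ww C j), (Vtx.ww C j, ct (ts c) C)] := by
    refine PT.flatMap (f := fun c C => (List.range' 2 (m c - 1)).flatMap fun j =>
      [(cv (ts c) C, Vtx.nn C j), (Vtx.nn C j, Vtx.ww C j), (Vtx.ww C j, ct (ts c) C)])
      (pt_cellsOf hm hg) ?_
    refine PT.flatMap (γ := γ × Rct) (l := fun p => List.range' 2 (m p.1 - 1))
      (f := fun p j => [(cv (ts p.1) p.2, Vtx.nn p.2 j), (Vtx.nn p.2 j, Vtx.ww p.2 j),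
        (Vtx.ww p.2 j, ct (ts p.1) p.2)]) (p8a_range' 2 (hm1.comp PT.fst)) ?_
    have hts : PT fun q : (γ × Rct) × ℕ => ts q.1.1 := ht.comp (PT.fst' PT.fst)
    have hC : PT fun q : (γ × Rct) × ℕ => q.1.2 := PT.snd' PT.fst
    have hj : PT fun q : (γ × Rct) × ℕ => q.2 := PT.snd
    exact PT.cons (PT.pair (pt_cv hts hC) (pt_nn hC hj))
      (PT.cons (PT.pair (pt_nn hC hj) (pt_ww hC hj))
        (PT.cons (PT.pair (pt_ww hC hj) (pt_ct hts hC)) p8a_nil))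
  exact PT.append (PT.append (PT.append h1 h2) h3) h4

theorem pt_edges {m : γ → ℕ} {ts : γ → List Trp} (hm : PT m) (ht : PT ts) :
    PT fun c => edges (m c) (ts c) := by
  have hm1 : PT fun c => m c - 1 := PT.sub hm (PT.const 1)
  have hn1 : PT fun p : γ × ℕ => p.2 := PT.snd
  have hz : PT fun _ : γ × ℕ => 0 := PT.const 0
  have h1 : PT fun c => (List.range' 1 (m c)).map fun n => (Vtx.r 0 n, Vtx.G 0) :=
    PT.map (f := fun (_ : γ) n => (Vtx.r 0 n, Vtx.G 0)) (p8a_range' 1 hm)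
      (PT.pair (pt_r hz hn1) (pt_G hz))
  have h2 : PT fun c => (List.range' 1 (m c - 1)).map fun n => (Vtx.r 0 (n + 1), Vtx.r 0 n) :=
    PT.map (f := fun (_ : γ) n => (Vtx.r 0 (n + 1), Vtx.r 0 n)) (p8a_range' 1 hm1)
      (PT.pair (pt_r hz hn1.succ) (pt_r hz hn1))
  have h3 : PT fun _ : γ => [(Vtx.r 0 1, Vtx.O 1)] := PT.const _
  have h4 : PT fun c => (List.range' 1 (ts c).length).flatMap fun g => gedges (m c) (ts c) g :=
    PT.flatMap (f := fun c g => gedges (m c) (ts c) g) (p8a_range' 1 (PT.length ht))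
      (pt_gedges (hm.comp PT.fst) (ht.comp PT.fst) PT.snd)
  exact PT.append (PT.append (PT.append h1 h2) h3) h4

end Pool.Agent.Lib.MP_be4430_lc
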