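import Pool.Agent.Lib.MP_be4430_lc.Basic
import Pool.Agent.Lib.MP_be4430_lc.P2_Lists

/-! # Polynomial time: renumbering -/

namespace Pool.Agent.Lib.MP_be4430_lc

open MP_634427_lc

theorem pt_num {γ V : Type} [Enc γ] [Enc V] [DecidableEq V]
    (hV : Function.Injective (enc : V → BT)) {vs : γ → List V} {es : γ → List (V × V)}
    (h1 : PT vs) (h2 : PT es) : PT fun c => num (vs c) (es c) := by
  have hd := pt_dedup hV h1
  refine PT.pair (PT.length hd) (PT.map (pt_dedup (enc_pair_injective hV hV) h2)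
    (f := fun c e => ((vs c).dedup.idxOf e.1, (vs c).dedup.idxOf e.2)) ?_)
  exact PT.pair
    (pt_idxOf hV (a := fun p : γ × V × V => p.2.1) (l := fun p : γ × V × V => (vs p.1).dedup)
      (PT.fst' PT.snd) (hd.comp PT.fst))
    (pt_idxOf hV (a := fun p : γ × V × V => p.2.2) (l := fun p : γ × V × V => (vs p.1).dedup)
      (PT.snd' PT.snd) (hd.comp PT.fst))

end Pool.Agent.Lib.MP_be4430_lc
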