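import Pool.Agent.Lib.MP_be4430_lc.F1_TGrid
import Pool.Agent.Lib.MP_be4430_lc.A2_GridIff
import Pool.Agent.Lib.MP_be4430_lc.P3_ToBin
import Pool.Agent.Lib.MP_be4430_lc.P8a_EdgesPT
import Pool.Agent.Lib.MP_be4430_lc.P9_NumPT

/-! # The instance of the slope number problem built from a T-system -/

namespace Pool.Agent.Lib.MP_be4430_lc

open MP_634427_lc

/-- the word coding the graph of the T-system, with `k = m + 1` -/
def graphWord (p : ℕ × List Trp) : Word :=
  code (enc (num (verts p.1 p.2) (edges p.1 p.2), toBin (p.1 + 1)))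

theorem pt_graphWord : PT graphWord := by
  have h1 : PT fun p : ℕ × List Trp => (num (verts p.1 p.2) (edges p.1 p.2), toBin (p.1 + 1)) :=
    PT.pair (pt_num enc_Vtx_injective (pt_verts PT.fst PT.snd) (pt_edges PT.fst PT.snd))
      (pt_toBin (PT.succ PT.fst))
  have h2 : PT fun p : ℕ × List Trp =>
      (enc (num (verts p.1 p.2) (edges p.1 p.2), toBin (p.1 + 1)) : BT) := by
    obtain ⟨F, hF, h⟩ := h1
    exact ⟨F, hF, h⟩
  exact PT.code h2

theorem graphWord_mem {p : ℕ × List Trp} (hT : TValid p.1 p.2) :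
    graphWord p ∈ GRID ↔ TSat p.1 p.2 := by
  obtain ⟨hdig, hiff⟩ := num_graph hT
  constructor
  · rintro ⟨n, E, b, hw, -, hd⟩
    have h1 := code_injective hw
    have hinj : Function.Injective (enc : (ℕ × List (ℕ × ℕ)) × Word → BT) :=
      enc_pair_injective (enc_pair_injective enc_nat_injective
        (enc_list_injective (enc_pair_injective enc_nat_injective enc_nat_injective)))
        enc_word_injective
    have h2 := hinj h1
    rw [Prod.mk.injEq] at h2
    obtain ⟨h3, h4⟩ := h2
    have hd' := (gridDraw_iff n E _).1 hd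
    rw [← h4, bval_toBin] at hd'
    rw [h3] at hiff
    exact hiff.1 hd'
  · intro h
    refine ⟨_, _, _, rfl, hdig, ?_⟩
    rw [bval_toBin]
    exact (gridDraw_iff _ _ _).2 (hiff.2 h)

end Pool.Agent.Lib.MP_be4430_lc
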