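import Pool.Agent.Lib.MP_be4430_lc.H3_BlockSound

/-! # Soundness of the T-system of a quadruple system -/

namespace Pool.Agent.Lib.MP_be4430_lc

theorem exists_norm {m : ℕ} {ts : List Trp} (hm : 2 ≤ m) (h : TSat m ts) :
    ∃ X : ℕ → ℚ, Norm X m ∧ ∀ t ∈ ts, TrpHolds X t := by
  obtain ⟨x, hx, ht⟩ := h
  have h12 : x 1 < x 2 := hx 1 le_rfl (by omega)
  have hpos : 0 < x 2 - x 1 := by linarith
  refine ⟨fun n => (x n - x 1) / (x 2 - x 1), ⟨?_, ?_, ?_⟩, ?_⟩
  · simp
  · exact div_self hpos.ne'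
  · intro n h1 h2
    have := hx n h1 h2
    exact div_lt_div_of_pos_right (by linarith) hpos
  · intro t h
    exact trpHolds_affine (ht t h) _ _ hpos

theorem qSat_of_tSat {N : ℕ} {cs : List Quad} (hN : 1 ≤ N) (hc : QBelow N cs)
    (h : TSat (tsys N cs).1 (tsys N cs).2) : QSat cs := by
  have hm : 2 ≤ (tsys N cs).1 := by simp only [tsys, bst]; omega
  obtain ⟨X, hX, ht⟩ := exists_norm hm h
  simp only [tsys] at hX ht
  have hinc : ∀ i j, 1 ≤ i → i < j → j ≤ bst N cs.length → X i < X j :=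
    fun i j h1 h2 h3 => inc_lt hX.inc h1 h2 h3
  have e1 : X 2 + X 3 = X 4 := by
    refine (trpHolds_addT hX.x1 ?_).1 (ht _ (by simp [tcons]))
    exact (hinc 2 3 (by omega) (by omega) (by simp only [bst]; omega)).ne
  have e2 : X 3 + X 4 = X 5 := by
    refine (trpHolds_addT hX.x1 ?_).1 (ht _ (by simp [tcons]))
    exact (hinc 3 4 (by omega) (by omega) (by simp only [bst]; omega)).ne
  refine ⟨fun i => X (VI i) - 2 * X (tauI i), ?_, ?_⟩
  · simp only [VI, tauI]
    rw [hX.x2] at e1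
    norm_num
    linarith
  · intro c hcm
    obtain ⟨r, hr, hrc⟩ := List.getElem_of_mem hcm
    have hget : cs.getD r (0, 0, 0, 0) = c := by simp [hr, ← hrc]
    have hb : ∀ t ∈ block (bst N r) c, TrpHolds X t := by
      intro t htb
      refine ht t ?_
      simp only [tcons, List.mem_append, List.mem_flatMap, List.mem_range]
      exact Or.inr ⟨r, hr, by rw [hget]; exact htb⟩
    have hcb := hc c hcm
    have hs1 : 3 + 2 * N ≤ bst N r := by simp only [bst]; omega
    have hs2 : bst N r + 42 ≤ bst N cs.length := by simp only [bst]; omega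
    exact block_algebra hX.x2 (block_adds hX hcb hs1 hs2 hN hb) (block_muls hX hcb hs1 hs2 hN hb)

end Pool.Agent.Lib.MP_be4430_lc
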