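import Pool.Agent.Lib.MP_be4430_lc.H7_Extend
import Pool.Agent.Lib.MP_be4430_lc.H4_QSound

/-! # Completeness of the T-system of a quadruple system -/

namespace Pool.Agent.Lib.MP_be4430_lc

private lemma VI_lt {N i : ℕ} (h : i < N) : VI i ≤ 3 + 2 * N := by simp only [VI]; omega

private lemma tauI_lt {N i : ℕ} (h : i < N) : tauI i ≤ 3 + 2 * N := by
  simp only [tauI]; split_ifs <;> omega

private lemma blocks_exist {N : ℕ} {cs : List Quad} (hN : 1 ≤ N) (hc : QBelow N cs) {y : ℕ → ℚ}
    (hy : y 0 = 1) (hq : ∀ c ∈ cs, QHolds y c) (R : ℕ) (hR : R ≤ cs.length) :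
    ∃ X : ℕ → ℚ, Norm X (bst N R) ∧ (∀ i, i < N → X (VI i) - 2 * X (tauI i) = y i) ∧
      TrpHolds X (addT 2 3 4) ∧ TrpHolds X (addT 3 4 5) ∧
      ∀ r, r < R → ∀ t ∈ block (bst N r) (cs.getD r (0, 0, 0, 0)), TrpHolds X t := by
  induction R with
  | zero =>
    obtain ⟨X, h1, h2, h3, h4⟩ := start_exists hN hy
    exact ⟨X, by simpa [bst] using h1, h2, h3, h4, fun r hr => by omega⟩
  | succ R ih =>
    obtain ⟨X, h1, h2, h3, h4, h5⟩ := ih (by omega)
    have hmem : cs.getD R (0, 0, 0, 0) ∈ cs := by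
      rw [List.getD_eq_getElem _ _ (by omega)]
      exact List.getElem_mem _
    have hcb := hc _ hmem
    have hqR := hq _ hmem
    set q := cs.getD R (0, 0, 0, 0) with hqdef
    have hs1 : 3 + 2 * N ≤ bst N R := by simp only [bst]; omega
    have hqX : QHolds (fun i => X (VI i) - 2 * X (tauI i)) q := by
      simp only [QHolds]
      rw [h2 _ hcb.1, h2 _ hcb.2.1, h2 _ hcb.2.2.1, h2 _ hcb.2.2.2]
      exact hqR
    obtain ⟨X', g1, g2, g3⟩ := extend_block hs1 hN h1 hcb hqX
    have hb : bst N (R + 1) = bst N R + 42 := by simp only [bst]; ring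
    refine ⟨X', by rw [hb]; exact g1, ?_, ?_, ?_, ?_⟩
    · intro i hi
      rw [g2 _ ((VI_lt hi).trans hs1), g2 _ ((tauI_lt hi).trans hs1)]
      exact h2 i hi
    · exact trpHolds_congr g2 (addT_ok (by omega) (by omega) (by omega)
        (by simp only [bst]; omega)) h3
    · exact trpHolds_congr g2 (addT_ok (by omega) (by omega) (by omega)
        (by simp only [bst]; omega)) h4
    · intro r hr t ht
      rcases Nat.lt_succ_iff_lt_or_eq.1 hr with hr' | rfl
      · have hmem' : cs.getD r (0, 0, 0, 0) ∈ cs := by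
          rw [List.getD_eq_getElem _ _ (by omega)]
          exact List.getElem_mem _
        have hok : TrpOK (bst N R) t := by
          refine block_ok (hc _ hmem') ?_ ?_ t ht
          · simp only [bst]; omega
          · simp only [bst]; omega
        exact trpHolds_congr g2 hok (h5 r hr' t ht)
      · exact g3 t ht

theorem tSat_of_qSat {N : ℕ} {cs : List Quad} (hN : 1 ≤ N) (hc : QBelow N cs)
    (h : QSat cs) : TSat (tsys N cs).1 (tsys N cs).2 := by
  obtain ⟨y, hy, hq⟩ := h
  obtain ⟨X, h1, -, h3, h4, h5⟩ := blocks_exist hN hc hy hq cs.length le_rfl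
  refine ⟨X, h1.inc, ?_⟩
  intro t ht
  simp only [tsys, tcons, List.mem_append, List.mem_cons, List.not_mem_nil, or_false,
    List.mem_flatMap, List.mem_range] at ht
  rcases ht with (rfl | rfl) | ⟨r, hr, ht⟩
  · exact h3
  · exact h4
  · exact h5 r hr t ht

theorem tSat_tsys_iff {N : ℕ} {cs : List Quad} (hN : 1 ≤ N) (hc : QBelow N cs) :
    TSat (tsys N cs).1 (tsys N cs).2 ↔ QSat cs :=
  ⟨qSat_of_tSat hN hc, tSat_of_qSat hN hc⟩

end Pool.Agent.Lib.MP_be4430_lc
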