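import Pool.Agent.Lib.MP_be4430_lc.QSys

/-! # The constraints of atomic formulas force the truth value -/

namespace Pool.Agent.Lib.MP_be4430_lc

open MP_634427_lc

/-- equality: the truth value is forced -/
theorem cons_eq {y : Nm → ℚ} (h1 : y ONE = 1) (h0 : y ZZ = 0) {A B : BT}
    (h : ∀ c ∈ consOf (.node (un 5) (.node A B)), NHolds y c) :
    (y (A, 0) = y (B, 0) → y (.node (un 5) (.node A B), 0) = 1) ∧
      (y (A, 0) ≠ y (B, 0) → y (.node (un 5) (.node A B), 0) = 0) := by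
  obtain ⟨T, hT⟩ : ∃ T : BT, T = .node (un 5) (.node A B) := ⟨_, rfl⟩
  have hc : consOf (.node (un 5) (.node A B)) =
    [((A, 0), ONE, (B, 0), (T, 1)), ((T, 0), (T, 1), ZZ, ZZ),
      (ONE, ONE, (T, 0), (T, 3)), ((T, 1), (T, 2), (T, 3), ZZ)] := by
    subst hT; rfl
  rw [hc] at h
  rw [← hT]
  have e1 := h ((A, 0), ONE, (B, 0), (T, 1)) (by simp)
  have e2 := h ((T, 0), (T, 1), ZZ, ZZ) (by simp)
  have e3 := h (ONE, ONE, (T, 0), (T, 3)) (by simp)
  have e4 := h ((T, 1), (T, 2), (T, 3), ZZ) (by simp)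
  simp only [NHolds, h1, h0] at e1 e2 e3 e4
  constructor
  · intro hab
    have hd : y (T, 1) = 0 := by linarith
    rw [hd] at e4
    linarith
  · intro hab
    have hd : y (T, 1) ≠ 0 := by
      intro hd
      apply hab
      linarith
    have : y (T, 0) * y (T, 1) = 0 := by linarith
    rcases mul_eq_zero.1 this with h' | h'
    · exact h'
    · exact absurd h' hd

/-- order: the truth value is forced -/
theorem cons_lt {y : Nm → ℚ} (h1 : y ONE = 1) (h0 : y ZZ = 0) {A B : BT}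
    (h : ∀ c ∈ consOf (.node (un 6) (.node A B)), NHolds y c) :
    (y (A, 0) < y (B, 0) → y (.node (un 6) (.node A B), 0) = 1) ∧
      (¬ y (A, 0) < y (B, 0) → y (.node (un 6) (.node A B), 0) = 0) := by
  obtain ⟨T, hT⟩ : ∃ T : BT, T = .node (un 6) (.node A B) := ⟨_, rfl⟩
  have hc : consOf (.node (un 6) (.node A B)) =
    [((B, 0), ONE, (A, 0), (T, 1)), (ONE, ONE, (T, 0), (T, 2)),
      ((T, 0), (T, 2), ZZ, ZZ), ((T, 0), ONE, (T, 2), (T, 3)), ((T, 3), (T, 1), (T, 4), ZZ),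
      ((T, 5), (T, 5), (T, 9), ZZ), ((T, 6), (T, 6), (T, 10), ZZ), ((T, 7), (T, 7), (T, 11), ZZ),
      ((T, 8), (T, 8), (T, 12), ZZ), ((T, 13), ONE, (T, 9), (T, 10)),
      ((T, 14), ONE, (T, 11), (T, 12)), ((T, 4), ONE, (T, 13), (T, 14)),
      ((T, 1), (T, 15), (T, 16), ZZ), ((T, 16), ONE, ONE, (T, 17)), ((T, 0), (T, 17), ZZ, ZZ)] := by
    subst hT; rfl
  rw [hc] at h
  rw [← hT]
  have e1 := h ((B, 0), ONE, (A, 0), (T, 1)) (by simp)
  have e2 := h (ONE, ONE, (T, 0), (T, 2)) (by simp)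
  have e3 := h ((T, 0), (T, 2), ZZ, ZZ) (by simp)
  have e4 := h ((T, 0), ONE, (T, 2), (T, 3)) (by simp)
  have e5 := h ((T, 3), (T, 1), (T, 4), ZZ) (by simp)
  have e6 := h ((T, 5), (T, 5), (T, 9), ZZ) (by simp)
  have e7 := h ((T, 6), (T, 6), (T, 10), ZZ) (by simp)
  have e8 := h ((T, 7), (T, 7), (T, 11), ZZ) (by simp)
  have e9 := h ((T, 8), (T, 8), (T, 12), ZZ) (by simp)
  have e10 := h ((T, 13), ONE, (T, 9), (T, 10)) (by simp)
  have e11 := h ((T, 14), ONE, (T, 11), (T, 12)) (by simp)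
  have e12 := h ((T, 4), ONE, (T, 13), (T, 14)) (by simp)
  have e13 := h ((T, 1), (T, 15), (T, 16), ZZ) (by simp)
  have e14 := h ((T, 16), ONE, ONE, (T, 17)) (by simp)
  have e15 := h ((T, 0), (T, 17), ZZ, ZZ) (by simp)
  simp only [NHolds, h1, h0] at e1 e2 e3 e4 e5 e6 e7 e8 e9 e10 e11 e12 e13 e14 e15
  have hh : 0 ≤ y (T, 4) := by
    have : y (T, 4) = y (T, 5) * y (T, 5) + y (T, 6) * y (T, 6) + (y (T, 7) * y (T, 7) +
        y (T, 8) * y (T, 8)) := by linarith
    rw [this]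
    nlinarith [mul_self_nonneg (y (T, 5)), mul_self_nonneg (y (T, 6)), mul_self_nonneg (y (T, 7)),
      mul_self_nonneg (y (T, 8))]
  have h2 : y (T, 2) = 1 - y (T, 0) := by linarith
  have h01 : y (T, 0) = 0 ∨ y (T, 0) = 1 := by
    have : y (T, 0) * y (T, 2) = 0 := by linarith
    rcases mul_eq_zero.1 this with h' | h'
    · exact Or.inl h'
    · right; linarith
  have h4 : y (T, 4) = (2 * y (T, 0) - 1) * (y (B, 0) - y (A, 0)) := by
    have h3 : y (T, 3) = 2 * y (T, 0) - 1 := by linarith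
    have hd : y (T, 1) = y (B, 0) - y (A, 0) := by linarith
    rw [← h3, ← hd]; linarith
  have h17 : y (T, 0) = 1 → y (B, 0) - y (A, 0) ≠ 0 := by
    intro hT1 hd
    have hd1 : y (T, 1) = 0 := by linarith
    rw [hd1] at e13
    rw [hT1] at e15
    linarith
  constructor
  · intro hlt
    rcases h01 with h' | h'
    · rw [h'] at h4
      linarith
    · exact h'
  · intro hlt
    rcases h01 with h' | h'
    · exact h'
    · exfalso
      have := h17 h'
      rw [h'] at h4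
      apply this
      apply le_antisymm
      · linarith
      · linarith

end Pool.Agent.Lib.MP_be4430_lc
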