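import Pool.Agent.Lib.MP_be4430_lc.J1x_Sub
import Pool.Agent.Lib.MP_be4430_lc.J1y_Cons

/-! # Soundness of the system of a formula -/

namespace Pool.Agent.Lib.MP_be4430_lc

open MP_634427_lc

open Classical in
/-- the truth value of a formula -/
theorem val_formula {T : BT} {y : Nm → ℚ} (h1 : y ONE = 1) (h0 : y ZZ = 0)
    (h : ∀ U ∈ subtrees T, ∀ c ∈ consOf U, NHolds y c) (φ : Fml) (hs : φ.toBT ∈ subtrees T) :
    y (φ.toBT, 0) = if φ.Holds fun i => y ((Trm.var i).toBT, 0) then 1 else 0 := by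
  induction φ with
  | eq s t =>
    obtain ⟨-, hr⟩ := subtrees_right hs
    obtain ⟨hs1, ht1⟩ := subtrees_right hr
    obtain ⟨hp, hn⟩ := cons_eq h1 h0 (h _ hs)
    rw [val_term h1 h0 h s hs1, val_term h1 h0 h t ht1] at hp hn
    by_cases hh : s.eval (fun i => y ((Trm.var i).toBT, 0)) = t.eval fun i => y ((Trm.var i).toBT, 0)
    · simp only [Fml.Holds, hh, if_true]
      exact hp hh
    · simp only [Fml.Holds, hh, if_false]
      exact hn hh
  | lt s t =>
    obtain ⟨-, hr⟩ := subtrees_right hs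
    obtain ⟨hs1, ht1⟩ := subtrees_right hr
    obtain ⟨hp, hn⟩ := cons_lt h1 h0 (h _ hs)
    rw [val_term h1 h0 h s hs1, val_term h1 h0 h t ht1] at hp hn
    by_cases hh : s.eval (fun i => y ((Trm.var i).toBT, 0)) < t.eval fun i => y ((Trm.var i).toBT, 0)
    · simp only [Fml.Holds, hh, if_true]
      exact hp hh
    · simp only [Fml.Holds, hh, if_false]
      exact hn hh
  | not φ ih =>
    obtain ⟨-, hr⟩ := subtrees_right hs
    have h2 := h _ hs (ONE, ONE, ((Fml.not φ).toBT, 0), (φ.toBT, 0))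
      (show _ ∈ [(ONE, ONE, ((Fml.not φ).toBT, 0), (φ.toBT, 0))] from List.mem_singleton.2 rfl)
    simp only [NHolds, h1, ih hr] at h2
    by_cases hh : φ.Holds fun i => y ((Trm.var i).toBT, 0)
    · simp only [Fml.Holds, hh, not_true, if_false, if_true] at h2 ⊢
      linarith
    · simp only [Fml.Holds, hh, not_false_eq_true, if_false, if_true] at h2 ⊢
      linarith
  | and φ ψ ih1 ih2 =>
    obtain ⟨-, hr⟩ := subtrees_right hs
    obtain ⟨hs1, ht1⟩ := subtrees_right hr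
    have h2 := h _ hs ((φ.toBT, 0), (ψ.toBT, 0), ((Fml.and φ ψ).toBT, 0), ZZ)
      (show _ ∈ [((φ.toBT, 0), (ψ.toBT, 0), ((Fml.and φ ψ).toBT, 0), ZZ)] from
        List.mem_singleton.2 rfl)
    simp only [NHolds, h0, ih1 hs1, ih2 ht1] at h2
    by_cases hh : φ.Holds fun i => y ((Trm.var i).toBT, 0) <;>
      by_cases hk : ψ.Holds fun i => y ((Trm.var i).toBT, 0) <;>
      simp only [Fml.Holds, hh, hk, and_true, and_false, and_self, if_false, if_true] at h2 ⊢ <;>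
      linarith
  | or φ ψ ih1 ih2 =>
    obtain ⟨-, hr⟩ := subtrees_right hs
    obtain ⟨hs1, ht1⟩ := subtrees_right hr
    have hc : ∀ c ∈ [(ONE, ONE, ((Fml.or φ ψ).toBT, 0), ((Fml.or φ ψ).toBT, 1)),
      (ONE, ONE, (φ.toBT, 0), ((Fml.or φ ψ).toBT, 2)),
      (ONE, ONE, (ψ.toBT, 0), ((Fml.or φ ψ).toBT, 3)),
      ((((Fml.or φ ψ).toBT, 2), ((Fml.or φ ψ).toBT, 3), ((Fml.or φ ψ).toBT, 1), ZZ) : NQuad)],
      NHolds y c := fun c hc => h _ hs c hc
    have e1 := hc (ONE, ONE, ((Fml.or φ ψ).toBT, 0), ((Fml.or φ ψ).toBT, 1)) (by simp)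
    have e2 := hc (ONE, ONE, (φ.toBT, 0), ((Fml.or φ ψ).toBT, 2)) (by simp)
    have e3 := hc (ONE, ONE, (ψ.toBT, 0), ((Fml.or φ ψ).toBT, 3)) (by simp)
    have e4 := hc (((Fml.or φ ψ).toBT, 2), ((Fml.or φ ψ).toBT, 3), ((Fml.or φ ψ).toBT, 1), ZZ)
      (by simp)
    simp only [NHolds, h0, h1, ih1 hs1, ih2 ht1] at e1 e2 e3 e4
    have e5 : y ((Fml.or φ ψ).toBT, 0) = 1 - (1 - (if φ.Holds fun i => y ((Trm.var i).toBT, 0)
        then (1 : ℚ) else 0)) * (1 - (if ψ.Holds fun i => y ((Trm.var i).toBT, 0) then (1 : ℚ)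
        else 0)) := by
      have e2' : y ((Fml.or φ ψ).toBT, 2) = 1 - (if φ.Holds fun i => y ((Trm.var i).toBT, 0)
        then (1 : ℚ) else 0) := by linarith
      have e3' : y ((Fml.or φ ψ).toBT, 3) = 1 - (if ψ.Holds fun i => y ((Trm.var i).toBT, 0)
        then (1 : ℚ) else 0) := by linarith
      rw [← e2', ← e3']
      linarith
    rw [e5]
    by_cases hh : φ.Holds fun i => y ((Trm.var i).toBT, 0) <;>
      by_cases hk : ψ.Holds fun i => y ((Trm.var i).toBT, 0) <;>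
      simp [Fml.Holds, hh, hk]

theorem holds_of_nSat (φ : Fml) (h : NSat (nsys φ.toBT)) : ∃ v : ℕ → ℚ, φ.Holds v := by
  classical
  obtain ⟨y, h1, hy⟩ := h
  have e0 := hy (ZZ, ONE, ZZ, ZZ) (by simp [nsys])
  have e1 := hy ((φ.toBT, 0), ONE, ONE, ZZ) (by simp [nsys])
  simp only [NHolds, h1] at e0 e1
  have h0 : y ZZ = 0 := by linarith
  have hv : y (φ.toBT, 0) = 1 := by linarith
  have hall : ∀ U ∈ subtrees φ.toBT, ∀ c ∈ consOf U, NHolds y c := by
    intro U hU c hc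
    apply hy
    unfold nsys
    exact List.mem_append_right _ (List.mem_flatMap.2 ⟨U, hU, hc⟩)
  have := val_formula h1 h0 hall φ (self_mem_subtrees _)
  rw [hv] at this
  refine ⟨fun i => y ((Trm.var i).toBT, 0), ?_⟩
  by_contra hcon
  rw [if_neg hcon] at this
  exact one_ne_zero this

end Pool.Agent.Lib.MP_be4430_lc
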