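import Pool.Agent.Lib.MP_be4430_lc.J2y_Aux

/-! # Completeness of the system of a formula -/

namespace Pool.Agent.Lib.MP_be4430_lc

open MP_634427_lc

theorem nSat_of_holds (φ : Fml) {v : ℕ → ℚ} (h : φ.Holds v) : NSat (nsys φ.toBT) := by
  classical
  obtain ⟨w, -, hw⟩ := exists_rec (stepF v) 0
  have hex : ∀ T : BT, ∃ aux : ℕ → ℚ, T ≠ .nil → ∀ y : Nm → ℚ, y ONE = 1 → y ZZ = 0 →
      (∀ U : BT, y (U, 0) = w U) → (∀ i, 1 ≤ i → y (T, i) = aux i) →
      ∀ c ∈ consOf T, NHolds y c := by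
    intro T
    by_cases hT : T = .nil
    · exact ⟨fun _ => 0, fun h => absurd hT h⟩
    · obtain ⟨aux, ha⟩ := exists_aux hw T hT
      exact ⟨aux, fun _ => ha⟩
  choose aux haux using hex
  obtain ⟨y, hy⟩ : ∃ y : Nm → ℚ, y = fun a => if a.2 = 0 then w a.1 else
      if a.1 = .nil then (if a.2 = 1 then 1 else 0) else aux a.1 a.2 := ⟨_, rfl⟩
  have h1 : y ONE = 1 := by rw [hy]; simp [ONE]
  have h0 : y ZZ = 0 := by rw [hy]; simp [ZZ]
  have hU : ∀ U : BT, y (U, 0) = w U := by intro U; rw [hy]; simp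
  refine ⟨y, h1, fun c hc => ?_⟩
  unfold nsys at hc
  rcases List.mem_append.1 hc with hc | hc
  · simp only [List.mem_cons, List.not_mem_nil, or_false] at hc
    rcases hc with rfl | rfl
    · simp only [NHolds, h1, h0]; norm_num
    · simp only [NHolds, h1, h0, hU, stepF_formula hw φ, if_pos h]; norm_num
  · obtain ⟨U, -, hcU⟩ := List.mem_flatMap.1 hc
    by_cases hUn : U = .nil
    · subst hUn
      have : consOf .nil = [] := rfl
      rw [this] at hcU
      simp at hcU
    · refine haux U hUn y h1 h0 hU (fun i hi => ?_) c hcU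
      rw [hy]
      have : i ≠ 0 := by omega
      simp [this, hUn]

end Pool.Agent.Lib.MP_be4430_lc
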