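import Pool.Agent.Lib.MP_be4430_lc.QSys

/-! # Numbering the variables -/

namespace Pool.Agent.Lib.MP_be4430_lc

open MP_634427_lc

theorem one_le_names (cs : List NQuad) : 1 ≤ (names cs).length := by
  simp [names]

private theorem J3_mem_names {cs : List NQuad} {c : NQuad} (hc : c ∈ cs) :
    c.1 ∈ names cs ∧ c.2.1 ∈ names cs ∧ c.2.2.1 ∈ names cs ∧ c.2.2.2 ∈ names cs := by
  have key : ∀ a ∈ [c.1, c.2.1, c.2.2.1, c.2.2.2], a ∈ names cs := by
    intro a ha
    unfold names
    exact List.mem_cons_of_mem _ (List.mem_flatMap.2 ⟨c, hc, ha⟩)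
  exact ⟨key _ (by simp), key _ (by simp), key _ (by simp), key _ (by simp)⟩

theorem qBelow_qsys (cs : List NQuad) : QBelow (names cs).length (qsys cs) := by
  intro c hc
  unfold qsys at hc
  obtain ⟨d, hd, rfl⟩ := List.mem_map.1 hc
  obtain ⟨h1, h2, h3, h4⟩ := J3_mem_names hd
  exact ⟨List.idxOf_lt_length_iff.2 h1, List.idxOf_lt_length_iff.2 h2,
    List.idxOf_lt_length_iff.2 h3, List.idxOf_lt_length_iff.2 h4⟩

theorem qSat_qsys (cs : List NQuad) : QSat (qsys cs) ↔ NSat cs := by
  constructor
  · rintro ⟨y, hy, h⟩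
    refine ⟨fun a => y ((names cs).idxOf a), ?_, ?_⟩
    · have : (names cs).idxOf ONE = 0 := by simp [names]
      simp only [this, hy]
    · intro c hc
      have := h _ (List.mem_map.2 ⟨c, hc, rfl⟩)
      exact this
  · rintro ⟨z, hz, h⟩
    refine ⟨fun i => z ((names cs).getD i ONE), ?_, ?_⟩
    · simp [names, hz]
    · intro c hc
      unfold qsys at hc
      obtain ⟨d, hd, rfl⟩ := List.mem_map.1 hc
      obtain ⟨h1, h2, h3, h4⟩ := J3_mem_names hd
      have key : ∀ a ∈ names cs, (names cs).getD ((names cs).idxOf a) ONE = a := by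
        intro a ha
        have hl := List.idxOf_lt_length_iff.2 ha
        rw [List.getD_eq_getElem _ _ hl]
        exact List.getElem_idxOf hl
      have := h d hd
      unfold NHolds at this
      unfold QHolds
      simp only [key _ h1, key _ h2, key _ h3, key _ h4]
      exact this

end Pool.Agent.Lib.MP_be4430_lc
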