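import Pool.Agent.Lib.MP_be4430_lc.J4_Check
import Pool.Agent.Lib.MP_be4430_lc.P1_TreeRec
import Pool.Agent.Lib.MP_be4430_lc.P2_Lists

/-! # Syntax trees are recognised in polynomial time -/

namespace Pool.Agent.Lib.MP_be4430_lc

open MP_634427_lc

variable {γ : Type} [Enc γ]

theorem pt_chkStep :
    PT fun p : ℕ × BT × BT × (Bool × Bool) × (Bool × Bool) × (Bool × Bool) =>
      chkStep p.1 p.2.1 p.2.2.1 p.2.2.2.1 p.2.2.2.2.1 p.2.2.2.2.2 := by
  have hn : PT fun p : ℕ × BT × BT × (Bool × Bool) × (Bool × Bool) × (Bool × Bool) => p.1 :=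
    PT.fst
  have htg : PT fun p : ℕ × BT × BT × (Bool × Bool) × (Bool × Bool) × (Bool × Bool) => p.2.1 :=
    PT.fst' PT.snd
  have hpl : PT fun p : ℕ × BT × BT × (Bool × Bool) × (Bool × Bool) × (Bool × Bool) =>
      p.2.2.1 := PT.fst' (PT.snd' PT.snd)
  have hrp : PT fun p : ℕ × BT × BT × (Bool × Bool) × (Bool × Bool) × (Bool × Bool) =>
      p.2.2.2.1 := PT.fst' (PT.snd' (PT.snd' PT.snd))
  have hrs : PT fun p : ℕ × BT × BT × (Bool × Bool) × (Bool × Bool) × (Bool × Bool) =>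
      p.2.2.2.2.1 := PT.fst' (PT.snd' (PT.snd' (PT.snd' PT.snd)))
  have hrt : PT fun p : ℕ × BT × BT × (Bool × Bool) × (Bool × Bool) × (Bool × Bool) =>
      p.2.2.2.2.2 := PT.snd' (PT.snd' (PT.snd' (PT.snd' PT.snd)))
  have hu : ∀ k : ℕ, PT fun p : ℕ × BT × BT × (Bool × Bool) × (Bool × Bool) × (Bool × Bool) =>
      decide (p.2.1 = un k) := fun k => pt_eqBT htg (PT.const (un k))
  have h1 := PT.or (PT.or (PT.or (PT.and (hu 0) (pt_eqBT hpl (PT.const BT.nil)))
    (PT.and (hu 1) (pt_eqBT hpl (PT.const BT.nil))))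
    (PT.and (PT.and (hu 2) (pt_eqBT hpl (pt_un (pt_spine hpl)))) (PT.lt (pt_spine hpl) hn)))
    (PT.and (PT.and (PT.or (hu 3) (hu 4)) (PT.fst' hrs)) (PT.fst' hrt))
  have h2 := PT.or (PT.or (PT.and (PT.and (PT.or (hu 5) (hu 6)) (PT.fst' hrs)) (PT.fst' hrt))
    (PT.and (hu 7) (PT.snd' hrp)))
    (PT.and (PT.and (PT.or (hu 8) (hu 9)) (PT.snd' hrs)) (PT.snd' hrt))
  exact PT.pair h1 h2

private theorem chk_trec (n : ℕ) (T : BT) :
    trec (((false, false), (false, false), (false, false)) :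
      (Bool × Bool) × (Bool × Bool) × (Bool × Bool))
      (fun a b x y => (chkStep n a b y.1 y.2.1 y.2.2, x.1, y.1)) T = chk n T := by
  induction T with
  | nil => rfl
  | node a b iha ihb => simp only [trec, chk, iha, ihb]

private theorem chk_sz (x : (Bool × Bool) × (Bool × Bool) × (Bool × Bool)) : sz x ≤ 11 := by
  obtain ⟨⟨a, b⟩, ⟨c, d⟩, e, f⟩ := x
  have h1 := sz_bool_le a
  have h2 := sz_bool_le b
  have h3 := sz_bool_le c
  have h4 := sz_bool_le d
  have h5 := sz_bool_le e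
  have h6 := sz_bool_le f
  simp only [sz_pair]
  omega

theorem pt_chk {n : γ → ℕ} {t : γ → BT} (hn : PT n) (ht : PT t) :
    PT fun c => chk (n c) (t c) := by
  have hy : PT fun p : γ × BT × BT × ((Bool × Bool) × (Bool × Bool) × (Bool × Bool)) ×
      ((Bool × Bool) × (Bool × Bool) × (Bool × Bool)) => p.2.2.2.2 :=
    PT.snd' (PT.snd' (PT.snd' PT.snd))
  have hx : PT fun p : γ × BT × BT × ((Bool × Bool) × (Bool × Bool) × (Bool × Bool)) ×
      ((Bool × Bool) × (Bool × Bool) × (Bool × Bool)) => p.2.2.2.1 :=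
    PT.fst' (PT.snd' (PT.snd' PT.snd))
  have hstep : PT fun p : γ × BT × BT × ((Bool × Bool) × (Bool × Bool) × (Bool × Bool)) ×
      ((Bool × Bool) × (Bool × Bool) × (Bool × Bool)) =>
      chkStep (n p.1) p.2.1 p.2.2.1 p.2.2.2.2.1 p.2.2.2.2.2.1 p.2.2.2.2.2.2 :=
    pt_chkStep.comp (PT.pair (hn.comp PT.fst) (PT.pair (PT.fst' PT.snd)
      (PT.pair (PT.fst' (PT.snd' PT.snd)) (PT.pair (PT.fst' hy)
        (PT.pair (PT.fst' (PT.snd' hy)) (PT.snd' (PT.snd' hy)))))))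
  have h := pt_treeRec (γ := γ)
    (σ := (Bool × Bool) × (Bool × Bool) × (Bool × Bool))
    (s := fun _ => ((false, false), (false, false), (false, false)))
    (f := fun c a b x y => (chkStep (n c) a b y.1 y.2.1 y.2.2, x.1, y.1)) (t := t) (PT.const _)
    (PT.pair hstep (PT.pair (PT.fst' hx) (PT.fst' hy))) ht
    ⟨4, fun c T => by
      refine (chk_sz _).trans ?_
      have : 2 ^ 4 ≤ (sz c + T.size + 2) ^ 4 := Nat.pow_le_pow_left (by omega) 4
      omega⟩
  exact h.of_eq fun c => chk_trec (n c) (t c)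

theorem pt_isSent {t : γ → BT} (ht : PT t) : PT fun c => isSent (t c) := by
  have h0 : PT fun c => decide (t c ≠ BT.nil) :=
    (PT.not (pt_eqBT ht (PT.const BT.nil))).of_eq fun c => by
      by_cases h : t c = BT.nil <;> simp [h]
  have h1 := pt_eqBT (pt_left ht) (pt_un (pt_spine (pt_left ht)))
  have h2 := PT.snd' (PT.fst' (pt_chk (pt_spine (pt_left ht)) (pt_right ht)))
  exact PT.and (PT.and h0 h1) h2

end Pool.Agent.Lib.MP_be4430_lc
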