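import Pool.Agent.Lib.MP_be4430_lc.QSys
import Pool.Agent.Lib.MP_be4430_lc.P2_Lists

/-! # `consOf` is computed in polynomial time -/

namespace Pool.Agent.Lib.MP_be4430_lc

open MP_634427_lc

variable {γ : Type} [Enc γ]

/-- a list of quadruples whose four entries are computable -/
theorem pt_nquad {a b c d : γ → Nm} (ha : PT a) (hb : PT b) (hc : PT c) (hd : PT d) :
    PT fun x => ((a x, b x, c x, d x) : NQuad) :=
  ha.pair (hb.pair (hc.pair hd))

/-- a name `(t, k)` with a fixed index `k` -/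
private theorem P4a_nm {t : γ → BT} (ht : PT t) (k : ℕ) : PT fun c => ((t c, k) : Nm) :=
  ht.pair (PT.const k)

/-- a fixed name -/
private theorem P4a_cn (a : Nm) : PT fun _ : γ => a := PT.const a

private theorem P4a_nil : PT fun _ : γ => ([] : List NQuad) := PT.const _

theorem pt_consOf {t : γ → BT} (ht : PT t) : PT fun c => consOf (t c) := by
  have hl : PT fun c => (t c).left := pt_left ht
  have hr : PT fun c => (t c).right := pt_right ht
  have hrl : PT fun c => (t c).right.left := pt_left hr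
  have hrr : PT fun c => (t c).right.right := pt_right hr
  have hT : ∀ k, PT fun c => ((t c, k) : Nm) := P4a_nm ht
  have hR : ∀ k, PT fun c => (((t c).right, k) : Nm) := P4a_nm hr
  have hRL : ∀ k, PT fun c => (((t c).right.left, k) : Nm) := P4a_nm hrl
  have hRR : ∀ k, PT fun c => (((t c).right.right, k) : Nm) := P4a_nm hrr
  have h1 : PT fun _ : γ => ONE := P4a_cn _
  have h0 : PT fun _ : γ => ZZ := P4a_cn _
  have hu : ∀ k, PT fun c => decide ((t c).left = un k) := fun k => pt_eqBT hl (PT.const _)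
  unfold consOf
  refine PT.ite (pt_eqBT ht (PT.const _)) P4a_nil ?_
  refine PT.ite (hu 0) ?_ ?_
  · exact (pt_nquad (hT 0) h1 h0 h0).cons P4a_nil
  refine PT.ite (hu 1) ?_ ?_
  · exact (pt_nquad (hT 0) h1 h1 h0).cons P4a_nil
  refine PT.ite (hu 3) ?_ ?_
  · exact (pt_nquad (hT 0) h1 (hRL 0) (hRR 0)).cons P4a_nil
  refine PT.ite (hu 4) ?_ ?_
  · exact (pt_nquad (hRL 0) (hRR 0) (hT 0) h0).cons P4a_nil
  refine PT.ite (hu 5) ?_ ?_
  · exact (pt_nquad (hRL 0) h1 (hRR 0) (hT 1)).cons ((pt_nquad (hT 0) (hT 1) h0 h0).cons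
      ((pt_nquad h1 h1 (hT 0) (hT 3)).cons ((pt_nquad (hT 1) (hT 2) (hT 3) h0).cons P4a_nil)))
  refine PT.ite (hu 6) ?_ ?_
  · exact (pt_nquad (hRR 0) h1 (hRL 0) (hT 1)).cons ((pt_nquad h1 h1 (hT 0) (hT 2)).cons
      ((pt_nquad (hT 0) (hT 2) h0 h0).cons ((pt_nquad (hT 0) h1 (hT 2) (hT 3)).cons
      ((pt_nquad (hT 3) (hT 1) (hT 4) h0).cons
      ((pt_nquad (hT 5) (hT 5) (hT 9) h0).cons ((pt_nquad (hT 6) (hT 6) (hT 10) h0).cons
      ((pt_nquad (hT 7) (hT 7) (hT 11) h0).cons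
      ((pt_nquad (hT 8) (hT 8) (hT 12) h0).cons ((pt_nquad (hT 13) h1 (hT 9) (hT 10)).cons
      ((pt_nquad (hT 14) h1 (hT 11) (hT 12)).cons ((pt_nquad (hT 4) h1 (hT 13) (hT 14)).cons
      ((pt_nquad (hT 1) (hT 15) (hT 16) h0).cons ((pt_nquad (hT 16) h1 h1 (hT 17)).cons
      ((pt_nquad (hT 0) (hT 17) h0 h0).cons P4a_nil))))))))))))))
  refine PT.ite (hu 7) ?_ ?_
  · exact (pt_nquad h1 h1 (hT 0) (hR 0)).cons P4a_nil
  refine PT.ite (hu 8) ?_ ?_
  · exact (pt_nquad (hRL 0) (hRR 0) (hT 0) h0).cons P4a_nil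
  refine PT.ite (hu 9) ?_ P4a_nil
  exact (pt_nquad h1 h1 (hT 0) (hT 1)).cons ((pt_nquad h1 h1 (hRL 0) (hT 2)).cons
    ((pt_nquad h1 h1 (hRR 0) (hT 3)).cons ((pt_nquad (hT 2) (hT 3) (hT 1) h0).cons P4a_nil)))

end Pool.Agent.Lib.MP_be4430_lc
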