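import Pool.Agent.Lib.MP_be4430_lc.P4_Subtrees
import Pool.Agent.Lib.MP_be4430_lc.P4a_ConsOf

/-! # The numbered quadruple system of a formula is computed in polynomial time -/

namespace Pool.Agent.Lib.MP_be4430_lc

open MP_634427_lc

variable {γ : Type} [Enc γ]

theorem pt_nsys {t : γ → BT} (ht : PT t) : PT fun c => nsys (t c) := by
  have h1 : PT fun c => ([(ZZ, ONE, ZZ, ZZ), ((t c, 0), ONE, ONE, ZZ)] : List NQuad) :=
    PT.cons (PT.const _) (PT.cons (pt_nquad (PT.pair ht (PT.const 0)) (PT.const _) (PT.const _)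
      (PT.const _)) (PT.const []))
  exact PT.append h1 (PT.flatMap (f := fun (_ : γ) T => consOf T) (pt_subtrees ht)
    (pt_consOf PT.snd))

theorem pt_names {cs : γ → List NQuad} (h : PT cs) : PT fun c => names (cs c) := by
  have h1 : PT fun p : γ × NQuad => ([p.2.1, p.2.2.1, p.2.2.2.1, p.2.2.2.2] : List Nm) :=
    PT.cons (PT.fst' PT.snd) (PT.cons (PT.fst' (PT.snd' PT.snd))
      (PT.cons (PT.fst' (PT.snd' (PT.snd' PT.snd)))
        (PT.cons (PT.snd' (PT.snd' (PT.snd' PT.snd))) (PT.const []))))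
  exact PT.cons (PT.const _) (PT.flatMap
    (f := fun (_ : γ) (q : NQuad) => [q.1, q.2.1, q.2.2.1, q.2.2.2]) h h1)

private lemma P5_idx {δ : Type} [Enc δ] {a : δ → Nm} {l : δ → List Nm} (ha : PT a) (hl : PT l) :
    PT fun c => (l c).idxOf (a c) := by
  have h := pt_idxOf (enc_pair_injective enc_BT_injective enc_nat_injective) ha hl
  have e : (instBEqProd : BEq Nm) = instBEqOfDecidableEq := lawful_beq_subsingleton _ _
  rw [e]
  exact h

theorem pt_qsys {cs : γ → List NQuad} (h : PT cs) : PT fun c => qsys (cs c) := by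
  have hn : PT fun p : γ × NQuad => names (cs p.1) := (pt_names h).comp PT.fst
  have h1 : PT fun p : γ × NQuad => (((names (cs p.1)).idxOf p.2.1,
      (names (cs p.1)).idxOf p.2.2.1, (names (cs p.1)).idxOf p.2.2.2.1,
      (names (cs p.1)).idxOf p.2.2.2.2) : Quad) :=
    PT.pair (P5_idx (PT.fst' PT.snd) hn)
      (PT.pair (P5_idx (PT.fst' (PT.snd' PT.snd)) hn)
        (PT.pair (P5_idx (PT.fst' (PT.snd' (PT.snd' PT.snd))) hn)
          (P5_idx (PT.snd' (PT.snd' (PT.snd' PT.snd))) hn)))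
  exact PT.map (f := fun (c : γ) (q : NQuad) => (((names (cs c)).idxOf q.1,
      (names (cs c)).idxOf q.2.1, (names (cs c)).idxOf q.2.2.1,
      (names (cs c)).idxOf q.2.2.2) : Quad)) h h1

end Pool.Agent.Lib.MP_be4430_lc
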