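import Pool.Agent.Lib.MP_be4430_lc.TBlock
import Pool.Agent.Lib.MP_be4430_lc.P2_Lists

/-! # The T-system is computed in polynomial time -/

namespace Pool.Agent.Lib.MP_be4430_lc

open MP_634427_lc

variable {γ : Type} [Enc γ]

private theorem P6_tauI {f : γ → ℕ} (hf : PT f) : PT fun x => tauI (f x) :=
  (PT.ite (p := fun x => f x = 0) (PT.isZero hf) (PT.const 3)
    (PT.add (PT.const 4) (PT.mul (PT.const 2) hf))).of_eq fun _ => rfl

private theorem P6_VI {f : γ → ℕ} (hf : PT f) : PT fun x => VI (f x) :=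
  (PT.add (PT.const 5) (PT.mul (PT.const 2) hf)).of_eq fun _ => rfl

private theorem P6_opd {c : γ → Quad} {f : γ → ℕ} (hc : PT c) (hf : PT f) :
    PT fun x => opd (c x) (f x) := by
  have h0 : PT fun x => (c x).1 := PT.fst' hc
  have h1 : PT fun x => (c x).2.1 := PT.fst' (PT.snd' hc)
  have h2 : PT fun x => (c x).2.2.1 := PT.fst' (PT.snd' (PT.snd' hc))
  have h3 : PT fun x => (c x).2.2.2 := PT.snd' (PT.snd' (PT.snd' hc))
  refine (PT.ite (p := fun x => f x = 0) (PT.eqNat hf (PT.const 0)) h0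
    (PT.ite (p := fun x => f x = 1) (PT.eqNat hf (PT.const 1)) h1
      (PT.ite (p := fun x => f x = 2) (PT.eqNat hf (PT.const 2)) h2 h3))).of_eq fun x => ?_
  rcases h : f x with _ | _ | _ | n
  · simp [opd]
  · simp [opd]
  · simp [opd]
  · simp [opd]

theorem pt_refV {s : γ → ℕ} {c : γ → Quad} {r : γ → ℕ × ℕ} (hs : PT s) (hc : PT c) (hr : PT r) :
    PT fun x => refV (s x) (c x) (r x) := by
  have hr1 : PT fun x => (r x).1 := PT.fst' hr
  have hr2 : PT fun x => (r x).2 := PT.snd' hr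
  exact (PT.ite (p := fun x => (r x).1 = 0) (PT.eqNat hr1 (PT.const 0)) (PT.add hs hr2)
    (PT.ite (p := fun x => (r x).1 = 1) (PT.eqNat hr1 (PT.const 1)) (P6_VI (P6_opd hc hr2))
      (PT.ite (p := fun x => (r x).1 = 2) (PT.eqNat hr1 (PT.const 2)) (P6_tauI (P6_opd hc hr2))
        (PT.const 2)))).of_eq fun _ => rfl

private theorem P6_addT {a b c : γ → ℕ} (ha : PT a) (hb : PT b) (hc : PT c) :
    PT fun x => addT (a x) (b x) (c x) :=
  (PT.pair (PT.pair ha (PT.pair hb hc)) (PT.pair hb (PT.pair ha (PT.const 1)))).of_eq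
    fun _ => rfl

private theorem P6_mulT {a z b c : γ → ℕ} (ha : PT a) (hz : PT z) (hb : PT b) (hc : PT c) :
    PT fun x => mulT (a x) (z x) (b x) (c x) :=
  (PT.pair (PT.pair (PT.const 1) (PT.pair ha hc)) (PT.pair hb (PT.pair hz (PT.const 1)))).of_eq
    fun _ => rfl

theorem pt_block {s : γ → ℕ} {c : γ → Quad} (hs : PT s) (hc : PT c) :
    PT fun x => block (s x) (c x) := by
  have hs' : ∀ {δ : Type} [Enc δ], PT fun p : γ × δ => s p.1 := fun {δ} _ => hs.comp PT.fst
  have hc' : ∀ {δ : Type} [Enc δ], PT fun p : γ × δ => c p.1 := fun {δ} _ => hc.comp PT.fst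
  have h1 : PT fun x : γ => ADDS.map fun e =>
      addT (refV (s x) (c x) e.1) (s x + e.2.1) (s x + e.2.2) := by
    refine PT.map (l := fun _ : γ => ADDS) (f := fun (x : γ) (e : (ℕ × ℕ) × ℕ × ℕ) =>
      addT (refV (s x) (c x) e.1) (s x + e.2.1) (s x + e.2.2)) (PT.const ADDS) ?_
    exact P6_addT (pt_refV hs' hc' (PT.fst' PT.snd))
      (PT.add hs' (PT.fst' (PT.snd' PT.snd))) (PT.add hs' (PT.snd' (PT.snd' PT.snd)))
  have h2 : PT fun x : γ => MULS.map fun e =>
      mulT (s x + e.1) (s x + e.2.1) (s x + e.2.2.1) (s x + e.2.2.2) := by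
    refine PT.map (l := fun _ : γ => MULS) (f := fun (x : γ) (e : ℕ × ℕ × ℕ × ℕ) =>
      mulT (s x + e.1) (s x + e.2.1) (s x + e.2.2.1) (s x + e.2.2.2)) (PT.const MULS) ?_
    exact P6_mulT (PT.add hs' (PT.fst' PT.snd)) (PT.add hs' (PT.fst' (PT.snd' PT.snd)))
      (PT.add hs' (PT.fst' (PT.snd' (PT.snd' PT.snd))))
      (PT.add hs' (PT.snd' (PT.snd' (PT.snd' PT.snd))))
  exact (PT.append h1 h2).of_eq fun _ => rfl

theorem pt_tsys {N : γ → ℕ} {cs : γ → List Quad} (hN : PT N) (hc : PT cs) :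
    PT fun x => tsys (N x) (cs x) := by
  have hbst : ∀ {δ : Type} [Enc δ] {M r : δ → ℕ}, PT M → PT r →
      PT fun x => bst (M x) (r x) := by
    intro δ _ M r hM hr
    exact (PT.add (PT.add (PT.const 3) (PT.mul (PT.const 2) hM))
      (PT.mul (PT.const 42) hr)).of_eq fun _ => rfl
  have h1 : PT fun x : γ => (List.range (cs x).length).flatMap fun r =>
      block (bst (N x) r) ((cs x).getD r (0, 0, 0, 0)) := by
    refine PT.flatMap (l := fun x : γ => List.range (cs x).length) (f := fun (x : γ) (r : ℕ) =>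
      block (bst (N x) r) ((cs x).getD r (0, 0, 0, 0))) (PT.range (PT.length hc)) ?_
    exact pt_block (hbst (hN.comp PT.fst) PT.snd)
      (PT.getLD PT.snd (hc.comp PT.fst) (PT.const (0, 0, 0, 0)))
  have h2 : PT fun x : γ => tcons (N x) (cs x) :=
    (PT.append (PT.const [addT 2 3 4, addT 3 4 5]) h1).of_eq fun _ => rfl
  exact (PT.pair (hbst hN (PT.length hc)) h2).of_eq fun _ => rfl

end Pool.Agent.Lib.MP_be4430_lc
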