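import Pool.Agent.Lib.MP_be4430_lc.F2_GraphWord
import Pool.Agent.Lib.MP_be4430_lc.H8_QComplete
import Pool.Agent.Lib.MP_be4430_lc.J1_Sound
import Pool.Agent.Lib.MP_be4430_lc.J2_Complete
import Pool.Agent.Lib.MP_be4430_lc.J3_Number
import Pool.Agent.Lib.MP_be4430_lc.P4b_Chk
import Pool.Agent.Lib.MP_be4430_lc.P5_QSysPT
import Pool.Agent.Lib.MP_be4430_lc.P6_TSysPT

/-! # `ETQ` reduces to `GRID` -/

namespace Pool.Agent.Lib.MP_be4430_lc

open MP_634427_lc

/-- the T-system of a formula -/
def fsys (T : BT) : ℕ × List Trp := tsys (names (nsys T)).length (qsys (nsys T))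

theorem fsys_iff (φ : Fml) :
    TValid (fsys φ.toBT).1 (fsys φ.toBT).2 ∧
      (TSat (fsys φ.toBT).1 (fsys φ.toBT).2 ↔ ∃ v : ℕ → ℚ, φ.Holds v) := by
  have h1 := one_le_names (nsys φ.toBT)
  have h2 := qBelow_qsys (nsys φ.toBT)
  refine ⟨tsys_valid h1 h2, ?_⟩
  rw [fsys, tSat_tsys_iff h1 h2, qSat_qsys]
  exact ⟨holds_of_nSat φ, fun ⟨v, hv⟩ => nSat_of_holds φ hv⟩

/-- the reduction -/
def redHard (w : Word) : Word :=
  bif decide (code (decode w) = w) && isSent (decode w) then graphWord (fsys (decode w).right)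
  else []

theorem pt_redHard : PT redHard := by
  have hd : PT fun w : Word => decode w := PT.decode PT.id
  have hr : PT fun w : Word => (decode w).right := pt_right hd
  have h1 : PT fun w : Word => decide (code (decode w) = w) := PT.eqWord (PT.code hd) PT.id
  have hf : PT fun w : Word => fsys (decode w).right :=
    pt_tsys (PT.length (pt_names (pt_nsys hr))) (pt_qsys (pt_nsys hr))
  exact PT.cond (PT.and h1 (pt_isSent hd)) (pt_graphWord.comp hf) (PT.const [])

theorem nil_not_mem_GRID : ([] : Word) ∉ GRID := by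
  rintro ⟨n, E, b, hw, -⟩
  have h := congrArg List.length hw
  rw [length_code] at h
  simp at h

theorem redHard_iff (w : Word) : w ∈ ETQ ↔ redHard w ∈ GRID := by
  constructor
  · rintro ⟨n, φ, rfl, hb, hv⟩
    have h1 : isSent (enc (n, φ)) = true := (isSent_iff _).2 ⟨n, φ, rfl, hb⟩
    have h2 : redHard (code (enc (n, φ))) = graphWord (fsys φ.toBT) := by
      simp only [redHard, decode_code, h1]
      simp
      rfl
    rw [h2, graphWord_mem (fsys_iff φ).1]
    exact (fsys_iff φ).2.2 hv
  · intro h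
    unfold redHard at h
    by_cases hc : (decide (code (decode w) = w) && isSent (decode w)) = true
    · rw [hc, cond_true] at h
      rw [Bool.and_eq_true, decide_eq_true_eq] at hc
      obtain ⟨n, φ, hφ, hb⟩ := (isSent_iff _).1 hc.2
      refine ⟨n, φ, by rw [← hφ, hc.1], hb, ?_⟩
      have h3 : (decode w).right = φ.toBT := by rw [hφ]; rfl
      rw [h3, graphWord_mem (fsys_iff φ).1] at h
      exact (fsys_iff φ).2.1 h
    · rw [Bool.not_eq_true] at hc
      rw [hc, cond_false] at h
      exact absurd h nil_not_mem_GRID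

theorem reduces_ETQ_GRID : Reduces ETQ GRID := ⟨redHard, pt_redHard, redHard_iff⟩

end Pool.Agent.Lib.MP_be4430_lc
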