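import Pool.Agent.Lib.MP_be4430_lc.Basic

/-!
# T-systems and the graph built from them

A *T-system* `(m, ts)` asks for rationals `x 1 < x 2 < … < x m` such that for every constraint
`t = ((p₀,p₁,p₂),(q₀,q₁,q₂))` of the list there are `l, u > 0` with
`l x_{p₀} + u x_{q₀} = l x_{p₁} + u x_{q₁} = l x_{p₂} + u x_{q₂}`; here `p₀ < p₁ < p₂` and
`q₀ > q₁ > q₂`.
-/

namespace Pool.Agent.Lib.MP_be4430_lc

open MP_634427_lc

/-- a constraint of a T-system -/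
abbrev Trp := (ℕ × ℕ × ℕ) × (ℕ × ℕ × ℕ)

/-- `p₀, p₁, p₂` of a triple -/
def tri (t : ℕ × ℕ × ℕ) : ℕ → ℕ
  | 0 => t.1
  | 1 => t.2.1
  | _ => t.2.2

/-- the indices `p_i` of the `g`-th constraint, `g = 1, 2, …` -/
def pp (ts : List Trp) (g i : ℕ) : ℕ := tri (ts.getD (g - 1) ((1, 2, 3), (3, 2, 1))).1 i

/-- the indices `q_i` of the `g`-th constraint, `g = 1, 2, …` -/
def qq (ts : List Trp) (g i : ℕ) : ℕ := tri (ts.getD (g - 1) ((1, 2, 3), (3, 2, 1))).2 i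

/-- a well-formed constraint -/
def TrpOK (m : ℕ) (t : Trp) : Prop :=
  1 ≤ t.1.1 ∧ t.1.1 < t.1.2.1 ∧ t.1.2.1 < t.1.2.2 ∧ t.1.2.2 ≤ m ∧
    1 ≤ t.2.2.2 ∧ t.2.2.2 < t.2.2.1 ∧ t.2.2.1 < t.2.1 ∧ t.2.1 ≤ m

/-- a well-formed T-system (with at least one constraint) -/
structure TValid (m : ℕ) (ts : List Trp) : Prop where
  ne : ts ≠ []
  ok : ∀ t ∈ ts, TrpOK m t

/-- `x` satisfies the constraint `t` -/
def TrpHolds (x : ℕ → ℚ) (t : Trp) : Prop :=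
  ∃ l u : ℚ, 0 < l ∧ 0 < u ∧ l * x t.1.1 + u * x t.2.1 = l * x t.1.2.1 + u * x t.2.2.1 ∧
    l * x t.1.1 + u * x t.2.1 = l * x t.1.2.2 + u * x t.2.2.2

/-- satisfiability of a T-system over the rationals -/
def TSat (m : ℕ) (ts : List Trp) : Prop :=
  ∃ x : ℕ → ℚ, (∀ n, 1 ≤ n → n < m → x n < x (n + 1)) ∧ ∀ t ∈ ts, TrpHolds x t

/-- names of the rectangles of the layout; the cells are `FL`, `CO`, `FR`, `LK` -/
inductive Rct : Type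
  | FO (g : ℕ)
  | FL (g n : ℕ)
  | CO (g i : ℕ)
  | FR (g n : ℕ)
  | FG (g : ℕ)
  | AX (g : ℕ)
  | LK (g : ℕ)
  deriving DecidableEq

/-- vertices; `d` is `c'` and `s` is `r'` of the blueprint, `nn C j`, `ww C j` are the inner
vertices of the cell `C` -/
inductive Vtx : Type
  | O (g : ℕ)
  | G (g : ℕ)
  | a (g : ℕ)
  | b (g : ℕ)
  | c (g n : ℕ)
  | d (g n : ℕ)
  | s (g n : ℕ)
  | r (g n : ℕ)
  | nn (C : Rct) (j : ℕ)
  | ww (C : Rct) (j : ℕ)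
  deriving DecidableEq

/-- the valid rectangles, `N` = number of gadgets -/
def Rok (m N : ℕ) : Rct → Prop
  | .FO g => 1 ≤ g ∧ g ≤ N
  | .FL g n => (1 ≤ g ∧ g ≤ N) ∧ 1 ≤ n ∧ n < m
  | .CO g i => (1 ≤ g ∧ g ≤ N) ∧ i < 2
  | .FR g n => (1 ≤ g ∧ g ≤ N) ∧ 1 ≤ n ∧ n < m
  | .FG g => g ≤ N
  | .AX g => 1 ≤ g ∧ g ≤ N
  | .LK g => 1 ≤ g ∧ g ≤ N

/-- the kinds of rectangles that are cells -/
def IsCell : Rct → Prop
  | .FL _ _ => True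
  | .CO _ _ => True
  | .FR _ _ => True
  | .LK _ => True
  | _ => False

/-- the valid cells -/
def Cok (m N : ℕ) (C : Rct) : Prop := IsCell C ∧ Rok m N C

/-- lower left corner of a cell -/
def cv (ts : List Trp) : Rct → Vtx
  | .FL g n => .c g n
  | .CO g i => .d g (pp ts g i)
  | .FR g n => .s g (n + 1)
  | .LK g => .r (g - 1) 1
  | _ => .O 0

/-- upper right corner of a cell -/
def ct (ts : List Trp) : Rct → Vtx
  | .FL g n => .d g (n + 1)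
  | .CO g i => .s g (qq ts g (i + 1))
  | .FR g n => .r g n
  | .LK g => .d g 1
  | _ => .O 0

/-- the valid vertices -/
def Vok (m N : ℕ) : Vtx → Prop
  | .O g => 1 ≤ g ∧ g ≤ N + 1
  | .G g => g ≤ N
  | .a g => 1 ≤ g ∧ g ≤ N
  | .b g => g < N
  | .c g n => (1 ≤ g ∧ g ≤ N) ∧ 1 ≤ n ∧ n ≤ m
  | .d g n => (1 ≤ g ∧ g ≤ N) ∧ 1 ≤ n ∧ n ≤ m
  | .s g n => (1 ≤ g ∧ g ≤ N) ∧ 1 ≤ n ∧ n ≤ m
  | .r g n => g ≤ N ∧ 1 ≤ n ∧ n ≤ m
  | .nn C j => Cok m N C ∧ 2 ≤ j ∧ j ≤ m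
  | .ww C j => Cok m N C ∧ 2 ≤ j ∧ j ≤ m

/-- the edges -/
inductive Edge (m : ℕ) (ts : List Trp) : Vtx → Vtx → Prop
  | Oc (g n : ℕ) : 1 ≤ g → g ≤ ts.length → 1 ≤ n → n ≤ m → Edge m ts (.O g) (.c g n)
  | cc (g n : ℕ) : 1 ≤ g → g ≤ ts.length → 1 ≤ n → n < m → Edge m ts (.c g n) (.c g (n + 1))
  | cd (g n : ℕ) : 1 ≤ g → g ≤ ts.length → 1 ≤ n → n ≤ m → Edge m ts (.c g n) (.d g n)
  | dd (g n : ℕ) : 1 ≤ g → g ≤ ts.length → 1 ≤ n → n < m → Edge m ts (.d g n) (.d g (n + 1))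
  | ds (g i : ℕ) : 1 ≤ g → g ≤ ts.length → i < 3 →
      Edge m ts (.d g (pp ts g i)) (.s g (qq ts g i))
  | ss (g n : ℕ) : 1 ≤ g → g ≤ ts.length → 1 ≤ n → n < m → Edge m ts (.s g (n + 1)) (.s g n)
  | sr (g n : ℕ) : 1 ≤ g → g ≤ ts.length → 1 ≤ n → n ≤ m → Edge m ts (.s g n) (.r g n)
  | rr (g n : ℕ) : g ≤ ts.length → 1 ≤ n → n < m → Edge m ts (.r g (n + 1)) (.r g n)
  | rG (g n : ℕ) : g ≤ ts.length → 1 ≤ n → n ≤ m → Edge m ts (.r g n) (.G g)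
  | sa (g : ℕ) : 1 ≤ g → g ≤ ts.length → Edge m ts (.s g 1) (.a g)
  | aO (g : ℕ) : 1 ≤ g → g ≤ ts.length → Edge m ts (.a g) (.O (g + 1))
  | rO (g : ℕ) : g ≤ ts.length → Edge m ts (.r g 1) (.O (g + 1))
  | Gb (g : ℕ) : g < ts.length → Edge m ts (.G g) (.b g)
  | bd (g : ℕ) : g < ts.length → Edge m ts (.b g) (.d (g + 1) 1)
  | vn (C : Rct) (j : ℕ) : Cok m ts.length C → 2 ≤ j → j ≤ m → Edge m ts (cv ts C) (.nn C j)
  | nw (C : Rct) (j : ℕ) : Cok m ts.length C → 2 ≤ j → j ≤ m → Edge m ts (.nn C j) (.ww C j)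
  | wt (C : Rct) (j : ℕ) : Cok m ts.length C → 2 ≤ j → j ≤ m → Edge m ts (.ww C j) (ct ts C)

/-- the cells of gadget `g` -/
def cellsOf (m g : ℕ) : List Rct :=
  ((List.range' 1 (m - 1)).flatMap fun n => [Rct.FL g n, Rct.FR g n]) ++
    [Rct.CO g 0, Rct.CO g 1, Rct.LK g]

/-- the vertices of gadget `g ≥ 1` -/
def gverts (m g : ℕ) : List Vtx :=
  [Vtx.O g, Vtx.G g, Vtx.a g, Vtx.b (g - 1)] ++
    ((List.range' 1 m).flatMap fun n => [Vtx.c g n, Vtx.d g n, Vtx.s g n, Vtx.r g n]) ++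
    ((cellsOf m g).flatMap fun C => (List.range' 2 (m - 1)).flatMap fun j =>
      [Vtx.nn C j, Vtx.ww C j])

/-- all vertices -/
def verts (m : ℕ) (ts : List Trp) : List Vtx :=
  [Vtx.G 0, Vtx.O (ts.length + 1)] ++ ((List.range' 1 m).map fun n => Vtx.r 0 n) ++
    (List.range' 1 ts.length).flatMap fun g => gverts m g

/-- the edges of gadget `g ≥ 1` -/
def gedges (m : ℕ) (ts : List Trp) (g : ℕ) : List (Vtx × Vtx) :=
  ((List.range' 1 m).flatMap fun n => [(Vtx.O g, Vtx.c g n), (Vtx.c g n, Vtx.d g n),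
      (Vtx.s g n, Vtx.r g n), (Vtx.r g n, Vtx.G g)]) ++
    ((List.range' 1 (m - 1)).flatMap fun n => [(Vtx.c g n, Vtx.c g (n + 1)),
      (Vtx.d g n, Vtx.d g (n + 1)), (Vtx.s g (n + 1), Vtx.s g n),
      (Vtx.r g (n + 1), Vtx.r g n)]) ++
    [(Vtx.d g (pp ts g 0), Vtx.s g (qq ts g 0)), (Vtx.d g (pp ts g 1), Vtx.s g (qq ts g 1)),
      (Vtx.d g (pp ts g 2), Vtx.s g (qq ts g 2)), (Vtx.s g 1, Vtx.a g), (Vtx.a g, Vtx.O (g + 1)),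
      (Vtx.r g 1, Vtx.O (g + 1)), (Vtx.G (g - 1), Vtx.b (g - 1)), (Vtx.b (g - 1), Vtx.d g 1)] ++
    ((cellsOf m g).flatMap fun C => (List.range' 2 (m - 1)).flatMap fun j =>
      [(cv ts C, Vtx.nn C j), (Vtx.nn C j, Vtx.ww C j), (Vtx.ww C j, ct ts C)])

/-- all edges -/
def edges (m : ℕ) (ts : List Trp) : List (Vtx × Vtx) :=
  ((List.range' 1 m).map fun n => (Vtx.r 0 n, Vtx.G 0)) ++
    ((List.range' 1 (m - 1)).map fun n => (Vtx.r 0 (n + 1), Vtx.r 0 n)) ++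
    [(Vtx.r 0 1, Vtx.O 1)] ++ (List.range' 1 ts.length).flatMap fun g => gedges m ts g

end Pool.Agent.Lib.MP_be4430_lc
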