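import Pool.Agent.Lib.MP_be4430_lc.Graph
import Pool.Agent.Lib.MP_be4430_lc.P2_Lists

/-! # Encodings of the vertices -/

namespace Pool.Agent.Lib.MP_be4430_lc

open MP_634427_lc

def Rct.toN : Rct → ℕ × ℕ × ℕ
  | .FO g => (0, g, 0)
  | .FL g n => (1, g, n)
  | .CO g i => (2, g, i)
  | .FR g n => (3, g, n)
  | .FG g => (4, g, 0)
  | .AX g => (5, g, 0)
  | .LK g => (6, g, 0)

instance : Enc Rct := ⟨fun C => enc C.toN⟩

def Vtx.toN : Vtx → ℕ × (ℕ × ℕ × ℕ) × ℕ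
  | .O g => (0, (0, g, 0), 0)
  | .G g => (1, (0, g, 0), 0)
  | .a g => (2, (0, g, 0), 0)
  | .b g => (3, (0, g, 0), 0)
  | .c g n => (4, (0, g, n), 0)
  | .d g n => (5, (0, g, n), 0)
  | .s g n => (6, (0, g, n), 0)
  | .r g n => (7, (0, g, n), 0)
  | .nn C j => (8, C.toN, j)
  | .ww C j => (9, C.toN, j)

instance : Enc Vtx := ⟨fun v => enc v.toN⟩

end Pool.Agent.Lib.MP_be4430_lc
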