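import Pool.Agent.Lib.MP_be4430_lc.TBlock

/-! # The T-system of a quadruple system is well-formed -/

namespace Pool.Agent.Lib.MP_be4430_lc

theorem addT_ok {m a b c : ℕ} (h1 : 2 ≤ a) (h2 : a < b) (h3 : b < c) (h4 : c ≤ m) :
    TrpOK m (addT a b c) := by
  simp only [TrpOK, addT]
  omega

theorem mulT_ok {m a z b c : ℕ} (h1 : 2 ≤ a) (h2 : a < c) (h3 : c ≤ m) (h4 : 2 ≤ z) (h5 : z < b)
    (h6 : b ≤ m) : TrpOK m (mulT a z b c) := by
  simp only [TrpOK, mulT]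
  omega

private theorem H1_tauI_le {N i : ℕ} (h : i < N) : 2 ≤ tauI i ∧ tauI i ≤ 3 + 2 * N := by
  unfold tauI
  split_ifs <;> omega

private theorem H1_VI_le {N i : ℕ} (h : i < N) : 2 ≤ VI i ∧ VI i ≤ 3 + 2 * N := by
  unfold VI
  omega

private theorem H1_opd_lt {N : ℕ} {c : Quad}
    (hc : c.1 < N ∧ c.2.1 < N ∧ c.2.2.1 < N ∧ c.2.2.2 < N) (j : ℕ) : opd c j < N := by
  rcases j with _ | _ | _ | j
  · exact hc.1
  · exact hc.2.1
  · exact hc.2.2.1
  · exact hc.2.2.2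

private theorem H1_refV {N s : ℕ} {c : Quad}
    (hc : c.1 < N ∧ c.2.1 < N ∧ c.2.2.1 < N ∧ c.2.2.2 < N) (h1 : 3 + 2 * N ≤ s) (r : ℕ × ℕ)
    (b : ℕ) (hb : 1 ≤ b) (hr : r.1 = 0 → r.2 < b) :
    2 ≤ refV s c r ∧ refV s c r < s + b := by
  unfold refV
  have ht := H1_tauI_le (H1_opd_lt hc r.2)
  have hV := H1_VI_le (H1_opd_lt hc r.2)
  split_ifs with h0 h2 h3
  · have := hr h0
    omega
  · omega
  · omega
  · omega

/-- the constraints of a block are well-formed if the operands are smaller than `N` and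
`3 + 2 N ≤ s`, `s + 42 ≤ m` -/
theorem block_ok {N s m : ℕ} {c : Quad} (hc : c.1 < N ∧ c.2.1 < N ∧ c.2.2.1 < N ∧ c.2.2.2 < N)
    (h1 : 3 + 2 * N ≤ s) (h2 : s + 42 ≤ m) : ∀ t ∈ block s c, TrpOK m t := by
  intro t ht
  unfold block at ht
  rw [List.mem_append] at ht
  rcases ht with ht | ht
  · rw [List.mem_map] at ht
    obtain ⟨e, he, rfl⟩ := ht
    have key : ∀ e ∈ ADDS, 1 ≤ e.2.1 ∧ e.2.1 < e.2.2 ∧ e.2.2 ≤ 42 ∧ (e.1.1 = 0 → e.1.2 < e.2.1) := by
      decide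
    obtain ⟨k1, k2, k3, k4⟩ := key e he
    obtain ⟨a1, a2⟩ := H1_refV hc h1 e.1 e.2.1 k1 k4
    exact addT_ok a1 a2 (by omega) (by omega)
  · rw [List.mem_map] at ht
    obtain ⟨e, he, rfl⟩ := ht
    have key : ∀ e ∈ MULS, 1 ≤ e.1 ∧ e.1 < e.2.2.2 ∧ e.2.2.2 ≤ 42 ∧ 1 ≤ e.2.1 ∧
        e.2.1 < e.2.2.1 ∧ e.2.2.1 ≤ 42 := by
      decide
    obtain ⟨k1, k2, k3, k4, k5, k6⟩ := key e he
    exact mulT_ok (by omega) (by omega) (by omega) (by omega) (by omega) (by omega)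

theorem tsys_valid {N : ℕ} {cs : List Quad} (hN : 1 ≤ N) (hc : QBelow N cs) :
    TValid (tsys N cs).1 (tsys N cs).2 := by
  refine ⟨by simp [tsys, tcons], ?_⟩
  intro t ht
  simp only [tsys, tcons] at ht ⊢
  rw [List.mem_append] at ht
  rcases ht with ht | ht
  · have h5 : 5 ≤ bst N cs.length := by
      unfold bst
      omega
    simp only [List.mem_cons, List.not_mem_nil, or_false] at ht
    rcases ht with rfl | rfl
    · exact addT_ok (by omega) (by omega) (by omega) (by omega)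
    · exact addT_ok (by omega) (by omega) (by omega) (by omega)
  · rw [List.mem_flatMap] at ht
    obtain ⟨r, hr, ht⟩ := ht
    rw [List.mem_range] at hr
    have hq : cs.getD r (0, 0, 0, 0) ∈ cs := by
      rw [List.getD_eq_getElem _ _ hr]
      exact List.getElem_mem hr
    refine block_ok (hc _ hq) ?_ ?_ t ht
    · unfold bst
      omega
    · unfold bst
      omega

end Pool.Agent.Lib.MP_be4430_lc
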