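import Pool.Agent.Lib.MP_be4430_lc.TBlock

/-! # The meaning of the constraints -/

namespace Pool.Agent.Lib.MP_be4430_lc

/-- strictly increasing -/
theorem inc_lt {x : ℕ → ℚ} {m : ℕ} (hx : ∀ n, 1 ≤ n → n < m → x n < x (n + 1)) {i j : ℕ}
    (h1 : 1 ≤ i) (h2 : i < j) (h3 : j ≤ m) : x i < x j := by
  induction j, h2 using Nat.le_induction with
  | base => exact hx i h1 (by omega)
  | succ j hj ih => exact (ih (by omega)).trans (hx j (by omega) (by omega))

/-- the constraints are invariant under `x ↦ (x - α)/β`, `β > 0` -/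
theorem trpHolds_affine {x : ℕ → ℚ} {t : Trp} (h : TrpHolds x t) (α β : ℚ) (hβ : 0 < β) :
    TrpHolds (fun n => (x n - α) / β) t := by
  obtain ⟨l, u, hl, hu, h1, h2⟩ := h
  have key : ∀ a b : ℚ, l * ((a - α) / β) + u * ((b - α) / β) = (l * a + u * b - (l + u) * α) / β := by
    intro a b
    field_simp
    ring
  refine ⟨l, u, hl, hu, ?_, ?_⟩
  · simp only [key, h1]
  · simp only [key, h2]

theorem trpHolds_addT {X : ℕ → ℚ} (h1 : X 1 = 0) {a b c : ℕ} (hab : X a ≠ X b) :
    TrpHolds X (addT a b c) ↔ X a + X b = X c := by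
  constructor
  · rintro ⟨l, u, hl, hu, e1, e2⟩
    simp only [addT] at e1 e2
    rw [h1] at e2
    have h3 : (l - u) * (X a - X b) = 0 := by linear_combination e1
    have h4 : l = u := by
      rcases mul_eq_zero.1 h3 with h | h
      · linarith
      · exact absurd (sub_eq_zero.1 h) hab
    subst h4
    have h5 : l * (X a + X b - X c) = 0 := by linear_combination e2
    rcases mul_eq_zero.1 h5 with h | h
    · exact absurd h hl.ne'
    · linarith
  · intro h
    refine ⟨1, 1, one_pos, one_pos, ?_, ?_⟩
    · simp only [addT]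
      ring
    · simp only [addT]
      rw [h1, ← h]
      ring

theorem trpHolds_mulT {X : ℕ → ℚ} (h1 : X 1 = 0) {a z b c : ℕ} (hz : X b = X z + 1)
    (ha : 0 < X a) : TrpHolds X (mulT a z b c) ↔ X c = X a * X b := by
  constructor
  · rintro ⟨l, u, hl, hu, e1, e2⟩
    simp only [mulT] at e1 e2
    rw [h1] at e1 e2
    have h3 : u = l * X a := by
      rw [hz] at e1
      linarith
    have h5 : l * (X c - X a * X b) = 0 := by
      rw [h3] at e2
      linear_combination -e2
    rcases mul_eq_zero.1 h5 with h | h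
    · exact absurd h hl.ne'
    · linarith
  · intro h
    refine ⟨1, X a, one_pos, ha, ?_, ?_⟩
    · simp only [mulT]
      rw [h1, hz]
      ring
    · simp only [mulT]
      rw [h1, h]
      ring

end Pool.Agent.Lib.MP_be4430_lc
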