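import Pool.Agent.Lib.MP_be4430_lc.H1_Valid
import Pool.Agent.Lib.MP_be4430_lc.H2_Eqs

/-! # A block forces `y i * y j = y k + y l` -/

namespace Pool.Agent.Lib.MP_be4430_lc

/-- the algebra of a block: with `y i = X (VI i) - 2 * X (tauI i)` -/
theorem block_algebra {X : ℕ → ℚ} {s : ℕ} {c : Quad} (h2 : X 2 = 1)
    (ha : ∀ e ∈ ADDS, X (refV s c e.1) + X (s + e.2.1) = X (s + e.2.2))
    (hm : ∀ e ∈ MULS, X (s + e.2.2.2) = X (s + e.1) * X (s + e.2.2.1)) :
    QHolds (fun i => X (VI i) - 2 * X (tauI i)) c := by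
  obtain ⟨i, j, k, l⟩ := c
  simp only [ADDS, List.forall_mem_cons, refV, opd] at ha
  simp only [MULS, List.forall_mem_cons] at hm
  norm_num at ha
  obtain ⟨a1, a2, a3, a4, a5, a6, a7, a8, a9, a10, a11, a12, a13, a14, a15, a16, a17, a18, a19,
    a20, a21, a22, a23, a24, a25, a26, a27, a28, a29, a30, a31, a32, a33, a34, a35⟩ := ha
  obtain ⟨m1, m2, m3, m4, -⟩ := hm
  show (X (VI i) - 2 * X (tauI i)) * (X (VI j) - 2 * X (tauI j)) =
    (X (VI k) - 2 * X (tauI k)) + (X (VI l) - 2 * X (tauI l))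
  have e3 : X (s + 3) = 2 * X (s + 1) + (X (VI i) - 2 * X (tauI i)) := by linarith
  have e11 : X (s + 11) = 3 * X (s + 7) + (X (VI j) - 2 * X (tauI j)) := by linarith
  have e27 : X (s + 27) = 2 * X (s + 24) + (X (VI k) - 2 * X (tauI k)) := by linarith
  have e34 : X (s + 34) = 2 * X (s + 31) + (X (VI l) - 2 * X (tauI l)) := by linarith
  have e23 : X (s + 23) = X (s + 17) + 6 * X (s + 14) := by linarith
  have e42 : X (s + 42) = X (s + 23) + 2 * X (s + 24) + 2 * X (s + 31) := by linarith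
  have e42' : X (s + 42) = X (s + 27) + X (s + 34) + 2 * X (s + 16) + 3 * X (s + 15) := by
    linarith
  generalize X (VI i) - 2 * X (tauI i) = y0 at *
  generalize X (VI j) - 2 * X (tauI j) = y1 at *
  generalize X (VI k) - 2 * X (tauI k) = y2 at *
  generalize X (VI l) - 2 * X (tauI l) = y3 at *
  rw [e3] at m2 m4
  rw [e11] at m3 m4
  have : X (s + 23) = y2 + y3 + 2 * X (s + 16) + 3 * X (s + 15) := by linarith
  rw [e23, m1, m2, m3, m4] at this
  linear_combination this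

end Pool.Agent.Lib.MP_be4430_lc
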