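import Pool.Agent.Lib.MP_be4430_lc.H3x_Eqs
import Pool.Agent.Lib.MP_be4430_lc.H3y_Algebra

/-! # A block forces `y i * y j = y k + y l` -/
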