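import Pool.Agent.Lib.MP_be4430_lc.H1_Valid
import Pool.Agent.Lib.MP_be4430_lc.H2_Eqs

/-! # A block forces `y i * y j = y k + y l` -/

namespace Pool.Agent.Lib.MP_be4430_lc

private theorem H3x_opd {N : ℕ} {c : Quad}
    (hc : c.1 < N ∧ c.2.1 < N ∧ c.2.2.1 < N ∧ c.2.2.2 < N) (j : ℕ) : opd c j < N := by
  obtain ⟨h1, h2, h3, h4⟩ := hc
  unfold opd
  split <;> assumption

private theorem H3x_ADDS : ∀ e ∈ ADDS, (e.1.1 = 0 → e.1.2 < e.2.1) ∧ 1 ≤ e.2.1 ∧ e.2.1 ≤ 42 := by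
  decide

private theorem H3x_ref {N s : ℕ} {c : Quad}
    (hc : c.1 < N ∧ c.2.1 < N ∧ c.2.2.1 < N ∧ c.2.2.2 < N) (h1 : 3 + 2 * N ≤ s)
    (r : ℕ × ℕ) (b : ℕ) (hb : 1 ≤ b) (hr : r.1 = 0 → r.2 < b) :
    1 ≤ refV s c r ∧ refV s c r < s + b := by
  have ho := H3x_opd hc r.2
  unfold refV
  split_ifs with h h h
  · have := hr h
    omega
  · unfold VI
    omega
  · unfold tauI
    split_ifs <;> omega
  · omega

/-- all additions of a block, as equations -/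
theorem block_adds {X : ℕ → ℚ} {m N s : ℕ} (hX : Norm X m) {c : Quad}
    (hc : c.1 < N ∧ c.2.1 < N ∧ c.2.2.1 < N ∧ c.2.2.2 < N) (h1 : 3 + 2 * N ≤ s)
    (h2 : s + 42 ≤ m) (hN : 1 ≤ N) (h : ∀ t ∈ block s c, TrpHolds X t) :
    ∀ e ∈ ADDS, X (refV s c e.1) + X (s + e.2.1) = X (s + e.2.2) := by
  intro e he
  obtain ⟨e1, e2, e3⟩ := H3x_ADDS e he
  obtain ⟨r1, r2⟩ := H3x_ref hc h1 e.1 e.2.1 e2 e1
  have hlt := inc_lt hX.inc r1 r2 (by omega)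
  have ht := h (addT (refV s c e.1) (s + e.2.1) (s + e.2.2))
    (List.mem_append_left _ (List.mem_map_of_mem (f := fun e => addT (refV s c e.1) (s + e.2.1)
      (s + e.2.2)) he))
  exact (trpHolds_addT hX.x1 hlt.ne).1 ht

private theorem H3x_MULS : ∀ e ∈ MULS, 1 ≤ e.1 ∧ e.1 ≤ 42 ∧
    ((3, 0), e.2.1, e.2.2.1) ∈ ADDS := by
  decide

/-- all multiplications of a block, as equations -/
theorem block_muls {X : ℕ → ℚ} {m N s : ℕ} (hX : Norm X m) {c : Quad}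
    (hc : c.1 < N ∧ c.2.1 < N ∧ c.2.2.1 < N ∧ c.2.2.2 < N) (h1 : 3 + 2 * N ≤ s)
    (h2 : s + 42 ≤ m) (hN : 1 ≤ N) (h : ∀ t ∈ block s c, TrpHolds X t) :
    ∀ e ∈ MULS, X (s + e.2.2.2) = X (s + e.1) * X (s + e.2.2.1) := by
  intro e he
  obtain ⟨e1, e2, e3⟩ := H3x_MULS e he
  have ha := block_adds hX hc h1 h2 hN h _ e3
  have hz : X (s + e.2.2.1) = X (s + e.2.1) + 1 := by
    have h3 : refV s c (3, 0) = 2 := by simp [refV]
    simp only [h3, hX.x2] at ha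
    rw [← ha, add_comm]
  have hpos : 0 < X (s + e.1) := by
    rw [← hX.x1]
    exact inc_lt hX.inc le_rfl (by omega) (by omega)
  have ht := h (mulT (s + e.1) (s + e.2.1) (s + e.2.2.1) (s + e.2.2.2))
    (List.mem_append_right _ (List.mem_map_of_mem (f := fun e : ℕ × ℕ × ℕ × ℕ =>
      mulT (s + e.1) (s + e.2.1) (s + e.2.2.1) (s + e.2.2.2)) he))
  exact (trpHolds_mulT hX.x1 hz hpos).1 ht

end Pool.Agent.Lib.MP_be4430_lc
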