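import Pool.Agent.Lib.MP_be4430_lc.TBlock

/-! # The values of a block for given `V`'s, `τ`'s and four large numbers -/

namespace Pool.Agent.Lib.MP_be4430_lc

/-- The 42 values of a block.  `V j`, `τ j` belong to the operands `j = 0, …, 3`, `y j = V j - 2 τ j`,
`a, b, c, d` are the large numbers `σ₁, σ₂, σ₃, σ₄`. -/
def bval42 (V τ : ℕ → ℚ) (a b c d : ℚ) : List ℚ :=
  let y : ℕ → ℚ := fun j => V j - 2 * τ j
  let P0 := a * b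
  let P2 := (2 * a + y 0) * b
  let P1 := a * (3 * b + y 1)
  let P := (2 * a + y 0) * (3 * b + y 1)
  let S6 := P + 6 * P0
  [a, V 0 + a, 2 * a + y 0, 2 * a + y 0 + τ 0, 2 * a + y 0 + 2 * τ 0,
    b - 1, b, V 1 + b, V 1 + 2 * b, 3 * b + y 1 - 1, 3 * b + y 1, 3 * b + y 1 + τ 1,
    3 * b + y 1 + 2 * τ 1, P0, P2, P1, P, P + P0, P + 2 * P0, P + 3 * P0, P + 4 * P0, P + 5 * P0,
    S6, c, V 2 + c, S6 + c, 2 * c + y 2, 2 * c + y 2 + τ 2, 2 * c + y 2 + 2 * τ 2, S6 + 2 * c,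
    d, V 3 + d, S6 + 2 * c + d, 2 * d + y 3, 2 * d + y 3 + τ 3, 2 * d + y 3 + 2 * τ 3,
    2 * d + y 3 + P1, 2 * d + y 3 + 2 * P1, 2 * d + y 3 + 2 * P1 + P2,
    2 * d + y 3 + 2 * P1 + 2 * P2, 2 * d + y 3 + 2 * P1 + 3 * P2, S6 + 2 * c + 2 * d]

private theorem H5_vals {X : ℕ → ℚ} {s : ℕ} {q : Quad} {a b c d : ℚ}
    (hs : ∀ u, u < 42 → X (s + (u + 1)) =
      (bval42 (fun j => X (VI (opd q j))) (fun j => X (tauI (opd q j))) a b c d).getD u 0)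
    {V0 V1 V2 V3 t0 t1 t2 t3 : ℚ}
    (hV0 : X (VI (opd q 0)) = V0) (hV1 : X (VI (opd q 1)) = V1) (hV2 : X (VI (opd q 2)) = V2)
    (hV3 : X (VI (opd q 3)) = V3) (ht0 : X (tauI (opd q 0)) = t0) (ht1 : X (tauI (opd q 1)) = t1)
    (ht2 : X (tauI (opd q 2)) = t2) (ht3 : X (tauI (opd q 3)) = t3) :
    X (s + 1) = a ∧
    X (s + 2) = V0 + a ∧
    X (s + 3) = 2 * a + (V0 - 2 * t0) ∧
    X (s + 4) = 2 * a + (V0 - 2 * t0) + t0 ∧
    X (s + 5) = 2 * a + (V0 - 2 * t0) + 2 * t0 ∧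
    X (s + 6) = b - 1 ∧
    X (s + 7) = b ∧
    X (s + 8) = V1 + b ∧
    X (s + 9) = V1 + 2 * b ∧
    X (s + 10) = 3 * b + (V1 - 2 * t1) - 1 ∧
    X (s + 11) = 3 * b + (V1 - 2 * t1) ∧
    X (s + 12) = 3 * b + (V1 - 2 * t1) + t1 ∧
    X (s + 13) = 3 * b + (V1 - 2 * t1) + 2 * t1 ∧
    X (s + 14) = (a * b) ∧
    X (s + 15) = ((2 * a + (V0 - 2 * t0)) * b) ∧
    X (s + 16) = (a * (3 * b + (V1 - 2 * t1))) ∧
    X (s + 17) = ((2 * a + (V0 - 2 * t0)) * (3 * b + (V1 - 2 * t1))) ∧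
    X (s + 18) = ((2 * a + (V0 - 2 * t0)) * (3 * b + (V1 - 2 * t1))) + (a * b) ∧
    X (s + 19) = ((2 * a + (V0 - 2 * t0)) * (3 * b + (V1 - 2 * t1))) + 2 * (a * b) ∧
    X (s + 20) = ((2 * a + (V0 - 2 * t0)) * (3 * b + (V1 - 2 * t1))) + 3 * (a * b) ∧
    X (s + 21) = ((2 * a + (V0 - 2 * t0)) * (3 * b + (V1 - 2 * t1))) + 4 * (a * b) ∧
    X (s + 22) = ((2 * a + (V0 - 2 * t0)) * (3 * b + (V1 - 2 * t1))) + 5 * (a * b) ∧
    X (s + 23) = (((2 * a + (V0 - 2 * t0)) * (3 * b + (V1 - 2 * t1))) + 6 * (a * b)) ∧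
    X (s + 24) = c ∧
    X (s + 25) = V2 + c ∧
    X (s + 26) = (((2 * a + (V0 - 2 * t0)) * (3 * b + (V1 - 2 * t1))) + 6 * (a * b)) + c ∧
    X (s + 27) = 2 * c + (V2 - 2 * t2) ∧
    X (s + 28) = 2 * c + (V2 - 2 * t2) + t2 ∧
    X (s + 29) = 2 * c + (V2 - 2 * t2) + 2 * t2 ∧
    X (s + 30) = (((2 * a + (V0 - 2 * t0)) * (3 * b + (V1 - 2 * t1))) + 6 * (a * b)) + 2 * c ∧
    X (s + 31) = d ∧
    X (s + 32) = V3 + d ∧
    X (s + 33) = (((2 * a + (V0 - 2 * t0)) * (3 * b + (V1 - 2 * t1))) + 6 * (a * b)) + 2 * c + d ∧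
    X (s + 34) = 2 * d + (V3 - 2 * t3) ∧
    X (s + 35) = 2 * d + (V3 - 2 * t3) + t3 ∧
    X (s + 36) = 2 * d + (V3 - 2 * t3) + 2 * t3 ∧
    X (s + 37) = 2 * d + (V3 - 2 * t3) + (a * (3 * b + (V1 - 2 * t1))) ∧
    X (s + 38) = 2 * d + (V3 - 2 * t3) + 2 * (a * (3 * b + (V1 - 2 * t1))) ∧
    X (s + 39) = 2 * d + (V3 - 2 * t3) + 2 * (a * (3 * b + (V1 - 2 * t1))) + ((2 * a + (V0 - 2 * t0)) * b) ∧
    X (s + 40) = 2 * d + (V3 - 2 * t3) + 2 * (a * (3 * b + (V1 - 2 * t1))) + 2 * ((2 * a + (V0 - 2 * t0)) * b) ∧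
    X (s + 41) = 2 * d + (V3 - 2 * t3) + 2 * (a * (3 * b + (V1 - 2 * t1))) + 3 * ((2 * a + (V0 - 2 * t0)) * b) ∧
    X (s + 42) = (((2 * a + (V0 - 2 * t0)) * (3 * b + (V1 - 2 * t1))) + 6 * (a * b)) + 2 * c + 2 * d := by
  subst hV0 hV1 hV2 hV3 ht0 ht1 ht2 ht3
  refine ⟨hs 0 (by norm_num), hs 1 (by norm_num), hs 2 (by norm_num), hs 3 (by norm_num), hs 4 (by norm_num), hs 5 (by norm_num), hs 6 (by norm_num), hs 7 (by norm_num), hs 8 (by norm_num), hs 9 (by norm_num), hs 10 (by norm_num), hs 11 (by norm_num), hs 12 (by norm_num), hs 13 (by norm_num), hs 14 (by norm_num), hs 15 (by norm_num), hs 16 (by norm_num), hs 17 (by norm_num), hs 18 (by norm_num), hs 19 (by norm_num), hs 20 (by norm_num), hs 21 (by norm_num), hs 22 (by norm_num), hs 23 (by norm_num), hs 24 (by norm_num), hs 25 (by norm_num), hs 26 (by norm_num), hs 27 (by norm_num), hs 28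 (by norm_num), hs 29 (by norm_num), hs 30 (by norm_num), hs 31 (by norm_num), hs 32 (by norm_num), hs 33 (by norm_num), hs 34 (by norm_num), hs 35 (by norm_num), hs 36 (by norm_num), hs 37 (by norm_num), hs 38 (by norm_num), hs 39 (by norm_num), hs 40 (by norm_num), hs 41 (by norm_num)⟩

/-- the values satisfy the additions (`X u` for references to elements before the block) -/
theorem bval42_adds {X : ℕ → ℚ} {s : ℕ} {q : Quad} {a b c d : ℚ} (h2 : X 2 = 1)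
    (hs : ∀ u, u < 42 → X (s + (u + 1)) =
      (bval42 (fun j => X (VI (opd q j))) (fun j => X (tauI (opd q j))) a b c d).getD u 0)
    (hq : QHolds (fun i => X (VI i) - 2 * X (tauI i)) q) :
    ∀ e ∈ ADDS, X (refV s q e.1) + X (s + e.2.1) = X (s + e.2.2) := by
  obtain ⟨V0, hV0⟩ : ∃ V0, X (VI (opd q 0)) = V0 := ⟨_, rfl⟩
  obtain ⟨V1, hV1⟩ : ∃ V1, X (VI (opd q 1)) = V1 := ⟨_, rfl⟩
  obtain ⟨V2, hV2⟩ : ∃ V2, X (VI (opd q 2)) = V2 := ⟨_, rfl⟩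
  obtain ⟨V3, hV3⟩ : ∃ V3, X (VI (opd q 3)) = V3 := ⟨_, rfl⟩
  obtain ⟨t0, ht0⟩ : ∃ t0, X (tauI (opd q 0)) = t0 := ⟨_, rfl⟩
  obtain ⟨t1, ht1⟩ : ∃ t1, X (tauI (opd q 1)) = t1 := ⟨_, rfl⟩
  obtain ⟨t2, ht2⟩ : ∃ t2, X (tauI (opd q 2)) = t2 := ⟨_, rfl⟩
  obtain ⟨t3, ht3⟩ : ∃ t3, X (tauI (opd q 3)) = t3 := ⟨_, rfl⟩
  obtain ⟨a1, a2, a3, a4, a5, a6, a7, a8, a9, a10, a11, a12, a13, a14, a15, a16, a17, a18, a19, a20, a21, a22, a23, a24, a25, a26, a27, a28, a29, a30, a31, a32, a33, a34, a35, a36, a37, a38, a39, a40, a41, a42⟩ := H5_vals hs hV0 hV1 hV2 hV3 ht0 ht1 ht2 ht3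
  have hq' : (V0 - 2 * t0) * (V1 - 2 * t1) = (V2 - 2 * t2) + (V3 - 2 * t3) := by
    rw [← hV0, ← hV1, ← hV2, ← hV3, ← ht0, ← ht1, ← ht2, ← ht3]
    exact hq
  have r0 : ∀ u, refV s q (0, u) = s + u := fun _ => rfl
  have r1 : ∀ j, refV s q (1, j) = VI (opd q j) := fun _ => rfl
  have r2 : ∀ j, refV s q (2, j) = tauI (opd q j) := fun _ => rfl
  have r3 : refV s q (3, 0) = 2 := rfl
  unfold ADDS
  simp only [List.forall_mem_cons]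
  refine ⟨?_, ?_, ?_, ?_, ?_, ?_, ?_, ?_, ?_, ?_, ?_, ?_, ?_, ?_, ?_, ?_, ?_, ?_, ?_, ?_, ?_, ?_, ?_, ?_, ?_, ?_, ?_, ?_, ?_, ?_, ?_, ?_, ?_, ?_, ?_, ?_⟩
  · rw [r1, hV0, a1, a2] <;> ring
  · rw [r0, a1, a2, a5] <;> ring
  · rw [r2, ht0, a3, a4] <;> ring
  · rw [r2, ht0, a4, a5] <;> ring
  · rw [r1, hV1, a7, a8] <;> ring
  · rw [r0, a7, a8, a9] <;> ring
  · rw [r0, a7, a9, a13] <;> ring
  · rw [r2, ht1, a11, a12] <;> ring
  · rw [r2, ht1, a12, a13] <;> ring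
  · rw [r3, h2, a6, a7] <;> ring
  · rw [r3, h2, a10, a11] <;> ring
  · rw [r0, a14, a17, a18] <;> ring
  · rw [r0, a14, a18, a19] <;> ring
  · rw [r0, a14, a19, a20] <;> ring
  · rw [r0, a14, a20, a21] <;> ring
  · rw [r0, a14, a21, a22] <;> ring
  · rw [r0, a14, a22, a23] <;> ring
  · rw [r1, hV2, a24, a25] <;> ring
  · rw [r0, a24, a25, a29] <;> ring
  · rw [r2, ht2, a27, a28] <;> ring
  · rw [r2, ht2, a28, a29] <;> ring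
  · rw [r0, a23, a24, a26] <;> ring
  · rw [r0, a24, a26, a30] <;> ring
  · rw [r1, hV3, a31, a32] <;> ring
  · rw [r0, a31, a32, a36] <;> ring
  · rw [r2, ht3, a34, a35] <;> ring
  · rw [r2, ht3, a35, a36] <;> ring
  · rw [r0, a30, a31, a33] <;> ring
  · rw [r0, a31, a33, a42] <;> ring
  · rw [r0, a16, a34, a37] <;> ring
  · rw [r0, a16, a37, a38] <;> ring
  · rw [r0, a15, a38, a39] <;> ring
  · rw [r0, a15, a39, a40] <;> ring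
  · rw [r0, a15, a40, a41] <;> ring
  · rw [r0, a27, a41, a42]
    linear_combination (-1 : ℚ) * hq'
  · intro e he
    exact absurd he (List.not_mem_nil)

/-- the values satisfy the multiplications, and the elements `6, 7` and `10, 11` differ by `1` -/
theorem bval42_muls {X : ℕ → ℚ} {s : ℕ} {q : Quad} {a b c d : ℚ}
    (hs : ∀ u, u < 42 → X (s + (u + 1)) =
      (bval42 (fun j => X (VI (opd q j))) (fun j => X (tauI (opd q j))) a b c d).getD u 0) :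
    ∀ e ∈ MULS, X (s + e.2.2.2) = X (s + e.1) * X (s + e.2.2.1) ∧
      X (s + e.2.2.1) = X (s + e.2.1) + 1 := by
  obtain ⟨V0, hV0⟩ : ∃ V0, X (VI (opd q 0)) = V0 := ⟨_, rfl⟩
  obtain ⟨V1, hV1⟩ : ∃ V1, X (VI (opd q 1)) = V1 := ⟨_, rfl⟩
  obtain ⟨V2, hV2⟩ : ∃ V2, X (VI (opd q 2)) = V2 := ⟨_, rfl⟩
  obtain ⟨V3, hV3⟩ : ∃ V3, X (VI (opd q 3)) = V3 := ⟨_, rfl⟩
  obtain ⟨t0, ht0⟩ : ∃ t0, X (tauI (opd q 0)) = t0 := ⟨_, rfl⟩
  obtain ⟨t1, ht1⟩ : ∃ t1, X (tauI (opd q 1)) = t1 := ⟨_, rfl⟩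
  obtain ⟨t2, ht2⟩ : ∃ t2, X (tauI (opd q 2)) = t2 := ⟨_, rfl⟩
  obtain ⟨t3, ht3⟩ : ∃ t3, X (tauI (opd q 3)) = t3 := ⟨_, rfl⟩
  obtain ⟨a1, a2, a3, a4, a5, a6, a7, a8, a9, a10, a11, a12, a13, a14, a15, a16, a17, a18, a19, a20, a21, a22, a23, a24, a25, a26, a27, a28, a29, a30, a31, a32, a33, a34, a35, a36, a37, a38, a39, a40, a41, a42⟩ := H5_vals hs hV0 hV1 hV2 hV3 ht0 ht1 ht2 ht3
  unfold MULS
  simp only [List.forall_mem_cons]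
  refine ⟨?_, ?_, ?_, ?_, ?_⟩
  · constructor
    · rw [a14, a1, a7]
    · rw [a7, a6]
      ring
  · constructor
    · rw [a15, a3, a7]
    · rw [a7, a6]
      ring
  · constructor
    · rw [a16, a1, a11]
    · rw [a11, a10]
      ring
  · constructor
    · rw [a17, a3, a11]
    · rw [a11, a10]
      ring
  · intro e he
    exact absurd he (List.not_mem_nil)

end Pool.Agent.Lib.MP_be4430_lc
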