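import Pool.Agent.Lib.MP_be4430_lc.H5_BlockVals

/-! # The values of a block are increasing if the four numbers are large -/

namespace Pool.Agent.Lib.MP_be4430_lc

private theorem H6_core (M Q a b c d V0 V1 V2 V3 y0 y1 y2 y3 t0 t1 t2 t3 P0 P1 P2 P S6 : ℚ)
    (hM : 1 ≤ M) (hQ : M ≤ Q) (ha : a = 10 * M) (hb : b = 100 * M) (hc : c = 100000 * Q)
    (hd : d = 1000000 * Q)
    (e0 : y0 = V0 - 2 * t0) (e1 : y1 = V1 - 2 * t1) (e2 : y2 = V2 - 2 * t2) (e3 : y3 = V3 - 2 * t3)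
    (p0 : 0 < t0) (p1 : 0 < t1) (p2 : 0 < t2) (p3 : 0 < t3)
    (q0 : 0 < V0) (q1 : 0 < V1) (q2 : 0 < V2) (q3 : 0 < V3)
    (r0 : V0 < M) (r1 : V1 < M) (r2 : V2 < M) (r3 : V3 < M)
    (l0 : -M < y0) (l1 : -M < y1) (l2 : -M < y2) (l3 : -M < y3)
    (u0 : y0 < M) (u1 : y1 < M) (u2 : y2 < M) (u3 : y3 < M)
    (hP0 : P0 = 1000 * Q) (hP2l : 1900 * Q < P2) (hP2u : P2 < 2100 * Q)
    (hP1l : 2990 * Q < P1) (hP1u : P1 < 3010 * Q) (hPl : 5600 * Q < P) (hPu : P < 6400 * Q)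
    (hS6 : S6 = P + 6 * P0) (u : ℕ) (hu : u < 41) :
    ([a, V0 + a, 2 * a + y0, 2 * a + y0 + t0, 2 * a + y0 + 2 * t0, b - 1, b, V1 + b, V1 + 2 *
      b, 3 * b + y1 - 1, 3 * b + y1, 3 * b + y1 + t1, 3 * b + y1 + 2 * t1, P0, P2, P1, P, P +
      P0, P + 2 * P0, P + 3 * P0, P + 4 * P0, P + 5 * P0, S6, c, V2 + c, S6 + c, 2 * c + y2, 2 *
      c + y2 + t2, 2 * c + y2 + 2 * t2, S6 + 2 * c, d, V3 + d, S6 + 2 * c + d, 2 * d + y3, 2 * d
      + y3 + t3, 2 * d + y3 + 2 * t3, 2 * d + y3 + P1, 2 * d + y3 + 2 * P1, 2 * d + y3 + 2 * P1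
      + P2, 2 * d + y3 + 2 * P1 + 2 * P2, 2 * d + y3 + 2 * P1 + 3 * P2, S6 + 2 * c + 2 * d] : List ℚ).getD u 0 < ([a, V0 + a, 2 * a + y0, 2 * a + y0 + t0, 2 * a + y0 + 2 * t0, b - 1, b, V1 + b, V1 + 2 *
      b, 3 * b + y1 - 1, 3 * b + y1, 3 * b + y1 + t1, 3 * b + y1 + 2 * t1, P0, P2, P1, P, P +
      P0, P + 2 * P0, P + 3 * P0, P + 4 * P0, P + 5 * P0, S6, c, V2 + c, S6 + c, 2 * c + y2, 2 *
      c + y2 + t2, 2 * c + y2 + 2 * t2, S6 + 2 * c, d, V3 + d, S6 + 2 * c + d, 2 * d + y3, 2 * d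
      + y3 + t3, 2 * d + y3 + 2 * t3, 2 * d + y3 + P1, 2 * d + y3 + 2 * P1, 2 * d + y3 + 2 * P1
      + P2, 2 * d + y3 + 2 * P1 + 2 * P2, 2 * d + y3 + 2 * P1 + 3 * P2, S6 + 2 * c + 2 * d] : List ℚ).getD (u + 1) 0 := by
  interval_cases u
  · show a < V0 + a
    linarith only [q0]
  · show V0 + a < 2 * a + y0
    linarith only [hM, ha, r0, l0]
  · show 2 * a + y0 < 2 * a + y0 + t0
    linarith only [p0]
  · show 2 * a + y0 + t0 < 2 * a + y0 + 2 * t0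
    linarith only [p0]
  · show 2 * a + y0 + 2 * t0 < b - 1
    linarith only [hM, ha, hb, e0, r0]
  · show b - 1 < b
    linarith only []
  · show b < V1 + b
    linarith only [q1]
  · show V1 + b < V1 + 2 * b
    linarith only [hM, hb]
  · show V1 + 2 * b < 3 * b + y1 - 1
    linarith only [hM, hb, r1, l1]
  · show 3 * b + y1 - 1 < 3 * b + y1
    linarith only []
  · show 3 * b + y1 < 3 * b + y1 + t1
    linarith only [p1]
  · show 3 * b + y1 + t1 < 3 * b + y1 + 2 * t1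
    linarith only [p1]
  · show 3 * b + y1 + 2 * t1 < P0
    linarith only [hM, hQ, hb, e1, r1, hP0]
  · show P0 < P2
    linarith only [hM, hQ, hP0, hP2l]
  · show P2 < P1
    linarith only [hM, hQ, hP2u, hP1l]
  · show P1 < P
    linarith only [hM, hQ, hP1u, hPl]
  · show P < P + P0
    linarith only [hM, hQ, hP0]
  · show P + P0 < P + 2 * P0
    linarith only [hM, hQ, hP0]
  · show P + 2 * P0 < P + 3 * P0
    linarith only [hM, hQ, hP0]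
  · show P + 3 * P0 < P + 4 * P0
    linarith only [hM, hQ, hP0]
  · show P + 4 * P0 < P + 5 * P0
    linarith only [hM, hQ, hP0]
  · show P + 5 * P0 < S6
    linarith only [hM, hQ, hP0, hS6]
  · show S6 < c
    linarith only [hM, hQ, hS6, hPu, hP0, hc]
  · show c < V2 + c
    linarith only [q2]
  · show V2 + c < S6 + c
    linarith only [hM, hQ, r2, hS6, hPl, hP0]
  · show S6 + c < 2 * c + y2
    linarith only [hM, hQ, hS6, hPu, hP0, hc, l2]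
  · show 2 * c + y2 < 2 * c + y2 + t2
    linarith only [p2]
  · show 2 * c + y2 + t2 < 2 * c + y2 + 2 * t2
    linarith only [p2]
  · show 2 * c + y2 + 2 * t2 < S6 + 2 * c
    linarith only [hM, hQ, e2, r2, hS6, hPl, hP0]
  · show S6 + 2 * c < d
    linarith only [hM, hQ, hS6, hPu, hP0, hc, hd]
  · show d < V3 + d
    linarith only [q3]
  · show V3 + d < S6 + 2 * c + d
    linarith only [hM, hQ, r3, hS6, hPl, hP0, hc]
  · show S6 + 2 * c + d < 2 * d + y3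
    linarith only [hM, hQ, hS6, hPu, hP0, hc, hd, l3]
  · show 2 * d + y3 < 2 * d + y3 + t3
    linarith only [p3]
  · show 2 * d + y3 + t3 < 2 * d + y3 + 2 * t3
    linarith only [p3]
  · show 2 * d + y3 + 2 * t3 < 2 * d + y3 + P1
    linarith only [hM, hQ, e3, r3, l3, hP1l]
  · show 2 * d + y3 + P1 < 2 * d + y3 + 2 * P1
    linarith only [hM, hQ, hP1l]
  · show 2 * d + y3 + 2 * P1 < 2 * d + y3 + 2 * P1 + P2
    linarith only [hM, hQ, hP2l]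
  · show 2 * d + y3 + 2 * P1 + P2 < 2 * d + y3 + 2 * P1 + 2 * P2
    linarith only [hM, hQ, hP2l]
  · show 2 * d + y3 + 2 * P1 + 2 * P2 < 2 * d + y3 + 2 * P1 + 3 * P2
    linarith only [hM, hQ, hP2l]
  · show 2 * d + y3 + 2 * P1 + 3 * P2 < S6 + 2 * c + 2 * d
    linarith only [hM, hQ, u3, hP1u, hP2u, hS6, hPl, hP0, hc]

/-- With `0 < τ j < M`, `0 < V j < M`, `|y j| < M` (`y j = V j - 2 τ j`), `1 ≤ M` and
`a = 10 M`, `b = 100 M`, `c = 100000 M ^ 2`, `d = 1000000 M ^ 2` the values increase and are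
all larger than `M`.  (Check: `S6 ≤ (21 M)(301 M) + 6000 M ^ 2 < 12400 M ^ 2`.)  The product
condition `y 0 * y 1 = y 2 + y 3` is needed only for the last step. -/
theorem bval42_inc {V τ : ℕ → ℚ} {M : ℚ} (hM : 1 ≤ M)
    (h : ∀ j, j < 4 → 0 < τ j ∧ τ j < M ∧ 0 < V j ∧ V j < M ∧ |V j - 2 * τ j| < M)
    (u : ℕ) (hu : u < 41) :
    (bval42 V τ (10 * M) (100 * M) (100000 * M ^ 2) (1000000 * M ^ 2)).getD u 0 <
      (bval42 V τ (10 * M) (100 * M) (100000 * M ^ 2) (1000000 * M ^ 2)).getD (u + 1) 0 := by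
  obtain ⟨p0, -, q0, r0, a0⟩ := h 0 (by norm_num)
  obtain ⟨p1, -, q1, r1, a1⟩ := h 1 (by norm_num)
  obtain ⟨p2, -, q2, r2, a2⟩ := h 2 (by norm_num)
  obtain ⟨p3, -, q3, r3, a3⟩ := h 3 (by norm_num)
  obtain ⟨l0, u0⟩ := abs_lt.1 a0
  obtain ⟨l1, u1⟩ := abs_lt.1 a1
  obtain ⟨l2, u2⟩ := abs_lt.1 a2
  obtain ⟨l3, u3⟩ := abs_lt.1 a3
  have hM0 : 0 < M := by linarith
  have hQ : M ≤ M ^ 2 := by nlinarith
  have hX1 : 19 * M < 2 * (10 * M) + (V 0 - 2 * τ 0) := by linarith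
  have hX2 : 2 * (10 * M) + (V 0 - 2 * τ 0) < 21 * M := by linarith
  have hY1 : 299 * M < 3 * (100 * M) + (V 1 - 2 * τ 1) := by linarith
  have hY2 : 3 * (100 * M) + (V 1 - 2 * τ 1) < 301 * M := by linarith
  refine H6_core M (M ^ 2) (10 * M) (100 * M) (100000 * M ^ 2) (1000000 * M ^ 2)
    (V 0) (V 1) (V 2) (V 3) (V 0 - 2 * τ 0) (V 1 - 2 * τ 1) (V 2 - 2 * τ 2) (V 3 - 2 * τ 3)
    (τ 0) (τ 1) (τ 2) (τ 3) (10 * M * (100 * M))
    (10 * M * (3 * (100 * M) + (V 1 - 2 * τ 1)))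
    ((2 * (10 * M) + (V 0 - 2 * τ 0)) * (100 * M))
    ((2 * (10 * M) + (V 0 - 2 * τ 0)) * (3 * (100 * M) + (V 1 - 2 * τ 1)))
    ((2 * (10 * M) + (V 0 - 2 * τ 0)) * (3 * (100 * M) + (V 1 - 2 * τ 1)) +
      6 * (10 * M * (100 * M)))
    hM hQ rfl rfl rfl rfl rfl rfl rfl rfl p0 p1 p2 p3 q0 q1 q2 q3 r0 r1 r2 r3 l0 l1 l2 l3
    u0 u1 u2 u3 (by ring) ?_ ?_ ?_ ?_ ?_ ?_ rfl u hu
  · nlinarith [mul_lt_mul_of_pos_right hX1 hM0]
  · nlinarith [mul_lt_mul_of_pos_right hX2 hM0]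
  · nlinarith [mul_lt_mul_of_pos_left hY1 hM0]
  · nlinarith [mul_lt_mul_of_pos_left hY2 hM0]
  · have h1 : 19 * M * (299 * M) < (2 * (10 * M) + (V 0 - 2 * τ 0)) *
        (3 * (100 * M) + (V 1 - 2 * τ 1)) :=
      mul_lt_mul'' hX1 hY1 (by positivity) (by positivity)
    nlinarith
  · have h1 : (2 * (10 * M) + (V 0 - 2 * τ 0)) * (3 * (100 * M) + (V 1 - 2 * τ 1)) <
        21 * M * (301 * M) :=
      mul_lt_mul'' hX2 hY2 (by linarith) (by linarith)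
    nlinarith

theorem bval42_first {V τ : ℕ → ℚ} {M : ℚ} :
    (bval42 V τ (10 * M) (100 * M) (100000 * M ^ 2) (1000000 * M ^ 2)).getD 0 0 = 10 * M := by
  rfl

end Pool.Agent.Lib.MP_be4430_lc
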