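import Pool.Agent.Lib.MP_be4430_lc.H1_Valid
import Pool.Agent.Lib.MP_be4430_lc.H2_Eqs
import Pool.Agent.Lib.MP_be4430_lc.H6_BlockInc

/-! # Extending a solution by one block, and the start -/

namespace Pool.Agent.Lib.MP_be4430_lc

/-- the values `V i` -/
private def h7xV (y : ℕ → ℚ) : ℕ → ℚ
  | 0 => 5
  | i + 1 => 2 * (h7xV y i + |y (i + 1)| + 1) + y (i + 1)

private theorem h7xV_pos (y : ℕ → ℚ) (i : ℕ) : 0 < h7xV y i := by
  induction i with
  | zero => show (0 : ℚ) < 5; norm_num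
  | succ i ih =>
    show 0 < 2 * (h7xV y i + |y (i + 1)| + 1) + y (i + 1)
    have := neg_abs_le (y (i + 1))
    have := abs_nonneg (y (i + 1))
    linarith

/-- all values -/
private def h7xX (y : ℕ → ℚ) (n : ℕ) : ℚ :=
  if n ≤ 1 then 0 else if n = 2 then 1 else if n = 3 then 2 else if n = 4 then 3 else
    if n % 2 = 1 then h7xV y ((n - 5) / 2) else h7xV y ((n - 6) / 2) + |y ((n - 4) / 2)| + 1

private theorem h7xX_odd (y : ℕ → ℚ) (i : ℕ) : h7xX y (5 + 2 * i) = h7xV y i := by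
  unfold h7xX
  rw [if_neg (by omega), if_neg (by omega), if_neg (by omega), if_neg (by omega),
    if_pos (by omega)]
  congr 1
  omega

private theorem h7xX_even (y : ℕ → ℚ) (i : ℕ) :
    h7xX y (6 + 2 * i) = h7xV y i + |y (i + 1)| + 1 := by
  unfold h7xX
  rw [if_neg (by omega), if_neg (by omega), if_neg (by omega), if_neg (by omega),
    if_neg (by omega)]
  have h1 : (6 + 2 * i - 6) / 2 = i := by omega
  have h2 : (6 + 2 * i - 4) / 2 = i + 1 := by omega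
  rw [h1, h2]

private theorem h7xX_inc (y : ℕ → ℚ) (n : ℕ) (hn : 1 ≤ n) : h7xX y n < h7xX y (n + 1) := by
  rcases (by omega : n = 1 ∨ n = 2 ∨ n = 3 ∨ n = 4 ∨ 5 ≤ n) with rfl | rfl | rfl | rfl | h
  · show (0 : ℚ) < 1
    norm_num
  · show (1 : ℚ) < 2
    norm_num
  · show (2 : ℚ) < 3
    norm_num
  · show (3 : ℚ) < h7xX y (5 + 2 * 0)
    rw [h7xX_odd]
    show (3 : ℚ) < 5
    norm_num
  · rcases Nat.even_or_odd n with he | ho
    · obtain ⟨i, rfl⟩ : ∃ i, n = 6 + 2 * i := by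
        obtain ⟨k, hk⟩ := he
        exact ⟨k - 3, by omega⟩
      have h1 : 6 + 2 * i + 1 = 5 + 2 * (i + 1) := by ring
      rw [h1, h7xX_odd, h7xX_even]
      show _ < 2 * (h7xV y i + |y (i + 1)| + 1) + y (i + 1)
      have := neg_abs_le (y (i + 1))
      have := h7xV_pos y i
      linarith
    · obtain ⟨i, rfl⟩ : ∃ i, n = 5 + 2 * i := by
        obtain ⟨k, hk⟩ := ho
        exact ⟨k - 2, by omega⟩
      have h1 : 5 + 2 * i + 1 = 6 + 2 * i := by ring
      rw [h1, h7xX_odd, h7xX_even]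
      have := abs_nonneg (y (i + 1))
      linarith

/-- the elements `1, …, 3 + 2 N` -/
theorem start_exists {N : ℕ} (hN : 1 ≤ N) {y : ℕ → ℚ} (hy : y 0 = 1) :
    ∃ X : ℕ → ℚ, Norm X (3 + 2 * N) ∧ (∀ i, i < N → X (VI i) - 2 * X (tauI i) = y i) ∧
      TrpHolds X (addT 2 3 4) ∧ TrpHolds X (addT 3 4 5) := by
  have h5 : h7xX y 5 = 5 := h7xX_odd y 0
  refine ⟨h7xX y, ⟨rfl, rfl, fun n h1 _ => h7xX_inc y n h1⟩, ?_, ?_, ?_⟩
  · intro i hi
    rcases Nat.eq_zero_or_pos i with rfl | hpos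
    · show h7xX y 5 - 2 * h7xX y 3 = y 0
      rw [h5, hy]
      show (5 : ℚ) - 2 * 2 = 1
      norm_num
    · obtain ⟨j, rfl⟩ : ∃ j, i = j + 1 := ⟨i - 1, by omega⟩
      have h1 : VI (j + 1) = 5 + 2 * (j + 1) := rfl
      have h2 : tauI (j + 1) = 6 + 2 * j := by
        unfold tauI
        rw [if_neg (by omega)]
        ring
      rw [h1, h2, h7xX_odd, h7xX_even]
      show 2 * (h7xV y j + |y (j + 1)| + 1) + y (j + 1) - _ = _
      ring
  · refine ⟨1, 1, one_pos, one_pos, ?_, ?_⟩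
    · show (1 : ℚ) * h7xX y 2 + 1 * h7xX y 3 = 1 * h7xX y 3 + 1 * h7xX y 2
      ring
    · show (1 : ℚ) * 1 + 1 * 2 = 1 * 3 + 1 * 0
      norm_num
  · refine ⟨1, 1, one_pos, one_pos, ?_, ?_⟩
    · show (1 : ℚ) * h7xX y 3 + 1 * h7xX y 4 = 1 * h7xX y 4 + 1 * h7xX y 3
      ring
    · show (1 : ℚ) * 2 + 1 * 3 = 1 * h7xX y 5 + 1 * 0
      rw [h5]
      norm_num

/-- a constraint with all indices at most `s` does not see changes above `s` -/
theorem trpHolds_congr {s : ℕ} {X X' : ℕ → ℚ} (h : ∀ n, n ≤ s → X' n = X n) {t : Trp}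
    (ht : TrpOK s t) (hX : TrpHolds X t) : TrpHolds X' t := by
  obtain ⟨l, u, hl, hu, e1, e2⟩ := hX
  obtain ⟨k1, k2, k3, k4, k5, k6, k7, k8⟩ := ht
  refine ⟨l, u, hl, hu, ?_, ?_⟩
  · rw [h _ (by omega), h _ (by omega), h _ (by omega), h _ (by omega)]
    exact e1
  · rw [h _ (by omega), h _ (by omega), h _ (by omega), h _ (by omega)]
    exact e2

end Pool.Agent.Lib.MP_be4430_lc
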