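import Pool.Agent.Lib.MP_be4430_lc.H1_Valid
import Pool.Agent.Lib.MP_be4430_lc.H2_Eqs
import Pool.Agent.Lib.MP_be4430_lc.H6_BlockInc
import Pool.Agent.Lib.MP_be4430_lc.H7x_Start

/-! # Extending a solution by one block, and the start -/

namespace Pool.Agent.Lib.MP_be4430_lc

private theorem H7y_tauI_le {N i : ℕ} (h : i < N) : 2 ≤ tauI i ∧ tauI i ≤ 3 + 2 * N := by
  unfold tauI
  split_ifs <;> omega

private theorem H7y_VI_le {N i : ℕ} (h : i < N) : 2 ≤ VI i ∧ VI i ≤ 3 + 2 * N := by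
  unfold VI
  omega

private theorem H7y_opd_lt {N : ℕ} {c : Quad}
    (hc : c.1 < N ∧ c.2.1 < N ∧ c.2.2.1 < N ∧ c.2.2.2 < N) (j : ℕ) : opd c j < N := by
  rcases j with _ | _ | _ | j
  · exact hc.1
  · exact hc.2.1
  · exact hc.2.2.1
  · exact hc.2.2.2

/-- one more block -/
theorem extend_block {N s : ℕ} {X : ℕ → ℚ} (h1 : 3 + 2 * N ≤ s) (hN : 1 ≤ N) (hX : Norm X s)
    {q : Quad} (hc : q.1 < N ∧ q.2.1 < N ∧ q.2.2.1 < N ∧ q.2.2.2 < N)
    (hq : QHolds (fun i => X (VI i) - 2 * X (tauI i)) q) :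
    ∃ X' : ℕ → ℚ, Norm X' (s + 42) ∧ (∀ n, n ≤ s → X' n = X n) ∧
      ∀ t ∈ block s q, TrpHolds X' t := by
  have hpos : ∀ i, 2 ≤ i → i ≤ s → 0 < X i := by
    intro i hi1 hi2
    have := inc_lt hX.inc (le_refl 1) (by omega : 1 < i) hi2
    rwa [hX.x1] at this
  have hle : ∀ i, 2 ≤ i → i ≤ s → X i ≤ X s := by
    intro i hi1 hi2
    rcases Nat.lt_or_eq_of_le hi2 with h | h
    · exact (inc_lt hX.inc (by omega : 1 ≤ i) h le_rfl).le
    · rw [h]
  have hs0 : 0 < X s := hpos s (by omega) le_rfl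
  obtain ⟨M, hM⟩ : ∃ M : ℚ, M = 2 * X s + 1 := ⟨_, rfl⟩
  have hM1 : 1 ≤ M := by linarith
  have hbd : ∀ j, j < 4 → 0 < X (tauI (opd q j)) ∧ X (tauI (opd q j)) < M ∧
      0 < X (VI (opd q j)) ∧ X (VI (opd q j)) < M ∧
      |X (VI (opd q j)) - 2 * X (tauI (opd q j))| < M := by
    intro j _
    obtain ⟨t1, t2⟩ := H7y_tauI_le (H7y_opd_lt hc j)
    obtain ⟨v1, v2⟩ := H7y_VI_le (H7y_opd_lt hc j)
    have p1 := hpos _ t1 (by omega)
    have p2 := hpos _ v1 (by omega)
    have l1 := hle _ t1 (by omega)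
    have l2 := hle _ v1 (by omega)
    refine ⟨p1, by linarith, p2, by linarith, ?_⟩
    rw [abs_lt]
    constructor <;> linarith
  obtain ⟨L, hL⟩ : ∃ L : List ℚ, L = bval42 (fun j => X (VI (opd q j)))
    (fun j => X (tauI (opd q j))) (10 * M) (100 * M) (100000 * M ^ 2) (1000000 * M ^ 2) := ⟨_, rfl⟩
  have hLinc : ∀ u, u < 41 → L.getD u 0 < L.getD (u + 1) 0 := by
    intro u hu
    rw [hL]
    exact bval42_inc hM1 hbd u hu
  have hL0 : L.getD 0 0 = 10 * M := by
    rw [hL]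
    exact bval42_first
  let X' : ℕ → ℚ := fun n => if n ≤ s then X n else L.getD (n - s - 1) 0
  have e1 : ∀ n, n ≤ s → X' n = X n := fun n hn => if_pos hn
  have e2 : ∀ u, X' (s + (u + 1)) = L.getD u 0 := by
    intro u
    have : ¬ (s + (u + 1) ≤ s) := by omega
    show (if s + (u + 1) ≤ s then X (s + (u + 1)) else L.getD (s + (u + 1) - s - 1) 0) = _
    rw [if_neg this]
    congr 1
    omega
  have hnorm : Norm X' (s + 42) := by
    refine ⟨?_, ?_, ?_⟩
    · rw [e1 1 (by omega)]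
      exact hX.x1
    · rw [e1 2 (by omega)]
      exact hX.x2
    · intro n hn1 hn2
      rcases Nat.lt_trichotomy n s with h | h | h
      · rw [e1 n h.le, e1 (n + 1) h]
        exact hX.inc n hn1 h
      · subst h
        have : X' (n + 1) = L.getD 0 0 := e2 0
        rw [e1 n le_rfl, this, hL0]
        linarith
      · obtain ⟨u, rfl⟩ : ∃ u, n = s + (u + 1) := ⟨n - s - 1, by omega⟩
        have : X' (s + (u + 1) + 1) = L.getD (u + 1) 0 := e2 (u + 1)
        rw [e2 u, this]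
        exact hLinc u (by omega)
  have hV : (fun j => X' (VI (opd q j))) = fun j => X (VI (opd q j)) := by
    funext j
    exact e1 _ (by have := (H7y_VI_le (H7y_opd_lt hc j)).2; omega)
  have hτ : (fun j => X' (tauI (opd q j))) = fun j => X (tauI (opd q j)) := by
    funext j
    exact e1 _ (by have := (H7y_tauI_le (H7y_opd_lt hc j)).2; omega)
  have hs : ∀ u, u < 42 → X' (s + (u + 1)) =
      (bval42 (fun j => X' (VI (opd q j))) (fun j => X' (tauI (opd q j))) (10 * M) (100 * M)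
        (100000 * M ^ 2) (1000000 * M ^ 2)).getD u 0 := by
    intro u _
    rw [hV, hτ, e2 u, hL]
  have hq' : QHolds (fun i => X' (VI i) - 2 * X' (tauI i)) q := by
    have key : ∀ i, i < N → X' (VI i) - 2 * X' (tauI i) = X (VI i) - 2 * X (tauI i) := by
      intro i hi
      rw [e1 (VI i) (by have := (H7y_VI_le hi).2; omega),
        e1 (tauI i) (by have := (H7y_tauI_le hi).2; omega)]
    have hq2 : (X (VI q.1) - 2 * X (tauI q.1)) * (X (VI q.2.1) - 2 * X (tauI q.2.1)) =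
        (X (VI q.2.2.1) - 2 * X (tauI q.2.2.1)) + (X (VI q.2.2.2) - 2 * X (tauI q.2.2.2)) := hq
    show (X' (VI q.1) - 2 * X' (tauI q.1)) * (X' (VI q.2.1) - 2 * X' (tauI q.2.1)) =
        (X' (VI q.2.2.1) - 2 * X' (tauI q.2.2.1)) + (X' (VI q.2.2.2) - 2 * X' (tauI q.2.2.2))
    rw [key _ hc.1, key _ hc.2.1, key _ hc.2.2.1, key _ hc.2.2.2]
    exact hq2
  have hadds := bval42_adds hnorm.x2 hs hq'
  have hmuls := bval42_muls hs
  refine ⟨X', hnorm, e1, ?_⟩
  intro t ht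
  have hok := block_ok hc h1 (le_refl (s + 42)) t ht
  unfold block at ht
  rw [List.mem_append] at ht
  rcases ht with ht | ht
  · rw [List.mem_map] at ht
    obtain ⟨e, he, rfl⟩ := ht
    have hlt : X' (refV s q e.1) < X' (s + e.2.1) := by
      obtain ⟨k1, k2, k3, k4, -⟩ := hok
      simp only [addT] at k1 k2 k3 k4
      exact inc_lt hnorm.inc k1 k2 (by omega)
    exact (trpHolds_addT hnorm.x1 hlt.ne).mpr (hadds e he)
  · rw [List.mem_map] at ht
    obtain ⟨e, he, rfl⟩ := ht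
    obtain ⟨m1, m2⟩ := hmuls e he
    have hlt : 0 < X' (s + e.1) := by
      obtain ⟨k1, k2, k3, k4, -⟩ := hok
      simp only [mulT] at k1 k2 k3 k4
      have := inc_lt hnorm.inc (le_refl 1) k2 (by omega)
      rwa [hnorm.x1] at this
    exact (trpHolds_mulT hnorm.x1 m2 hlt).mpr m1

end Pool.Agent.Lib.MP_be4430_lc
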