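import Pool.Agent.Lib.MP_be4430_lc.H7x_Start
import Pool.Agent.Lib.MP_be4430_lc.H7y_Block

/-! # Extending a solution by one block, and the start -/
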