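import Pool.Agent.Lib.MP_be4430_lc.QSys

/-! # Subtrees, and the value of a term -/

namespace Pool.Agent.Lib.MP_be4430_lc

open MP_634427_lc

theorem self_mem_subtrees (T : BT) : T ∈ subtrees T := by
  cases T <;> simp [subtrees]

theorem mem_subtrees_trans {A B C : BT} (h1 : A ∈ subtrees B) (h2 : B ∈ subtrees C) :
    A ∈ subtrees C := by
  induction C with
  | nil =>
    simp only [subtrees, List.mem_singleton] at h2
    subst h2
    exact h1
  | node a b iha ihb =>
    simp only [subtrees, List.mem_cons, List.mem_append] at h2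
    rcases h2 with h2 | h2 | h2
    · subst h2
      exact h1
    · simp only [subtrees, List.mem_cons, List.mem_append]
      exact Or.inr (Or.inl (iha h2))
    · simp only [subtrees, List.mem_cons, List.mem_append]
      exact Or.inr (Or.inr (ihb h2))

theorem subtrees_right {a b T : BT} (h : BT.node a b ∈ subtrees T) :
    a ∈ subtrees T ∧ b ∈ subtrees T := by
  constructor
  · refine mem_subtrees_trans ?_ h
    simp only [subtrees, List.mem_cons, List.mem_append]
    exact Or.inr (Or.inl (self_mem_subtrees a))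
  · refine mem_subtrees_trans ?_ h
    simp only [subtrees, List.mem_cons, List.mem_append]
    exact Or.inr (Or.inr (self_mem_subtrees b))

/-- the value of a term -/
theorem val_term {T : BT} {y : Nm → ℚ} (h1 : y ONE = 1) (h0 : y ZZ = 0)
    (h : ∀ U ∈ subtrees T, ∀ c ∈ consOf U, NHolds y c) (s : Trm) (hs : s.toBT ∈ subtrees T) :
    y (s.toBT, 0) = s.eval fun i => y ((Trm.var i).toBT, 0) := by
  induction s with
  | zero =>
    have h2 := h _ hs ((Trm.zero.toBT, 0), ONE, ZZ, ZZ)
      (show _ ∈ [((Trm.zero.toBT, 0), ONE, ZZ, ZZ)] from List.mem_singleton.2 rfl)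
    simp only [NHolds, h1, h0] at h2
    simp only [Trm.eval]
    linarith
  | one =>
    have h2 := h _ hs ((Trm.one.toBT, 0), ONE, ONE, ZZ)
      (show _ ∈ [((Trm.one.toBT, 0), ONE, ONE, ZZ)] from List.mem_singleton.2 rfl)
    simp only [NHolds, h1, h0] at h2
    simp only [Trm.eval]
    linarith
  | var i => rfl
  | add s t ihs iht =>
    obtain ⟨-, hr⟩ := subtrees_right hs
    obtain ⟨hs1, ht1⟩ := subtrees_right hr
    have h2 := h _ hs (((Trm.add s t).toBT, 0), ONE, (s.toBT, 0), (t.toBT, 0))
      (show _ ∈ [(((Trm.add s t).toBT, 0), ONE, (s.toBT, 0), (t.toBT, 0))] from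
        List.mem_singleton.2 rfl)
    simp only [NHolds, h1] at h2
    simp only [Trm.eval, ← ihs hs1, ← iht ht1]
    linarith
  | mul s t ihs iht =>
    obtain ⟨-, hr⟩ := subtrees_right hs
    obtain ⟨hs1, ht1⟩ := subtrees_right hr
    have h2 := h _ hs ((s.toBT, 0), (t.toBT, 0), ((Trm.mul s t).toBT, 0), ZZ)
      (show _ ∈ [((s.toBT, 0), (t.toBT, 0), ((Trm.mul s t).toBT, 0), ZZ)] from
        List.mem_singleton.2 rfl)
    simp only [NHolds, h0] at h2
    simp only [Trm.eval, ← ihs hs1, ← iht ht1]
    linarith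

end Pool.Agent.Lib.MP_be4430_lc
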