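import Pool.Agent.Lib.MP_be4430_lc.QSys

/-! # Recursion on trees; four squares; the values of all trees -/

namespace Pool.Agent.Lib.MP_be4430_lc

open MP_634427_lc

/-- the values of a tree and of its two components -/
private def J2x_R (F : BT → BT → ℚ → ℚ → ℚ → ℚ) (c : ℚ) : BT → ℚ × ℚ × ℚ
  | .nil => (c, c, c)
  | .node a b => (F a b (J2x_R F c b).1 (J2x_R F c b).2.1 (J2x_R F c b).2.2,
      (J2x_R F c a).1, (J2x_R F c b).1)

/-- recursion on trees with access to the values of the payload and its two components -/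
theorem exists_rec (F : BT → BT → ℚ → ℚ → ℚ → ℚ) (c : ℚ) :
    ∃ w : BT → ℚ, w .nil = c ∧
      ∀ tg pl, w (.node tg pl) = F tg pl (w pl) (w pl.left) (w pl.right) := by
  refine ⟨fun T => (J2x_R F c T).1, rfl, fun tg pl => ?_⟩
  have h : ∀ T : BT, (J2x_R F c T.left).1 = (J2x_R F c T).2.1 ∧
      (J2x_R F c T.right).1 = (J2x_R F c T).2.2 := by
    intro T
    cases T with
    | nil => exact ⟨rfl, rfl⟩
    | node a b => exact ⟨rfl, rfl⟩
  show F tg pl (J2x_R F c pl).1 (J2x_R F c pl).2.1 (J2x_R F c pl).2.2 = _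
  rw [← (h pl).1, ← (h pl).2]

/-- every nonnegative rational is a sum of four squares -/
theorem four_squares {q : ℚ} (hq : 0 ≤ q) : ∃ a b c d : ℚ, q = a * a + b * b + (c * c + d * d) := by
  obtain ⟨n, hn⟩ : ∃ n : ℕ, q * q.den * q.den = n := by
    have h1 : q * q.den = q.num := Rat.mul_den_eq_num q
    have h2 : (0 : ℤ) ≤ q.num := Rat.num_nonneg.2 hq
    refine ⟨q.num.toNat * q.den, ?_⟩
    rw [h1]
    push_cast
    have h3 : ((q.num.toNat : ℤ) : ℚ) = (q.num : ℚ) := by rw [Int.toNat_of_nonneg h2]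
    rw [← h3]
    push_cast
    ring
  obtain ⟨a, b, c, d, h⟩ := Nat.sum_four_squares n
  have hd : (q.den : ℚ) ≠ 0 := Nat.cast_ne_zero.2 q.den_ne_zero
  refine ⟨a / q.den, b / q.den, c / q.den, d / q.den, ?_⟩
  have h4 : (a : ℚ) ^ 2 + (b : ℚ) ^ 2 + (c : ℚ) ^ 2 + (d : ℚ) ^ 2 = n := by exact_mod_cast h
  rw [← hn] at h4
  field_simp
  linarith

/-- the value of every tree, mirroring `consOf`; `v` gives the values of the variables -/
noncomputable def stepF (v : ℕ → ℚ) (tg pl : BT) (wp ws wt : ℚ) : ℚ :=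
  if tg = un 0 then 0 else if tg = un 1 then 1 else if tg = un 2 then v (spine pl) else
  if tg = un 3 then ws + wt else if tg = un 4 then ws * wt else
  if tg = un 5 then (if ws = wt then 1 else 0) else
  if tg = un 6 then (if ws < wt then 1 else 0) else
  if tg = un 7 then 1 - wp else if tg = un 8 then ws * wt else
  if tg = un 9 then 1 - (1 - ws) * (1 - wt) else 0

theorem stepF_term {v : ℕ → ℚ} {w : BT → ℚ}
    (hw : ∀ tg pl, w (.node tg pl) = stepF v tg pl (w pl) (w pl.left) (w pl.right)) (s : Trm) :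
    w s.toBT = s.eval v := by
  induction s with
  | zero => exact hw _ _
  | one => exact hw _ _
  | var i =>
    refine (hw _ _).trans ?_
    show v (spine (un i)) = v i
    rw [spine_un]
  | add s t ihs iht =>
    refine (hw _ _).trans ?_
    show w s.toBT + w t.toBT = s.eval v + t.eval v
    rw [ihs, iht]
  | mul s t ihs iht =>
    refine (hw _ _).trans ?_
    show w s.toBT * w t.toBT = s.eval v * t.eval v
    rw [ihs, iht]

open Classical in
theorem stepF_formula {v : ℕ → ℚ} {w : BT → ℚ}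
    (hw : ∀ tg pl, w (.node tg pl) = stepF v tg pl (w pl) (w pl.left) (w pl.right)) (φ : Fml) :
    w φ.toBT = if φ.Holds v then 1 else 0 := by
  induction φ with
  | eq s t =>
    refine (hw _ _).trans ?_
    show (if w s.toBT = w t.toBT then (1 : ℚ) else 0) = _
    rw [stepF_term hw, stepF_term hw]
    by_cases hh : s.eval v = t.eval v <;> simp [Fml.Holds, hh]
  | lt s t =>
    refine (hw _ _).trans ?_
    show (if w s.toBT < w t.toBT then (1 : ℚ) else 0) = _
    rw [stepF_term hw, stepF_term hw]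
    by_cases hh : s.eval v < t.eval v <;> simp [Fml.Holds, hh]
  | not φ ih =>
    refine (hw _ _).trans ?_
    show 1 - w φ.toBT = _
    rw [ih]
    by_cases hh : φ.Holds v <;> simp [Fml.Holds, hh]
  | and φ ψ ih1 ih2 =>
    refine (hw _ _).trans ?_
    show w φ.toBT * w ψ.toBT = _
    rw [ih1, ih2]
    by_cases hh : φ.Holds v <;> by_cases hk : ψ.Holds v <;> simp [Fml.Holds, hh, hk]
  | or φ ψ ih1 ih2 =>
    refine (hw _ _).trans ?_
    show 1 - (1 - w φ.toBT) * (1 - w ψ.toBT) = _
    rw [ih1, ih2]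
    by_cases hh : φ.Holds v <;> by_cases hk : ψ.Holds v <;> simp [Fml.Holds, hh, hk]

end Pool.Agent.Lib.MP_be4430_lc
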