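import Pool.Agent.Lib.MP_be4430_lc.J2x_Rec

/-! # Auxiliary values for one tree -/

namespace Pool.Agent.Lib.MP_be4430_lc

open MP_634427_lc

/-- auxiliary values for tag `5` -/
private noncomputable def J2y_a5 (s t T : ℚ) : ℕ → ℚ
  | 1 => s - t
  | 2 => if s = t then 0 else 1 / (s - t)
  | 3 => 1 - T
  | _ => 0

/-- auxiliary values for tag `6` -/
private noncomputable def J2y_a6 (s t T a b c e : ℚ) : ℕ → ℚ
  | 1 => t - s
  | 2 => 1 - T
  | 3 => 2 * T - 1
  | 4 => (2 * T - 1) * (t - s)
  | 5 => a
  | 6 => b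
  | 7 => c
  | 8 => e
  | 9 => a * a
  | 10 => b * b
  | 11 => c * c
  | 12 => e * e
  | 13 => a * a + b * b
  | 14 => c * c + e * e
  | 15 => if s = t then 0 else 1 / (t - s)
  | 16 => (t - s) * (if s = t then 0 else 1 / (t - s))
  | 17 => (t - s) * (if s = t then 0 else 1 / (t - s)) - 1
  | _ => 0

/-- auxiliary values for tag `9` -/
private def J2y_a9 (s t T : ℚ) : ℕ → ℚ
  | 1 => 1 - T
  | 2 => 1 - s
  | 3 => 1 - t
  | _ => 0

/-- auxiliary values for one tree: every assignment that agrees with `w` on the names `(U, 0)` and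
with `aux` on the names `(T, i)` satisfies the constraints of `T`.  (Case distinction on the tag;
tags `5`: `aux 1 = w s - w t`, `aux 3 = 1 - w T`, `aux 2 = 1 / aux 1` or `0`; tag `6`: see the
docstring of `consOf`, `four_squares` for `|w t - w s|`.) -/
theorem exists_aux {v : ℕ → ℚ} {w : BT → ℚ}
    (hw : ∀ tg pl, w (.node tg pl) = stepF v tg pl (w pl) (w pl.left) (w pl.right)) (T : BT)
    (hT : T ≠ .nil) :
    ∃ aux : ℕ → ℚ, ∀ y : Nm → ℚ, y ONE = 1 → y ZZ = 0 → (∀ U : BT, y (U, 0) = w U) →
      (∀ i, 1 ≤ i → y (T, i) = aux i) → ∀ c ∈ consOf T, NHolds y c := by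
  cases T with
  | nil => exact absurd rfl hT
  | node tg p =>
  by_cases g0 : tg = un 0
  · subst g0
    have hwT : w (.node (un 0) p) = 0 := hw _ _
    generalize hTT : BT.node (un 0) p = T at *
    refine ⟨fun _ => 0, fun y h1 h0 hy _ c hc => ?_⟩
    have hc' : c ∈ [((T, 0), ONE, ZZ, ZZ)] := by subst hTT; exact hc
    rw [List.mem_singleton] at hc'
    subst hc'
    simp only [NHolds, h1, h0, hy, hwT]
    norm_num
  by_cases g1 : tg = un 1
  · subst g1
    have hwT : w (.node (un 1) p) = 1 := hw _ _
    generalize hTT : BT.node (un 1) p = T at *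
    refine ⟨fun _ => 0, fun y h1 h0 hy _ c hc => ?_⟩
    have hc' : c ∈ [((T, 0), ONE, ONE, ZZ)] := by subst hTT; exact hc
    rw [List.mem_singleton] at hc'
    subst hc'
    simp only [NHolds, h1, h0, hy, hwT]
    norm_num
  by_cases g3 : tg = un 3
  · subst g3
    have hwT : w (.node (un 3) p) = w p.left + w p.right := hw _ _
    generalize hTT : BT.node (un 3) p = T at *
    refine ⟨fun _ => 0, fun y h1 h0 hy _ c hc => ?_⟩
    have hc' : c ∈ [((T, 0), ONE, (p.left, 0), (p.right, 0))] := by subst hTT; exact hc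
    rw [List.mem_singleton] at hc'
    subst hc'
    simp only [NHolds, h1, hy, hwT]
    ring
  by_cases g4 : tg = un 4
  · subst g4
    have hwT : w (.node (un 4) p) = w p.left * w p.right := hw _ _
    generalize hTT : BT.node (un 4) p = T at *
    refine ⟨fun _ => 0, fun y h1 h0 hy _ c hc => ?_⟩
    have hc' : c ∈ [((p.left, 0), (p.right, 0), (T, 0), ZZ)] := by subst hTT; exact hc
    rw [List.mem_singleton] at hc'
    subst hc'
    simp only [NHolds, h0, hy, hwT]
    ring
  by_cases g5 : tg = un 5
  · subst g5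
    have hwT : w (.node (un 5) p) = if w p.left = w p.right then 1 else 0 := hw _ _
    generalize hTT : BT.node (un 5) p = T at *
    refine ⟨J2y_a5 (w p.left) (w p.right) (w T), fun y h1 h0 hy ha c hc => ?_⟩
    have hc' : c ∈ [((p.left, 0), ONE, (p.right, 0), (T, 1)), ((T, 0), (T, 1), ZZ, ZZ),
      (ONE, ONE, (T, 0), (T, 3)), ((T, 1), (T, 2), (T, 3), ZZ)] := by subst hTT; exact hc
    have a1 : y (T, 1) = w p.left - w p.right := ha 1 le_rfl
    have a2 : y (T, 2) = if w p.left = w p.right then 0 else 1 / (w p.left - w p.right) :=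
      ha 2 (by norm_num)
    have a3 : y (T, 3) = 1 - w T := ha 3 (by norm_num)
    simp only [List.mem_cons, List.not_mem_nil, or_false] at hc'
    rcases hc' with rfl | rfl | rfl | rfl
    · simp only [NHolds, h1, hy, a1]
      ring
    · simp only [NHolds, h0, hy, a1, hwT]
      by_cases hh : w p.left = w p.right
      · rw [if_pos hh, hh]; ring
      · rw [if_neg hh]; ring
    · simp only [NHolds, h1, hy, a3]
      ring
    · simp only [NHolds, h0, a1, a2, a3, hwT]
      by_cases hh : w p.left = w p.right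
      · rw [if_pos hh, if_pos hh]; ring
      · rw [if_neg hh, if_neg hh]
        have : w p.left - w p.right ≠ 0 := sub_ne_zero.2 hh
        field_simp
        ring
  by_cases g6 : tg = un 6
  · subst g6
    have hwT : w (.node (un 6) p) = if w p.left < w p.right then 1 else 0 := hw _ _
    generalize hTT : BT.node (un 6) p = T at *
    have hpos : 0 ≤ (2 * w T - 1) * (w p.right - w p.left) := by
      rw [hwT]
      by_cases hh : w p.left < w p.right
      · rw [if_pos hh]
        linarith
      · rw [if_neg hh]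
        linarith
    obtain ⟨a, b, c', e, hq⟩ := four_squares hpos
    refine ⟨J2y_a6 (w p.left) (w p.right) (w T) a b c' e, fun y h1 h0 hy ha c hc => ?_⟩
    have hc' : c ∈ [((p.right, 0), ONE, (p.left, 0), (T, 1)), (ONE, ONE, (T, 0), (T, 2)),
      ((T, 0), (T, 2), ZZ, ZZ), ((T, 0), ONE, (T, 2), (T, 3)), ((T, 3), (T, 1), (T, 4), ZZ),
      ((T, 5), (T, 5), (T, 9), ZZ), ((T, 6), (T, 6), (T, 10), ZZ), ((T, 7), (T, 7), (T, 11), ZZ),
      ((T, 8), (T, 8), (T, 12), ZZ), ((T, 13), ONE, (T, 9), (T, 10)),
      ((T, 14), ONE, (T, 11), (T, 12)), ((T, 4), ONE, (T, 13), (T, 14)),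
      ((T, 1), (T, 15), (T, 16), ZZ), ((T, 16), ONE, ONE, (T, 17)), ((T, 0), (T, 17), ZZ, ZZ)] := by
      subst hTT; exact hc
    have a1 : y (T, 1) = w p.right - w p.left := ha 1 le_rfl
    have a2 : y (T, 2) = 1 - w T := ha 2 (by norm_num)
    have a3 : y (T, 3) = 2 * w T - 1 := ha 3 (by norm_num)
    have a4 : y (T, 4) = (2 * w T - 1) * (w p.right - w p.left) := ha 4 (by norm_num)
    have a5 : y (T, 5) = a := ha 5 (by norm_num)
    have a6 : y (T, 6) = b := ha 6 (by norm_num)
    have a7 : y (T, 7) = c' := ha 7 (by norm_num)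
    have a8 : y (T, 8) = e := ha 8 (by norm_num)
    have a9 : y (T, 9) = a * a := ha 9 (by norm_num)
    have a10 : y (T, 10) = b * b := ha 10 (by norm_num)
    have a11 : y (T, 11) = c' * c' := ha 11 (by norm_num)
    have a12 : y (T, 12) = e * e := ha 12 (by norm_num)
    have a13 : y (T, 13) = a * a + b * b := ha 13 (by norm_num)
    have a14 : y (T, 14) = c' * c' + e * e := ha 14 (by norm_num)
    have a15 : y (T, 15) = if w p.left = w p.right then 0 else 1 / (w p.right - w p.left) :=
      ha 15 (by norm_num)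
    have a16 : y (T, 16) = (w p.right - w p.left) *
      (if w p.left = w p.right then 0 else 1 / (w p.right - w p.left)) := ha 16 (by norm_num)
    have a17 : y (T, 17) = (w p.right - w p.left) *
      (if w p.left = w p.right then 0 else 1 / (w p.right - w p.left)) - 1 := ha 17 (by norm_num)
    simp only [List.mem_cons, List.not_mem_nil, or_false] at hc'
    rcases hc' with rfl | rfl | rfl | rfl | rfl | rfl | rfl | rfl | rfl | rfl | rfl | rfl | rfl |
      rfl | rfl
    · simp only [NHolds, h1, hy, a1]; ring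
    · simp only [NHolds, h1, hy, a2]; ring
    · simp only [NHolds, h0, hy, a2, hwT]
      by_cases hh : w p.left < w p.right
      · rw [if_pos hh]; ring
      · rw [if_neg hh]; ring
    · simp only [NHolds, h1, hy, a2, a3]; ring
    · simp only [NHolds, h0, a1, a3, a4]; ring
    · simp only [NHolds, h0, a5, a9]; ring
    · simp only [NHolds, h0, a6, a10]; ring
    · simp only [NHolds, h0, a7, a11]; ring
    · simp only [NHolds, h0, a8, a12]; ring
    · simp only [NHolds, h1, a13, a9, a10]; ring
    · simp only [NHolds, h1, a14, a11, a12]; ring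
    · simp only [NHolds, h1, a4, a13, a14]; linarith
    · simp only [NHolds, h0, a1, a15, a16]; ring
    · simp only [NHolds, h1, a16, a17]; ring
    · simp only [NHolds, h0, hy, a17, hwT]
      by_cases hh : w p.left < w p.right
      · rw [if_pos hh, if_neg (ne_of_lt hh)]
        have : w p.right - w p.left ≠ 0 := ne_of_gt (sub_pos.2 hh)
        field_simp
        ring
      · rw [if_neg hh]; ring
  by_cases g7 : tg = un 7
  · subst g7
    have hwT : w (.node (un 7) p) = 1 - w p := hw _ _
    generalize hTT : BT.node (un 7) p = T at *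
    refine ⟨fun _ => 0, fun y h1 h0 hy _ c hc => ?_⟩
    have hc' : c ∈ [(ONE, ONE, (T, 0), (p, 0))] := by subst hTT; exact hc
    rw [List.mem_singleton] at hc'
    subst hc'
    simp only [NHolds, h1, hy, hwT]
    ring
  by_cases g8 : tg = un 8
  · subst g8
    have hwT : w (.node (un 8) p) = w p.left * w p.right := hw _ _
    generalize hTT : BT.node (un 8) p = T at *
    refine ⟨fun _ => 0, fun y h1 h0 hy _ c hc => ?_⟩
    have hc' : c ∈ [((p.left, 0), (p.right, 0), (T, 0), ZZ)] := by subst hTT; exact hc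
    rw [List.mem_singleton] at hc'
    subst hc'
    simp only [NHolds, h0, hy, hwT]
    ring
  by_cases g9 : tg = un 9
  · subst g9
    have hwT : w (.node (un 9) p) = 1 - (1 - w p.left) * (1 - w p.right) := hw _ _
    generalize hTT : BT.node (un 9) p = T at *
    refine ⟨J2y_a9 (w p.left) (w p.right) (w T), fun y h1 h0 hy ha c hc => ?_⟩
    have hc' : c ∈ [(ONE, ONE, (T, 0), (T, 1)), (ONE, ONE, (p.left, 0), (T, 2)),
      (ONE, ONE, (p.right, 0), (T, 3)), ((T, 2), (T, 3), (T, 1), ZZ)] := by subst hTT; exact hc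
    have a1 : y (T, 1) = 1 - w T := ha 1 le_rfl
    have a2 : y (T, 2) = 1 - w p.left := ha 2 (by norm_num)
    have a3 : y (T, 3) = 1 - w p.right := ha 3 (by norm_num)
    simp only [List.mem_cons, List.not_mem_nil, or_false] at hc'
    rcases hc' with rfl | rfl | rfl | rfl
    · simp only [NHolds, h1, hy, a1]; ring
    · simp only [NHolds, h1, hy, a2]; ring
    · simp only [NHolds, h1, hy, a3]; ring
    · simp only [NHolds, h0, a1, a2, a3, hwT]; ring
  refine ⟨fun _ => 0, fun y _ _ _ _ c hc => ?_⟩
  exfalso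
  have hnil : consOf (.node tg p) = [] := by
    simp only [consOf, BT.left]
    rw [if_neg hT, if_neg g0, if_neg g1, if_neg g3, if_neg g4, if_neg g5, if_neg g6, if_neg g7,
      if_neg g8, if_neg g9]
  rw [hnil] at hc
  simp at hc

end Pool.Agent.Lib.MP_be4430_lc
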