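import Pool.Agent.Lib.MP_be4430_lc.QSys

/-! # Recognising syntax trees -/

namespace Pool.Agent.Lib.MP_be4430_lc

open MP_634427_lc

/-- Is the tree with tag `tg` and payload `pl` a term / a formula with variables below `n`?
`rp`, `rs`, `rt` are the answers for the payload and its components. -/
def chkStep (n : ℕ) (tg pl : BT) (rp rs rt : Bool × Bool) : Bool × Bool :=
  ((decide (tg = un 0) && decide (pl = .nil)) || (decide (tg = un 1) && decide (pl = .nil)) ||
    (decide (tg = un 2) && decide (pl = un (spine pl)) && decide (spine pl < n)) ||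
    ((decide (tg = un 3) || decide (tg = un 4)) && rs.1 && rt.1),
   ((decide (tg = un 5) || decide (tg = un 6)) && rs.1 && rt.1) ||
    (decide (tg = un 7) && rp.2) || ((decide (tg = un 8) || decide (tg = un 9)) && rs.2 && rt.2))

/-- the answers for a tree, its left and its right subtree -/
def chk (n : ℕ) : BT → (Bool × Bool) × (Bool × Bool) × (Bool × Bool)
  | .nil => ((false, false), (false, false), (false, false))
  | .node a b =>
      (chkStep n a b (chk n b).1 (chk n b).2.1 (chk n b).2.2, (chk n a).1, (chk n b).1)

theorem chk_sub (n : ℕ) (T : BT) :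
    (chk n T).2.1 = (chk n T.left).1 ∧ (chk n T).2.2 = (chk n T.right).1 := by
  cases T with
  | nil => exact ⟨rfl, rfl⟩
  | node a b => exact ⟨rfl, rfl⟩

/-- Is the tree the code of a sentence? -/
def isSent (T : BT) : Bool :=
  decide (T ≠ .nil) && decide (T.left = un (spine T.left)) && (chk (spine T.left) T.right).1.2

end Pool.Agent.Lib.MP_be4430_lc
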