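import Pool.Agent.Lib.MP_be4430_lc.QSys
import Pool.Agent.Lib.MP_be4430_lc.J4x_Defs

/-! # Recognising syntax trees -/

namespace Pool.Agent.Lib.MP_be4430_lc

open MP_634427_lc

theorem chk_term (n : ℕ) (T : BT) :
    (chk n T).1.1 = true ↔ ∃ s : Trm, s.toBT = T ∧ s.Below n := by
  have hnode : ∀ a b : BT, (chk n (.node a b)).1.1 = true ↔
      ((a = un 0 ∧ b = .nil) ∨ (a = un 1 ∧ b = .nil) ∨
        (a = un 2 ∧ b = un (spine b) ∧ spine b < n) ∨
        ((a = un 3 ∨ a = un 4) ∧ (chk n b.left).1.1 = true ∧ (chk n b.right).1.1 = true)) := by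
    intro a b
    obtain ⟨h1, h2⟩ := chk_sub n b
    show (chkStep n a b (chk n b).1 (chk n b).2.1 (chk n b).2.2).1 = true ↔ _
    rw [h1, h2]
    simp only [chkStep, Bool.or_eq_true, Bool.and_eq_true, decide_eq_true_eq]
    tauto
  constructor
  · have key : ∀ T : BT, ((chk n T).1.1 = true → ∃ s : Trm, s.toBT = T ∧ s.Below n) ∧
        ((chk n T.left).1.1 = true → ∃ s : Trm, s.toBT = T.left ∧ s.Below n) ∧
        ((chk n T.right).1.1 = true → ∃ s : Trm, s.toBT = T.right ∧ s.Below n) := by
      intro T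
      induction T with
      | nil =>
        have h0 : (chk n .nil).1.1 = true → ∃ s : Trm, s.toBT = .nil ∧ s.Below n := by
          intro h
          exact absurd h Bool.false_ne_true
        exact ⟨h0, h0, h0⟩
      | node a b iha ihb =>
        refine ⟨?_, iha.1, ihb.1⟩
        intro h
        rw [hnode] at h
        rcases h with ⟨rfl, rfl⟩ | ⟨rfl, rfl⟩ | ⟨rfl, h1, h2⟩ | ⟨h1, h2, h3⟩
        · exact ⟨.zero, rfl, trivial⟩
        · exact ⟨.one, rfl, trivial⟩
        · refine ⟨.var (spine b), ?_, h2⟩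
          show BT.node (un 2) (un (spine b)) = _
          rw [← h1]
        · obtain ⟨s, hs1, hs2⟩ := ihb.2.1 h2
          obtain ⟨t, ht1, ht2⟩ := ihb.2.2 h3
          have hb : b = .node b.left b.right := by
            cases b with
            | nil => exact absurd h2 Bool.false_ne_true
            | node l r => rfl
          rcases h1 with rfl | rfl
          · refine ⟨.add s t, ?_, hs2, ht2⟩
            show BT.node (un 3) (.node s.toBT t.toBT) = _
            rw [hs1, ht1, ← hb]
          · refine ⟨.mul s t, ?_, hs2, ht2⟩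
            show BT.node (un 4) (.node s.toBT t.toBT) = _
            rw [hs1, ht1, ← hb]
    exact (key T).1
  · rintro ⟨s, rfl, hs⟩
    induction s with
    | zero => exact (hnode _ _).2 (Or.inl ⟨rfl, rfl⟩)
    | one => exact (hnode _ _).2 (Or.inr (Or.inl ⟨rfl, rfl⟩))
    | var i =>
      have h1 : spine (un i) = i := spine_un i
      refine (hnode _ _).2 (Or.inr (Or.inr (Or.inl ⟨rfl, ?_, ?_⟩)))
      · show un i = un (spine (un i))
        rw [h1]
      · show spine (un i) < n
        rw [h1]
        exact hs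
    | add s t ihs iht =>
      exact (hnode _ _).2 (Or.inr (Or.inr (Or.inr ⟨Or.inl rfl, ihs hs.1, iht hs.2⟩)))
    | mul s t ihs iht =>
      exact (hnode _ _).2 (Or.inr (Or.inr (Or.inr ⟨Or.inr rfl, ihs hs.1, iht hs.2⟩)))

end Pool.Agent.Lib.MP_be4430_lc
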