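import Pool.Agent.Lib.MP_be4430_lc.QSys
import Pool.Agent.Lib.MP_be4430_lc.J4x_Defs
import Pool.Agent.Lib.MP_be4430_lc.J4y_Term

/-! # Recognising syntax trees -/

namespace Pool.Agent.Lib.MP_be4430_lc

open MP_634427_lc

theorem chk_formula (n : ℕ) (T : BT) :
    (chk n T).1.2 = true ↔ ∃ φ : Fml, φ.toBT = T ∧ φ.Below n := by
  have hnode : ∀ a b : BT, (chk n (.node a b)).1.2 = true ↔
      (((a = un 5 ∨ a = un 6) ∧ (chk n b.left).1.1 = true ∧ (chk n b.right).1.1 = true) ∨
        (a = un 7 ∧ (chk n b).1.2 = true) ∨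
        ((a = un 8 ∨ a = un 9) ∧ (chk n b.left).1.2 = true ∧ (chk n b.right).1.2 = true)) := by
    intro a b
    obtain ⟨h1, h2⟩ := chk_sub n b
    show (chkStep n a b (chk n b).1 (chk n b).2.1 (chk n b).2.2).2 = true ↔ _
    rw [h1, h2]
    simp only [chkStep, Bool.or_eq_true, Bool.and_eq_true, decide_eq_true_eq]
    tauto
  constructor
  · have key : ∀ T : BT, ((chk n T).1.2 = true → ∃ s : Fml, s.toBT = T ∧ s.Below n) ∧
        ((chk n T.left).1.2 = true → ∃ s : Fml, s.toBT = T.left ∧ s.Below n) ∧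
        ((chk n T.right).1.2 = true → ∃ s : Fml, s.toBT = T.right ∧ s.Below n) := by
      intro T
      induction T with
      | nil =>
        have h0 : (chk n .nil).1.2 = true → ∃ s : Fml, s.toBT = .nil ∧ s.Below n := by
          intro h
          exact absurd h Bool.false_ne_true
        exact ⟨h0, h0, h0⟩
      | node a b iha ihb =>
        refine ⟨?_, iha.1, ihb.1⟩
        intro h
        rw [hnode] at h
        rcases h with ⟨h1, h2, h3⟩ | ⟨rfl, h2⟩ | ⟨h1, h2, h3⟩
        · obtain ⟨s, hs1, hs2⟩ := (chk_term n _).1 h2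
          obtain ⟨t, ht1, ht2⟩ := (chk_term n _).1 h3
          have hb : b = .node b.left b.right := by
            cases b with
            | nil => exact absurd h2 Bool.false_ne_true
            | node l r => rfl
          rcases h1 with rfl | rfl
          · refine ⟨.eq s t, ?_, hs2, ht2⟩
            show BT.node (un 5) (.node s.toBT t.toBT) = _
            rw [hs1, ht1, ← hb]
          · refine ⟨.lt s t, ?_, hs2, ht2⟩
            show BT.node (un 6) (.node s.toBT t.toBT) = _
            rw [hs1, ht1, ← hb]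
        · obtain ⟨s, hs1, hs2⟩ := ihb.1 h2
          refine ⟨.not s, ?_, hs2⟩
          show BT.node (un 7) s.toBT = _
          rw [hs1]
        · obtain ⟨s, hs1, hs2⟩ := ihb.2.1 h2
          obtain ⟨t, ht1, ht2⟩ := ihb.2.2 h3
          have hb : b = .node b.left b.right := by
            cases b with
            | nil => exact absurd h2 Bool.false_ne_true
            | node l r => rfl
          rcases h1 with rfl | rfl
          · refine ⟨.and s t, ?_, hs2, ht2⟩
            show BT.node (un 8) (.node s.toBT t.toBT) = _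
            rw [hs1, ht1, ← hb]
          · refine ⟨.or s t, ?_, hs2, ht2⟩
            show BT.node (un 9) (.node s.toBT t.toBT) = _
            rw [hs1, ht1, ← hb]
    exact (key T).1
  · rintro ⟨s, rfl, hs⟩
    induction s with
    | eq s t =>
      exact (hnode _ _).2 (Or.inl ⟨Or.inl rfl, (chk_term n _).2 ⟨s, rfl, hs.1⟩,
        (chk_term n _).2 ⟨t, rfl, hs.2⟩⟩)
    | lt s t =>
      exact (hnode _ _).2 (Or.inl ⟨Or.inr rfl, (chk_term n _).2 ⟨s, rfl, hs.1⟩,
        (chk_term n _).2 ⟨t, rfl, hs.2⟩⟩)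
    | not s ihs => exact (hnode _ _).2 (Or.inr (Or.inl ⟨rfl, ihs hs⟩))
    | and s t ihs iht =>
      exact (hnode _ _).2 (Or.inr (Or.inr ⟨Or.inl rfl, ihs hs.1, iht hs.2⟩))
    | or s t ihs iht =>
      exact (hnode _ _).2 (Or.inr (Or.inr ⟨Or.inr rfl, ihs hs.1, iht hs.2⟩))

theorem isSent_iff (T : BT) :
    isSent T = true ↔ ∃ (n : ℕ) (φ : Fml), T = enc (n, φ) ∧ φ.Below n := by
  constructor
  · intro h
    simp only [isSent, Bool.and_eq_true, decide_eq_true_eq] at h
    obtain ⟨⟨h1, h2⟩, h3⟩ := h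
    obtain ⟨φ, hφ1, hφ2⟩ := (chk_formula _ _).1 h3
    refine ⟨spine T.left, φ, ?_, hφ2⟩
    have hT : T = .node T.left T.right := by
      cases T with
      | nil => exact absurd rfl h1
      | node l r => rfl
    show T = BT.node (un (spine T.left)) φ.toBT
    rw [hφ1, ← h2, ← hT]
  · rintro ⟨n, φ, rfl, hφ⟩
    have h1 : spine (un n) = n := spine_un n
    have h2 : (enc (n, φ) : BT) = BT.node (un n) φ.toBT := rfl
    rw [h2]
    simp only [isSent, Bool.and_eq_true, decide_eq_true_eq]
    refine ⟨⟨by simp, ?_⟩, ?_⟩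
    · show un n = un (spine (un n))
      rw [h1]
    · show (chk (spine (un n)) φ.toBT).1.2 = true
      rw [h1]
      exact (chk_formula n _).2 ⟨φ, rfl, hφ⟩

end Pool.Agent.Lib.MP_be4430_lc
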