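import Pool.Agent.Lib.MP_be4430_lc.J4x_Defs
import Pool.Agent.Lib.MP_be4430_lc.J4y_Term
import Pool.Agent.Lib.MP_be4430_lc.J4z_Form

/-! # Recognising syntax trees -/
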