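import Pool.Agent.Lib.MP_be4430_lc.Graph

/-!
# The layout of the graph for a solution of the T-system: definitions

All edges are parallel to one of the directions `(0, 1)`, `(1, x n)` (`1 ≤ n ≤ m`, `x 1 = 0`);
afterwards the map `(p, q) ↦ (p, p + q)` makes all edges point upward.
-/

namespace Pool.Agent.Lib.MP_be4430_lc

/-- the parameters of the layout -/
structure Par where
  x : ℕ → ℚ
  lam : ℕ → ℚ
  mu : ℕ → ℚ
  eps : ℚ

namespace Par

variable (P : Par) (m : ℕ) (ts : List Trp)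

/-- the height of gadget `g` -/
def h (g : ℕ) : ℚ := P.lam g * P.x (pp ts g 0) + P.mu g * P.x (qq ts g 0)

/-- the distance between the top of gadget `g - 1` and the bottom of gadget `g` -/
def H (g : ℕ) : ℚ := (P.lam g + P.eps) * P.x m + 1

/-- the left end of gadget `g` -/
def A : ℕ → ℚ
  | 0 => 0
  | g + 1 => A g + P.lam g + 3 * P.eps

/-- the bottom of gadget `g` -/
def B : ℕ → ℚ
  | 0 => 0
  | g + 1 => B g + P.h ts g + P.H m (g + 1)

/-- the top of gadget `g` -/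
def T (g : ℕ) : ℚ := P.B m ts g + P.h ts g

end Par

/-- the conditions on the parameters -/
structure ParOK (m : ℕ) (ts : List Trp) (P : Par) : Prop where
  x1 : P.x 1 = 0
  xs : ∀ n, 1 ≤ n → n < m → P.x n < P.x (n + 1)
  lam_pos : ∀ g, 0 < P.lam g
  mu_pos : ∀ g, 0 < P.mu g
  eps_pos : 0 < P.eps
  mu_lam : ∀ g, P.mu g < P.lam (g + 1)
  eps_lam : ∀ g n, 1 ≤ g → g ≤ ts.length → 1 ≤ n → n < m →
    P.eps * P.x m < P.lam g * (P.x (n + 1) - P.x n)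
  eps_mu : ∀ g n, 1 ≤ g → g ≤ ts.length → 1 ≤ n → n < m →
    P.eps * P.x m < P.mu g * (P.x (n + 1) - P.x n)
  hh : ∀ g i, 1 ≤ g → g ≤ ts.length → i < 3 →
    P.lam g * P.x (pp ts g i) + P.mu g * P.x (qq ts g i) = P.h ts g

/-- a rectangle: left, right, bottom, top -/
structure Rect where
  l : ℚ
  r : ℚ
  b : ℚ
  t : ℚ

/-- the rectangles of the layout -/
def rect (m : ℕ) (ts : List Trp) (P : Par) : Rct → Rect
  | .FO g => ⟨P.A g, P.A g + P.lam g, P.B m ts g, P.B m ts g + P.lam g * P.x m⟩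
  | .FL g n => ⟨P.A g + P.lam g, P.A g + P.lam g + P.eps, P.B m ts g + P.lam g * P.x n,
      P.B m ts g + P.lam g * P.x (n + 1)⟩
  | .CO g i => ⟨P.A g + P.lam g + P.eps, P.A g + P.lam g + 2 * P.eps,
      P.B m ts g + P.lam g * P.x (pp ts g i), P.B m ts g + P.lam g * P.x (pp ts g (i + 1))⟩
  | .FR g n => ⟨P.A g + P.lam g + 2 * P.eps, P.A (g + 1), P.T m ts g - P.mu g * P.x (n + 1),
      P.T m ts g - P.mu g * P.x n⟩
  | .FG g => ⟨P.A (g + 1), P.A (g + 1) + P.mu g, P.T m ts g - P.mu g * P.x m, P.T m ts g⟩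
  | .AX g => ⟨P.A (g + 1) - P.eps, P.A (g + 1), P.T m ts g, P.B m ts (g + 1)⟩
  | .LK g => ⟨P.A g, P.A g + P.lam g + P.eps, P.T m ts (g - 1), P.B m ts g⟩

/-- horizontal offset of the inner vertices of a cell of width `w` -/
def off (m : ℕ) (w : ℚ) (j : ℕ) : ℚ := w * ((m : ℚ) + 1 - j) / m

/-- the positions of the vertices -/
def loc (m : ℕ) (ts : List Trp) (P : Par) : Vtx → ℚ × ℚ
  | .O g => (P.A g, P.B m ts g)
  | .G g => (P.A (g + 1) + P.mu g, P.T m ts g)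
  | .a g => (P.A (g + 1) - P.eps, P.B m ts (g + 1))
  | .b g => (P.A (g + 1) + P.lam (g + 1) + P.eps, P.T m ts g)
  | .c g n => (P.A g + P.lam g, P.B m ts g + P.lam g * P.x n)
  | .d g n => (P.A g + P.lam g + P.eps, P.B m ts g + P.lam g * P.x n)
  | .s g n => (P.A g + P.lam g + 2 * P.eps, P.T m ts g - P.mu g * P.x n)
  | .r g n => (P.A (g + 1), P.T m ts g - P.mu g * P.x n)
  | .nn C j =>
      let R := rect m ts P C
      (R.l + off m (R.r - R.l) j, R.b + off m (R.r - R.l) j * P.x j)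
  | .ww C j =>
      let R := rect m ts P C
      (R.l + off m (R.r - R.l) j,
        R.t - ((R.r - R.l) - off m (R.r - R.l) j) * P.x (m + 2 - j))

/-- the final positions -/
def fin (m : ℕ) (ts : List Trp) (P : Par) (v : Vtx) : ℚ × ℚ :=
  ((loc m ts P v).1, (loc m ts P v).1 + (loc m ts P v).2)

/-! ## Planarity of systems of rectangles -/

/-- the open segment from `p` to `q` lies in the interior of `R`, its endpoints in `R` -/
def Inner (R : Rect) (p q : ℚ × ℚ) : Prop :=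
  (R.l ≤ p.1 ∧ p.1 ≤ R.r ∧ R.b ≤ p.2 ∧ p.2 ≤ R.t) ∧
  (R.l ≤ q.1 ∧ q.1 ≤ R.r ∧ R.b ≤ q.2 ∧ q.2 ≤ R.t) ∧
  (2 * R.l < p.1 + q.1 ∧ p.1 + q.1 < 2 * R.r ∧ 2 * R.b < p.2 + q.2 ∧ p.2 + q.2 < 2 * R.t)

/-- the segment from `p` to `q` lies on a vertical side of `R` -/
def VSide (R : Rect) (p q : ℚ × ℚ) : Prop :=
  p.1 = q.1 ∧ (p.1 = R.l ∨ p.1 = R.r) ∧ R.b ≤ p.2 ∧ p.2 < q.2 ∧ q.2 ≤ R.t

/-- the segment from `p` to `q` lies on a horizontal side of `R` -/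
def HSide (R : Rect) (p q : ℚ × ℚ) : Prop :=
  p.2 = q.2 ∧ (p.2 = R.b ∨ p.2 = R.t) ∧ R.l ≤ p.1 ∧ p.1 < q.1 ∧ q.1 ≤ R.r

/-- `w` is in the relative interior of the vertical or horizontal segment from `p` to `q` -/
def OnSide (p q w : ℚ × ℚ) : Prop :=
  (p.1 = q.1 ∧ w.1 = p.1 ∧ p.2 < w.2 ∧ w.2 < q.2) ∨
    (p.2 = q.2 ∧ w.2 = p.2 ∧ p.1 < w.1 ∧ w.1 < q.1)

/-- A system of rectangles and edges with rational vertex positions. `inn u v i`: the edge is an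
inner edge of the rectangle `i`; `sid u v`: the edge is a side edge. -/
structure RectSys {V I : Type} (vs : V → Prop) (A : V → V → Prop) (pos : V → ℚ × ℚ)
    (is : I → Prop) (R : I → Rect) (inn : V → V → I → Prop) (sid : V → V → Prop) : Prop where
  nondeg : ∀ i, is i → (R i).l < (R i).r ∧ (R i).b < (R i).t
  sep : ∀ i j, is i → is j → i ≠ j → (R i).r ≤ (R j).l ∨ (R j).r ≤ (R i).l ∨
    (R i).t ≤ (R j).b ∨ (R j).t ≤ (R i).b
  ends : ∀ u v, A u v → vs u ∧ vs v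
  kind : ∀ u v, A u v → ∃ i, is i ∧ ((inn u v i ∧ Inner (R i) (pos u) (pos v)) ∨
    (sid u v ∧ (VSide (R i) (pos u) (pos v) ∨ HSide (R i) (pos u) (pos v))))
  inj : ∀ u v, vs u → vs v → pos u = pos v → u = v
  free : ∀ u v w, A u v → sid u v → vs w → ¬ OnSide (pos u) (pos v) (pos w)
  loc : ∀ u v u' v' i, A u v → A u' v' → (u, v) ≠ (u', v') → is i → inn u v i → inn u' v' i →
    MeetOK (fun w => qR (pos w)) u v u' v'

/-- the side edges -/
inductive Sid (m : ℕ) (ts : List Trp) : Vtx → Vtx → Prop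
  | Oc (g : ℕ) : 1 ≤ g → g ≤ ts.length → Sid m ts (.O g) (.c g 1)
  | cc (g n : ℕ) : 1 ≤ g → g ≤ ts.length → 1 ≤ n → n < m → Sid m ts (.c g n) (.c g (n + 1))
  | cd (g n : ℕ) : 1 ≤ g → g ≤ ts.length → 1 ≤ n → n ≤ m → Sid m ts (.c g n) (.d g n)
  | dd (g n : ℕ) : 1 ≤ g → g ≤ ts.length → 1 ≤ n → n < m → Sid m ts (.d g n) (.d g (n + 1))
  | ds (g i : ℕ) : 1 ≤ g → g ≤ ts.length → i < 3 →
      Sid m ts (.d g (pp ts g i)) (.s g (qq ts g i))
  | ss (g n : ℕ) : 1 ≤ g → g ≤ ts.length → 1 ≤ n → n < m → Sid m ts (.s g (n + 1)) (.s g n)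
  | sr (g n : ℕ) : 1 ≤ g → g ≤ ts.length → 1 ≤ n → n ≤ m → Sid m ts (.s g n) (.r g n)
  | rr (g n : ℕ) : g ≤ ts.length → 1 ≤ n → n < m → Sid m ts (.r g (n + 1)) (.r g n)
  | rG (g : ℕ) : g ≤ ts.length → Sid m ts (.r g 1) (.G g)
  | sa (g : ℕ) : 1 ≤ g → g ≤ ts.length → Sid m ts (.s g 1) (.a g)
  | aO (g : ℕ) : 1 ≤ g → g ≤ ts.length → Sid m ts (.a g) (.O (g + 1))
  | rO (g : ℕ) : g ≤ ts.length → Sid m ts (.r g 1) (.O (g + 1))
  | Gb (g : ℕ) : g < ts.length → Sid m ts (.G g) (.b g)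
  | bd (g : ℕ) : g < ts.length → Sid m ts (.b g) (.d (g + 1) 1)

/-- the inner edges of the rectangles -/
inductive Inn (m : ℕ) (ts : List Trp) : Vtx → Vtx → Rct → Prop
  | Oc (g n : ℕ) : 1 ≤ g → g ≤ ts.length → 2 ≤ n → n ≤ m → Inn m ts (.O g) (.c g n) (.FO g)
  | rG (g n : ℕ) : g ≤ ts.length → 2 ≤ n → n ≤ m → Inn m ts (.r g n) (.G g) (.FG g)
  | vn (C : Rct) (j : ℕ) : Cok m ts.length C → 2 ≤ j → j ≤ m → Inn m ts (cv ts C) (.nn C j) C
  | nw (C : Rct) (j : ℕ) : Cok m ts.length C → 2 ≤ j → j ≤ m → Inn m ts (.nn C j) (.ww C j) C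
  | wt (C : Rct) (j : ℕ) : Cok m ts.length C → 2 ≤ j → j ≤ m → Inn m ts (.ww C j) (ct ts C) C

end Pool.Agent.Lib.MP_be4430_lc
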