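import Pool.Agent.Lib.MP_be4430_lc.Memb

/-! # The meaning of the formula -/

namespace Pool.Agent.Lib.MP_be4430_lc

theorem holds_bigAnd (l : List Fml) (v : ℕ → ℚ) :
    (bigAnd l).Holds v ↔ ∀ φ ∈ l, φ.Holds v := by
  induction l with
  | nil => simp [bigAnd, top, Fml.Holds]
  | cons a l ih =>
    have h : bigAnd (a :: l) = Fml.and a (bigAnd l) := rfl
    rw [h, List.forall_mem_cons, ← ih]
    rfl

theorem holds_bigOr (l : List Fml) (v : ℕ → ℚ) :
    (bigOr l).Holds v ↔ ∃ φ ∈ l, φ.Holds v := by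
  induction l with
  | nil => simp [bigOr, Fml.Holds]
  | cons a l ih =>
    have h : bigOr (a :: l) = Fml.or a (bigOr l) := rfl
    rw [h, List.exists_mem_cons_iff, ← ih]
    rfl

theorem holds_oPos (a b c : ℕ) (v : ℕ → ℚ) :
    (oPos a b c).Holds v ↔ 0 < ori (vpos v a) (vpos v b) (vpos v c) := by
  simp only [oPos, orM, orP, tX, tY, Fml.Holds, Trm.eval, ori, vpos]
  constructor <;> intro h <;> nlinarith

theorem holds_oNeg (a b c : ℕ) (v : ℕ → ℚ) :
    (oNeg a b c).Holds v ↔ ori (vpos v a) (vpos v b) (vpos v c) < 0 := by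
  simp only [oNeg, orM, orP, tX, tY, Fml.Holds, Trm.eval, ori, vpos]
  constructor <;> intro h <;> nlinarith

theorem holds_sameSide (a b c d : ℕ) (v : ℕ → ℚ) :
    (sameSide a b c d).Holds v ↔
      0 < ori (vpos v a) (vpos v b) (vpos v c) * ori (vpos v a) (vpos v b) (vpos v d) := by
  have h : (sameSide a b c d).Holds v ↔ ((oPos a b c).Holds v ∧ (oPos a b d).Holds v) ∨
      ((oNeg a b c).Holds v ∧ (oNeg a b d).Holds v) := Iff.rfl
  rw [h, holds_oPos, holds_oPos, holds_oNeg, holds_oNeg, mul_pos_iff]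

private theorem holds_top (v : ℕ → ℚ) : top.Holds v := rfl

private theorem holds_fInj (i j : ℕ) (v : ℕ → ℚ) : (fInj i j).Holds v ↔ vpos v i ≠ vpos v j := by
  simp only [fInj, Fml.Holds, Trm.eval, tX, tY, vpos, ne_eq, Prod.mk.injEq]

private theorem holds_fUp (i j : ℕ) (v : ℕ → ℚ) :
    (fUp i j).Holds v ↔ (vpos v i).2 < (vpos v j).2 := Iff.rfl

private theorem holds_fSlope (n K a b : ℕ) (v : ℕ → ℚ) :
    (fSlope n K a b).Holds v ↔ ∃ j < K, (vpos v b).1 + v (2 * n + j) * (vpos v a).2 =
      (vpos v a).1 + v (2 * n + j) * (vpos v b).2 := by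
  unfold fSlope
  rw [holds_bigOr]
  constructor
  · rintro ⟨φ, hφ, h⟩
    obtain ⟨j, hj, rfl⟩ := List.mem_map.mp hφ
    exact ⟨j, List.mem_range.mp hj, h⟩
  · rintro ⟨j, hj, h⟩
    exact ⟨_, List.mem_map.mpr ⟨j, List.mem_range.mpr hj, rfl⟩, h⟩

private theorem holds_fClear (i a b : ℕ) (v : ℕ → ℚ) :
    (fClear i a b).Holds v ↔ (ori (vpos v a) (vpos v b) (vpos v i) ≠ 0 ∨
      (vpos v i).2 < (vpos v a).2 ∨ (vpos v b).2 < (vpos v i).2) := by
  have h : (fClear i a b).Holds v ↔ ((oPos a b i).Holds v ∨ (oNeg a b i).Holds v) ∨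
      ((vpos v i).2 < (vpos v a).2 ∨ (vpos v b).2 < (vpos v i).2) := Iff.rfl
  rw [h, holds_oPos, holds_oNeg, or_comm (a := 0 < _), ← lt_or_lt_iff_ne]

private theorem holds_fDisj (a b c d : ℕ) (v : ℕ → ℚ) :
    (fDisj a b c d).Holds v ↔
    (0 < ori (vpos v c) (vpos v d) (vpos v a) * ori (vpos v c) (vpos v d) (vpos v b) ∨
    0 < ori (vpos v a) (vpos v b) (vpos v c) * ori (vpos v a) (vpos v b) (vpos v d) ∨
    (vpos v b).2 < (vpos v c).2 ∨ (vpos v d).2 < (vpos v a).2) := by
  have h : (fDisj a b c d).Holds v ↔ ((sameSide c d a b).Holds v ∨ (sameSide a b c d).Holds v) ∨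
      ((vpos v b).2 < (vpos v c).2 ∨ (vpos v d).2 < (vpos v a).2) := Iff.rfl
  rw [h, holds_sameSide, holds_sameSide, or_assoc]

theorem holds_gform (n : ℕ) (E : List (ℕ × ℕ)) (K : ℕ) (v : ℕ → ℚ) :
    (gform n E K).Holds v ↔ GCond n E K (vpos v) (fun j => v (2 * n + j)) := by
  unfold gform
  rw [holds_bigAnd]
  constructor
  · intro h
    refine ⟨?_, ?_, ?_, ?_, ?_⟩
    · intro i hi j hj hij
      have := h (bif decide (i = j) then top else fInj i j) (by
        simp only [List.mem_append]
        left; left; left; left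
        exact List.mem_flatMap.mpr ⟨i, List.mem_range.mpr hi,
          List.mem_map.mpr ⟨j, List.mem_range.mpr hj, rfl⟩⟩)
      rw [decide_eq_false hij, cond_false, holds_fInj] at this
      exact this
    · intro e he
      have := h (fUp e.1 e.2) (by
        simp only [List.mem_append]
        left; left; left; right
        exact List.mem_map.mpr ⟨e, he, rfl⟩)
      exact this
    · intro e he
      have := h (fSlope n K e.1 e.2) (by
        simp only [List.mem_append]
        left; left; right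
        exact List.mem_map.mpr ⟨e, he, rfl⟩)
      rw [holds_fSlope] at this
      exact this
    · intro i hi e he h1 h2
      have := h (bif decide (i = e.1) || decide (i = e.2) then top else fClear i e.1 e.2) (by
        simp only [List.mem_append]
        left; right
        exact List.mem_flatMap.mpr ⟨i, List.mem_range.mpr hi,
          List.mem_map.mpr ⟨e, he, rfl⟩⟩)
      rw [decide_eq_false h1, decide_eq_false h2, Bool.or_false, cond_false, holds_fClear] at this
      exact this
    · intro e he f hf h1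
      have := h (bif touch e f then top else fDisj e.1 e.2 f.1 f.2) (by
        simp only [List.mem_append]
        right
        exact List.mem_flatMap.mpr ⟨e, he, List.mem_map.mpr ⟨f, hf, rfl⟩⟩)
      rw [h1, cond_false, holds_fDisj] at this
      exact this
  · rintro ⟨h1, h2, h3, h4, h5⟩ φ hφ
    simp only [List.mem_append] at hφ
    rcases hφ with (((hφ | hφ) | hφ) | hφ) | hφ
    · obtain ⟨i, hi, hφ⟩ := List.mem_flatMap.mp hφ
      obtain ⟨j, hj, rfl⟩ := List.mem_map.mp hφ
      by_cases hij : i = j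
      · rw [decide_eq_true hij, cond_true]
        exact holds_top v
      · rw [decide_eq_false hij, cond_false, holds_fInj]
        exact h1 i (List.mem_range.mp hi) j (List.mem_range.mp hj) hij
    · obtain ⟨e, he, rfl⟩ := List.mem_map.mp hφ
      exact h2 e he
    · obtain ⟨e, he, rfl⟩ := List.mem_map.mp hφ
      rw [holds_fSlope]
      exact h3 e he
    · obtain ⟨i, hi, hφ⟩ := List.mem_flatMap.mp hφ
      obtain ⟨e, he, rfl⟩ := List.mem_map.mp hφ
      by_cases c1 : i = e.1
      · rw [decide_eq_true c1, Bool.true_or, cond_true]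
        exact holds_top v
      · by_cases c2 : i = e.2
        · rw [decide_eq_true c2, Bool.or_true, cond_true]
          exact holds_top v
        · rw [decide_eq_false c1, decide_eq_false c2, Bool.or_false, cond_false, holds_fClear]
          exact h4 i (List.mem_range.mp hi) e he c1 c2
    · obtain ⟨e, he, hφ⟩ := List.mem_flatMap.mp hφ
      obtain ⟨f, hf, rfl⟩ := List.mem_map.mp hφ
      cases c : touch e f with
      | true => exact holds_top v
      | false =>
        rw [cond_false, holds_fDisj]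
        exact h5 e he f hf c

/-- positions and slopes can be chosen independently -/
theorem exists_holds_iff (n : ℕ) (E : List (ℕ × ℕ)) (K : ℕ)
    (hE : ∀ e ∈ E, e.1 < n ∧ e.2 < n) :
    (∃ v : ℕ → ℚ, (gform n E K).Holds v) ↔ ∃ (p : ℕ → ℚ × ℚ) (u : ℕ → ℚ), GCond n E K p u := by
  constructor
  · rintro ⟨v, hv⟩
    exact ⟨_, _, (holds_gform n E K v).mp hv⟩
  · rintro ⟨p, u, h⟩
    refine ⟨fun k => if k < 2 * n then (if k % 2 = 0 then (p (k / 2)).1 else (p (k / 2)).2)
      else u (k - 2 * n), ?_⟩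
    rw [holds_gform]
    obtain ⟨v, hv⟩ : ∃ v : ℕ → ℚ, v = fun k => if k < 2 * n then
      (if k % 2 = 0 then (p (k / 2)).1 else (p (k / 2)).2) else u (k - 2 * n) := ⟨_, rfl⟩
    rw [← hv]
    have e1 : ∀ i < n, vpos v i = p i := by
      intro i hi
      have a1 : 2 * i < 2 * n := by omega
      have a2 : 2 * i + 1 < 2 * n := by omega
      have a3 : 2 * i % 2 = 0 := by omega
      have a4 : ¬ (2 * i + 1) % 2 = 0 := by omega
      have a5 : 2 * i / 2 = i := by omega
      have a6 : (2 * i + 1) / 2 = i := by omega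
      simp only [vpos, hv, if_pos a1, if_pos a2, if_pos a3, if_neg a4, a5, a6]
    obtain ⟨h1, h2, h3, h4, h5⟩ := h
    refine ⟨?_, ?_, ?_, ?_, ?_⟩
    · intro i hi j hj hij
      rw [e1 i hi, e1 j hj]
      exact h1 i hi j hj hij
    · intro e he
      rw [e1 _ (hE e he).1, e1 _ (hE e he).2]
      exact h2 e he
    · intro e he
      rw [e1 _ (hE e he).1, e1 _ (hE e he).2]
      obtain ⟨j, hj, h⟩ := h3 e he
      refine ⟨j, hj, ?_⟩
      have a1 : ¬ (2 * n + j < 2 * n) := by omega
      have a2 : 2 * n + j - 2 * n = j := by omega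
      rw [if_neg a1, a2]
      exact h
    · intro i hi e he c1 c2
      rw [e1 _ (hE e he).1, e1 _ (hE e he).2, e1 i hi]
      exact h4 i hi e he c1 c2
    · intro e he f hf c
      rw [e1 _ (hE e he).1, e1 _ (hE e he).2, e1 _ (hE f hf).1, e1 _ (hE f hf).2]
      exact h5 e he f hf c

end Pool.Agent.Lib.MP_be4430_lc
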