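import Pool.Agent.Lib.MP_be4430_lc.Memb

/-! # Segments and orientations -/

namespace Pool.Agent.Lib.MP_be4430_lc

private theorem M2y_mem {a b : ℚ × ℚ} (t : ℚ) (h0 : 0 ≤ t) (h1 : t ≤ 1) :
    qR (a.1 + t * (b.1 - a.1), a.2 + t * (b.2 - a.2)) ∈ segment ℝ (qR a) (qR b) := by
  refine ⟨1 - (t : ℝ), (t : ℝ), ?_, ?_, by ring, ?_⟩
  · have : (t : ℝ) ≤ 1 := by exact_mod_cast h1
    linarith
  · exact_mod_cast h0
  · ext
    · simp only [qR, Prod.fst_add, Prod.smul_fst, smul_eq_mul]
      push_cast
      ring
    · simp only [qR, Prod.snd_add, Prod.smul_snd, smul_eq_mul]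
      push_cast
      ring

/-- if the algebraic condition fails and no endpoint is on the other segment, the segments cross -/
theorem cond_of_disjoint {a b c d : ℚ × ℚ} (h1 : a.2 < b.2) (h2 : c.2 < d.2)
    (h : ∀ z, z ∈ segment ℝ (qR a) (qR b) → z ∉ segment ℝ (qR c) (qR d)) :
    0 < ori c d a * ori c d b ∨ 0 < ori a b c * ori a b d ∨ b.2 < c.2 ∨ d.2 < a.2 := by
  by_contra hcon
  push Not at hcon
  obtain ⟨k1, k2, k3, k4⟩ := hcon
  have hΔ : ori c d a - ori c d b = (b.1 - a.1) * (d.2 - c.2) - (b.2 - a.2) * (d.1 - c.1) := by
    unfold ori; ring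
  have hΔ' : ori a b d - ori a b c = (b.1 - a.1) * (d.2 - c.2) - (b.2 - a.2) * (d.1 - c.1) := by
    unfold ori; ring
  by_cases hD : ori c d a - ori c d b = 0
  · -- collinear case
    have e1 : ori c d a = ori c d b := by linarith
    have e2 : ori c d a = 0 := by
      rw [← e1] at k1
      nlinarith [sq_nonneg (ori c d a)]
    have e3 : ori c d b = 0 := by rw [← e1]; exact e2
    -- the point of height `max a.2 c.2`
    have hu : 0 < b.2 - a.2 := by linarith
    have hv : 0 < d.2 - c.2 := by linarith
    -- a.1 = c.1 + (a.2 - c.2) / (d.2 - c.2) * (d.1 - c.1)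
    have f1 : (d.1 - c.1) * (a.2 - c.2) - (d.2 - c.2) * (a.1 - c.1) = 0 := e2
    have f2 : (d.1 - c.1) * (b.2 - c.2) - (d.2 - c.2) * (b.1 - c.1) = 0 := e3
    rcases le_total a.2 c.2 with hac | hac
    · -- the point c on ab
      have ht0 : 0 ≤ (c.2 - a.2) / (b.2 - a.2) := div_nonneg (by linarith) hu.le
      have ht1 : (c.2 - a.2) / (b.2 - a.2) ≤ 1 := by
        rw [div_le_one hu]; linarith
      have hm := M2y_mem (a := a) (b := b) _ ht0 ht1
      have hc : ((a.1 + (c.2 - a.2) / (b.2 - a.2) * (b.1 - a.1),
          a.2 + (c.2 - a.2) / (b.2 - a.2) * (b.2 - a.2)) : ℚ × ℚ) = c := by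
        ext
        · show a.1 + (c.2 - a.2) / (b.2 - a.2) * (b.1 - a.1) = c.1
          have : (d.2 - c.2) * ((b.2 - a.2) * (c.1 - a.1) - (c.2 - a.2) * (b.1 - a.1)) = 0 := by
            linear_combination (b.2 - c.2) * f1 - (a.2 - c.2) * f2
          rcases mul_eq_zero.mp this with h' | h'
          · linarith
          · field_simp
            linarith
        · show a.2 + (c.2 - a.2) / (b.2 - a.2) * (b.2 - a.2) = c.2
          field_simp
          ring
      rw [hc] at hm
      exact h _ hm (left_mem_segment ℝ _ _)
    · have ht0 : 0 ≤ (a.2 - c.2) / (d.2 - c.2) := div_nonneg (by linarith) hv.le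
      have ht1 : (a.2 - c.2) / (d.2 - c.2) ≤ 1 := by
        rw [div_le_one hv]; linarith
      have hm := M2y_mem (a := c) (b := d) _ ht0 ht1
      have hc : ((c.1 + (a.2 - c.2) / (d.2 - c.2) * (d.1 - c.1),
          c.2 + (a.2 - c.2) / (d.2 - c.2) * (d.2 - c.2)) : ℚ × ℚ) = a := by
        ext
        · show c.1 + (a.2 - c.2) / (d.2 - c.2) * (d.1 - c.1) = a.1
          field_simp
          linarith
        · show c.2 + (a.2 - c.2) / (d.2 - c.2) * (d.2 - c.2) = a.2
          field_simp
          ring
      rw [hc] at hm
      exact h _ (left_mem_segment ℝ _ _) hm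
  · -- crossing case
    set A := ori c d a with hA
    set B := ori c d b with hB
    set C := ori a b c with hC
    set D := ori a b d with hDD
    have hD' : D - C ≠ 0 := by rw [hΔ', ← hΔ]; exact hD
    have hAB : A - B = D - C := by rw [hΔ, hΔ']
    have ht0 : 0 ≤ A / (A - B) := by
      rcases lt_or_gt_of_ne hD with h' | h'
      · have : A ≤ 0 := by
          by_contra hA0
          push Not at hA0
          have : 0 < B := by linarith
          nlinarith
        exact div_nonneg_of_nonpos this h'.le
      · have : 0 ≤ A := by
          by_contra hA0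
          push Not at hA0
          have : B < 0 := by linarith
          nlinarith
        exact div_nonneg this h'.le
    have ht1 : A / (A - B) ≤ 1 := by
      have : A / (A - B) = 1 - (-B) / (A - B) := by field_simp; ring
      rw [this]
      have : 0 ≤ (-B) / (A - B) := by
        rcases lt_or_gt_of_ne hD with h' | h'
        · have : 0 ≤ B := by
            by_contra hA0
            push Not at hA0
            have : A < 0 := by linarith
            nlinarith
          exact div_nonneg_of_nonpos (by linarith) h'.le
        · have : B ≤ 0 := by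
            by_contra hA0
            push Not at hA0
            have : 0 < A := by linarith
            nlinarith
          exact div_nonneg (by linarith) h'.le
      linarith
    have hs0 : 0 ≤ (-C) / (D - C) := by
      rcases lt_or_gt_of_ne hD' with h' | h'
      · have : 0 ≤ C := by
          by_contra hA0
          push Not at hA0
          have : D < 0 := by linarith
          nlinarith
        exact div_nonneg_of_nonpos (by linarith) h'.le
      · have : C ≤ 0 := by
          by_contra hA0
          push Not at hA0
          have : 0 < D := by linarith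
          nlinarith
        exact div_nonneg (by linarith) h'.le
    have hs1 : (-C) / (D - C) ≤ 1 := by
      have : (-C) / (D - C) = 1 - D / (D - C) := by field_simp; ring
      rw [this]
      have : 0 ≤ D / (D - C) := by
        rcases lt_or_gt_of_ne hD' with h' | h'
        · have : D ≤ 0 := by
            by_contra hA0
            push Not at hA0
            have : 0 < C := by linarith
            nlinarith
          exact div_nonneg_of_nonpos this h'.le
        · have : 0 ≤ D := by
            by_contra hA0
            push Not at hA0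
            have : C < 0 := by linarith
            nlinarith
          exact div_nonneg this h'.le
      linarith
    have m1 := M2y_mem (a := a) (b := b) _ ht0 ht1
    have m2 := M2y_mem (a := c) (b := d) _ hs0 hs1
    have e : ((a.1 + A / (A - B) * (b.1 - a.1), a.2 + A / (A - B) * (b.2 - a.2)) : ℚ × ℚ)
        = (c.1 + (-C) / (D - C) * (d.1 - c.1), c.2 + (-C) / (D - C) * (d.2 - c.2)) := by
      rw [hAB]
      have hne := hD'
      have g1 : (D - C) * (a.1 - c.1) + A * (b.1 - a.1) + C * (d.1 - c.1) = 0 := by
        simp only [hA, hC, hDD, ori]; ring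
      have g2 : (D - C) * (a.2 - c.2) + A * (b.2 - a.2) + C * (d.2 - c.2) = 0 := by
        simp only [hA, hC, hDD, ori]; ring
      ext
      · show a.1 + A / (D - C) * (b.1 - a.1) = c.1 + (-C) / (D - C) * (d.1 - c.1)
        field_simp
        linarith
      · show a.2 + A / (D - C) * (b.2 - a.2) = c.2 + (-C) / (D - C) * (d.2 - c.2)
        field_simp
        linarith
    rw [e] at m1
    exact h _ m1 m2

end Pool.Agent.Lib.MP_be4430_lc
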