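import Pool.Agent.Lib.MP_be4430_lc.Memb

/-! # Segments and orientations -/

namespace Pool.Agent.Lib.MP_be4430_lc

private theorem M2z_seg {p q z : ℝ × ℝ} (hz : z ∈ segment ℝ p q) :
    ∃ t : ℝ, 0 ≤ t ∧ t ≤ 1 ∧ z.1 = p.1 + t * (q.1 - p.1) ∧ z.2 = p.2 + t * (q.2 - p.2) := by
  obtain ⟨s, t, hs, ht, hst, rfl⟩ := hz
  have hs' : s = 1 - t := by linarith
  subst hs'
  refine ⟨t, ht, by linarith, ?_, ?_⟩
  · show (1 - t) * p.1 + t * q.1 = _
    ring
  · show (1 - t) * p.2 + t * q.2 = _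
    ring

private theorem M2z_mem {p q z : ℝ × ℝ} {t : ℝ} (h0 : 0 ≤ t) (h1 : t ≤ 1)
    (e1 : z.1 = p.1 + t * (q.1 - p.1)) (e2 : z.2 = p.2 + t * (q.2 - p.2)) :
    z ∈ segment ℝ p q := by
  refine ⟨1 - t, t, by linarith, h0, by ring, ?_⟩
  apply Prod.ext
  · show (1 - t) * p.1 + t * q.1 = z.1
    rw [e1]; ring
  · show (1 - t) * p.2 + t * q.2 = z.2
    rw [e2]; ring

/-- the common core: two segments from `a` -/
private theorem M2z_core {a b d z : ℝ × ℝ} (hb : a.2 ≠ b.2) (hd : a.2 ≠ d.2)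
    (h3 : b ∉ segment ℝ a d) (h4 : d ∉ segment ℝ a b) (hz : z ∈ segment ℝ a b)
    (hz' : z ∈ segment ℝ a d) : z = a := by
  obtain ⟨t, t0, t1, e1, e2⟩ := M2z_seg hz
  obtain ⟨s, s0, s1, f1, f2⟩ := M2z_seg hz'
  rcases t0.eq_or_lt with ht | ht
  · rw [← ht] at e1 e2
    apply Prod.ext
    · rw [e1]; ring
    · rw [e2]; ring
  rcases s0.eq_or_lt with hs | hs
  · rw [← hs] at f1 f2
    apply Prod.ext
    · rw [f1]; ring
    · rw [f2]; ring
  exfalso
  have g1 : t * (b.1 - a.1) = s * (d.1 - a.1) := by linarith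
  have g2 : t * (b.2 - a.2) = s * (d.2 - a.2) := by linarith
  rcases le_total s t with hst | hst
  · apply h3
    refine M2z_mem (t := s / t) (by positivity) (by rw [div_le_one ht]; exact hst) ?_ ?_
    · field_simp
      linarith
    · field_simp
      linarith
  · apply h4
    refine M2z_mem (t := t / s) (by positivity) (by rw [div_le_one hs]; exact hst) ?_ ?_
    · field_simp
      linarith
    · field_simp
      linarith

/-- segments with a common tail -/
theorem meet_tail {V : Type} {pos : V → ℝ × ℝ} {a b d : V} (h1 : (pos a).2 < (pos b).2)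
    (h2 : (pos a).2 < (pos d).2) (h3 : pos b ∉ segment ℝ (pos a) (pos d))
    (h4 : pos d ∉ segment ℝ (pos a) (pos b)) : MeetOK pos a b a d := by
  intro z hz hz'
  exact ⟨a, Or.inl rfl, Or.inl rfl, M2z_core h1.ne h2.ne h3 h4 hz hz'⟩

/-- segments with a common head -/
theorem meet_head {V : Type} {pos : V → ℝ × ℝ} {a b d : V} (h1 : (pos b).2 < (pos a).2)
    (h2 : (pos d).2 < (pos a).2) (h3 : pos b ∉ segment ℝ (pos d) (pos a))
    (h4 : pos d ∉ segment ℝ (pos b) (pos a)) : MeetOK pos b a d a := by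
  intro z hz hz'
  rw [segment_symm] at hz hz' h3 h4
  exact ⟨a, Or.inr rfl, Or.inr rfl, M2z_core h1.ne' h2.ne' h3 h4 hz hz'⟩

/-- consecutive edges -/
theorem meet_path {V : Type} {pos : V → ℝ × ℝ} {a b c : V} (h1 : (pos a).2 < (pos b).2)
    (h2 : (pos b).2 < (pos c).2) : MeetOK pos a b b c := by
  intro z hz hz'
  refine ⟨b, Or.inr rfl, Or.inl rfl, ?_⟩
  obtain ⟨t, t0, t1, e1, e2⟩ := M2z_seg hz
  obtain ⟨s, s0, s1, f1, f2⟩ := M2z_seg hz'
  have hs : s = 0 := by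
    by_contra hne
    have hpos : 0 < s := lt_of_le_of_ne s0 (Ne.symm hne)
    have k1 : 0 < s * ((pos c).2 - (pos b).2) := mul_pos hpos (by linarith)
    have k2 : t * ((pos b).2 - (pos a).2) ≤ 1 * ((pos b).2 - (pos a).2) :=
      mul_le_mul_of_nonneg_right t1 (by linarith)
    linarith
  subst hs
  apply Prod.ext
  · rw [f1]; ring
  · rw [f2]; ring

end Pool.Agent.Lib.MP_be4430_lc
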