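import Pool.Agent.Lib.MP_be4430_lc.M2x_Seg
import Pool.Agent.Lib.MP_be4430_lc.M2y_Cross
import Pool.Agent.Lib.MP_be4430_lc.M2z_Meet

/-! # Segments and orientations -/
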