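import Pool.Agent.Lib.MP_be4430_lc.Memb

/-! # Segments and orientations -/

namespace Pool.Agent.Lib.MP_be4430_lc

private theorem M2x_seg {p q : ℚ × ℚ} {z : ℝ × ℝ} (hz : z ∈ segment ℝ (qR p) (qR q)) :
    ∃ s t : ℝ, 0 ≤ s ∧ 0 ≤ t ∧ s + t = 1 ∧ z.1 = s * p.1 + t * q.1 ∧ z.2 = s * p.2 + t * q.2 := by
  obtain ⟨s, t, hs, ht, hst, rfl⟩ := hz
  exact ⟨s, t, hs, ht, hst, rfl, rfl⟩

/-- a point on the segment of an upward edge -/
theorem mem_segment_iff {a b i : ℚ × ℚ} (h : a.2 < b.2) :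
    qR i ∈ segment ℝ (qR a) (qR b) ↔ ori a b i = 0 ∧ a.2 ≤ i.2 ∧ i.2 ≤ b.2 := by
  have hR : (a.2 : ℝ) < b.2 := by exact_mod_cast h
  constructor
  · intro hz
    obtain ⟨s, t, hs, ht, hst, e1, e2⟩ := M2x_seg hz
    change (i.1 : ℝ) = _ at e1
    change (i.2 : ℝ) = _ at e2
    have hs' : s = 1 - t := by linarith
    subst hs'
    refine ⟨?_, ?_, ?_⟩
    · have : ((ori a b i : ℚ) : ℝ) = 0 := by
        unfold ori
        push_cast
        rw [e1, e2]
        ring
      exact_mod_cast this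
    · have : (a.2 : ℝ) ≤ i.2 := by
        rw [e2]; nlinarith
      exact_mod_cast this
    · have : (i.2 : ℝ) ≤ b.2 := by
        rw [e2]; nlinarith
      exact_mod_cast this
  · rintro ⟨h0, h1, h2⟩
    have h0' : ((b.1 : ℝ) - a.1) * (i.2 - a.2) - (b.2 - a.2) * (i.1 - a.1) = 0 := by
      have := congrArg (fun x : ℚ => (x : ℝ)) h0
      unfold ori at this
      push_cast at this
      exact this
    have h1' : (a.2 : ℝ) ≤ i.2 := by exact_mod_cast h1
    have h2' : (i.2 : ℝ) ≤ b.2 := by exact_mod_cast h2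
    have hd : (0 : ℝ) < b.2 - a.2 := by linarith
    refine ⟨(b.2 - i.2) / (b.2 - a.2), (i.2 - a.2) / (b.2 - a.2),
      div_nonneg (by linarith) hd.le, div_nonneg (by linarith) hd.le, ?_, ?_⟩
    · rw [← add_div, div_eq_one_iff_eq hd.ne']
      ring
    · apply Prod.ext
      · show ((b.2 : ℝ) - i.2) / (b.2 - a.2) * a.1 + (i.2 - a.2) / (b.2 - a.2) * b.1 = i.1
        field_simp
        linear_combination h0'
      · show ((b.2 : ℝ) - i.2) / (b.2 - a.2) * a.2 + (i.2 - a.2) / (b.2 - a.2) * b.2 = i.2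
        field_simp
        ring

private theorem M2x_aux {a b c d : ℚ × ℚ} (h : 0 < ori c d a * ori c d b)
    {z : ℝ × ℝ} (hz : z ∈ segment ℝ (qR a) (qR b)) : z ∉ segment ℝ (qR c) (qR d) := by
  intro hz'
  obtain ⟨s, t, hs, ht, hst, e1, e2⟩ := M2x_seg hz
  obtain ⟨s', t', hs', ht', hst', e1', e2'⟩ := M2x_seg hz'
  have hR : (0 : ℝ) < ((ori c d a : ℚ) : ℝ) * ((ori c d b : ℚ) : ℝ) := by exact_mod_cast h
  have key : s * ((ori c d a : ℚ) : ℝ) + t * ((ori c d b : ℚ) : ℝ) = 0 := by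
    have hs1 : s = 1 - t := by linarith
    have hs1' : s' = 1 - t' := by linarith
    subst hs1
    subst hs1'
    unfold ori
    push_cast
    rw [e1] at e1'
    rw [e2] at e2'
    linear_combination ((d.1 : ℝ) - c.1) * e2' - ((d.2 : ℝ) - c.2) * e1'
  generalize ((ori c d a : ℚ) : ℝ) = x at hR key
  generalize ((ori c d b : ℚ) : ℝ) = y at hR key
  rcases pos_and_pos_or_neg_and_neg_of_mul_pos hR with ⟨hx, hy⟩ | ⟨hx, hy⟩
  · rcases hs.eq_or_lt with h0 | h0
    · have : t = 1 := by linarith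
      rw [← h0, this] at key
      linarith
    · have := mul_pos h0 hx
      have := mul_nonneg ht hy.le
      linarith
  · rcases hs.eq_or_lt with h0 | h0
    · have : t = 1 := by linarith
      rw [← h0, this] at key
      linarith
    · have := mul_neg_of_pos_of_neg h0 hx
      have := mul_nonpos_of_nonneg_of_nonpos ht hy.le
      linarith

/-- if the algebraic condition holds the segments are disjoint -/
theorem disjoint_of_cond {a b c d : ℚ × ℚ} (h1 : a.2 < b.2) (h2 : c.2 < d.2)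
    (h : 0 < ori c d a * ori c d b ∨ 0 < ori a b c * ori a b d ∨ b.2 < c.2 ∨ d.2 < a.2)
    {z : ℝ × ℝ} (hz : z ∈ segment ℝ (qR a) (qR b)) : z ∉ segment ℝ (qR c) (qR d) := by
  rcases h with h | h | h | h
  · exact M2x_aux h hz
  · intro hz'
    exact M2x_aux h hz' hz
  · intro hz'
    obtain ⟨s, t, hs, ht, hst, e1, e2⟩ := M2x_seg hz
    obtain ⟨s', t', hs', ht', hst', e1', e2'⟩ := M2x_seg hz'
    have h1' : (a.2 : ℝ) < b.2 := by exact_mod_cast h1
    have h2' : (c.2 : ℝ) < d.2 := by exact_mod_cast h2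
    have h' : (b.2 : ℝ) < c.2 := by exact_mod_cast h
    have hs1 : s = 1 - t := by linarith
    have ht1' : t' = 1 - s' := by linarith
    subst hs1
    subst ht1'
    nlinarith
  · intro hz'
    obtain ⟨s, t, hs, ht, hst, e1, e2⟩ := M2x_seg hz
    obtain ⟨s', t', hs', ht', hst', e1', e2'⟩ := M2x_seg hz'
    have h1' : (a.2 : ℝ) < b.2 := by exact_mod_cast h1
    have h2' : (c.2 : ℝ) < d.2 := by exact_mod_cast h2
    have h' : (d.2 : ℝ) < a.2 := by exact_mod_cast h
    have hs1 : s = 1 - t := by linarith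
    have ht1' : t' = 1 - s' := by linarith
    subst hs1
    subst ht1'
    nlinarith

end Pool.Agent.Lib.MP_be4430_lc
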