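import Pool.Agent.Lib.MP_be4430_lc.M1_Holds
import Pool.Agent.Lib.MP_be4430_lc.M2_Geo
import Pool.Agent.Lib.MP_be4430_lc.A3_Scale

/-! # The conditions characterise drawings -/

namespace Pool.Agent.Lib.MP_be4430_lc

private theorem sl_cast {p : ℕ → ℚ × ℚ} (e : ℕ × ℕ) :
    sl (fun v => qR (p v)) e.1 e.2 =
      ((((p e.2).1 - (p e.1).1) / ((p e.2).2 - (p e.1).2) : ℚ) : ℝ) := by
  simp [sl, qR]

/-- slopes: a set of at most `K` reals containing all slopes can be replaced by `K` rationals -/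
theorem slopes_iff {E : List (ℕ × ℕ)} {p : ℕ → ℚ × ℚ} (hup : ∀ e ∈ E, (p e.1).2 < (p e.2).2)
    (K : ℕ) :
    (∃ S : Finset ℝ, S.card ≤ K ∧ ∀ e ∈ E, sl (fun v => qR (p v)) e.1 e.2 ∈ S) ↔
      ∃ u : ℕ → ℚ, ∀ e ∈ E, ∃ j < K, (p e.2).1 + u j * (p e.1).2 = (p e.1).1 + u j * (p e.2).2 := by
  classical
  constructor
  · rintro ⟨S, hS, hm⟩
    let q : ℕ × ℕ → ℚ := fun e => ((p e.2).1 - (p e.1).1) / ((p e.2).2 - (p e.1).2)
    let T : Finset ℚ := (E.map q).toFinset
    have hT : T.card ≤ K := by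
      refine le_trans ?_ hS
      refine Finset.card_le_card_of_injOn (fun x : ℚ => (x : ℝ)) ?_ ?_
      · intro x hx
        obtain ⟨e, he, rfl⟩ := List.mem_map.1 (List.mem_toFinset.1 hx)
        have := hm e he
        rw [sl_cast] at this
        exact this
      · intro x _ y _ h
        exact Rat.cast_injective h
    refine ⟨fun j => T.toList.getD j 0, fun e he => ?_⟩
    have hq : q e ∈ T.toList := by
      rw [Finset.mem_toList, List.mem_toFinset]
      exact List.mem_map.2 ⟨e, he, rfl⟩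
    obtain ⟨j, hj, hje⟩ := List.mem_iff_getElem.1 hq
    refine ⟨j, lt_of_lt_of_le (by rwa [Finset.length_toList] at hj) hT, ?_⟩
    simp only [List.getD_eq_getElem _ _ hj, hje]
    have h0 : (p e.2).2 - (p e.1).2 ≠ 0 := by
      have := hup e he
      exact sub_ne_zero.2 this.ne'
    have h1 : q e * ((p e.2).2 - (p e.1).2) = (p e.2).1 - (p e.1).1 := div_mul_cancel₀ _ h0
    linear_combination (-1 : ℚ) * h1
  · rintro ⟨u, hu⟩
    refine ⟨(Finset.range K).image (fun j => ((u j : ℚ) : ℝ)),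
      Finset.card_image_le.trans (by simp), fun e he => ?_⟩
    obtain ⟨j, hj, h⟩ := hu e he
    refine Finset.mem_image.2 ⟨j, Finset.mem_range.2 hj, ?_⟩
    rw [sl_cast]
    congr 1
    have h0 : (p e.2).2 - (p e.1).2 ≠ 0 := by
      have := hup e he
      exact sub_ne_zero.2 this.ne'
    rw [eq_div_iff h0]
    linear_combination (-1 : ℚ) * h

/-- more slopes than edges are never needed -/
theorem gridDraw_min {n : ℕ} {E : List (ℕ × ℕ)} (k : ℕ) :
    GridDraw (List.range n) E k ↔ GridDraw (List.range n) E (min k E.length) := by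
  classical
  constructor
  · rintro ⟨pos, hd, S, hS, hm⟩
    refine ⟨pos, hd, (E.map (fun e => sl (fun v => toR (pos v)) e.1 e.2)).toFinset, ?_, ?_⟩
    · refine le_min ?_ ?_
      · refine le_trans (Finset.card_le_card ?_) hS
        intro x hx
        obtain ⟨e, he, rfl⟩ := List.mem_map.1 (List.mem_toFinset.1 hx)
        exact hm e he
      · exact (List.toFinset_card_le _).trans (by simp)
    · intro e he
      exact List.mem_toFinset.2 (List.mem_map.2 ⟨e, he, rfl⟩)
  · rintro ⟨pos, hd, S, hS, hm⟩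
    exact ⟨pos, hd, S, hS.trans (min_le_left _ _), hm⟩

end Pool.Agent.Lib.MP_be4430_lc
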