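import Pool.Agent.Lib.MP_be4430_lc.M1_Holds
import Pool.Agent.Lib.MP_be4430_lc.M2_Geo
import Pool.Agent.Lib.MP_be4430_lc.A3_Scale

/-! # The conditions characterise drawings -/

namespace Pool.Agent.Lib.MP_be4430_lc

private theorem M3x_qR_inj {a b : ℚ × ℚ} (h : qR a = qR b) : a = b := by
  unfold qR at h
  rw [Prod.mk.injEq] at h
  exact Prod.ext (by exact_mod_cast h.1) (by exact_mod_cast h.2)

private theorem M3x_clear {a b i : ℚ × ℚ} (h : a.2 < b.2) :
    qR i ∉ segment ℝ (qR a) (qR b) ↔ (ori a b i ≠ 0 ∨ i.2 < a.2 ∨ b.2 < i.2) := by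
  rw [mem_segment_iff h]
  constructor
  · intro h1
    by_contra h2
    push Not at h2
    exact h1 ⟨h2.1, h2.2.1, h2.2.2⟩
  · rintro (h1 | h1 | h1) ⟨h2, h3, h4⟩
    · exact h1 h2
    · exact absurd h1 (not_lt.2 h3)
    · exact absurd h1 (not_lt.2 h4)

private theorem M3x_symm {V : Type} {pos : V → ℝ × ℝ} {u v u' v' : V} (h : MeetOK pos u v u' v') :
    MeetOK pos u' v' u v := by
  intro z h1 h2
  obtain ⟨w, h3, h4, h5⟩ := h z h2 h1
  exact ⟨w, h4, h3, h5⟩

theorem drawOn_iff_gCond {n : ℕ} {E : List (ℕ × ℕ)} (hE : IsDigraph n E) (p : ℕ → ℚ × ℚ) :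
    DrawOn (List.range n) E (fun i => qR (p i)) ↔
      (∀ i < n, ∀ j < n, i ≠ j → p i ≠ p j) ∧ (∀ e ∈ E, (p e.1).2 < (p e.2).2) ∧
      (∀ i < n, ∀ e ∈ E, i ≠ e.1 → i ≠ e.2 →
        ori (p e.1) (p e.2) (p i) ≠ 0 ∨ (p i).2 < (p e.1).2 ∨ (p e.2).2 < (p i).2) ∧
      (∀ e ∈ E, ∀ f ∈ E, touch e f = false →
        0 < ori (p f.1) (p f.2) (p e.1) * ori (p f.1) (p f.2) (p e.2) ∨
        0 < ori (p e.1) (p e.2) (p f.1) * ori (p e.1) (p e.2) (p f.2) ∨
        (p e.2).2 < (p f.1).2 ∨ (p f.2).2 < (p e.1).2) := by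
  constructor
  · intro hD
    have hup : ∀ e ∈ E, (p e.1).2 < (p e.2).2 := by
      intro e he
      have := hD.up e he
      simp only [qR] at this
      exact_mod_cast this
    refine ⟨?_, hup, ?_, ?_⟩
    · intro i hi j hj hij h
      exact hij (hD.inj i (List.mem_range.2 hi) j (List.mem_range.2 hj) (by simp only [h]))
    · intro i hi e he h1 h2
      exact (M3x_clear (hup e he)).1 (hD.clear i (List.mem_range.2 hi) e he h1 h2)
    · intro e he f hf ht
      refine cond_of_disjoint (hup e he) (hup f hf) ?_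
      intro z hz1 hz2
      have hne : e ≠ f := by
        rintro rfl
        simp [touch] at ht
      obtain ⟨w, h3, h4, h5⟩ := hD.planar e he f hf hne z hz1 hz2
      simp only [touch, Bool.or_eq_false_iff, decide_eq_false_iff_not] at ht
      obtain ⟨⟨⟨t1, t2⟩, t3⟩, t4⟩ := ht
      rcases h3 with h3 | h3 <;> rcases h4 with h4 | h4
      · exact t1 (h3 ▸ h4)
      · exact t2 (h3 ▸ h4)
      · exact t3 (h3 ▸ h4)
      · exact t4 (h3 ▸ h4)
  · rintro ⟨hinj, hup, hclear, hdisj⟩
    have hupR : ∀ e ∈ E, ((fun i => qR (p i)) e.1).2 < ((fun i => qR (p i)) e.2).2 := by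
      intro e he
      have := hup e he
      simp only [qR]
      exact_mod_cast this
    have hcl : ∀ i < n, ∀ e ∈ E, i ≠ e.1 → i ≠ e.2 →
        qR (p i) ∉ segment ℝ (qR (p e.1)) (qR (p e.2)) := by
      intro i hi e he h1 h2
      exact (M3x_clear (hup e he)).2 (hclear i hi e he h1 h2)
    refine ⟨?_, ?_, ?_, hupR⟩
    · intro i hi j hj h
      by_contra hij
      exact hinj i (List.mem_range.1 hi) j (List.mem_range.1 hj) hij (M3x_qR_inj h)
    · intro i hi e he h1 h2
      exact hcl i (List.mem_range.1 hi) e he h1 h2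
    · intro e he f hf hne
      obtain ⟨b1, b2, b3⟩ := hE.2 e he
      obtain ⟨c1, c2, c3⟩ := hE.2 f hf
      by_cases ht : touch e f = false
      · intro z hz1 hz2
        exact absurd hz2 (disjoint_of_cond (hup e he) (hup f hf) (hdisj e he f hf ht) hz1)
      · simp only [touch, Bool.or_eq_false_iff, decide_eq_false_iff_not, not_and_or, not_not] at ht
        have hue := hupR e he
        have huf := hupR f hf
        obtain ⟨e1, e2⟩ := e
        obtain ⟨f1, f2⟩ := f
        simp only at *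
        rcases ht with ((h1 | h1) | h1) | h1
        · subst h1
          have h2 : e2 ≠ f2 := fun h => hne (by rw [h])
          exact meet_tail (pos := fun i => qR (p i)) hue huf
            (hcl e2 b2 (e1, f2) hf b3.symm h2) (hcl f2 c2 (e1, e2) he c3.symm h2.symm)
        · subst h1
          exact M3x_symm (meet_path (pos := fun i => qR (p i)) huf hue)
        · subst h1
          exact meet_path (pos := fun i => qR (p i)) hue huf
        · subst h1
          have h2 : e1 ≠ f1 := fun h => hne (by rw [h])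
          exact meet_head (pos := fun i => qR (p i)) hue huf
            (hcl e1 b1 (f1, e2) hf h2 b3) (hcl f1 c1 (e1, e2) he h2.symm c3)

end Pool.Agent.Lib.MP_be4430_lc
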