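import Pool.Agent.Lib.MP_be4430_lc.M1_Holds
import Pool.Agent.Lib.MP_be4430_lc.M2_Geo
import Pool.Agent.Lib.MP_be4430_lc.A3_Scale
import Pool.Agent.Lib.MP_be4430_lc.M3x_Cond
import Pool.Agent.Lib.MP_be4430_lc.M3y_Slopes

/-! # The conditions characterise drawings -/

namespace Pool.Agent.Lib.MP_be4430_lc

theorem exists_holds_iff_draw {n : ℕ} {E : List (ℕ × ℕ)} (hE : IsDigraph n E) (K : ℕ) :
    (∃ v : ℕ → ℚ, (gform n E K).Holds v) ↔ GridDraw (List.range n) E K := by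
  have hlt : ∀ e ∈ E, e.1 < n ∧ e.2 < n := fun e he => ⟨(hE.2 e he).1, (hE.2 e he).2.1⟩
  have hvs : ∀ e ∈ E, e.1 ∈ List.range n ∧ e.2 ∈ List.range n := fun e he =>
    ⟨List.mem_range.2 (hlt e he).1, List.mem_range.2 (hlt e he).2⟩
  rw [exists_holds_iff n E K hlt, gridDraw_iff_ratDraw hvs]
  constructor
  · rintro ⟨p, u, h⟩
    refine ⟨p, (drawOn_iff_gCond hE p).2 ⟨h.inj, h.up, h.clear, h.disj⟩, ?_⟩
    exact (slopes_iff h.up K).2 ⟨u, h.slope⟩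
  · rintro ⟨p, hd, hS⟩
    obtain ⟨h1, h2, h3, h4⟩ := (drawOn_iff_gCond hE p).1 hd
    obtain ⟨u, hu⟩ := (slopes_iff h2 K).1 hS
    exact ⟨p, u, ⟨h1, h2, hu, h3, h4⟩⟩

end Pool.Agent.Lib.MP_be4430_lc
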