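import Pool.Agent.Lib.MP_be4430_lc.M3x_Cond
import Pool.Agent.Lib.MP_be4430_lc.M3y_Slopes
import Pool.Agent.Lib.MP_be4430_lc.M3z_All

/-! # The conditions characterise drawings -/
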