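import Pool.Agent.Lib.MP_be4430_lc.Memb

/-! # Variables of the formula; syntax trees determine formulas -/

namespace Pool.Agent.Lib.MP_be4430_lc

open MP_634427_lc

private theorem m4_bigAnd {N : ℕ} (l : List Fml) (h : ∀ φ ∈ l, φ.Below N) :
    (bigAnd l).Below N := by
  induction l with
  | nil => exact ⟨trivial, trivial⟩
  | cons a t ih =>
    exact ⟨h a (by simp), ih fun φ hφ => h φ (by simp [hφ])⟩

private theorem m4_bigOr {N : ℕ} (l : List Fml) (h : ∀ φ ∈ l, φ.Below N) :
    (bigOr l).Below N := by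
  induction l with
  | nil => exact ⟨trivial, trivial⟩
  | cons a t ih =>
    exact ⟨h a (by simp), ih fun φ hφ => h φ (by simp [hφ])⟩

private theorem m4_tX {N n i : ℕ} (hN : 2 * n ≤ N) (hi : i < n) : (tX i).Below N := by
  show 2 * i < N
  omega

private theorem m4_tY {N n i : ℕ} (hN : 2 * n ≤ N) (hi : i < n) : (tY i).Below N := by
  show 2 * i + 1 < N
  omega

private theorem m4_orP {N n a b c : ℕ} (hN : 2 * n ≤ N) (ha : a < n) (hb : b < n) (hc : c < n) :
    (orP a b c).Below N :=
  ⟨⟨⟨m4_tX hN hb, m4_tY hN hc⟩, ⟨m4_tX hN ha, m4_tY hN hb⟩⟩, ⟨m4_tX hN hc, m4_tY hN ha⟩⟩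

private theorem m4_orM {N n a b c : ℕ} (hN : 2 * n ≤ N) (ha : a < n) (hb : b < n) (hc : c < n) :
    (orM a b c).Below N :=
  ⟨⟨⟨m4_tX hN hb, m4_tY hN ha⟩, ⟨m4_tX hN ha, m4_tY hN hc⟩⟩, ⟨m4_tX hN hc, m4_tY hN hb⟩⟩

private theorem m4_oPos {N n a b c : ℕ} (hN : 2 * n ≤ N) (ha : a < n) (hb : b < n) (hc : c < n) :
    (oPos a b c).Below N := ⟨m4_orM hN ha hb hc, m4_orP hN ha hb hc⟩

private theorem m4_oNeg {N n a b c : ℕ} (hN : 2 * n ≤ N) (ha : a < n) (hb : b < n) (hc : c < n) :
    (oNeg a b c).Below N := ⟨m4_orP hN ha hb hc, m4_orM hN ha hb hc⟩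

private theorem m4_side {N n a b c d : ℕ} (hN : 2 * n ≤ N) (ha : a < n) (hb : b < n) (hc : c < n)
    (hd : d < n) : (sameSide a b c d).Below N :=
  ⟨⟨m4_oPos hN ha hb hc, m4_oPos hN ha hb hd⟩, ⟨m4_oNeg hN ha hb hc, m4_oNeg hN ha hb hd⟩⟩

private theorem m4_top {N : ℕ} : top.Below N := ⟨trivial, trivial⟩

theorem gform_below {n : ℕ} {E : List (ℕ × ℕ)} (hE : IsDigraph n E) (K : ℕ) :
    (gform n E K).Below (2 * n + K) := by
  have hN : 2 * n ≤ 2 * n + K := by omega
  have hb : ∀ e ∈ E, e.1 < n ∧ e.2 < n := fun e he => ⟨(hE.2 e he).1, (hE.2 e he).2.1⟩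
  refine m4_bigAnd _ fun φ hφ => ?_
  simp only [List.mem_append, List.mem_flatMap, List.mem_map, List.mem_range] at hφ
  rcases hφ with (((⟨i, hi, j, hj, rfl⟩ | ⟨e, he, rfl⟩) | ⟨e, he, rfl⟩) | ⟨i, hi, e, he, rfl⟩) |
    ⟨e, he, f, hf, rfl⟩
  · cases decide (i = j)
    · exact ⟨⟨m4_tX hN hi, m4_tX hN hj⟩, ⟨m4_tY hN hi, m4_tY hN hj⟩⟩
    · exact m4_top
  · exact ⟨m4_tY hN (hb e he).1, m4_tY hN (hb e he).2⟩
  · refine m4_bigOr _ fun ψ hψ => ?_
    simp only [List.mem_map, List.mem_range] at hψ
    obtain ⟨j, hj, rfl⟩ := hψ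
    have hv : (Trm.var (2 * n + j)).Below (2 * n + K) := by
      show 2 * n + j < 2 * n + K
      omega
    exact ⟨⟨m4_tX hN (hb e he).2, ⟨hv, m4_tY hN (hb e he).1⟩⟩,
      ⟨m4_tX hN (hb e he).1, ⟨hv, m4_tY hN (hb e he).2⟩⟩⟩
  · cases (decide (i = e.1) || decide (i = e.2))
    · exact ⟨⟨m4_oPos hN (hb e he).1 (hb e he).2 hi, m4_oNeg hN (hb e he).1 (hb e he).2 hi⟩,
        ⟨⟨m4_tY hN hi, m4_tY hN (hb e he).1⟩, ⟨m4_tY hN (hb e he).2, m4_tY hN hi⟩⟩⟩
    · exact m4_top
  · cases touch e f
    · exact ⟨⟨m4_side hN (hb f hf).1 (hb f hf).2 (hb e he).1 (hb e he).2,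
          m4_side hN (hb e he).1 (hb e he).2 (hb f hf).1 (hb f hf).2⟩,
        ⟨⟨m4_tY hN (hb e he).2, m4_tY hN (hb f hf).1⟩, ⟨m4_tY hN (hb f hf).2, m4_tY hN (hb e he).1⟩⟩⟩
    · exact m4_top

private theorem m4_un {i j : ℕ} (h : un i = un j) : i = j := by
  have := congrArg spine h
  simpa using this

private theorem m4_tag {i j : ℕ} {a b : BT} (h : BT.node (enc i) a = BT.node (enc j) b) :
    i = j ∧ a = b := by
  rw [BT.node.injEq] at h
  exact ⟨m4_un h.1, h.2⟩

private theorem m4_pair {a b c d : BT} (h : BT.node a b = BT.node c d) : a = c ∧ b = d := by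
  rw [BT.node.injEq] at h
  exact h

theorem Trm.toBT_injective : Function.Injective Trm.toBT := by
  intro s
  induction s with
  | zero =>
    intro t h
    cases t with
    | zero => rfl
    | one => exact absurd (m4_tag h).1 (by decide)
    | var j => exact absurd (m4_tag h).1 (by decide)
    | add _ _ => exact absurd (m4_tag h).1 (by decide)
    | mul _ _ => exact absurd (m4_tag h).1 (by decide)
  | one =>
    intro t h
    cases t with
    | zero => exact absurd (m4_tag h).1 (by decide)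
    | one => rfl
    | var j => exact absurd (m4_tag h).1 (by decide)
    | add _ _ => exact absurd (m4_tag h).1 (by decide)
    | mul _ _ => exact absurd (m4_tag h).1 (by decide)
  | var i =>
    intro t h
    cases t with
    | zero => exact absurd (m4_tag h).1 (by decide)
    | one => exact absurd (m4_tag h).1 (by decide)
    | var j => rw [m4_un (m4_tag h).2]
    | add _ _ => exact absurd (m4_tag h).1 (by decide)
    | mul _ _ => exact absurd (m4_tag h).1 (by decide)
  | add a b iha ihb =>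
    intro t h
    cases t with
    | zero => exact absurd (m4_tag h).1 (by decide)
    | one => exact absurd (m4_tag h).1 (by decide)
    | var j => exact absurd (m4_tag h).1 (by decide)
    | add c d =>
      obtain ⟨h1, h2⟩ := m4_pair (m4_tag h).2
      rw [iha h1, ihb h2]
    | mul _ _ => exact absurd (m4_tag h).1 (by decide)
  | mul a b iha ihb =>
    intro t h
    cases t with
    | zero => exact absurd (m4_tag h).1 (by decide)
    | one => exact absurd (m4_tag h).1 (by decide)
    | var j => exact absurd (m4_tag h).1 (by decide)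
    | add _ _ => exact absurd (m4_tag h).1 (by decide)
    | mul c d =>
      obtain ⟨h1, h2⟩ := m4_pair (m4_tag h).2
      rw [iha h1, ihb h2]

theorem Fml.toBT_injective : Function.Injective Fml.toBT := by
  intro s
  induction s with
  | eq a b =>
    intro t h
    cases t with
    | eq c d =>
      obtain ⟨h1, h2⟩ := m4_pair (m4_tag h).2
      rw [Trm.toBT_injective h1, Trm.toBT_injective h2]
    | lt _ _ => exact absurd (m4_tag h).1 (by decide)
    | not _ => exact absurd (m4_tag h).1 (by decide)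
    | and _ _ => exact absurd (m4_tag h).1 (by decide)
    | or _ _ => exact absurd (m4_tag h).1 (by decide)
  | lt a b =>
    intro t h
    cases t with
    | eq _ _ => exact absurd (m4_tag h).1 (by decide)
    | lt c d =>
      obtain ⟨h1, h2⟩ := m4_pair (m4_tag h).2
      rw [Trm.toBT_injective h1, Trm.toBT_injective h2]
    | not _ => exact absurd (m4_tag h).1 (by decide)
    | and _ _ => exact absurd (m4_tag h).1 (by decide)
    | or _ _ => exact absurd (m4_tag h).1 (by decide)
  | not a iha =>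
    intro t h
    cases t with
    | eq _ _ => exact absurd (m4_tag h).1 (by decide)
    | lt _ _ => exact absurd (m4_tag h).1 (by decide)
    | not c => rw [iha (m4_tag h).2]
    | and _ _ => exact absurd (m4_tag h).1 (by decide)
    | or _ _ => exact absurd (m4_tag h).1 (by decide)
  | and a b iha ihb =>
    intro t h
    cases t with
    | eq _ _ => exact absurd (m4_tag h).1 (by decide)
    | lt _ _ => exact absurd (m4_tag h).1 (by decide)
    | not _ => exact absurd (m4_tag h).1 (by decide)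
    | and c d =>
      obtain ⟨h1, h2⟩ := m4_pair (m4_tag h).2
      rw [iha h1, ihb h2]
    | or _ _ => exact absurd (m4_tag h).1 (by decide)
  | or a b iha ihb =>
    intro t h
    cases t with
    | eq _ _ => exact absurd (m4_tag h).1 (by decide)
    | lt _ _ => exact absurd (m4_tag h).1 (by decide)
    | not _ => exact absurd (m4_tag h).1 (by decide)
    | and _ _ => exact absurd (m4_tag h).1 (by decide)
    | or c d =>
      obtain ⟨h1, h2⟩ := m4_pair (m4_tag h).2
      rw [iha h1, ihb h2]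

end Pool.Agent.Lib.MP_be4430_lc
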