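import Pool.Agent.Lib.MP_be4430_lc.Memb
import Pool.Agent.Lib.MP_be4430_lc.P2_Lists

/-! # The formula is computed in polynomial time -/

namespace Pool.Agent.Lib.MP_be4430_lc

open MP_634427_lc

variable {γ : Type} [Enc γ]

theorem pt_var {i : γ → ℕ} (hi : PT i) : PT fun c => Trm.var (i c) := by
  obtain ⟨F, hF, h⟩ := hi
  exact ⟨_, .node (PT.const_tree (enc (2 : ℕ))) hF, fun c => by rw [h]; rfl⟩
theorem pt_tadd {s t : γ → Trm} (hs : PT s) (ht : PT t) : PT fun c => Trm.add (s c) (t c) := by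
  obtain ⟨F, hF, h⟩ := hs
  obtain ⟨G, hG, h'⟩ := ht
  exact ⟨_, .node (PT.const_tree (enc (3 : ℕ))) (.node hF hG), fun c => by rw [h, h']; rfl⟩
theorem pt_tmul {s t : γ → Trm} (hs : PT s) (ht : PT t) : PT fun c => Trm.mul (s c) (t c) := by
  obtain ⟨F, hF, h⟩ := hs
  obtain ⟨G, hG, h'⟩ := ht
  exact ⟨_, .node (PT.const_tree (enc (4 : ℕ))) (.node hF hG), fun c => by rw [h, h']; rfl⟩
theorem pt_feq {s t : γ → Trm} (hs : PT s) (ht : PT t) : PT fun c => Fml.eq (s c) (t c) := by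
  obtain ⟨F, hF, h⟩ := hs
  obtain ⟨G, hG, h'⟩ := ht
  exact ⟨_, .node (PT.const_tree (enc (5 : ℕ))) (.node hF hG), fun c => by rw [h, h']; rfl⟩
theorem pt_flt {s t : γ → Trm} (hs : PT s) (ht : PT t) : PT fun c => Fml.lt (s c) (t c) := by
  obtain ⟨F, hF, h⟩ := hs
  obtain ⟨G, hG, h'⟩ := ht
  exact ⟨_, .node (PT.const_tree (enc (6 : ℕ))) (.node hF hG), fun c => by rw [h, h']; rfl⟩
theorem pt_fnot {φ : γ → Fml} (h : PT φ) : PT fun c => Fml.not (φ c) := by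
  obtain ⟨F, hF, h⟩ := h
  exact ⟨_, .node (PT.const_tree (enc (7 : ℕ))) hF, fun c => by rw [h]; rfl⟩
theorem pt_fand {φ ψ : γ → Fml} (h : PT φ) (h' : PT ψ) : PT fun c => Fml.and (φ c) (ψ c) := by
  obtain ⟨F, hF, h⟩ := h
  obtain ⟨G, hG, h'⟩ := h'
  exact ⟨_, .node (PT.const_tree (enc (8 : ℕ))) (.node hF hG), fun c => by rw [h, h']; rfl⟩
theorem pt_for {φ ψ : γ → Fml} (h : PT φ) (h' : PT ψ) : PT fun c => Fml.or (φ c) (ψ c) := by
  obtain ⟨F, hF, h⟩ := h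
  obtain ⟨G, hG, h'⟩ := h'
  exact ⟨_, .node (PT.const_tree (enc (9 : ℕ))) (.node hF hG), fun c => by rw [h, h']; rfl⟩
theorem pt_bigAnd {l : γ → List Fml} (h : PT l) : PT fun c => bigAnd (l c) := by
  refine PT.foldr_add (f := fun (_ : γ) a r => Fml.and a r) h (PT.const _)
    (pt_fand (PT.fst' PT.snd) (PT.snd' PT.snd)) ?_
  obtain ⟨k, hk⟩ := h.size_le
  obtain ⟨k', hk'⟩ := PB.add (F := fun n => (n + 2) ^ k) ⟨k, fun n => le_rfl⟩ (PB.const 10)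
  refine ⟨k', fun c a r ha => ?_⟩
  have h1 := sz_mem_le ha
  have h2 := hk c
  have h3 := hk' (sz c)
  beta_reduce at h3
  have h4 : sz (Fml.and a r) = sz (8 : ℕ) + (sz a + sz r + 1) + 1 := rfl
  rw [h4, sz_nat]
  omega
theorem pt_bigOr {l : γ → List Fml} (h : PT l) : PT fun c => bigOr (l c) := by
  refine PT.foldr_add (f := fun (_ : γ) a r => Fml.or a r) h (PT.const _)
    (pt_for (PT.fst' PT.snd) (PT.snd' PT.snd)) ?_
  obtain ⟨k, hk⟩ := h.size_le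
  obtain ⟨k', hk'⟩ := PB.add (F := fun n => (n + 2) ^ k) ⟨k, fun n => le_rfl⟩ (PB.const 11)
  refine ⟨k', fun c a r ha => ?_⟩
  have h1 := sz_mem_le ha
  have h2 := hk c
  have h3 := hk' (sz c)
  beta_reduce at h3
  have h4 : sz (Fml.or a r) = sz (9 : ℕ) + (sz a + sz r + 1) + 1 := rfl
  rw [h4, sz_nat]
  omega

end Pool.Agent.Lib.MP_be4430_lc
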