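import Pool.Agent.Lib.MP_be4430_lc.M5_FormPT

/-! # The formula of a graph is computed in polynomial time -/

namespace Pool.Agent.Lib.MP_be4430_lc

open MP_634427_lc

variable {γ : Type} [Enc γ]

private theorem M6_tX {i : γ → ℕ} (hi : PT i) : PT fun c => tX (i c) :=
  pt_var (PT.mul (PT.const 2) hi)

private theorem M6_tY {i : γ → ℕ} (hi : PT i) : PT fun c => tY (i c) :=
  pt_var (PT.succ (PT.mul (PT.const 2) hi))

private theorem M6_orP {a b c : γ → ℕ} (ha : PT a) (hb : PT b) (hc : PT c) :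
    PT fun x => orP (a x) (b x) (c x) :=
  pt_tadd (pt_tadd (pt_tmul (M6_tX hb) (M6_tY hc)) (pt_tmul (M6_tX ha) (M6_tY hb)))
    (pt_tmul (M6_tX hc) (M6_tY ha))

private theorem M6_orM {a b c : γ → ℕ} (ha : PT a) (hb : PT b) (hc : PT c) :
    PT fun x => orM (a x) (b x) (c x) :=
  pt_tadd (pt_tadd (pt_tmul (M6_tX hb) (M6_tY ha)) (pt_tmul (M6_tX ha) (M6_tY hc)))
    (pt_tmul (M6_tX hc) (M6_tY hb))

private theorem M6_oPos {a b c : γ → ℕ} (ha : PT a) (hb : PT b) (hc : PT c) :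
    PT fun x => oPos (a x) (b x) (c x) :=
  pt_flt (M6_orM ha hb hc) (M6_orP ha hb hc)

private theorem M6_oNeg {a b c : γ → ℕ} (ha : PT a) (hb : PT b) (hc : PT c) :
    PT fun x => oNeg (a x) (b x) (c x) :=
  pt_flt (M6_orP ha hb hc) (M6_orM ha hb hc)

private theorem M6_same {a b c d : γ → ℕ} (ha : PT a) (hb : PT b) (hc : PT c) (hd : PT d) :
    PT fun x => sameSide (a x) (b x) (c x) (d x) :=
  pt_for (pt_fand (M6_oPos ha hb hc) (M6_oPos ha hb hd))
    (pt_fand (M6_oNeg ha hb hc) (M6_oNeg ha hb hd))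

theorem pt_fInj {i j : γ → ℕ} (hi : PT i) (hj : PT j) : PT fun c => fInj (i c) (j c) :=
  pt_fnot (pt_fand (pt_feq (M6_tX hi) (M6_tX hj)) (pt_feq (M6_tY hi) (M6_tY hj)))

theorem pt_fSlope {n K a b : γ → ℕ} (hn : PT n) (hK : PT K) (ha : PT a) (hb : PT b) :
    PT fun c => fSlope (n c) (K c) (a c) (b c) := by
  have hn' : PT fun p : γ × ℕ => n p.1 := hn.comp PT.fst
  have ha' : PT fun p : γ × ℕ => a p.1 := ha.comp PT.fst
  have hb' : PT fun p : γ × ℕ => b p.1 := hb.comp PT.fst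
  have hv : PT fun p : γ × ℕ => Trm.var (2 * n p.1 + p.2) :=
    pt_var (PT.add (PT.mul (PT.const 2) hn') PT.snd)
  have hf : PT fun p : γ × ℕ => Fml.eq
      (.add (tX (b p.1)) (.mul (.var (2 * n p.1 + p.2)) (tY (a p.1))))
      (.add (tX (a p.1)) (.mul (.var (2 * n p.1 + p.2)) (tY (b p.1)))) :=
    pt_feq (pt_tadd (M6_tX hb') (pt_tmul hv (M6_tY ha')))
      (pt_tadd (M6_tX ha') (pt_tmul hv (M6_tY hb')))
  exact pt_bigOr (PT.map (PT.range hK) hf)

theorem pt_fClear {i a b : γ → ℕ} (hi : PT i) (ha : PT a) (hb : PT b) :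
    PT fun c => fClear (i c) (a c) (b c) :=
  pt_for (pt_for (M6_oPos ha hb hi) (M6_oNeg ha hb hi))
    (pt_for (pt_flt (M6_tY hi) (M6_tY ha)) (pt_flt (M6_tY hb) (M6_tY hi)))

theorem pt_fDisj {a b c d : γ → ℕ} (ha : PT a) (hb : PT b) (hc : PT c) (hd : PT d) :
    PT fun x => fDisj (a x) (b x) (c x) (d x) :=
  pt_for (pt_for (M6_same hc hd ha hb) (M6_same ha hb hc hd))
    (pt_for (pt_flt (M6_tY hb) (M6_tY hc)) (pt_flt (M6_tY hd) (M6_tY ha)))

theorem pt_gform {n K : γ → ℕ} {E : γ → List (ℕ × ℕ)} (hn : PT n) (hE : PT E) (hK : PT K) :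
    PT fun c => gform (n c) (E c) (K c) := by
  have h1 : PT fun c => (List.range (n c)).flatMap fun i => (List.range (n c)).map fun j =>
      bif decide (i = j) then top else fInj i j := by
    have hin : PT fun p : (γ × ℕ) × ℕ => bif decide (p.1.2 = p.2) then top else fInj p.1.2 p.2 :=
      PT.cond (PT.eqNat (PT.snd' PT.fst) PT.snd) (PT.const top) (pt_fInj (PT.snd' PT.fst) PT.snd)
    exact PT.flatMap (PT.range hn)
      (f := fun c i => (List.range (n c)).map fun j => bif decide (i = j) then top else fInj i j)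
      (PT.map (PT.range (hn.comp PT.fst))
        (f := fun (p : γ × ℕ) j => bif decide (p.2 = j) then top else fInj p.2 j) hin)
  have h2 : PT fun c => (E c).map fun e => fUp e.1 e.2 := by
    have hin : PT fun p : γ × (ℕ × ℕ) => fUp p.2.1 p.2.2 :=
      pt_flt (M6_tY (PT.fst' PT.snd)) (M6_tY (PT.snd' PT.snd))
    exact PT.map hE (f := fun _ e => fUp e.1 e.2) hin
  have h3 : PT fun c => (E c).map fun e => fSlope (n c) (K c) e.1 e.2 := by
    have hin : PT fun p : γ × (ℕ × ℕ) => fSlope (n p.1) (K p.1) p.2.1 p.2.2 :=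
      pt_fSlope (hn.comp PT.fst) (hK.comp PT.fst) (PT.fst' PT.snd) (PT.snd' PT.snd)
    exact PT.map hE (f := fun c e => fSlope (n c) (K c) e.1 e.2) hin
  have h4 : PT fun c => (List.range (n c)).flatMap fun i => (E c).map fun e =>
      bif decide (i = e.1) || decide (i = e.2) then top else fClear i e.1 e.2 := by
    have hin : PT fun p : (γ × ℕ) × (ℕ × ℕ) =>
        bif decide (p.1.2 = p.2.1) || decide (p.1.2 = p.2.2) then top
        else fClear p.1.2 p.2.1 p.2.2 :=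
      PT.cond (PT.or (PT.eqNat (PT.snd' PT.fst) (PT.fst' PT.snd))
        (PT.eqNat (PT.snd' PT.fst) (PT.snd' PT.snd))) (PT.const top)
        (pt_fClear (PT.snd' PT.fst) (PT.fst' PT.snd) (PT.snd' PT.snd))
    exact PT.flatMap (PT.range hn)
      (f := fun c i => (E c).map fun e =>
        bif decide (i = e.1) || decide (i = e.2) then top else fClear i e.1 e.2)
      (PT.map (hE.comp PT.fst)
        (f := fun (p : γ × ℕ) e =>
          bif decide (p.2 = e.1) || decide (p.2 = e.2) then top else fClear p.2 e.1 e.2) hin)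
  have h5 : PT fun c => (E c).flatMap fun e => (E c).map fun f =>
      bif touch e f then top else fDisj e.1 e.2 f.1 f.2 := by
    have e1 : PT fun p : (γ × (ℕ × ℕ)) × (ℕ × ℕ) => p.1.2.1 := PT.fst' (PT.snd' PT.fst)
    have e2 : PT fun p : (γ × (ℕ × ℕ)) × (ℕ × ℕ) => p.1.2.2 := PT.snd' (PT.snd' PT.fst)
    have f1 : PT fun p : (γ × (ℕ × ℕ)) × (ℕ × ℕ) => p.2.1 := PT.fst' PT.snd
    have f2 : PT fun p : (γ × (ℕ × ℕ)) × (ℕ × ℕ) => p.2.2 := PT.snd' PT.snd
    have ht : PT fun p : (γ × (ℕ × ℕ)) × (ℕ × ℕ) => touch p.1.2 p.2 :=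
      PT.or (PT.or (PT.or (PT.eqNat e1 f1) (PT.eqNat e1 f2)) (PT.eqNat e2 f1)) (PT.eqNat e2 f2)
    have hin : PT fun p : (γ × (ℕ × ℕ)) × (ℕ × ℕ) =>
        bif touch p.1.2 p.2 then top else fDisj p.1.2.1 p.1.2.2 p.2.1 p.2.2 :=
      PT.cond ht (PT.const top) (pt_fDisj e1 e2 f1 f2)
    exact PT.flatMap hE
      (f := fun c e => (E c).map fun f => bif touch e f then top else fDisj e.1 e.2 f.1 f.2)
      (PT.map (hE.comp PT.fst)
        (f := fun (p : γ × (ℕ × ℕ)) f =>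
          bif touch p.2 f then top else fDisj p.2.1 p.2.2 f.1 f.2) hin)
  exact pt_bigAnd (PT.append (PT.append (PT.append (PT.append h1 h2) h3) h4) h5)

end Pool.Agent.Lib.MP_be4430_lc
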