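import Pool.Agent.Lib.MP_be4430_lc.M3_Draw
import Pool.Agent.Lib.MP_be4430_lc.M4_Below
import Pool.Agent.Lib.MP_be4430_lc.M6_GformPT
import Pool.Agent.Lib.MP_be4430_lc.M7_Parse
import Pool.Agent.Lib.MP_be4430_lc.A2_GridIff

/-! # `GRID` reduces to `ETQ` -/

namespace Pool.Agent.Lib.MP_be4430_lc

open MP_634427_lc

/-- the reduction -/
def redMem (w : Word) : Word :=
  bif decide (code (enc (parseG (decode w))) = w) &&
      isDig (parseG (decode w)).1.1 (parseG (decode w)).1.2 then
    code (enc (2 * (parseG (decode w)).1.1 +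
        min (bval (parseG (decode w)).2) (parseG (decode w)).1.2.length,
      gform (parseG (decode w)).1.1 (parseG (decode w)).1.2
        (min (bval (parseG (decode w)).2) (parseG (decode w)).1.2.length)))
  else []

theorem pt_redMem : PT redMem := by
  have hp : PT fun w : Word => parseG (decode w) := pt_parseG (PT.decode PT.id)
  have hn : PT fun w : Word => (parseG (decode w)).1.1 := PT.fst' (PT.fst' hp)
  have hE : PT fun w : Word => (parseG (decode w)).1.2 := PT.snd' (PT.fst' hp)
  have hb : PT fun w : Word => (parseG (decode w)).2 := PT.snd' hp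
  have hK : PT fun w : Word =>
      min (bval (parseG (decode w)).2) (parseG (decode w)).1.2.length :=
    pt_minBval hb (PT.length hE)
  have he : PT fun w : Word => (enc (parseG (decode w)) : BT) := by
    obtain ⟨F, hF, h⟩ := hp
    exact ⟨F, hF, h⟩
  have h1 : PT fun w : Word => decide (code (enc (parseG (decode w))) = w) :=
    PT.eqWord (PT.code he) PT.id
  have h2 : PT fun w : Word => (2 * (parseG (decode w)).1.1 +
        min (bval (parseG (decode w)).2) (parseG (decode w)).1.2.length,
      gform (parseG (decode w)).1.1 (parseG (decode w)).1.2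
        (min (bval (parseG (decode w)).2) (parseG (decode w)).1.2.length)) :=
    PT.pair (PT.add (PT.mul (PT.const 2) hn) hK) (pt_gform hn hE hK)
  have h3 : PT fun w : Word => (enc (2 * (parseG (decode w)).1.1 +
        min (bval (parseG (decode w)).2) (parseG (decode w)).1.2.length,
      gform (parseG (decode w)).1.1 (parseG (decode w)).1.2
        (min (bval (parseG (decode w)).2) (parseG (decode w)).1.2.length)) : BT) := by
    obtain ⟨F, hF, h⟩ := h2
    exact ⟨F, hF, h⟩
  exact PT.cond (PT.and h1 (pt_isDig hn hE)) (PT.code h3) (PT.const [])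

theorem nil_not_mem_ETQ : ([] : Word) ∉ ETQ := by
  rintro ⟨n, φ, hw, -⟩
  have h := congrArg List.length hw
  rw [length_code] at h
  simp at h

private lemma mem_ETQ_iff (n : ℕ) (φ : Fml) :
    code (enc (n, φ)) ∈ ETQ ↔ φ.Below n ∧ ∃ v : ℕ → ℚ, φ.Holds v := by
  constructor
  · rintro ⟨n', φ', hw, hb, hv⟩
    have h1 := code_injective hw
    have hinj : Function.Injective (enc : ℕ × Fml → BT) :=
      enc_pair_injective enc_nat_injective Fml.toBT_injective
    have h2 := hinj h1
    rw [Prod.mk.injEq] at h2
    obtain ⟨rfl, rfl⟩ := h2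
    exact ⟨hb, hv⟩
  · rintro ⟨hb, hv⟩
    exact ⟨n, φ, rfl, hb, hv⟩

theorem redMem_iff (w : Word) : w ∈ GRID ↔ redMem w ∈ ETQ := by
  constructor
  · rintro ⟨n, E, b, rfl, hdig, hd⟩
    have h2 : redMem (code (enc ((n, E), b))) =
        code (enc (2 * n + min (bval b) E.length, gform n E (min (bval b) E.length))) := by
      have hpar : parseG (decode (code (enc ((n, E), b)))) = ((n, E), b) := by
        rw [decode_code, parseG_enc]
      unfold redMem
      rw [hpar]
      simp only [(isDig_iff n E).2 hdig, decide_true, Bool.and_self, cond_true]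
    rw [h2, mem_ETQ_iff]
    refine ⟨gform_below hdig _, ?_⟩
    rw [exists_holds_iff_draw hdig, ← gridDraw_min]
    exact (gridDraw_iff _ _ _).1 hd
  · intro h
    unfold redMem at h
    by_cases hc : (decide (code (enc (parseG (decode w))) = w) &&
      isDig (parseG (decode w)).1.1 (parseG (decode w)).1.2) = true
    · rw [hc, cond_true, mem_ETQ_iff] at h
      rw [Bool.and_eq_true, decide_eq_true_eq, isDig_iff] at hc
      obtain ⟨h1, h2⟩ := h
      rw [exists_holds_iff_draw hc.2, ← gridDraw_min] at h2
      exact ⟨_, _, _, hc.1.symm, hc.2, (gridDraw_iff _ _ _).2 h2⟩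
    · rw [Bool.not_eq_true] at hc
      rw [hc, cond_false] at h
      exact absurd h nil_not_mem_ETQ

theorem reduces_GRID_ETQ : Reduces GRID ETQ := ⟨redMem, pt_redMem, redMem_iff⟩

end Pool.Agent.Lib.MP_be4430_lc
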