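import Pool.Agent.Lib.MP_be4430_lc.F3_Hard
import Pool.Agent.Lib.MP_be4430_lc.M8_Mem

/-! # The grid version of the upward planar slope number problem is `∃ℚ`-complete -/

namespace Pool.Agent.Lib.MP_be4430_lc

open MP_634427_lc

theorem Reduces.trans {A B C : Set Word} (h1 : Reduces A B) (h2 : Reduces B C) : Reduces A C := by
  obtain ⟨f, hf, hf'⟩ := h1
  obtain ⟨g, hg, hg'⟩ := h2
  exact ⟨fun w => g (f w), hg.comp hf, fun w => (hf' w).trans (hg' (f w))⟩

theorem grid_complete : ExistsQComplete GRID :=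
  ⟨reduces_GRID_ETQ, fun _ hA => Reduces.trans hA reduces_ETQ_GRID⟩

end Pool.Agent.Lib.MP_be4430_lc
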