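import Pool.Agent.Lib.MP_be4430_lc.Basic

/-!
# The formula expressing that a graph has a drawing: definitions

The vertex `i` has the coordinates `x₂ᵢ, x₂ᵢ₊₁`, the slopes are `x₂ₙ, …, x₂ₙ₊ₖ₋₁`.
-/

namespace Pool.Agent.Lib.MP_be4430_lc

open MP_634427_lc

/-- true -/
def top : Fml := .eq .zero .zero

def bigAnd (l : List Fml) : Fml := l.foldr Fml.and top

def bigOr (l : List Fml) : Fml := l.foldr Fml.or (.lt .zero .zero)

/-- coordinates of the vertex `i` -/
def tX (i : ℕ) : Trm := .var (2 * i)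
def tY (i : ℕ) : Trm := .var (2 * i + 1)

/-- `x_b y_c + x_a y_b + x_c y_a` -/
def orP (a b c : ℕ) : Trm :=
  .add (.add (.mul (tX b) (tY c)) (.mul (tX a) (tY b))) (.mul (tX c) (tY a))

/-- `x_b y_a + x_a y_c + x_c y_b` -/
def orM (a b c : ℕ) : Trm :=
  .add (.add (.mul (tX b) (tY a)) (.mul (tX a) (tY c))) (.mul (tX c) (tY b))

/-- `c` is strictly to the left of the line `ab` -/
def oPos (a b c : ℕ) : Fml := .lt (orM a b c) (orP a b c)

/-- `c` is strictly to the right of the line `ab` -/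
def oNeg (a b c : ℕ) : Fml := .lt (orP a b c) (orM a b c)

/-- `c` and `d` are strictly on the same side of the line `ab` -/
def sameSide (a b c d : ℕ) : Fml :=
  .or (.and (oPos a b c) (oPos a b d)) (.and (oNeg a b c) (oNeg a b d))

def fInj (i j : ℕ) : Fml := .not (.and (.eq (tX i) (tX j)) (.eq (tY i) (tY j)))

def fUp (a b : ℕ) : Fml := .lt (tY a) (tY b)

/-- one of the `K` slopes is that of `ab` -/
def fSlope (n K a b : ℕ) : Fml :=
  bigOr ((List.range K).map fun j => .eq (.add (tX b) (.mul (.var (2 * n + j)) (tY a)))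
    (.add (tX a) (.mul (.var (2 * n + j)) (tY b))))

/-- `i` is not on the segment `ab` -/
def fClear (i a b : ℕ) : Fml :=
  .or (.or (oPos a b i) (oNeg a b i)) (.or (.lt (tY i) (tY a)) (.lt (tY b) (tY i)))

/-- the segments `ab`, `cd` are disjoint -/
def fDisj (a b c d : ℕ) : Fml :=
  .or (.or (sameSide c d a b) (sameSide a b c d)) (.or (.lt (tY b) (tY c)) (.lt (tY d) (tY a)))

/-- the edges have a common endpoint (or are equal) -/
def touch (e f : ℕ × ℕ) : Bool :=
  decide (e.1 = f.1) || decide (e.1 = f.2) || decide (e.2 = f.1) || decide (e.2 = f.2)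

/-- the formula for the graph with vertices `0, …, n-1` and edges `E`, and `K` slopes -/
def gform (n : ℕ) (E : List (ℕ × ℕ)) (K : ℕ) : Fml :=
  bigAnd (
    ((List.range n).flatMap fun i => (List.range n).map fun j =>
      bif decide (i = j) then top else fInj i j) ++
    (E.map fun e => fUp e.1 e.2) ++
    (E.map fun e => fSlope n K e.1 e.2) ++
    ((List.range n).flatMap fun i => E.map fun e =>
      bif decide (i = e.1) || decide (i = e.2) then top else fClear i e.1 e.2) ++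
    (E.flatMap fun e => E.map fun f => bif touch e f then top else fDisj e.1 e.2 f.1 f.2))

/-- the positions given by an assignment -/
def vpos (v : ℕ → ℚ) (i : ℕ) : ℚ × ℚ := (v (2 * i), v (2 * i + 1))

/-- orientation of the triangle `a b c` -/
def ori (a b c : ℚ × ℚ) : ℚ := (b.1 - a.1) * (c.2 - a.2) - (b.2 - a.2) * (c.1 - a.1)

/-- the conditions expressed by `gform` -/
structure GCond (n : ℕ) (E : List (ℕ × ℕ)) (K : ℕ) (p : ℕ → ℚ × ℚ) (u : ℕ → ℚ) : Prop where
  inj : ∀ i < n, ∀ j < n, i ≠ j → p i ≠ p j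
  up : ∀ e ∈ E, (p e.1).2 < (p e.2).2
  slope : ∀ e ∈ E, ∃ j < K, (p e.2).1 + u j * (p e.1).2 = (p e.1).1 + u j * (p e.2).2
  clear : ∀ i < n, ∀ e ∈ E, i ≠ e.1 → i ≠ e.2 →
    ori (p e.1) (p e.2) (p i) ≠ 0 ∨ (p i).2 < (p e.1).2 ∨ (p e.2).2 < (p i).2
  disj : ∀ e ∈ E, ∀ f ∈ E, touch e f = false →
    0 < ori (p f.1) (p f.2) (p e.1) * ori (p f.1) (p f.2) (p e.2) ∨
    0 < ori (p e.1) (p e.2) (p f.1) * ori (p e.1) (p e.2) (p f.2) ∨
    (p e.2).2 < (p f.1).2 ∨ (p f.2).2 < (p e.1).2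

end Pool.Agent.Lib.MP_be4430_lc
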