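import Pool.Agent.Lib.MP_634427_lc.Data

/-! # Polynomial time: more functions on lists, trees and numbers -/

namespace Pool.Agent.Lib.MP_be4430_lc

open MP_634427_lc

variable {α β γ : Type} [Enc α] [Enc β] [Enc γ]

theorem enc_nat_injective : Function.Injective (enc : ℕ → BT) := by
  intro m n h
  have h1 := congrArg BT.size h
  rwa [enc_nat, enc_nat, size_un, size_un] at h1

theorem enc_pair_injective (h1 : Function.Injective (enc : α → BT))
    (h2 : Function.Injective (enc : β → BT)) : Function.Injective (enc : α × β → BT) := by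
  rintro ⟨a, b⟩ ⟨a', b'⟩ h
  simp only [enc_pair, BT.node.injEq] at h
  rw [h1 h.1, h2 h.2]

theorem enc_BT_injective : Function.Injective (enc : BT → BT) := fun _ _ h => h

/-- equality test for trees -/
theorem pt_eqBT {f g : γ → BT} (hf : PT f) (hg : PT g) : PT fun c => decide (f c = g c) :=
  PT.eqDec enc_BT_injective hf hg

theorem pt_left {f : γ → BT} (hf : PT f) : PT fun c => (f c).left := by
  obtain ⟨F, hF, h⟩ := hf
  exact ⟨_, .comp .left hF, fun c => by rw [h]; rfl⟩

theorem pt_right {f : γ → BT} (hf : PT f) : PT fun c => (f c).right := by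
  obtain ⟨F, hF, h⟩ := hf
  exact ⟨_, .comp .right hF, fun c => by rw [h]; rfl⟩

private def P2x_toL : BT → List BT
  | .nil => []
  | .node a b => a :: P2x_toL b

private theorem P2x_enc_toL (t : BT) : enc (P2x_toL t) = t := by
  induction t with
  | nil => rfl
  | node a b _ ihb => rw [P2x_toL, enc_cons, ihb]; rfl

private theorem P2x_length_toL (t : BT) : (P2x_toL t).length = spine t := by
  induction t with
  | nil => rfl
  | node a b _ ihb => rw [P2x_toL, List.length_cons, ihb]; rfl

/-- a list of trees is the same tree as its code: the spine of a tree as a list -/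
theorem pt_spine {f : γ → BT} (hf : PT f) : PT fun c => spine (f c) := by
  have h1 : PT fun c => P2x_toL (f c) := by
    obtain ⟨F, hF, h⟩ := hf
    exact ⟨F, hF, fun c => by rw [h, P2x_enc_toL]; rfl⟩
  exact (PT.length h1).of_eq fun c => P2x_length_toL _

theorem pt_un {f : γ → ℕ} (hf : PT f) : PT fun c => un (f c) := by
  obtain ⟨F, hF, h⟩ := hf
  exact ⟨F, hF, fun c => by rw [h]; rfl⟩

end Pool.Agent.Lib.MP_be4430_lc
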