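import Pool.Agent.Lib.MP_be4430_lc.QSys
import Pool.Agent.Lib.MP_be4430_lc.P1_TreeRec
import Pool.Agent.Lib.MP_be4430_lc.P2_Lists

/-! # The system of a formula is computed in polynomial time -/

namespace Pool.Agent.Lib.MP_be4430_lc

open MP_634427_lc

variable {γ : Type} [Enc γ]

private lemma P4_eq (T : BT) : trec ([BT.nil] : List BT)
    (fun a b x y => BT.node a b :: (x ++ y)) T = subtrees T := by
  induction T with
  | nil => rfl
  | node a b iha ihb => simp only [trec, subtrees, iha, ihb]

private lemma P4_size (T : BT) : sz (subtrees T) ≤ (2 * T.size + 1) * (T.size + 1) := by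
  induction T with
  | nil => simp [subtrees]
  | node a b iha ihb =>
    simp only [subtrees, sz_cons, sz_append, sz_BT, BT.size_node]
    nlinarith [Nat.zero_le a.size, Nat.zero_le b.size]

theorem pt_subtrees {t : γ → BT} (ht : PT t) : PT fun c => subtrees (t c) := by
  have h := pt_treeRec (γ := γ) (σ := List BT) (s := fun _ => [BT.nil])
    (f := fun _ a b x y => BT.node a b :: (x ++ y)) (t := t) (PT.const _)
    (PT.cons (PT.pairBT (PT.fst' PT.snd) (PT.fst' (PT.snd' PT.snd)))
      (PT.append (PT.fst' (PT.snd' (PT.snd' PT.snd))) (PT.snd' (PT.snd' (PT.snd' PT.snd))))) ht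
    ⟨3, fun c T => by
      rw [P4_eq]
      refine (P4_size T).trans ?_
      have h1 : (2 * T.size + 1) * (T.size + 1) ≤ (T.size + 2) ^ 3 := by
        have : (T.size + 2) ^ 3 = (T.size + 2) * ((T.size + 2) * (T.size + 2)) := by ring
        rw [this]
        nlinarith [Nat.zero_le T.size]
      exact h1.trans (Nat.pow_le_pow_left (by omega) 3)⟩
  exact h.of_eq fun c => P4_eq (t c)

end Pool.Agent.Lib.MP_be4430_lc
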