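import Pool.Agent.Lib.MP_be4430_lc.GraphEnc

/-! # Polynomial time: constructors of vertices -/

namespace Pool.Agent.Lib.MP_be4430_lc

open MP_634427_lc

variable {γ : Type} [Enc γ]

private theorem P7_nat : Function.Injective (enc : ℕ → BT) := by
  intro a b h
  have h1 := congrArg BT.size h
  change sz a = sz b at h1
  rwa [sz_nat, sz_nat] at h1

private theorem P7_pair {α β : Type} [Enc α] [Enc β] (ha : Function.Injective (enc : α → BT))
    (hb : Function.Injective (enc : β → BT)) : Function.Injective (enc : α × β → BT) := by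
  rintro ⟨a, b⟩ ⟨a', b'⟩ h
  rw [enc_pair, enc_pair] at h
  injection h with h1 h2
  rw [ha h1, hb h2]

private theorem P7_N3 : Function.Injective (enc : ℕ × ℕ × ℕ → BT) :=
  P7_pair P7_nat (P7_pair P7_nat P7_nat)

private theorem P7_toN : Function.Injective Rct.toN := by
  intro C D h
  cases C <;> cases D <;> simp_all [Rct.toN]

theorem enc_Rct_injective : Function.Injective (enc : Rct → BT) :=
  fun _ _ h => P7_toN (P7_N3 h)

theorem enc_Vtx_injective : Function.Injective (enc : Vtx → BT) := by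
  intro v w h
  have h1 : v.toN = w.toN := P7_pair P7_nat (P7_pair P7_N3 P7_nat) h
  cases v <;> cases w <;> simp_all [Vtx.toN]
  all_goals exact P7_toN h1.1

private theorem P7_mkR {f : γ → Rct} (h : PT fun c => (f c).toN) : PT f := h

private theorem P7_unR {f : γ → Rct} (h : PT f) : PT fun c => (f c).toN := h

private theorem P7_mkV {f : γ → Vtx} (h : PT fun c => (f c).toN) : PT f := h

theorem pt_FL {g n : γ → ℕ} (hg : PT g) (hn : PT n) : PT fun c => Rct.FL (g c) (n c) :=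
  P7_mkR (PT.pair (PT.const 1) (PT.pair hg hn))
theorem pt_CO {g n : γ → ℕ} (hg : PT g) (hn : PT n) : PT fun c => Rct.CO (g c) (n c) :=
  P7_mkR (PT.pair (PT.const 2) (PT.pair hg hn))
theorem pt_FR {g n : γ → ℕ} (hg : PT g) (hn : PT n) : PT fun c => Rct.FR (g c) (n c) :=
  P7_mkR (PT.pair (PT.const 3) (PT.pair hg hn))
theorem pt_LK {g : γ → ℕ} (hg : PT g) : PT fun c => Rct.LK (g c) :=
  P7_mkR (PT.pair (PT.const 6) (PT.pair hg (PT.const 0)))

private theorem P7_V {g n : γ → ℕ} (k : ℕ) (hg : PT g) (hn : PT n) :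
    PT fun c => (k, ((0 : ℕ), g c, n c), (0 : ℕ)) :=
  PT.pair (PT.const k) (PT.pair (PT.pair (PT.const 0) (PT.pair hg hn)) (PT.const 0))

theorem pt_O {g : γ → ℕ} (hg : PT g) : PT fun c => Vtx.O (g c) :=
  P7_mkV (P7_V 0 hg (PT.const 0))
theorem pt_G {g : γ → ℕ} (hg : PT g) : PT fun c => Vtx.G (g c) :=
  P7_mkV (P7_V 1 hg (PT.const 0))
theorem pt_a {g : γ → ℕ} (hg : PT g) : PT fun c => Vtx.a (g c) :=
  P7_mkV (P7_V 2 hg (PT.const 0))
theorem pt_b {g : γ → ℕ} (hg : PT g) : PT fun c => Vtx.b (g c) :=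
  P7_mkV (P7_V 3 hg (PT.const 0))
theorem pt_c {g n : γ → ℕ} (hg : PT g) (hn : PT n) : PT fun c => Vtx.c (g c) (n c) :=
  P7_mkV (P7_V 4 hg hn)
theorem pt_d {g n : γ → ℕ} (hg : PT g) (hn : PT n) : PT fun c => Vtx.d (g c) (n c) :=
  P7_mkV (P7_V 5 hg hn)
theorem pt_s {g n : γ → ℕ} (hg : PT g) (hn : PT n) : PT fun c => Vtx.s (g c) (n c) :=
  P7_mkV (P7_V 6 hg hn)
theorem pt_r {g n : γ → ℕ} (hg : PT g) (hn : PT n) : PT fun c => Vtx.r (g c) (n c) :=
  P7_mkV (P7_V 7 hg hn)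
theorem pt_nn {C : γ → Rct} {j : γ → ℕ} (hC : PT C) (hj : PT j) :
    PT fun c => Vtx.nn (C c) (j c) :=
  P7_mkV (PT.pair (PT.const 8) (PT.pair (P7_unR hC) hj))
theorem pt_ww {C : γ → Rct} {j : γ → ℕ} (hC : PT C) (hj : PT j) :
    PT fun c => Vtx.ww (C c) (j c) :=
  P7_mkV (PT.pair (PT.const 9) (PT.pair (P7_unR hC) hj))

private theorem P7_tri {t : γ → ℕ × ℕ × ℕ} (ht : PT t) (i : ℕ) : PT fun c => tri (t c) i := by
  rcases i with _ | _ | i
  · exact PT.fst' ht
  · exact PT.fst' (PT.snd' ht)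
  · exact PT.snd' (PT.snd' ht)

private theorem P7_get {ts : γ → List Trp} {g : γ → ℕ} (ht : PT ts) (hg : PT g) :
    PT fun c => (ts c).getD (g c - 1) (((1, 2, 3), (3, 2, 1)) : Trp) :=
  PT.getLD (PT.sub hg (PT.const 1)) ht (PT.const _)

theorem pt_pp {ts : γ → List Trp} {g : γ → ℕ} (ht : PT ts) (hg : PT g) (i : ℕ) :
    PT fun c => pp (ts c) (g c) i :=
  P7_tri (PT.fst' (P7_get ht hg)) i

theorem pt_qq {ts : γ → List Trp} {g : γ → ℕ} (ht : PT ts) (hg : PT g) (i : ℕ) :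
    PT fun c => qq (ts c) (g c) i :=
  P7_tri (PT.snd' (P7_get ht hg)) i

end Pool.Agent.Lib.MP_be4430_lc
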