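import Pool.Agent.Lib.MP_be4430_lc.P7_VtxPT

/-! # Polynomial time: corners of the cells -/

namespace Pool.Agent.Lib.MP_be4430_lc

open MP_634427_lc

variable {γ : Type} [Enc γ]

/-- `Rct.toN` is the identity on codes -/
theorem pt_Rct_toN {C : γ → Rct} (hC : PT C) : PT fun c => (C c).toN := by
  obtain ⟨F, hF, h⟩ := hC
  exact ⟨F, hF, fun c => h c⟩

/-- like `pt_pp`, with the index computed -/
theorem pt_pp' {ts : γ → List Trp} {g i : γ → ℕ} (ht : PT ts) (hg : PT g) (hi : PT i) :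
    PT fun c => pp (ts c) (g c) (i c) := by
  have h := PT.ite (PT.eqNat hi (PT.const 0)) (pt_pp ht hg 0)
    (PT.ite (PT.eqNat hi (PT.const 1)) (pt_pp ht hg 1) (pt_pp ht hg 2))
  refine h.of_eq fun c => ?_
  rcases hh : i c with _ | _ | n <;> simp [pp, tri]

theorem pt_qq' {ts : γ → List Trp} {g i : γ → ℕ} (ht : PT ts) (hg : PT g) (hi : PT i) :
    PT fun c => qq (ts c) (g c) (i c) := by
  have h := PT.ite (PT.eqNat hi (PT.const 0)) (pt_qq ht hg 0)
    (PT.ite (PT.eqNat hi (PT.const 1)) (pt_qq ht hg 1) (pt_qq ht hg 2))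
  refine h.of_eq fun c => ?_
  rcases hh : i c with _ | _ | n <;> simp [qq, tri]

theorem pt_cv {ts : γ → List Trp} {C : γ → Rct} (ht : PT ts) (hC : PT C) :
    PT fun c => cv (ts c) (C c) := by
  have hN := pt_Rct_toN hC
  have hk : PT fun c => (C c).toN.1 := PT.fst' hN
  have hg : PT fun c => (C c).toN.2.1 := PT.fst' (PT.snd' hN)
  have hn : PT fun c => (C c).toN.2.2 := PT.snd' (PT.snd' hN)
  have h := PT.ite (PT.eqNat hk (PT.const 1)) (pt_c hg hn)
    (PT.ite (PT.eqNat hk (PT.const 2)) (pt_d hg (pt_pp' ht hg hn))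
      (PT.ite (PT.eqNat hk (PT.const 3)) (pt_s hg (PT.succ hn))
        (PT.ite (PT.eqNat hk (PT.const 6)) (pt_r (PT.sub hg (PT.const 1)) (PT.const 1))
          (PT.const (Vtx.O 0)))))
  refine h.of_eq fun c => ?_
  rcases hh : C c <;> simp [cv, Rct.toN]

theorem pt_ct {ts : γ → List Trp} {C : γ → Rct} (ht : PT ts) (hC : PT C) :
    PT fun c => ct (ts c) (C c) := by
  have hN := pt_Rct_toN hC
  have hk : PT fun c => (C c).toN.1 := PT.fst' hN
  have hg : PT fun c => (C c).toN.2.1 := PT.fst' (PT.snd' hN)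
  have hn : PT fun c => (C c).toN.2.2 := PT.snd' (PT.snd' hN)
  have h := PT.ite (PT.eqNat hk (PT.const 1)) (pt_d hg (PT.succ hn))
    (PT.ite (PT.eqNat hk (PT.const 2)) (pt_s hg (pt_qq' ht hg (PT.succ hn)))
      (PT.ite (PT.eqNat hk (PT.const 3)) (pt_r hg hn)
        (PT.ite (PT.eqNat hk (PT.const 6)) (pt_d hg (PT.const 1))
          (PT.const (Vtx.O 0)))))
  refine h.of_eq fun c => ?_
  rcases hh : C c <;> simp [ct, Rct.toN]

end Pool.Agent.Lib.MP_be4430_lc
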