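import Pool.Agent.Lib.MP_be4430_lc.P7a_CvCt

/-! # Polynomial time: the graph -/

namespace Pool.Agent.Lib.MP_be4430_lc

open MP_634427_lc

variable {γ : Type} [Enc γ]

private lemma P8_range' {n : γ → ℕ} (s : ℕ) (hn : PT n) : PT fun c => List.range' s (n c) := by
  have h := PT.map (f := fun (_ : γ) (i : ℕ) => s + i) (PT.range hn)
    (PT.add (PT.const s) PT.snd)
  exact h.of_eq fun c => (List.range'_eq_map_range).symm

theorem pt_cellsOf {m g : γ → ℕ} (hm : PT m) (hg : PT g) : PT fun c => cellsOf (m c) (g c) := by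
  have h1 : PT fun c => (List.range' 1 (m c - 1)).flatMap fun n => [Rct.FL (g c) n, Rct.FR (g c) n] :=
    PT.flatMap (f := fun (c : γ) (n : ℕ) => [Rct.FL (g c) n, Rct.FR (g c) n])
      (P8_range' 1 (PT.sub hm (PT.const 1)))
      (PT.cons (pt_FL (hg.comp PT.fst) PT.snd) (PT.cons (pt_FR (hg.comp PT.fst) PT.snd)
        (PT.const [])))
  exact PT.append h1 (PT.cons (pt_CO hg (PT.const 0)) (PT.cons (pt_CO hg (PT.const 1))
    (PT.cons (pt_LK hg) (PT.const []))))

theorem pt_gverts {m g : γ → ℕ} (hm : PT m) (hg : PT g) : PT fun c => gverts (m c) (g c) := by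
  have h1 : PT fun c => [Vtx.O (g c), Vtx.G (g c), Vtx.a (g c), Vtx.b (g c - 1)] :=
    PT.cons (pt_O hg) (PT.cons (pt_G hg) (PT.cons (pt_a hg)
      (PT.cons (pt_b (PT.sub hg (PT.const 1))) (PT.const []))))
  have h2 : PT fun c => (List.range' 1 (m c)).flatMap fun n =>
      [Vtx.c (g c) n, Vtx.d (g c) n, Vtx.s (g c) n, Vtx.r (g c) n] :=
    PT.flatMap (f := fun (c : γ) (n : ℕ) =>
        [Vtx.c (g c) n, Vtx.d (g c) n, Vtx.s (g c) n, Vtx.r (g c) n]) (P8_range' 1 hm)
      (PT.cons (pt_c (hg.comp PT.fst) PT.snd) (PT.cons (pt_d (hg.comp PT.fst) PT.snd)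
        (PT.cons (pt_s (hg.comp PT.fst) PT.snd) (PT.cons (pt_r (hg.comp PT.fst) PT.snd)
          (PT.const [])))))
  have h3 : PT fun p : γ × Rct => (List.range' 2 (m p.1 - 1)).flatMap fun j =>
      [Vtx.nn p.2 j, Vtx.ww p.2 j] :=
    PT.flatMap (f := fun (p : γ × Rct) (j : ℕ) => [Vtx.nn p.2 j, Vtx.ww p.2 j])
      (P8_range' 2 (PT.sub (hm.comp PT.fst) (PT.const 1)))
      (PT.cons (pt_nn (PT.snd.comp PT.fst) PT.snd) (PT.cons (pt_ww (PT.snd.comp PT.fst) PT.snd)
        (PT.const [])))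
  have h4 : PT fun c => (cellsOf (m c) (g c)).flatMap fun C =>
      (List.range' 2 (m c - 1)).flatMap fun j => [Vtx.nn C j, Vtx.ww C j] :=
    PT.flatMap (f := fun (c : γ) (C : Rct) => (List.range' 2 (m c - 1)).flatMap fun j =>
      [Vtx.nn C j, Vtx.ww C j]) (pt_cellsOf hm hg) h3
  exact PT.append (PT.append h1 h2) h4

theorem pt_verts {m : γ → ℕ} {ts : γ → List Trp} (hm : PT m) (ht : PT ts) :
    PT fun c => verts (m c) (ts c) := by
  have hl : PT fun c => (ts c).length := PT.length ht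
  have h1 : PT fun c => [Vtx.G 0, Vtx.O ((ts c).length + 1)] :=
    PT.cons (PT.const (Vtx.G 0)) (PT.cons (pt_O (PT.succ hl)) (PT.const []))
  have h2 : PT fun c => (List.range' 1 (m c)).map fun n => Vtx.r 0 n :=
    PT.map (f := fun (_ : γ) (n : ℕ) => Vtx.r 0 n) (P8_range' 1 hm) (pt_r (PT.const 0) PT.snd)
  have h3 : PT fun c => (List.range' 1 (ts c).length).flatMap fun g => gverts (m c) g :=
    PT.flatMap (f := fun (c : γ) (g : ℕ) => gverts (m c) g) (P8_range' 1 hl)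
      (pt_gverts (hm.comp PT.fst) PT.snd)
  exact PT.append (PT.append h1 h2) h3

end Pool.Agent.Lib.MP_be4430_lc
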