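import Pool.Agent.Lib.MP_be4430_lc.TBlock

/-!
# From formulas to quadruple systems: definitions

The names of the variables are pairs (syntax tree, index).  The variable `(T, 0)` is the value of
the term `T`, or the truth value (`0` or `1`) of the formula `T`; the other indices are auxiliary.
-/

namespace Pool.Agent.Lib.MP_be4430_lc

open MP_634427_lc

/-- names of variables -/
abbrev Nm := BT × ℕ

/-- quadruples of names -/
abbrev NQuad := Nm × Nm × Nm × Nm

/-- the name of the constant `1` -/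
def ONE : Nm := (.nil, 1)

/-- the name of the constant `0` -/
def ZZ : Nm := (.nil, 2)

def NHolds (y : Nm → ℚ) (c : NQuad) : Prop := y c.1 * y c.2.1 = y c.2.2.1 + y c.2.2.2

def NSat (cs : List NQuad) : Prop := ∃ y : Nm → ℚ, y ONE = 1 ∧ ∀ c ∈ cs, NHolds y c

/-- Constraints for the node `T = node tag payload`; for binary nodes the payload is `node s t`.
Write `τ = (T, 0)`.
* tag `0, 1`: `τ = 0`, `τ = 1`; tag `2` (variable): none; tag `3, 4`: `τ = s + t`, `τ = s t`;
* tag `5` (`s = t`): `d = (T,1) = s - t`, `τ d = 0`, `f = (T,3) = 1 - τ`, `d (T,2) = f`;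
* tag `6` (`s < t`): `d = (T,1) = t - s`, `f = (T,2) = 1 - τ`, `τ f = 0`, `g = (T,3) = τ - f`,
  `h = (T,4) = g d`, `h = a² + b² + c² + e²` with `a, b, c, e = (T,5), …, (T,8)`, their squares
  `(T,9), …, (T,12)` and the sums `(T,13), (T,14)`; `u = (T,16) = d (T,15)`, `w = (T,17) = u - 1`,
  `τ w = 0`;
* tag `7` (not): `τ = 1 - payload`; tag `8` (and): `τ = s t`; tag `9` (or): `(T,1) = 1 - τ`,
  `(T,2) = 1 - s`, `(T,3) = 1 - t`, `(T,2) (T,3) = (T,1)`. -/
def consOf (T : BT) : List NQuad :=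
  if T = .nil then [] else
  if T.left = un 0 then [((T, 0), ONE, ZZ, ZZ)] else
  if T.left = un 1 then [((T, 0), ONE, ONE, ZZ)] else
  if T.left = un 3 then [((T, 0), ONE, (T.right.left, 0), (T.right.right, 0))] else
  if T.left = un 4 then [((T.right.left, 0), (T.right.right, 0), (T, 0), ZZ)] else
  if T.left = un 5 then
    [((T.right.left, 0), ONE, (T.right.right, 0), (T, 1)), ((T, 0), (T, 1), ZZ, ZZ),
      (ONE, ONE, (T, 0), (T, 3)), ((T, 1), (T, 2), (T, 3), ZZ)] else
  if T.left = un 6 then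
    [((T.right.right, 0), ONE, (T.right.left, 0), (T, 1)), (ONE, ONE, (T, 0), (T, 2)),
      ((T, 0), (T, 2), ZZ, ZZ), ((T, 0), ONE, (T, 2), (T, 3)), ((T, 3), (T, 1), (T, 4), ZZ),
      ((T, 5), (T, 5), (T, 9), ZZ), ((T, 6), (T, 6), (T, 10), ZZ), ((T, 7), (T, 7), (T, 11), ZZ),
      ((T, 8), (T, 8), (T, 12), ZZ), ((T, 13), ONE, (T, 9), (T, 10)),
      ((T, 14), ONE, (T, 11), (T, 12)), ((T, 4), ONE, (T, 13), (T, 14)),
      ((T, 1), (T, 15), (T, 16), ZZ), ((T, 16), ONE, ONE, (T, 17)), ((T, 0), (T, 17), ZZ, ZZ)] else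
  if T.left = un 7 then [(ONE, ONE, (T, 0), (T.right, 0))] else
  if T.left = un 8 then [((T.right.left, 0), (T.right.right, 0), (T, 0), ZZ)] else
  if T.left = un 9 then
    [(ONE, ONE, (T, 0), (T, 1)), (ONE, ONE, (T.right.left, 0), (T, 2)),
      (ONE, ONE, (T.right.right, 0), (T, 3)), ((T, 2), (T, 3), (T, 1), ZZ)] else
  []

/-- all subtrees -/
def subtrees : BT → List BT
  | .nil => [.nil]
  | .node a b => .node a b :: (subtrees a ++ subtrees b)

/-- the system of the formula with syntax tree `T` -/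
def nsys (T : BT) : List NQuad :=
  [(ZZ, ONE, ZZ, ZZ), ((T, 0), ONE, ONE, ZZ)] ++ (subtrees T).flatMap consOf

/-- all names in a system, `ONE` first -/
def names (cs : List NQuad) : List Nm :=
  ONE :: cs.flatMap fun c => [c.1, c.2.1, c.2.2.1, c.2.2.2]

/-- the system with numbered variables; `ONE` gets the number `0` -/
def qsys (cs : List NQuad) : List Quad :=
  cs.map fun c => ((names cs).idxOf c.1, (names cs).idxOf c.2.1, (names cs).idxOf c.2.2.1,
    (names cs).idxOf c.2.2.2)

end Pool.Agent.Lib.MP_be4430_lc
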