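import Pool.Agent.Lib.MP_be4430_lc.Graph

/-!
# From quadruple systems to T-systems: definitions

A quadruple system is a list of quadruples `(i, j, k, l)`; it asks for rationals `y 0 = 1, y 1, …`
with `y i * y j = y k + y l` for all quadruples.

In the T-system, after normalising `X 1 = 0`, `X 2 = 1`, the constraint `addT a b c` means
`X a + X b = X c`, and `mulT a z b c` means `X c = X a * X b` if `X b = X z + 1`.  The variable
`y i` is represented by `X (VI i) - 2 * X (tauI i)`.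
-/

namespace Pool.Agent.Lib.MP_be4430_lc

/-- a constraint `y i * y j = y k + y l` -/
abbrev Quad := ℕ × ℕ × ℕ × ℕ

def QHolds (y : ℕ → ℚ) (c : Quad) : Prop := y c.1 * y c.2.1 = y c.2.2.1 + y c.2.2.2

def QSat (cs : List Quad) : Prop := ∃ y : ℕ → ℚ, y 0 = 1 ∧ ∀ c ∈ cs, QHolds y c

/-- all indices are smaller than `N` -/
def QBelow (N : ℕ) (cs : List Quad) : Prop :=
  ∀ c ∈ cs, c.1 < N ∧ c.2.1 < N ∧ c.2.2.1 < N ∧ c.2.2.2 < N

/-- `X a + X b = X c` (with `X 1 = 0`) -/
def addT (a b c : ℕ) : Trp := ((a, b, c), (b, a, 1))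

/-- `X c = X a * X b` provided `X b = X z + 1` (with `X 1 = 0`) -/
def mulT (a z b c : ℕ) : Trp := ((1, a, c), (b, z, 1))

/-- the index of `τ i` -/
def tauI (i : ℕ) : ℕ := if i = 0 then 3 else 4 + 2 * i

/-- the index of `V i = 2 τ i + y i` -/
def VI (i : ℕ) : ℕ := 5 + 2 * i

/-- the operands of a quadruple -/
def opd (c : Quad) : ℕ → ℕ
  | 0 => c.1
  | 1 => c.2.1
  | 2 => c.2.2.1
  | _ => c.2.2.2

/-- references: `(0, u)`: the `u`-th element of the block starting after `s`; `(1, j)`: `V` of the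
`j`-th operand; `(2, j)`: `τ` of the `j`-th operand; `(3, _)`: the element `2` (value `1`) -/
def refV (s : ℕ) (c : Quad) (r : ℕ × ℕ) : ℕ :=
  if r.1 = 0 then s + r.2 else if r.1 = 1 then VI (opd c r.2) else
    if r.1 = 2 then tauI (opd c r.2) else 2

/-- the additions of a block: `(r, b, c)` means `X r + X (s + b) = X (s + c)` -/
def ADDS : List ((ℕ × ℕ) × ℕ × ℕ) :=
  [((1, 0), 1, 2), ((0, 1), 2, 5), ((2, 0), 3, 4), ((2, 0), 4, 5),
    ((1, 1), 7, 8), ((0, 7), 8, 9), ((0, 7), 9, 13), ((2, 1), 11, 12), ((2, 1), 12, 13),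
    ((3, 0), 6, 7), ((3, 0), 10, 11),
    ((0, 14), 17, 18), ((0, 14), 18, 19), ((0, 14), 19, 20), ((0, 14), 20, 21),
    ((0, 14), 21, 22), ((0, 14), 22, 23),
    ((1, 2), 24, 25), ((0, 24), 25, 29), ((2, 2), 27, 28), ((2, 2), 28, 29),
    ((0, 23), 24, 26), ((0, 24), 26, 30),
    ((1, 3), 31, 32), ((0, 31), 32, 36), ((2, 3), 34, 35), ((2, 3), 35, 36),
    ((0, 30), 31, 33), ((0, 31), 33, 42),
    ((0, 16), 34, 37), ((0, 16), 37, 38), ((0, 15), 38, 39), ((0, 15), 39, 40),
    ((0, 15), 40, 41), ((0, 27), 41, 42)]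

/-- the multiplications of a block: `(a, z, b, c)` means `X (s+c) = X (s+a) * X (s+b)` where
`X (s+b) = X (s+z) + 1` -/
def MULS : List (ℕ × ℕ × ℕ × ℕ) := [(1, 6, 7, 14), (3, 6, 7, 15), (1, 10, 11, 16), (3, 10, 11, 17)]

/-- the block (42 new elements after the element `s`) of a quadruple -/
def block (s : ℕ) (c : Quad) : List Trp :=
  (ADDS.map fun e => addT (refV s c e.1) (s + e.2.1) (s + e.2.2)) ++
    MULS.map fun e => mulT (s + e.1) (s + e.2.1) (s + e.2.2.1) (s + e.2.2.2)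

/-- start of the `r`-th block, `N` = number of variables -/
def bst (N r : ℕ) : ℕ := 3 + 2 * N + 42 * r

/-- the constraints of the T-system -/
def tcons (N : ℕ) (cs : List Quad) : List Trp :=
  [addT 2 3 4, addT 3 4 5] ++
    (List.range cs.length).flatMap fun r => block (bst N r) (cs.getD r (0, 0, 0, 0))

/-- the T-system of a quadruple system with the variables `y 0, …, y (N-1)` -/
def tsys (N : ℕ) (cs : List Quad) : ℕ × List Trp := (bst N cs.length, tcons N cs)

/-- normalised solutions of (a part of) the T-system -/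
structure Norm (X : ℕ → ℚ) (m : ℕ) : Prop where
  x1 : X 1 = 0
  x2 : X 2 = 1
  inc : ∀ n, 1 ≤ n → n < m → X n < X (n + 1)

end Pool.Agent.Lib.MP_be4430_lc
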